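import Pool.Agent.Helper22.E6L.G00
import Pool.Agent.Helper22.E6L.G01
import Pool.Agent.Helper22.E6L.G02
import Pool.Agent.Helper22.E6L.G03
import Pool.Agent.Helper22.E6L.G04
import Pool.Agent.Helper22.E6L.G05
import Pool.Agent.Helper22.E6L.G06
import Pool.Agent.Helper22.E6L.G07
import Pool.Agent.Helper22.E6L.G08
import Pool.Agent.Helper22.E6L.G09
import Pool.Agent.Helper22.E6L.G10
import Pool.Agent.Helper22.E6L.G11
import Pool.Agent.Helper22.E6L.G12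
import Pool.Agent.Helper22.E6L.G13
import Pool.Agent.Helper22.E6L.G14
import Pool.Agent.Helper22.E6L.G15
import Pool.Agent.Helper22.E6L.G16
import Pool.Agent.Helper22.E6L.G17
import Pool.Agent.Helper22.E6L.G18
import Pool.Agent.Helper22.E6L.G19

set_option autoImplicit false

/-! # The exceptional cases by germ certificates (helper22), MP_e6aa12_ag -/

namespace Pool.Agent.Helper22.E6L

open Pool.Agent.Helper22.E6

variable {K : Type*} [Field K]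

theorem case_10_6_19 [Infinite K] : Case K 10 6 19 := by
  by_cases h : ((330 : ℕ) : K) = 0
  · have h1 : ((55 * 2 * 3 : ℕ) : K) = 0 := cast_zero_of_dvd 1 (by norm_num) h
    rw [Nat.cast_mul, mul_eq_zero] at h1
    rcases h1 with h1 | h1
    on_goal 2 => exact case_of_pathM 10 6 19 _ _ _ _ path_10_6_d (good_of_etaM _ _ _ _ _ _ _ _ _ _ _ _ _ _ _ _ eta_10_6_d h1 (by simp))
    rw [Nat.cast_mul, mul_eq_zero] at h1
    rcases h1 with h1 | h1
    on_goal 2 => exact case_of_pathM 10 6 19 _ _ _ _ path_10_6_c (good_of_etaM _ _ _ _ _ _ _ _ _ _ _ _ _ _ _ _ eta_10_6_c h1 (by simp))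
    exact case_of_pathM 10 6 19 _ _ _ _ path_10_6_b (good_of_etaM _ _ _ _ _ _ _ _ _ _ _ _ _ _ _ _ eta_10_6_b h1 (by simp))
  · exact case_of_pathM 10 6 19 _ _ _ _ path_10_6_a (good_of_etaM _ _ _ _ _ _ _ _ _ _ _ _ _ _ _ _ eta_10_6_a (by simp) h)

theorem case_12_6_21 [Infinite K] : Case K 12 6 21 := by
  by_cases h : ((96 : ℕ) : K) = 0
  · have h1 : ((6 : ℕ) : K) = 0 := cast_zero_of_dvd 5 (by norm_num) h
    exact case_of_pathM 12 6 21 _ _ _ _ path_12_6_b (good_of_etaM _ _ _ _ _ _ _ _ _ _ _ _ _ _ _ _ eta_12_6_b h1 (by simp))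
  · exact case_of_pathM 12 6 21 _ _ _ _ path_12_6_a (good_of_etaM _ _ _ _ _ _ _ _ _ _ _ _ _ _ _ _ eta_12_6_a (by simp) h)

theorem case_14_9_34 [Infinite K] : Case K 14 9 34 := by
  by_cases h : ((13119750 : ℕ) : K) = 0
  · have h1 : ((1785 * 2 : ℕ) : K) = 0 := cast_zero_of_dvd 3 (by norm_num) h
    rw [Nat.cast_mul, mul_eq_zero] at h1
    rcases h1 with h1 | h1
    on_goal 2 => exact case_of_pathM 14 9 34 _ _ _ _ path_14_9_c (good_of_etaM _ _ _ _ _ _ _ _ _ _ _ _ _ _ _ _ eta_14_9_c h1 (by simp))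
    exact case_of_pathM 14 9 34 _ _ _ _ path_14_9_b (good_of_etaM _ _ _ _ _ _ _ _ _ _ _ _ _ _ _ _ eta_14_9_b h1 (by simp))
  · exact case_of_pathM 14 9 34 _ _ _ _ path_14_9_a (good_of_etaM _ _ _ _ _ _ _ _ _ _ _ _ _ _ _ _ eta_14_9_a (by simp) h)

theorem case_21_9_42 [Infinite K] : Case K 21 9 42 := by
  by_cases h : ((2 : ℕ) : K) = 0
  · have h1 : ((2 : ℕ) : K) = 0 := cast_zero_of_dvd 1 (by norm_num) h
    exact case_of_pathM 21 9 42 _ _ _ _ path_21_9_b (good_of_etaM _ _ _ _ _ _ _ _ _ _ _ _ _ _ _ _ eta_21_9_b h1 (by simp))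
  · exact case_of_pathM 21 9 42 _ _ _ _ path_21_9_a (good_of_etaM _ _ _ _ _ _ _ _ _ _ _ _ _ _ _ _ eta_21_9_a (by simp) h)

theorem case_23_9_44 [Infinite K] : Case K 23 9 44 := by
  by_cases h : ((12 : ℕ) : K) = 0
  · have h1 : ((6 : ℕ) : K) = 0 := cast_zero_of_dvd 2 (by norm_num) h
    exact case_of_pathM 23 9 44 _ _ _ _ path_23_9_b (good_of_etaM _ _ _ _ _ _ _ _ _ _ _ _ _ _ _ _ eta_23_9_b h1 (by simp))
  · exact case_of_pathM 23 9 44 _ _ _ _ path_23_9_a (good_of_etaM _ _ _ _ _ _ _ _ _ _ _ _ _ _ _ _ eta_23_9_a (by simp) h)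

theorem case_15_11_43 [Infinite K] : Case K 15 11 43 := by
  by_cases h : ((41990 : ℕ) : K) = 0
  · have h1 : ((20995 * 2 : ℕ) : K) = 0 := cast_zero_of_dvd 1 (by norm_num) h
    rw [Nat.cast_mul, mul_eq_zero] at h1
    rcases h1 with h1 | h1
    on_goal 2 => exact case_of_pathM 15 11 43 _ _ _ _ path_15_11_c (good_of_etaM _ _ _ _ _ _ _ _ _ _ _ _ _ _ _ _ eta_15_11_c h1 (by simp))
    exact case_of_pathM 15 11 43 _ _ _ _ path_15_11_b (good_of_etaM _ _ _ _ _ _ _ _ _ _ _ _ _ _ _ _ eta_15_11_b h1 (by simp))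
  · exact case_of_pathM 15 11 43 _ _ _ _ path_15_11_a (good_of_etaM _ _ _ _ _ _ _ _ _ _ _ _ _ _ _ _ eta_15_11_a (by simp) h)

theorem case_10_12_38 [Infinite K] : Case K 10 12 38 := by
  by_cases h : ((596755849306617000 : ℕ) : K) = 0
  · have h1 : ((4305597758345 * 2 * 3 * 7 * 11 : ℕ) : K) = 0 := cast_zero_of_dvd 3 (by norm_num) h
    rw [Nat.cast_mul, mul_eq_zero] at h1
    rcases h1 with h1 | h1
    on_goal 2 => exact case_of_pathM 10 12 38 _ _ _ _ path_10_12_f (good_of_etaM _ _ _ _ _ _ _ _ _ _ _ _ _ _ _ _ eta_10_12_f h1 (by simp))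
    rw [Nat.cast_mul, mul_eq_zero] at h1
    rcases h1 with h1 | h1
    on_goal 2 => exact case_of_pathM 10 12 38 _ _ _ _ path_10_12_e (good_of_etaM _ _ _ _ _ _ _ _ _ _ _ _ _ _ _ _ eta_10_12_e h1 (by simp))
    rw [Nat.cast_mul, mul_eq_zero] at h1
    rcases h1 with h1 | h1
    on_goal 2 => exact case_of_pathM 10 12 38 _ _ _ _ path_10_12_d (good_of_etaM _ _ _ _ _ _ _ _ _ _ _ _ _ _ _ _ eta_10_12_d h1 (by simp))
    rw [Nat.cast_mul, mul_eq_zero] at h1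
    rcases h1 with h1 | h1
    on_goal 2 => exact case_of_pathM 10 12 38 _ _ _ _ path_10_12_c (good_of_etaM _ _ _ _ _ _ _ _ _ _ _ _ _ _ _ _ eta_10_12_c h1 (by simp))
    exact case_of_pathM 10 12 38 _ _ _ _ path_10_12_b (good_of_etaM _ _ _ _ _ _ _ _ _ _ _ _ _ _ _ _ eta_10_12_b h1 (by simp))
  · exact case_of_pathM 10 12 38 _ _ _ _ path_10_12_a (good_of_etaM _ _ _ _ _ _ _ _ _ _ _ _ _ _ _ _ eta_10_12_a (by simp) h)

theorem case_14_12_45 [Infinite K] : Case K 14 12 45 := by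
  by_cases h : ((10528071840 : ℕ) : K) = 0
  · have h1 : ((36555805 * 2 * 3 : ℕ) : K) = 0 := cast_zero_of_dvd 5 (by norm_num) h
    rw [Nat.cast_mul, mul_eq_zero] at h1
    rcases h1 with h1 | h1
    on_goal 2 => exact case_of_pathM 14 12 45 _ _ _ _ path_14_12_d (shrinkL _ _ shr_14_12_d (good_of_etaM _ _ _ _ _ _ _ _ _ _ _ _ _ _ _ _ eta_14_12_d h1 (by simp)))
    rw [Nat.cast_mul, mul_eq_zero] at h1
    rcases h1 with h1 | h1
    on_goal 2 => exact case_of_pathM 14 12 45 _ _ _ _ path_14_12_c (shrinkL _ _ shr_14_12_c (good_of_etaM _ _ _ _ _ _ _ _ _ _ _ _ _ _ _ _ eta_14_12_c h1 (by simp)))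
    exact case_of_pathM 14 12 45 _ _ _ _ path_14_12_b (shrinkL _ _ shr_14_12_b (good_of_etaM _ _ _ _ _ _ _ _ _ _ _ _ _ _ _ _ eta_14_12_b h1 (by simp)))
  · exact case_of_pathM 14 12 45 _ _ _ _ path_14_12_a (shrinkL _ _ shr_14_12_a (good_of_etaM _ _ _ _ _ _ _ _ _ _ _ _ _ _ _ _ eta_14_12_a (by simp) h))

theorem case_12_13_45 [Infinite K] : Case K 12 13 45 := by
  by_cases h : ((99306613365960 : ℕ) : K) = 0
  · have h1 : ((229583 * 277277 * 5 * 2 * 3 : ℕ) : K) = 0 := cast_zero_of_dvd 3 (by norm_num) h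
    rw [Nat.cast_mul, mul_eq_zero] at h1
    rcases h1 with h1 | h1
    on_goal 2 => exact case_of_pathM 12 13 45 _ _ _ _ path_12_13_f (shrinkL _ _ shr_12_13_f (good_of_etaM _ _ _ _ _ _ _ _ _ _ _ _ _ _ _ _ eta_12_13_f h1 (by simp)))
    rw [Nat.cast_mul, mul_eq_zero] at h1
    rcases h1 with h1 | h1
    on_goal 2 => exact case_of_pathM 12 13 45 _ _ _ _ path_12_13_e (shrinkL _ _ shr_12_13_e (good_of_etaM _ _ _ _ _ _ _ _ _ _ _ _ _ _ _ _ eta_12_13_e h1 (by simp)))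
    rw [Nat.cast_mul, mul_eq_zero] at h1
    rcases h1 with h1 | h1
    on_goal 2 => exact case_of_pathM 12 13 45 _ _ _ _ path_12_13_d (shrinkL _ _ shr_12_13_d (good_of_etaM _ _ _ _ _ _ _ _ _ _ _ _ _ _ _ _ eta_12_13_d h1 (by simp)))
    rw [Nat.cast_mul, mul_eq_zero] at h1
    rcases h1 with h1 | h1
    on_goal 2 => exact case_of_pathM 12 13 45 _ _ _ _ path_12_13_c (shrinkL _ _ shr_12_13_c (good_of_etaM _ _ _ _ _ _ _ _ _ _ _ _ _ _ _ _ eta_12_13_c h1 (by simp)))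
    exact case_of_pathM 12 13 45 _ _ _ _ path_12_13_b (shrinkL _ _ shr_12_13_b (good_of_etaM _ _ _ _ _ _ _ _ _ _ _ _ _ _ _ _ eta_12_13_b h1 (by simp)))
  · exact case_of_pathM 12 13 45 _ _ _ _ path_12_13_a (shrinkL _ _ shr_12_13_a (good_of_etaM _ _ _ _ _ _ _ _ _ _ _ _ _ _ _ _ eta_12_13_a (by simp) h))

theorem case_14_13_49 [Infinite K] : Case K 14 13 49 := by
  by_cases h : ((19967435028 : ℕ) : K) = 0
  · have h1 : ((1663952919 * 2 : ℕ) : K) = 0 := cast_zero_of_dvd 2 (by norm_num) h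
    rw [Nat.cast_mul, mul_eq_zero] at h1
    rcases h1 with h1 | h1
    on_goal 2 => exact case_of_pathM 14 13 49 _ _ _ _ path_14_13_c (good_of_etaM _ _ _ _ _ _ _ _ _ _ _ _ _ _ _ _ eta_14_13_c h1 (by simp))
    exact case_of_pathM 14 13 49 _ _ _ _ path_14_13_b (good_of_etaM _ _ _ _ _ _ _ _ _ _ _ _ _ _ _ _ eta_14_13_b h1 (by simp))
  · exact case_of_pathM 14 13 49 _ _ _ _ path_14_13_a (good_of_etaM _ _ _ _ _ _ _ _ _ _ _ _ _ _ _ _ eta_14_13_a (by simp) h)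

theorem case_23_14_68 [Infinite K] : Case K 23 14 68 := by
  by_cases h : ((48048 : ℕ) : K) = 0
  · have h1 : ((3003 * 2 : ℕ) : K) = 0 := cast_zero_of_dvd 4 (by norm_num) h
    rw [Nat.cast_mul, mul_eq_zero] at h1
    rcases h1 with h1 | h1
    on_goal 2 => exact case_of_pathM 23 14 68 _ _ _ _ path_23_14_c (good_of_etaM _ _ _ _ _ _ _ _ _ _ _ _ _ _ _ _ eta_23_14_c h1 (by simp))
    exact case_of_pathM 23 14 68 _ _ _ _ path_23_14_b (good_of_etaM _ _ _ _ _ _ _ _ _ _ _ _ _ _ _ _ eta_23_14_b h1 (by simp))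
  · exact case_of_pathM 23 14 68 _ _ _ _ path_23_14_a (good_of_etaM _ _ _ _ _ _ _ _ _ _ _ _ _ _ _ _ eta_23_14_a (by simp) h)

theorem case_171_14_188 [Infinite K] : Case K 171 14 188 := by
  by_cases h : ((24024 : ℕ) : K) = 0
  · have h1 : ((2 * 3 * 7 * 11 * 13 : ℕ) : K) = 0 := cast_zero_of_dvd 3 (by norm_num) h
    rw [Nat.cast_mul, mul_eq_zero] at h1
    rcases h1 with h1 | h1
    on_goal 2 => exact case_of_pathM 171 14 188 _ _ _ _ path_171_14_f (good_of_etaM _ _ _ _ _ _ _ _ _ _ _ _ _ _ _ _ eta_171_14_f h1 (by simp))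
    rw [Nat.cast_mul, mul_eq_zero] at h1
    rcases h1 with h1 | h1
    on_goal 2 => exact case_of_pathM 171 14 188 _ _ _ _ path_171_14_e (good_of_etaM _ _ _ _ _ _ _ _ _ _ _ _ _ _ _ _ eta_171_14_e h1 (by simp))
    rw [Nat.cast_mul, mul_eq_zero] at h1
    rcases h1 with h1 | h1
    on_goal 2 => exact case_of_pathM 171 14 188 _ _ _ _ path_171_14_d (good_of_etaM _ _ _ _ _ _ _ _ _ _ _ _ _ _ _ _ eta_171_14_d h1 (by simp))
    rw [Nat.cast_mul, mul_eq_zero] at h1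
    rcases h1 with h1 | h1
    on_goal 2 => exact case_of_pathM 171 14 188 _ _ _ _ path_171_14_c (good_of_etaM _ _ _ _ _ _ _ _ _ _ _ _ _ _ _ _ eta_171_14_c h1 (by simp))
    exact case_of_pathM 171 14 188 _ _ _ _ path_171_14_b (good_of_etaM _ _ _ _ _ _ _ _ _ _ _ _ _ _ _ _ eta_171_14_b h1 (by simp))
  · exact case_of_pathM 171 14 188 _ _ _ _ path_171_14_a (good_of_etaM _ _ _ _ _ _ _ _ _ _ _ _ _ _ _ _ eta_171_14_a (by simp) h)

theorem case_19_15_66 [Infinite K] : Case K 19 15 66 := by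
  by_cases h : ((9215912760 : ℕ) : K) = 0
  · have h1 : ((767992730 * 3 : ℕ) : K) = 0 := cast_zero_of_dvd 3 (by norm_num) h
    rw [Nat.cast_mul, mul_eq_zero] at h1
    rcases h1 with h1 | h1
    on_goal 2 => exact case_of_pathM 19 15 66 _ _ _ _ path_19_15_c (shrinkL _ _ shr_19_15_c (good_of_etaM _ _ _ _ _ _ _ _ _ _ _ _ _ _ _ _ eta_19_15_c h1 (by simp)))
    exact case_of_pathM 19 15 66 _ _ _ _ path_19_15_b (shrinkL _ _ shr_19_15_b (good_of_etaM _ _ _ _ _ _ _ _ _ _ _ _ _ _ _ _ eta_19_15_b h1 (by simp)))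
  · exact case_of_pathM 19 15 66 _ _ _ _ path_19_15_a (shrinkL _ _ shr_19_15_a (good_of_etaM _ _ _ _ _ _ _ _ _ _ _ _ _ _ _ _ eta_19_15_a (by simp) h))

theorem case_13_16_58 [Infinite K] : Case K 13 16 58 := by
  by_cases h : ((130820824391400 : ℕ) : K) = 0
  · have h1 : ((169413137 * 715 * 2 * 3 : ℕ) : K) = 0 := cast_zero_of_dvd 3 (by norm_num) h
    rw [Nat.cast_mul, mul_eq_zero] at h1
    rcases h1 with h1 | h1
    on_goal 2 => exact case_of_pathM 13 16 58 _ _ _ _ path_13_16_e (good_of_etaM _ _ _ _ _ _ _ _ _ _ _ _ _ _ _ _ eta_13_16_e h1 (by simp))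
    rw [Nat.cast_mul, mul_eq_zero] at h1
    rcases h1 with h1 | h1
    on_goal 2 => exact case_of_pathM 13 16 58 _ _ _ _ path_13_16_d (good_of_etaM _ _ _ _ _ _ _ _ _ _ _ _ _ _ _ _ eta_13_16_d h1 (by simp))
    rw [Nat.cast_mul, mul_eq_zero] at h1
    rcases h1 with h1 | h1
    on_goal 2 => exact case_of_pathM 13 16 58 _ _ _ _ path_13_16_c (good_of_etaM _ _ _ _ _ _ _ _ _ _ _ _ _ _ _ _ eta_13_16_c h1 (by simp))
    exact case_of_pathM 13 16 58 _ _ _ _ path_13_16_b (good_of_etaM _ _ _ _ _ _ _ _ _ _ _ _ _ _ _ _ eta_13_16_b h1 (by simp))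
  · exact case_of_pathM 13 16 58 _ _ _ _ path_13_16_a (good_of_etaM _ _ _ _ _ _ _ _ _ _ _ _ _ _ _ _ eta_13_16_a (by simp) h)

theorem case_12_17_59 [Infinite K] : Case K 12 17 59 := by
  by_cases h : ((22369920361772328719640 : ℕ) : K) = 0
  · have h1 : ((2958984174837609619 * 35 * 2 * 3 : ℕ) : K) = 0 := cast_zero_of_dvd 3 (by norm_num) h
    rw [Nat.cast_mul, mul_eq_zero] at h1
    rcases h1 with h1 | h1
    on_goal 2 => exact case_of_pathM 12 17 59 _ _ _ _ path_12_17_e (shrinkL _ _ shr_12_17_e (good_of_etaM _ _ _ _ _ _ _ _ _ _ _ _ _ _ _ _ eta_12_17_e h1 (by simp)))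
    rw [Nat.cast_mul, mul_eq_zero] at h1
    rcases h1 with h1 | h1
    on_goal 2 => exact case_of_pathM 12 17 59 _ _ _ _ path_12_17_d (shrinkL _ _ shr_12_17_d (good_of_etaM _ _ _ _ _ _ _ _ _ _ _ _ _ _ _ _ eta_12_17_d h1 (by simp)))
    rw [Nat.cast_mul, mul_eq_zero] at h1
    rcases h1 with h1 | h1
    on_goal 2 => exact case_of_pathM 12 17 59 _ _ _ _ path_12_17_c (shrinkL _ _ shr_12_17_c (good_of_etaM _ _ _ _ _ _ _ _ _ _ _ _ _ _ _ _ eta_12_17_c h1 (by simp)))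
    exact case_of_pathM 12 17 59 _ _ _ _ path_12_17_b (shrinkL _ _ shr_12_17_b (good_of_etaM _ _ _ _ _ _ _ _ _ _ _ _ _ _ _ _ eta_12_17_b h1 (by simp)))
  · exact case_of_pathM 12 17 59 _ _ _ _ path_12_17_a (shrinkL _ _ shr_12_17_a (good_of_etaM _ _ _ _ _ _ _ _ _ _ _ _ _ _ _ _ eta_12_17_a (by simp) h))

theorem case_14_17_64 [Infinite K] : Case K 14 17 64 := by
  by_cases h : ((1952400 : ℕ) : K) = 0
  · have h1 : ((8135 * 2 * 3 : ℕ) : K) = 0 := cast_zero_of_dvd 4 (by norm_num) h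
    rw [Nat.cast_mul, mul_eq_zero] at h1
    rcases h1 with h1 | h1
    on_goal 2 => exact case_of_pathM 14 17 64 _ _ _ _ path_14_17_d (good_of_etaM _ _ _ _ _ _ _ _ _ _ _ _ _ _ _ _ eta_14_17_d h1 (by simp))
    rw [Nat.cast_mul, mul_eq_zero] at h1
    rcases h1 with h1 | h1
    on_goal 2 => exact case_of_pathM 14 17 64 _ _ _ _ path_14_17_c (good_of_etaM _ _ _ _ _ _ _ _ _ _ _ _ _ _ _ _ eta_14_17_c h1 (by simp))
    exact case_of_pathM 14 17 64 _ _ _ _ path_14_17_b (good_of_etaM _ _ _ _ _ _ _ _ _ _ _ _ _ _ _ _ eta_14_17_b h1 (by simp))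
  · exact case_of_pathM 14 17 64 _ _ _ _ path_14_17_a (good_of_etaM _ _ _ _ _ _ _ _ _ _ _ _ _ _ _ _ eta_14_17_a (by simp) h)

theorem case_28_17_91 [Infinite K] : Case K 28 17 91 := by
  by_cases h : ((30282472440588110960 : ℕ) : K) = 0
  · have h1 : ((187113645826669 * 5 * 7 * 17 * 2 : ℕ) : K) = 0 := cast_zero_of_dvd 4 (by norm_num) h
    rw [Nat.cast_mul, mul_eq_zero] at h1
    rcases h1 with h1 | h1
    on_goal 2 => exact case_of_pathM 28 17 91 _ _ _ _ path_28_17_f (shrinkL _ _ shr_28_17_f (good_of_etaM _ _ _ _ _ _ _ _ _ _ _ _ _ _ _ _ eta_28_17_f h1 (by simp)))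
    rw [Nat.cast_mul, mul_eq_zero] at h1
    rcases h1 with h1 | h1
    on_goal 2 => exact case_of_pathM 28 17 91 _ _ _ _ path_28_17_e (shrinkL _ _ shr_28_17_e (good_of_etaM _ _ _ _ _ _ _ _ _ _ _ _ _ _ _ _ eta_28_17_e h1 (by simp)))
    rw [Nat.cast_mul, mul_eq_zero] at h1
    rcases h1 with h1 | h1
    on_goal 2 => exact case_of_pathM 28 17 91 _ _ _ _ path_28_17_d (shrinkL _ _ shr_28_17_d (good_of_etaM _ _ _ _ _ _ _ _ _ _ _ _ _ _ _ _ eta_28_17_d h1 (by simp)))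
    rw [Nat.cast_mul, mul_eq_zero] at h1
    rcases h1 with h1 | h1
    on_goal 2 => exact case_of_pathM 28 17 91 _ _ _ _ path_28_17_c (shrinkL _ _ shr_28_17_c (good_of_etaM _ _ _ _ _ _ _ _ _ _ _ _ _ _ _ _ eta_28_17_c h1 (by simp)))
    exact case_of_pathM 28 17 91 _ _ _ _ path_28_17_b (shrinkL _ _ shr_28_17_b (good_of_etaM _ _ _ _ _ _ _ _ _ _ _ _ _ _ _ _ eta_28_17_b h1 (by simp)))
  · exact case_of_pathM 28 17 91 _ _ _ _ path_28_17_a (shrinkL _ _ shr_28_17_a (good_of_etaM _ _ _ _ _ _ _ _ _ _ _ _ _ _ _ _ eta_28_17_a (by simp) h))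

theorem case_35_17_102 [Infinite K] : Case K 35 17 102 := by
  by_cases h : ((364 : ℕ) : K) = 0
  · have h1 : ((182 : ℕ) : K) = 0 := cast_zero_of_dvd 2 (by norm_num) h
    exact case_of_pathM 35 17 102 _ _ _ _ path_35_17_b (good_of_etaM _ _ _ _ _ _ _ _ _ _ _ _ _ _ _ _ eta_35_17_b h1 (by simp))
  · exact case_of_pathM 35 17 102 _ _ _ _ path_35_17_a (good_of_etaM _ _ _ _ _ _ _ _ _ _ _ _ _ _ _ _ eta_35_17_a (by simp) h)

theorem case_77_17_152 [Infinite K] : Case K 77 17 152 := by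
  by_cases h : ((55974120685282800 : ℕ) : K) = 0
  · have h1 : ((1611457 * 34 * 3 * 5 * 77 * 13 : ℕ) : K) = 0 := cast_zero_of_dvd 6 (by norm_num) h
    rw [Nat.cast_mul, mul_eq_zero] at h1
    rcases h1 with h1 | h1
    on_goal 2 => exact case_of_pathM 77 17 152 _ _ _ _ path_77_17_g (good_of_etaM _ _ _ _ _ _ _ _ _ _ _ _ _ _ _ _ eta_77_17_g h1 (by simp))
    rw [Nat.cast_mul, mul_eq_zero] at h1
    rcases h1 with h1 | h1
    on_goal 2 => exact case_of_pathM 77 17 152 _ _ _ _ path_77_17_f (good_of_etaM _ _ _ _ _ _ _ _ _ _ _ _ _ _ _ _ eta_77_17_f h1 (by simp))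
    rw [Nat.cast_mul, mul_eq_zero] at h1
    rcases h1 with h1 | h1
    on_goal 2 => exact case_of_pathM 77 17 152 _ _ _ _ path_77_17_e (good_of_etaM _ _ _ _ _ _ _ _ _ _ _ _ _ _ _ _ eta_77_17_e h1 (by simp))
    rw [Nat.cast_mul, mul_eq_zero] at h1
    rcases h1 with h1 | h1
    on_goal 2 => exact case_of_pathM 77 17 152 _ _ _ _ path_77_17_d (good_of_etaM _ _ _ _ _ _ _ _ _ _ _ _ _ _ _ _ eta_77_17_d h1 (by simp))
    rw [Nat.cast_mul, mul_eq_zero] at h1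
    rcases h1 with h1 | h1
    on_goal 2 => exact case_of_pathM 77 17 152 _ _ _ _ path_77_17_c (good_of_etaM _ _ _ _ _ _ _ _ _ _ _ _ _ _ _ _ eta_77_17_c h1 (by simp))
    exact case_of_pathM 77 17 152 _ _ _ _ path_77_17_b (good_of_etaM _ _ _ _ _ _ _ _ _ _ _ _ _ _ _ _ eta_77_17_b h1 (by simp))
  · exact case_of_pathM 77 17 152 _ _ _ _ path_77_17_a (good_of_etaM _ _ _ _ _ _ _ _ _ _ _ _ _ _ _ _ eta_77_17_a (by simp) h)

theorem case_79_17_154 [Infinite K] : Case K 79 17 154 := by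
  by_cases h : ((302166276273884262240000 : ℕ) : K) = 0
  · have h1 : ((33045519169 * 17 * 7 * 2 * 3 * 5 * 11 : ℕ) : K) = 0 := cast_zero_of_dvd 8 (by norm_num) h
    rw [Nat.cast_mul, mul_eq_zero] at h1
    rcases h1 with h1 | h1
    on_goal 2 => exact case_of_pathM 79 17 154 _ _ _ _ path_79_17_h (good_of_etaM _ _ _ _ _ _ _ _ _ _ _ _ _ _ _ _ eta_79_17_h h1 (by simp))
    rw [Nat.cast_mul, mul_eq_zero] at h1
    rcases h1 with h1 | h1
    on_goal 2 => exact case_of_pathM 79 17 154 _ _ _ _ path_79_17_g (good_of_etaM _ _ _ _ _ _ _ _ _ _ _ _ _ _ _ _ eta_79_17_g h1 (by simp))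
    rw [Nat.cast_mul, mul_eq_zero] at h1
    rcases h1 with h1 | h1
    on_goal 2 => exact case_of_pathM 79 17 154 _ _ _ _ path_79_17_f (good_of_etaM _ _ _ _ _ _ _ _ _ _ _ _ _ _ _ _ eta_79_17_f h1 (by simp))
    rw [Nat.cast_mul, mul_eq_zero] at h1
    rcases h1 with h1 | h1
    on_goal 2 => exact case_of_pathM 79 17 154 _ _ _ _ path_79_17_e (good_of_etaM _ _ _ _ _ _ _ _ _ _ _ _ _ _ _ _ eta_79_17_e h1 (by simp))
    rw [Nat.cast_mul, mul_eq_zero] at h1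
    rcases h1 with h1 | h1
    on_goal 2 => exact case_of_pathM 79 17 154 _ _ _ _ path_79_17_d (good_of_etaM _ _ _ _ _ _ _ _ _ _ _ _ _ _ _ _ eta_79_17_d h1 (by simp))
    rw [Nat.cast_mul, mul_eq_zero] at h1
    rcases h1 with h1 | h1
    on_goal 2 => exact case_of_pathM 79 17 154 _ _ _ _ path_79_17_c (good_of_etaM _ _ _ _ _ _ _ _ _ _ _ _ _ _ _ _ eta_79_17_c h1 (by simp))
    exact case_of_pathM 79 17 154 _ _ _ _ path_79_17_b (good_of_etaM _ _ _ _ _ _ _ _ _ _ _ _ _ _ _ _ eta_79_17_b h1 (by simp))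
  · exact case_of_pathM 79 17 154 _ _ _ _ path_79_17_a (good_of_etaM _ _ _ _ _ _ _ _ _ _ _ _ _ _ _ _ eta_79_17_a (by simp) h)

theorem case_10_18_57 [Infinite K] : Case K 10 18 57 := by
  by_cases h : ((169676199289424214006347720389320000 : ℕ) : K) = 0
  · have h1 : ((8583790158198658753673 * 33 * 5 * 7 * 2 : ℕ) : K) = 0 := cast_zero_of_dvd 6 (by norm_num) h
    rw [Nat.cast_mul, mul_eq_zero] at h1
    rcases h1 with h1 | h1
    on_goal 2 => exact case_of_pathM 10 18 57 _ _ _ _ path_10_18_f (good_of_etaF _ _ _ _ _ _ _ _ _ _ _ eta_10_18_f h1)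
    rw [Nat.cast_mul, mul_eq_zero] at h1
    rcases h1 with h1 | h1
    on_goal 2 => exact case_of_pathM 10 18 57 _ _ _ _ path_10_18_e (good_of_etaM _ _ _ _ _ _ _ _ _ _ _ _ _ _ _ _ eta_10_18_e h1 (by simp))
    rw [Nat.cast_mul, mul_eq_zero] at h1
    rcases h1 with h1 | h1
    on_goal 2 => exact case_of_pathM 10 18 57 _ _ _ _ path_10_18_d (good_of_etaM _ _ _ _ _ _ _ _ _ _ _ _ _ _ _ _ eta_10_18_d h1 (by simp))
    rw [Nat.cast_mul, mul_eq_zero] at h1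
    rcases h1 with h1 | h1
    on_goal 2 => exact case_of_pathM 10 18 57 _ _ _ _ path_10_18_c (good_of_etaM _ _ _ _ _ _ _ _ _ _ _ _ _ _ _ _ eta_10_18_c h1 (by simp))
    exact case_of_pathM 10 18 57 _ _ _ _ path_10_18_b (good_of_etaM _ _ _ _ _ _ _ _ _ _ _ _ _ _ _ _ eta_10_18_b h1 (by simp))
  · exact case_of_pathM 10 18 57 _ _ _ _ path_10_18_a (good_of_etaM _ _ _ _ _ _ _ _ _ _ _ _ _ _ _ _ eta_10_18_a (by simp) h)

theorem case_19_18_79 [Infinite K] : Case K 19 18 79 := by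
  by_cases h : ((35148086415481932511933592942267651660340 : ℕ) : K) = 0
  · have h1 : ((43420401494526263943968588925497 * 146965 * 3 * 2 : ℕ) : K) = 0 := cast_zero_of_dvd 4 (by norm_num) h
    rw [Nat.cast_mul, mul_eq_zero] at h1
    rcases h1 with h1 | h1
    on_goal 2 => exact case_of_pathM 19 18 79 _ _ _ _ path_19_18_e (shrinkL _ _ shr_19_18_e (good_of_etaM _ _ _ _ _ _ _ _ _ _ _ _ _ _ _ _ eta_19_18_e h1 (by simp)))
    rw [Nat.cast_mul, mul_eq_zero] at h1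
    rcases h1 with h1 | h1
    on_goal 2 => exact case_of_pathM 19 18 79 _ _ _ _ path_19_18_d (shrinkL _ _ shr_19_18_d (good_of_etaM _ _ _ _ _ _ _ _ _ _ _ _ _ _ _ _ eta_19_18_d h1 (by simp)))
    rw [Nat.cast_mul, mul_eq_zero] at h1
    rcases h1 with h1 | h1
    on_goal 2 => exact case_of_pathM 19 18 79 _ _ _ _ path_19_18_c (shrinkL _ _ shr_19_18_c (good_of_etaM _ _ _ _ _ _ _ _ _ _ _ _ _ _ _ _ eta_19_18_c h1 (by simp)))
    exact case_of_pathM 19 18 79 _ _ _ _ path_19_18_b (shrinkL _ _ shr_19_18_b (good_of_etaM _ _ _ _ _ _ _ _ _ _ _ _ _ _ _ _ eta_19_18_b h1 (by simp)))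
  · exact case_of_pathM 19 18 79 _ _ _ _ path_19_18_a (shrinkL _ _ shr_19_18_a (good_of_etaM _ _ _ _ _ _ _ _ _ _ _ _ _ _ _ _ eta_19_18_a (by simp) h))

theorem case_37_18_111 [Infinite K] : Case K 37 18 111 := by
  by_cases h : ((1570928436 : ℕ) : K) = 0
  · have h1 : ((12467686 * 3 : ℕ) : K) = 0 := cast_zero_of_dvd 2 (by norm_num) h
    rw [Nat.cast_mul, mul_eq_zero] at h1
    rcases h1 with h1 | h1
    on_goal 2 => exact case_of_pathM 37 18 111 _ _ _ _ path_37_18_c (good_of_etaM _ _ _ _ _ _ _ _ _ _ _ _ _ _ _ _ eta_37_18_c h1 (by simp))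
    exact case_of_pathM 37 18 111 _ _ _ _ path_37_18_b (good_of_etaM _ _ _ _ _ _ _ _ _ _ _ _ _ _ _ _ eta_37_18_b h1 (by simp))
  · exact case_of_pathM 37 18 111 _ _ _ _ path_37_18_a (good_of_etaM _ _ _ _ _ _ _ _ _ _ _ _ _ _ _ _ eta_37_18_a (by simp) h)

theorem case_12_19_66 [Infinite K] : Case K 12 19 66 := by
  by_cases h : ((325909584 : ℕ) : K) = 0
  · have h1 : ((323323 * 2 * 3 : ℕ) : K) = 0 := cast_zero_of_dvd 4 (by norm_num) h
    rw [Nat.cast_mul, mul_eq_zero] at h1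
    rcases h1 with h1 | h1
    on_goal 2 => exact case_of_pathM 12 19 66 _ _ _ _ path_12_19_d (shrinkL _ _ shr_12_19_d (good_of_etaM _ _ _ _ _ _ _ _ _ _ _ _ _ _ _ _ eta_12_19_d h1 (by simp)))
    rw [Nat.cast_mul, mul_eq_zero] at h1
    rcases h1 with h1 | h1
    on_goal 2 => exact case_of_pathM 12 19 66 _ _ _ _ path_12_19_c (shrinkL _ _ shr_12_19_c (good_of_etaM _ _ _ _ _ _ _ _ _ _ _ _ _ _ _ _ eta_12_19_c h1 (by simp)))
    exact case_of_pathM 12 19 66 _ _ _ _ path_12_19_b (shrinkL _ _ shr_12_19_b (good_of_etaM _ _ _ _ _ _ _ _ _ _ _ _ _ _ _ _ eta_12_19_b h1 (by simp)))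
  · exact case_of_pathM 12 19 66 _ _ _ _ path_12_19_a (shrinkL _ _ shr_12_19_a (good_of_etaM _ _ _ _ _ _ _ _ _ _ _ _ _ _ _ _ eta_12_19_a (by simp) h))

theorem case_15_19_74 [Infinite K] : Case K 15 19 74 := by
  by_cases h : ((15348960 : ℕ) : K) = 0
  · have h1 : ((3553 * 3 * 10 : ℕ) : K) = 0 := cast_zero_of_dvd 5 (by norm_num) h
    rw [Nat.cast_mul, mul_eq_zero] at h1
    rcases h1 with h1 | h1
    on_goal 2 => exact case_of_pathM 15 19 74 _ _ _ _ path_15_19_d (good_of_etaM _ _ _ _ _ _ _ _ _ _ _ _ _ _ _ _ eta_15_19_d h1 (by simp))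
    rw [Nat.cast_mul, mul_eq_zero] at h1
    rcases h1 with h1 | h1
    on_goal 2 => exact case_of_pathM 15 19 74 _ _ _ _ path_15_19_c (good_of_etaM _ _ _ _ _ _ _ _ _ _ _ _ _ _ _ _ eta_15_19_c h1 (by simp))
    exact case_of_pathM 15 19 74 _ _ _ _ path_15_19_b (good_of_etaM _ _ _ _ _ _ _ _ _ _ _ _ _ _ _ _ eta_15_19_b h1 (by simp))
  · exact case_of_pathM 15 19 74 _ _ _ _ path_15_19_a (good_of_etaM _ _ _ _ _ _ _ _ _ _ _ _ _ _ _ _ eta_15_19_a (by simp) h)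

theorem case_23_19_92 [Infinite K] : Case K 23 19 92 := by
  by_cases h : ((321474567147832 : ℕ) : K) = 0
  · have h1 : ((40184320893479 * 2 : ℕ) : K) = 0 := cast_zero_of_dvd 3 (by norm_num) h
    rw [Nat.cast_mul, mul_eq_zero] at h1
    rcases h1 with h1 | h1
    on_goal 2 => exact case_of_pathM 23 19 92 _ _ _ _ path_23_19_c (good_of_etaM _ _ _ _ _ _ _ _ _ _ _ _ _ _ _ _ eta_23_19_c h1 (by simp))
    exact case_of_pathM 23 19 92 _ _ _ _ path_23_19_b (good_of_etaM _ _ _ _ _ _ _ _ _ _ _ _ _ _ _ _ eta_23_19_b h1 (by simp))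
  · exact case_of_pathM 23 19 92 _ _ _ _ path_23_19_a (good_of_etaM _ _ _ _ _ _ _ _ _ _ _ _ _ _ _ _ eta_23_19_a (by simp) h)

theorem case_233_19_296 [Infinite K] : Case K 233 19 296 := by
  by_cases h : ((171 : ℕ) : K) = 0
  · have h1 : ((3 * 19 : ℕ) : K) = 0 := cast_zero_of_dvd 2 (by norm_num) h
    rw [Nat.cast_mul, mul_eq_zero] at h1
    rcases h1 with h1 | h1
    on_goal 2 => exact case_of_pathM 233 19 296 _ _ _ _ path_233_19_c (shrinkL _ _ shr_233_19_c (good_of_etaM _ _ _ _ _ _ _ _ _ _ _ _ _ _ _ _ eta_233_19_c h1 (by simp)))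
    exact case_of_pathM 233 19 296 _ _ _ _ path_233_19_b (shrinkL _ _ shr_233_19_b (good_of_etaM _ _ _ _ _ _ _ _ _ _ _ _ _ _ _ _ eta_233_19_b h1 (by simp)))
  · exact case_of_pathM 233 19 296 _ _ _ _ path_233_19_a (shrinkL _ _ shr_233_19_a (good_of_etaM _ _ _ _ _ _ _ _ _ _ _ _ _ _ _ _ eta_233_19_a (by simp) h))

theorem case_14_20_75 [Infinite K] : Case K 14 20 75 := by
  by_cases h : ((393522566404628901240 : ℕ) : K) = 0
  · have h1 : ((570798953777 * 49742 * 3 * 5 : ℕ) : K) = 0 := cast_zero_of_dvd 3 (by norm_num) h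
    rw [Nat.cast_mul, mul_eq_zero] at h1
    rcases h1 with h1 | h1
    on_goal 2 => exact case_of_pathM 14 20 75 _ _ _ _ path_14_20_e (shrinkL _ _ shr_14_20_e (good_of_etaM _ _ _ _ _ _ _ _ _ _ _ _ _ _ _ _ eta_14_20_e h1 (by simp)))
    rw [Nat.cast_mul, mul_eq_zero] at h1
    rcases h1 with h1 | h1
    on_goal 2 => exact case_of_pathM 14 20 75 _ _ _ _ path_14_20_d (shrinkL _ _ shr_14_20_d (good_of_etaM _ _ _ _ _ _ _ _ _ _ _ _ _ _ _ _ eta_14_20_d h1 (by simp)))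
    rw [Nat.cast_mul, mul_eq_zero] at h1
    rcases h1 with h1 | h1
    on_goal 2 => exact case_of_pathM 14 20 75 _ _ _ _ path_14_20_c (shrinkL _ _ shr_14_20_c (good_of_etaM _ _ _ _ _ _ _ _ _ _ _ _ _ _ _ _ eta_14_20_c h1 (by simp)))
    exact case_of_pathM 14 20 75 _ _ _ _ path_14_20_b (shrinkL _ _ shr_14_20_b (good_of_etaM _ _ _ _ _ _ _ _ _ _ _ _ _ _ _ _ eta_14_20_b h1 (by simp)))
  · exact case_of_pathM 14 20 75 _ _ _ _ path_14_20_a (shrinkL _ _ shr_14_20_a (good_of_etaM _ _ _ _ _ _ _ _ _ _ _ _ _ _ _ _ eta_14_20_a (by simp) h))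

theorem case_17_20_83 [Infinite K] : Case K 17 20 83 := by
  by_cases h : ((533850782400 : ℕ) : K) = 0
  · have h1 : ((2288455 * 6 : ℕ) : K) = 0 := cast_zero_of_dvd 6 (by norm_num) h
    rw [Nat.cast_mul, mul_eq_zero] at h1
    rcases h1 with h1 | h1
    on_goal 2 => exact case_of_pathM 17 20 83 _ _ _ _ path_17_20_c (good_of_etaM _ _ _ _ _ _ _ _ _ _ _ _ _ _ _ _ eta_17_20_c h1 (by simp))
    exact case_of_pathM 17 20 83 _ _ _ _ path_17_20_b (good_of_etaM _ _ _ _ _ _ _ _ _ _ _ _ _ _ _ _ eta_17_20_b h1 (by simp))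
  · exact case_of_pathM 17 20 83 _ _ _ _ path_17_20_a (good_of_etaM _ _ _ _ _ _ _ _ _ _ _ _ _ _ _ _ eta_17_20_a (by simp) h)

theorem case_26_20_103 [Infinite K] : Case K 26 20 103 := by
  by_cases h : ((387600 : ℕ) : K) = 0
  · have h1 : ((285 * 17 * 2 : ℕ) : K) = 0 := cast_zero_of_dvd 4 (by norm_num) h
    rw [Nat.cast_mul, mul_eq_zero] at h1
    rcases h1 with h1 | h1
    on_goal 2 => exact case_of_pathM 26 20 103 _ _ _ _ path_26_20_d (good_of_etaM _ _ _ _ _ _ _ _ _ _ _ _ _ _ _ _ eta_26_20_d h1 (by simp))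
    rw [Nat.cast_mul, mul_eq_zero] at h1
    rcases h1 with h1 | h1
    on_goal 2 => exact case_of_pathM 26 20 103 _ _ _ _ path_26_20_c (good_of_etaM _ _ _ _ _ _ _ _ _ _ _ _ _ _ _ _ eta_26_20_c h1 (by simp))
    exact case_of_pathM 26 20 103 _ _ _ _ path_26_20_b (good_of_etaM _ _ _ _ _ _ _ _ _ _ _ _ _ _ _ _ eta_26_20_b h1 (by simp))
  · exact case_of_pathM 26 20 103 _ _ _ _ path_26_20_a (good_of_etaM _ _ _ _ _ _ _ _ _ _ _ _ _ _ _ _ eta_26_20_a (by simp) h)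

theorem case_34_20_118 [Infinite K] : Case K 34 20 118 := by
  by_cases h : ((716016193200 : ℕ) : K) = 0
  · have h1 : ((271218255 * 2 : ℕ) : K) = 0 := cast_zero_of_dvd 4 (by norm_num) h
    rw [Nat.cast_mul, mul_eq_zero] at h1
    rcases h1 with h1 | h1
    on_goal 2 => exact case_of_pathM 34 20 118 _ _ _ _ path_34_20_c (good_of_etaM _ _ _ _ _ _ _ _ _ _ _ _ _ _ _ _ eta_34_20_c h1 (by simp))
    exact case_of_pathM 34 20 118 _ _ _ _ path_34_20_b (good_of_etaM _ _ _ _ _ _ _ _ _ _ _ _ _ _ _ _ eta_34_20_b h1 (by simp))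
  · exact case_of_pathM 34 20 118 _ _ _ _ path_34_20_a (good_of_etaM _ _ _ _ _ _ _ _ _ _ _ _ _ _ _ _ eta_34_20_a (by simp) h)

theorem case_47_20_139 [Infinite K] : Case K 47 20 139 := by
  by_cases h : ((3627993600 : ℕ) : K) = 0
  · have h1 : ((14315 * 11 * 2 * 3 : ℕ) : K) = 0 := cast_zero_of_dvd 9 (by norm_num) h
    rw [Nat.cast_mul, mul_eq_zero] at h1
    rcases h1 with h1 | h1
    on_goal 2 => exact case_of_pathM 47 20 139 _ _ _ _ path_47_20_e (good_of_etaM _ _ _ _ _ _ _ _ _ _ _ _ _ _ _ _ eta_47_20_e h1 (by simp))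
    rw [Nat.cast_mul, mul_eq_zero] at h1
    rcases h1 with h1 | h1
    on_goal 2 => exact case_of_pathM 47 20 139 _ _ _ _ path_47_20_d (good_of_etaM _ _ _ _ _ _ _ _ _ _ _ _ _ _ _ _ eta_47_20_d h1 (by simp))
    rw [Nat.cast_mul, mul_eq_zero] at h1
    rcases h1 with h1 | h1
    on_goal 2 => exact case_of_pathM 47 20 139 _ _ _ _ path_47_20_c (good_of_etaM _ _ _ _ _ _ _ _ _ _ _ _ _ _ _ _ eta_47_20_c h1 (by simp))
    exact case_of_pathM 47 20 139 _ _ _ _ path_47_20_b (good_of_etaM _ _ _ _ _ _ _ _ _ _ _ _ _ _ _ _ eta_47_20_b h1 (by simp))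
  · exact case_of_pathM 47 20 139 _ _ _ _ path_47_20_a (good_of_etaM _ _ _ _ _ _ _ _ _ _ _ _ _ _ _ _ eta_47_20_a (by simp) h)

theorem case_173_20_268 [Infinite K] : Case K 173 20 268 := by
  by_cases h : ((77520 : ℕ) : K) = 0
  · have h1 : ((3 * 5 * 17 * 19 * 2 : ℕ) : K) = 0 := cast_zero_of_dvd 4 (by norm_num) h
    rw [Nat.cast_mul, mul_eq_zero] at h1
    rcases h1 with h1 | h1
    on_goal 2 => exact case_of_pathM 173 20 268 _ _ _ _ path_173_20_f (shrinkL _ _ shr_173_20_f (good_of_etaM _ _ _ _ _ _ _ _ _ _ _ _ _ _ _ _ eta_173_20_f h1 (by simp)))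
    rw [Nat.cast_mul, mul_eq_zero] at h1
    rcases h1 with h1 | h1
    on_goal 2 => exact case_of_pathM 173 20 268 _ _ _ _ path_173_20_e (shrinkL _ _ shr_173_20_e (good_of_etaM _ _ _ _ _ _ _ _ _ _ _ _ _ _ _ _ eta_173_20_e h1 (by simp)))
    rw [Nat.cast_mul, mul_eq_zero] at h1
    rcases h1 with h1 | h1
    on_goal 2 => exact case_of_pathM 173 20 268 _ _ _ _ path_173_20_d (shrinkL _ _ shr_173_20_d (good_of_etaM _ _ _ _ _ _ _ _ _ _ _ _ _ _ _ _ eta_173_20_d h1 (by simp)))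
    rw [Nat.cast_mul, mul_eq_zero] at h1
    rcases h1 with h1 | h1
    on_goal 2 => exact case_of_pathM 173 20 268 _ _ _ _ path_173_20_c (shrinkL _ _ shr_173_20_c (good_of_etaM _ _ _ _ _ _ _ _ _ _ _ _ _ _ _ _ eta_173_20_c h1 (by simp)))
    exact case_of_pathM 173 20 268 _ _ _ _ path_173_20_b (shrinkL _ _ shr_173_20_b (good_of_etaM _ _ _ _ _ _ _ _ _ _ _ _ _ _ _ _ eta_173_20_b h1 (by simp)))
  · exact case_of_pathM 173 20 268 _ _ _ _ path_173_20_a (shrinkL _ _ shr_173_20_a (good_of_etaM _ _ _ _ _ _ _ _ _ _ _ _ _ _ _ _ eta_173_20_a (by simp) h))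

theorem case_215_20_299 [Infinite K] : Case K 215 20 299 := by
  by_cases h : ((99768240 : ℕ) : K) = 0
  · have h1 : ((3 * 11 * 13 * 17 * 19 * 2 * 5 : ℕ) : K) = 0 := cast_zero_of_dvd 4 (by norm_num) h
    rw [Nat.cast_mul, mul_eq_zero] at h1
    rcases h1 with h1 | h1
    on_goal 2 => exact case_of_pathM 215 20 299 _ _ _ _ path_215_20_h (good_of_etaM _ _ _ _ _ _ _ _ _ _ _ _ _ _ _ _ eta_215_20_h h1 (by simp))
    rw [Nat.cast_mul, mul_eq_zero] at h1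
    rcases h1 with h1 | h1
    on_goal 2 => exact case_of_pathM 215 20 299 _ _ _ _ path_215_20_g (good_of_etaM _ _ _ _ _ _ _ _ _ _ _ _ _ _ _ _ eta_215_20_g h1 (by simp))
    rw [Nat.cast_mul, mul_eq_zero] at h1
    rcases h1 with h1 | h1
    on_goal 2 => exact case_of_pathM 215 20 299 _ _ _ _ path_215_20_f (good_of_etaM _ _ _ _ _ _ _ _ _ _ _ _ _ _ _ _ eta_215_20_f h1 (by simp))
    rw [Nat.cast_mul, mul_eq_zero] at h1
    rcases h1 with h1 | h1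
    on_goal 2 => exact case_of_pathM 215 20 299 _ _ _ _ path_215_20_e (good_of_etaM _ _ _ _ _ _ _ _ _ _ _ _ _ _ _ _ eta_215_20_e h1 (by simp))
    rw [Nat.cast_mul, mul_eq_zero] at h1
    rcases h1 with h1 | h1
    on_goal 2 => exact case_of_pathM 215 20 299 _ _ _ _ path_215_20_d (good_of_etaM _ _ _ _ _ _ _ _ _ _ _ _ _ _ _ _ eta_215_20_d h1 (by simp))
    rw [Nat.cast_mul, mul_eq_zero] at h1
    rcases h1 with h1 | h1
    on_goal 2 => exact case_of_pathM 215 20 299 _ _ _ _ path_215_20_c (good_of_etaM _ _ _ _ _ _ _ _ _ _ _ _ _ _ _ _ eta_215_20_c h1 (by simp))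
    exact case_of_pathM 215 20 299 _ _ _ _ path_215_20_b (good_of_etaM _ _ _ _ _ _ _ _ _ _ _ _ _ _ _ _ eta_215_20_b h1 (by simp))
  · exact case_of_pathM 215 20 299 _ _ _ _ path_215_20_a (good_of_etaM _ _ _ _ _ _ _ _ _ _ _ _ _ _ _ _ eta_215_20_a (by simp) h)

end Pool.Agent.Helper22.E6L
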