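import Pool.Agent.Helper22.E6L.Tab
import Pool.Agent.Helper22.E6L.G17

set_option autoImplicit false

/-! # Tables of certificates, `m = 14 … 16`, `r < (m + 3) ^ 2` (helper22), MP_e6aa12_ag -/

namespace Pool.Agent.Helper22.E6L

open Pool.Agent.Helper22.E6

/-- certificates for `m = 14`, `10 ≤ r < 29` -/
def cert_14_0 : List Cert := [
  ⟨10, 44, 2, 23, [.N 1, .M 7 [(0, [(111, 0), (11, 15), (1, 16)]), (7, [(104, 0), (10, 14), (2, 16)]), (14, [(97, 0), (9, 12), (2, 15)]), (21, [(90, 0), (9, 12), (1, 14)]), (28, [(83, 0), (8, 11), (1, 12)]), (35, [(76, 0), (7, 10), (1, 11), (1, 12)]), (42, [(69, 0), (6, 8), (1, 10)]), (49, [(62, 0), (6, 8)]), (56, [(55, 0), (5, 7), (1, 8)]), (63, [(48, 0), (4, 6), (1, 7)]), (70, [(41, 0), (3, 4), (1, 6)]), (77, [(34, 0), (3, 4)]), (84, [(27, 0), (2, 3), (1, 4)]), (91, [(20, 0), (1, 2),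 (1, 3)]), (98, [(13, 0)]), (105, [(6, 0)])], .N 1]⟩,
  ⟨10, 45, 2, 23, [.N 1, .M 8 [(0, [(113, 0), (25, 14), (5, 17)]), (8, [(105, 0), (23, 13), (5, 16)]), (16, [(97, 0), (21, 12), (4, 14), (1, 15)]), (24, [(89, 0), (19, 11), (4, 13), (2, 14)]), (32, [(81, 0), (18, 10), (3, 12)]), (40, [(73, 0), (16, 9), (3, 11)]), (48, [(65, 0), (14, 8), (2, 9), (2, 10)]), (56, [(57, 0), (12, 7), (2, 8)]), (64, [(49, 0), (11, 6), (1, 7)]), (72, [(41, 0), (9, 5), (2, 6)]), (80, [(33, 0), (7, 4), (2, 5)]), (88, [(25, 0), (5, 3)]), (96, [(17, 0), (4, 2)]), (104, [(9, 0), (2, 1)]), (112, [(1, 0)])]]⟩,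
  ⟨12, 48, 2, 25, [.N 3]⟩,
  ⟨12, 49, 2, 25, [.N 1, .M 7 [(0, [(123, 0), (13, 17), (1, 18)]), (7, [(116, 0), (12, 16), (2, 18)]), (14, [(109, 0), (11, 14), (2, 17)]), (21, [(102, 0), (11, 14), (1, 16)]), (28, [(95, 0), (10, 13), (1, 14)]), (35, [(88, 0), (9, 12), (1, 13), (1, 14)]), (42, [(81, 0), (8, 10), (1, 12)]), (49, [(74, 0), (8, 10)]), (56, [(67, 0), (7, 9), (1, 10)]), (63, [(60, 0), (6, 8), (1, 9)]), (70, [(53, 0), (5, 6), (1, 8)]), (77, [(46, 0), (5, 6)]), (84, [(39, 0), (4, 5), (1, 6)]), (91, [(32, 0), (3, 4), (1, 5)]), (98, [(25, 0), (2, 2)]), (105, [(18, 0), (2, 2)]), (112, [(11, 0), (1, 1)]), (119, [(4, 0)])], .N 1, .N 1]⟩,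
  ⟨13, 50, 3, 17, [.N 2]⟩,
  ⟨13, 51, 3, 18, [.N 1, .N 1]⟩,
  ⟨14, 52, 2, 27, [.N 3, .N 1]⟩,
  ⟨14, 53, 2, 27, [.N 1, .N 1, .M 10 [(0, [(154, 0), (23, 15), (4, 17), (2, 18)]), (10, [(144, 0), (22, 14), (3, 16)]), (20, [(134, 0), (21, 13), (2, 15)]), (30, [(124, 0), (19, 12), (3, 14)]), (40, [(114, 0), (17, 11), (4, 13)]), (50, [(104, 0), (16, 10), (3, 12)]), (60, [(94, 0), (14, 9), (2, 10), (1, 11)]), (70, [(84, 0), (12, 8), (2, 9)]), (80, [(74, 0), (11, 7), (1, 8)]), (90, [(64, 0), (10, 6), (1, 7)]), (100, [(54, 0), (8, 5), (2, 6)]), (110, [(44, 0), (6, 4), (2, 5)]), (120, [(34, 0), (4, 3)]), (130, [(24, 0), (3, 2)]), (140, [(14, 0), (2, 1)]), (150, [(4, 0)])], .N 1]⟩,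
  ⟨15, 54, 3, 19, [.N 1, .N 1, .N 1]⟩,
  ⟨15, 55, 3, 19, [.N 1, .M 13 [(0, [(183, 0), (26, 14), (4, 16)]), (13, [(170, 0), (24, 13), (2, 14), (2, 15)]), (26, [(157, 0), (22, 12), (2, 13)]), (39, [(144, 0), (21, 11), (1, 12)]), (52, [(131, 0), (19, 10), (2, 11)]), (65, [(118, 0), (17, 9), (2, 10)]), (78, [(105, 0), (15, 8), (2, 9)]), (91, [(92, 0), (13, 7), (2, 8)]), (104, [(79, 0), (11, 6)]), (117, [(66, 0), (9, 5)]), (130, [(53, 0), (7, 4)]), (143, [(40, 0), (5, 3)]), (156, [(27, 0), (4, 2)]), (169, [(14, 0), (2, 1)]), (182, [(1, 0)])]]⟩,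
  ⟨16, 56, 3, 19, [.N 3]⟩,
  ⟨16, 57, 4, 15, []⟩,
  ⟨17, 58, 3, 20, [.N 1, .M 12 [(0, [(193, 0), (14, 16), (1, 17)]), (12, [(181, 0), (13, 15), (1, 16)]), (24, [(169, 0), (12, 14), (1, 15)]), (36, [(157, 0), (11, 13), (1, 14)]), (48, [(145, 0), (10, 11)]), (60, [(133, 0), (10, 11)]), (72, [(121, 0), (9, 10)]), (84, [(109, 0), (8, 9)]), (96, [(97, 0), (7, 8)]), (108, [(85, 0), (6, 7)]), (120, [(73, 0), (5, 6)]), (132, [(61, 0), (4, 5)]), (144, [(49, 0), (3, 4)]), (156, [(37, 0), (2, 2)]), (168, [(25, 0), (2, 2)]), (180, [(13, 0), (1, 1)]), (192, [(1, 0)])], .N 1, .N 1]⟩,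
  ⟨17, 59, 3, 20, [.N 2, .M 15 [(0, [(215, 0), (22, 14), (2, 15)]), (15, [(200, 0), (20, 13), (2, 14)]), (30, [(185, 0), (18, 11), (2, 13)]), (45, [(170, 0), (18, 11)]), (60, [(155, 0), (16, 10), (2, 11)]), (75, [(140, 0), (14, 9), (2, 10)]), (90, [(125, 0), (12, 8), (2, 9)]), (105, [(110, 0), (11, 7), (1, 8)]), (120, [(95, 0), (10, 6), (1, 7)]), (135, [(80, 0), (8, 5)]), (150, [(65, 0), (6, 4)]), (165, [(50, 0), (4, 2)]), (180, [(35, 0), (4, 2)]), (195, [(20, 0), (2, 1)]), (210, [(5, 0)])]]⟩,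
  ⟨19, 61, 2, 31, [.N 3, .N 3]⟩,
  ⟨19, 62, 3, 21, [.N 4]⟩,
  ⟨20, 64, 4, 17, [.N 2]⟩,
  ⟨21, 64, 3, 22, [.N 4, .N 1]⟩,
  ⟨21, 65, 3, 22, [.N 1, .M 12 [(0, [(216, 0), (16, 18), (1, 19)]), (12, [(204, 0), (15, 17), (1, 18)]), (24, [(192, 0), (14, 16), (1, 17)]), (36, [(180, 0), (13, 14), (1, 16)]), (48, [(168, 0), (13, 14)]), (60, [(156, 0), (12, 13), (1, 14)]), (72, [(144, 0), (11, 12)]), (84, [(132, 0), (10, 11)]), (96, [(120, 0), (9, 10)]), (108, [(108, 0), (8, 9)]), (120, [(96, 0), (7, 8)]), (132, [(84, 0), (6, 7)]), (144, [(72, 0), (5, 5)]), (156, [(60, 0), (5, 5)]), (168, [(48, 0), (4, 4)]), (180, [(36, 0), (3, 3)]), (192, [(24, 0), (2, 2)]), (204, [(12, 0), (1, 1)])], .N 1, .N 1, .M 19 [(0, [(266, 0), (27, 14), (2, 15)]), (19, [(247, 0), (25, 13), (2, 14)]), (38, [(228, 0), (23, 12), (2, 13)]), (57, [(209, 0),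 (21, 11), (2, 12)]), (76, [(190, 0), (19, 10), (2, 11)]), (95, [(171, 0), (18, 9)]), (114, [(152, 0), (16, 8)]), (133, [(133, 0), (14, 7)]), (152, [(114, 0), (12, 6)]), (171, [(95, 0), (11, 5)]), (190, [(76, 0), (8, 4)]), (209, [(57, 0), (6, 3)]), (228, [(38, 0), (4, 2)]), (247, [(19, 0), (2, 1)])]]⟩,
  ⟨22, 66, 4, 17, [.N 2, .N 1]⟩,
  ⟨22, 67, 3, 23, [.N 5]⟩,
  ⟨23, 69, 4, 18, [.N 3]⟩,
  ⟨24, 69, 3, 24, [.N 5, .N 1]⟩,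
  ⟨24, 70, 4, 18, [.N 2, .N 2]⟩,
  ⟨25, 70, 3, 24, [.N 6]⟩,
  ⟨25, 71, 5, 15, []⟩,
  ⟨26, 72, 3, 25, [.N 5, .N 2]⟩,
  ⟨26, 73, 4, 19, [.N 2, .N 3]⟩,
  ⟨27, 73, 4, 19, [.N 5]⟩,
  ⟨28, 75, 3, 26, [.N 5, .N 3]⟩,
  ⟨28, 76, 4, 20, [.N 5]⟩]

/-- cases treated by germs -/
def exc_14_0 : List (ℕ × ℕ) := [(23, 68)]

theorem tab_14_0 : tabM 14 exc_14_0 cert_14_0 19 10 44 = true := by decide +kernel

/-- certificates for `m = 14`, `29 ≤ r < 55` -/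
def cert_14_1 : List Cert := [
  ⟨30, 77, 4, 20, [.N 6]⟩,
  ⟨30, 78, 4, 20, [.N 2, .M 22 [(0, [(348, 0), (26, 15), (4, 17)]), (22, [(326, 0), (24, 14), (2, 15), (2, 16)]), (44, [(304, 0), (22, 13), (2, 14)]), (66, [(282, 0), (20, 12), (2, 13)]), (88, [(260, 0), (18, 10), (2, 12)]), (110, [(238, 0), (18, 10)]), (132, [(216, 0), (16, 9), (2, 10)]), (154, [(194, 0), (14, 8), (2, 9)]), (176, [(172, 0), (12, 7), (2, 8)]), (198, [(150, 0), (10, 6), (2, 7)]), (220, [(128, 0), (8, 5), (2, 6)]), (242, [(106, 0), (6, 4), (2, 5)]), (264, [(84, 0), (4, 2), (2, 4)]), (286, [(62, 0), (4, 2)]), (308, [(40, 0), (2, 1)]), (330, [(18, 0)])], .N 3]⟩,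
  ⟨32, 80, 4, 21, [.N 6, .N 1]⟩,
  ⟨32, 81, 3, 28, [.N 8]⟩,
  ⟨34, 83, 4, 21, [.N 1, .N 1, .N 1, .N 1, .M 26 [(0, [(404, 0), (26, 15), (2, 16)]), (26, [(378, 0), (24, 14), (2, 15)]), (52, [(352, 0), (22, 13), (2, 14)]), (78, [(326, 0), (20, 12), (2, 13)]), (104, [(300, 0), (18, 11), (2, 12)]), (130, [(274, 0), (16, 9), (2, 11)]), (156, [(248, 0), (16, 9)]), (182, [(222, 0), (14, 8), (2, 9)]), (208, [(196, 0), (12, 6), (2, 8)]), (234, [(170, 0), (12, 6)]), (260, [(144, 0), (10, 5)]), (286, [(118, 0), (8, 4)]), (312, [(92, 0), (6, 3)]), (338, [(66, 0), (4, 2)]), (364, [(40, 0), (2, 1)]), (390, [(14, 0)])], .N 2, .N 1]⟩,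
  ⟨34, 84, 5, 17, [.N 4]⟩,
  ⟨35, 85, 5, 18, [.N 5]⟩,
  ⟨36, 85, 5, 18, [.N 5]⟩,
  ⟨36, 86, 6, 15, []⟩,
  ⟨37, 86, 4, 22, [.N 7, .N 2]⟩,
  ⟨37, 87, 5, 18, [.N 2, .N 4]⟩,
  ⟨38, 87, 5, 18, [.N 6]⟩,
  ⟨38, 88, 6, 15, [.N 1]⟩,
  ⟨39, 89, 5, 18, [.N 2, .N 1, .M 34 [(0, [(490, 0), (39, 14), (3, 15)]), (34, [(456, 0), (36, 13), (3, 14)]), (68, [(422, 0), (33, 12), (3, 13)]), (102, [(388, 0), (30, 11), (3, 12)]), (136, [(354, 0), (27, 10), (3, 11)]), (170, [(320, 0), (24, 9), (3, 10)]), (204, [(286, 0), (21, 8), (3, 9)]), (238, [(252, 0), (20, 7), (1, 8)]), (272, [(218, 0), (18, 6)]), (306, [(184, 0), (15, 5)]), (340, [(150, 0), (12, 4)]), (374, [(116, 0), (9, 3)]), (408, [(82, 0), (6, 2)]), (442, [(48, 0), (3, 1)]), (476, [(14, 0)])], .N 1]⟩,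
  ⟨39, 90, 4, 23, [.N 9]⟩,
  ⟨41, 91, 4, 23, [.N 9, .N 1]⟩,
  ⟨41, 92, 5, 19, [.N 7]⟩,
  ⟨43, 93, 5, 19, [.N 7, .N 1]⟩,
  ⟨43, 94, 5, 19, [.N 7, .N 1]⟩,
  ⟨45, 95, 4, 24, [.N 11]⟩,
  ⟨45, 96, 5, 20, [.N 7, .N 2]⟩,
  ⟨47, 97, 6, 17, [.N 5]⟩,
  ⟨47, 98, 4, 25, [.N 1, .N 1, .N 10, .N 1]⟩,
  ⟨49, 99, 5, 20, [.N 10]⟩,
  ⟨49, 100, 7, 15, []⟩,
  ⟨51, 101, 5, 21, [.N 11]⟩,
  ⟨51, 102, 7, 15, [.N 1]⟩,
  ⟨52, 103, 6, 18, [.N 1, .M 39 [(0, [(626, 0), (15, 16)]), (39, [(587, 0), (14, 15)]), (78, [(548, 0), (13, 14)]), (117, [(509, 0), (12, 13)]), (156, [(470, 0), (11, 12)]), (195, [(431, 0), (10, 11)]), (234, [(392, 0), (9, 10)]), (273, [(353, 0), (8, 9)]), (312, [(314, 0), (7, 8)]), (351, [(275, 0), (6, 7)]), (390, [(236, 0), (5, 6)]), (429, [(197, 0), (4, 5)]), (468, [(158, 0), (3, 4)]), (507, [(119, 0), (2, 2)]), (546, [(80,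 0), (2, 2)]), (585, [(41, 0), (1, 1)]), (624, [(2, 0)])], .M 41 [(0, [(641, 0), (16, 15), (1, 16)]), (41, [(600, 0), (15, 14), (1, 15)]), (82, [(559, 0), (13, 13)]), (123, [(518, 0), (12, 12)]), (164, [(477, 0), (11, 11)]), (205, [(436, 0), (10, 10)]), (246, [(395, 0), (9, 9)]), (287, [(354, 0), (8, 8)]), (328, [(313, 0), (7, 7)]), (369, [(272, 0), (6, 6)]), (410, [(231, 0), (5, 5)]), (451, [(190, 0), (4, 4)]), (492, [(149, 0), (3, 3)]), (533, [(108, 0), (2, 2)]), (574, [(67, 0), (1, 1)]), (615, [(26, 0)])], .M 44 [(0, [(658, 0), (26, 14), (2, 15)]), (44, [(614, 0), (24, 13), (2, 14)]), (88, [(570, 0), (22, 12), (2, 13)]), (132, [(526, 0), (20, 11), (2, 12)]), (176, [(482, 0), (18, 10), (2, 11)]), (220, [(438, 0), (16, 9), (2, 10)]), (264, [(394, 0), (14, 8), (2, 9)]), (308, [(350, 0), (12, 7), (2, 8)]), (352, [(306,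 0), (10, 6), (2, 7)]), (396, [(262, 0), (8, 5), (2, 6)]), (440, [(218, 0), (6, 4), (2, 5)]), (484, [(174, 0), (4, 3), (2, 4)]), (528, [(130, 0), (2, 1), (2, 3)]), (572, [(86, 0), (2, 1)]), (616, [(42, 0)])], .N 3]⟩,
  ⟨52, 104, 7, 15, [.N 1]⟩,
  ⟨54, 104, 5, 21, [.N 12]⟩,
  ⟨54, 105, 6, 18, [.N 1, .N 3, .M 48 [(0, [(686, 0), (52, 14), (4, 15)]), (48, [(638, 0), (48, 13), (4, 14)]), (96, [(590, 0), (44, 12), (4, 13)]), (144, [(542, 0), (40, 11), (4, 12)]), (192, [(494, 0), (36, 10), (4, 11)]), (240, [(446, 0), (35, 9), (1, 10)]), (288, [(398, 0), (32, 8)]), (336, [(350, 0), (28, 7)]), (384, [(302, 0), (24, 6)]), (432, [(254, 0), (20, 5)]), (480, [(206, 0), (16, 4)]), (528, [(158, 0), (12, 3)]), (576, [(110, 0), (8, 2)]), (624, [(62, 0), (4, 1)]), (672, [(14, 0)])], .N 1]⟩]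

/-- cases treated by germs -/
def exc_14_1 : List (ℕ × ℕ) := []

theorem tab_14_1 : tabM 14 exc_14_1 cert_14_1 26 29 76 = true := by decide +kernel

/-- certificates for `m = 14`, `55 ≤ r < 86` -/
def cert_14_2 : List Cert := [
  ⟨56, 106, 6, 18, [.N 9]⟩,
  ⟨56, 107, 6, 18, [.N 3, .N 1, .M 48 [(0, [(700, 0), (52, 14), (4, 15)]), (48, [(652, 0), (48, 13), (4, 14)]), (96, [(604, 0), (44, 12), (4, 13)]), (144, [(556, 0), (40, 11), (4, 12)]), (192, [(508, 0), (36, 10), (4, 11)]), (240, [(460, 0), (32, 9), (4, 10)]), (288, [(412, 0), (29, 8), (3, 9)]), (336, [(364, 0), (25, 7), (4, 8)]), (384, [(316, 0), (24, 6), (1, 7)]), (432, [(268, 0), (20, 5), (4, 6)]), (480, [(220, 0), (16, 4)]), (528, [(172, 0), (12, 3)]), (576, [(124, 0), (8, 2)]), (624, [(76, 0), (4, 1)]), (672, [(28, 0)])], .N 2]⟩,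
  ⟨58, 108, 6, 19, [.N 10]⟩,
  ⟨58, 109, 4, 28, [.N 14, .N 1]⟩,
  ⟨60, 110, 5, 23, [.N 14]⟩,
  ⟨60, 111, 4, 28, [.N 15]⟩,
  ⟨62, 112, 7, 17, [.N 6]⟩,
  ⟨62, 113, 7, 17, [.N 6]⟩,
  ⟨64, 114, 7, 17, [.N 7]⟩,
  ⟨64, 115, 8, 15, []⟩,
  ⟨66, 116, 5, 24, [.N 13, .N 4]⟩,
  ⟨66, 117, 7, 17, [.N 8]⟩,
  ⟨68, 118, 8, 15, [.N 2]⟩,
  ⟨69, 119, 7, 18, [.N 2, .N 3, .N 5]⟩,
  ⟨71, 120, 7, 18, [.N 10]⟩,
  ⟨71, 121, 6, 21, [.N 13, .N 2]⟩,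
  ⟨73, 122, 5, 25, [.N 14, .N 2, .N 4]⟩,
  ⟨73, 123, 8, 16, [.N 4]⟩,
  ⟨75, 124, 7, 18, [.N 4, .N 1, .M 64 [(0, [(938, 0), (65, 14), (5, 15)]), (64, [(874, 0), (60, 13), (5, 14)]), (128, [(810, 0), (55, 12), (5, 13)]), (192, [(746, 0), (50, 11), (5, 12)]), (256, [(682, 0), (45, 10), (5, 11)]), (320, [(618, 0), (40, 9), (5, 10)]), (384, [(554, 0), (35, 8), (5, 9)]), (448, [(490, 0), (30, 7), (5, 8)]), (512, [(426, 0), (25, 6), (5, 7)]), (576, [(362, 0), (22, 5), (3, 6)]), (640, [(298, 0), (20, 4)]), (704, [(234, 0), (15, 3)]), (768, [(170, 0), (10, 2)]), (832, [(106, 0), (5, 1)]), (896, [(42, 0)])], .N 3]⟩,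
  ⟨75, 125, 8, 16, [.N 5]⟩,
  ⟨77, 125, 8, 16, [.N 6]⟩,
  ⟨77, 126, 7, 19, [.N 10, .N 3]⟩,
  ⟨79, 127, 7, 19, [.N 3, .N 10, .N 1]⟩,
  ⟨79, 128, 7, 19, [.N 13]⟩,
  ⟨81, 128, 7, 19, [.N 14]⟩,
  ⟨81, 129, 9, 15, []⟩,
  ⟨83, 130, 8, 17, [.N 9]⟩,
  ⟨83, 131, 8, 17, [.N 9]⟩,
  ⟨85, 132, 9, 15, [.N 2]⟩,
  ⟨85, 133, 9, 15, [.N 2]⟩]

/-- cases treated by germs -/
def exc_14_2 : List (ℕ × ℕ) := []

theorem tab_14_2 : tabM 14 exc_14_2 cert_14_2 31 55 105 = true := by decide +kernel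

/-- certificates for `m = 14`, `86 ≤ r < 126` -/
def cert_14_3 : List Cert := [
  ⟨87, 133, 9, 15, [.N 3]⟩,
  ⟨90, 136, 8, 18, [.N 5, .M 79 [(0, [(1149, 0), (64, 14), (5, 15)]), (79, [(1070, 0), (59, 13), (5, 14)]), (158, [(991, 0), (54, 12), (5, 13)]), (237, [(912, 0), (49, 11), (5, 12)]), (316, [(833, 0), (44, 10), (5, 11)]), (395, [(754, 0), (39, 9), (5, 10)]), (474, [(675, 0), (38, 8), (1, 9)]), (553, [(596, 0), (34, 7)]), (632, [(517, 0), (29, 6)]), (711, [(438, 0), (24, 5)]), (790, [(359, 0), (19, 4)]), (869, [(280, 0), (14, 3)]), (948, [(201, 0), (9, 2)]), (1027, [(122, 0), (4, 1)]), (1106, [(43, 0)])], .N 3]⟩,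
  ⟨92, 137, 8, 18, [.N 12, .N 1]⟩,
  ⟨92, 138, 9, 16, [.N 4, .N 1]⟩,
  ⟨94, 139, 3, 47, [.N 5, .N 22, .N 3]⟩,
  ⟨94, 140, 9, 16, [.N 6]⟩,
  ⟨96, 140, 8, 18, [.N 11, .N 4]⟩,
  ⟨96, 141, 9, 16, [.N 7]⟩,
  ⟨98, 141, 9, 16, [.N 8]⟩,
  ⟨98, 142, 5, 29, [.N 24, .N 1]⟩,
  ⟨100, 143, 9, 16, [.N 9]⟩,
  ⟨100, 144, 10, 15, []⟩,
  ⟨102, 144, 7, 21, [.N 22]⟩,
  ⟨102, 145, 10, 15, [.N 1]⟩,
  ⟨104, 146, 10, 15, [.N 2]⟩,
  ⟨104, 147, 10, 15, [.N 2]⟩,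
  ⟨106, 147, 10, 15, [.N 3]⟩,
  ⟨106, 148, 10, 15, [.N 3]⟩,
  ⟨113, 153, 8, 20, [.N 21]⟩,
  ⟨115, 153, 8, 20, [.N 22]⟩,
  ⟨115, 154, 9, 18, [.M 85 [(0, [(1359, 0), (60, 15), (4, 16)]), (85, [(1274, 0), (56, 14), (4, 15)]), (170, [(1189, 0), (52, 13), (4, 14)]), (255, [(1104, 0), (48, 12), (4, 13)]), (340, [(1019, 0), (44, 11), (4, 12)]), (425, [(934, 0), (40, 10), (4, 11)]), (510, [(849, 0), (36, 9), (4, 10)]), (595, [(764, 0), (32, 8), (4, 9)]), (680, [(679, 0), (28, 7), (4, 8)]), (765, [(594, 0), (24, 6), (4, 7)]), (850, [(509, 0), (20, 5), (4, 6)]), (935, [(424, 0), (16, 4), (4, 5)]), (1020, [(339, 0), (12, 3), (4, 4)]), (1105, [(254, 0), (8, 2), (4, 3)]), (1190, [(169, 0), (4, 1), (4, 2)]), (1275, [(84, 0)])], .M 94 [(0, [(1423, 0), (71, 15)]), (94, [(1329, 0), (70, 14)]), (188, [(1235, 0), (65, 13)]), (282, [(1141,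 0), (60, 12)]), (376, [(1047, 0), (55, 11)]), (470, [(953, 0), (50, 10)]), (564, [(859, 0), (45, 9)]), (658, [(765, 0), (40, 8)]), (752, [(671, 0), (35, 7)]), (846, [(577, 0), (30, 6)]), (940, [(483, 0), (25, 5)]), (1034, [(389, 0), (20, 4)]), (1128, [(295, 0), (15, 3)]), (1222, [(201, 0), (10, 2)]), (1316, [(107, 0), (5, 1)]), (1410, [(13, 0)])], .N 8]⟩,
  ⟨117, 155, 6, 26, [.N 12, .N 21, .N 2]⟩,
  ⟨117, 156, 10, 16, [.N 8]⟩,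
  ⟨119, 156, 10, 16, [.N 9]⟩,
  ⟨119, 157, 10, 16, [.N 8, .N 1]⟩,
  ⟨121, 157, 9, 18, [.N 18]⟩,
  ⟨121, 158, 11, 15, []⟩,
  ⟨123, 159, 6, 27, [.N 26, .N 3, .N 5]⟩,
  ⟨123, 160, 9, 18, [.N 19]⟩,
  ⟨125, 160, 10, 17, [.N 12]⟩,
  ⟨125, 161, 11, 15, [.N 2]⟩]

/-- cases treated by germs -/
def exc_14_3 : List (ℕ × ℕ) := []

theorem tab_14_3 : tabM 14 exc_14_3 cert_14_3 40 86 132 = true := by decide +kernel

/-- certificates for `m = 14`, `126 ≤ r < 203` -/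
def cert_14_4 : List Cert := [
  ⟨127, 161, 10, 17, [.N 13]⟩,
  ⟨127, 162, 11, 15, [.N 3]⟩,
  ⟨129, 163, 11, 15, [.N 4]⟩,
  ⟨140, 170, 6, 29, [.N 34, .N 2]⟩,
  ⟨142, 171, 6, 29, [.N 34, .N 3]⟩,
  ⟨142, 172, 8, 22, [.N 31]⟩,
  ⟨144, 172, 11, 16, [.N 11]⟩,
  ⟨144, 173, 12, 15, []⟩,
  ⟨146, 173, 11, 16, [.N 12]⟩,
  ⟨146, 174, 12, 15, [.N 1]⟩,
  ⟨148, 174, 10, 18, [.N 22]⟩,
  ⟨148, 175, 12, 15, [.N 2]⟩,
  ⟨150, 175, 11, 16, [.N 14]⟩,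
  ⟨150, 176, 12, 15, [.N 3]⟩,
  ⟨152, 177, 12, 15, [.N 4]⟩,
  ⟨152, 178, 12, 15, [.N 4]⟩,
  ⟨154, 178, 12, 15, [.N 5]⟩,
  ⟨169, 187, 13, 15, []⟩,
  ⟨171, 189, 13, 15, [.N 1]⟩,
  ⟨173, 189, 11, 18, [.N 7, .M 143 [(0, [(2153, 0), (107, 15)]), (143, [(2010, 0), (100, 14)]), (286, [(1867, 0), (98, 13)]), (429, [(1724, 0), (90, 12)]), (572, [(1581, 0), (82, 11)]), (715, [(1438, 0), (74, 10)]), (858, [(1295, 0), (66, 9)]), (1001, [(1152, 0), (58, 8)]), (1144, [(1009, 0), (50, 7)]), (1287, [(866, 0), (42, 6)]), (1430, [(723, 0), (34, 5)]), (1573, [(580, 0), (26, 4)]), (1716, [(437, 0), (18, 3)]), (1859, [(294, 0), (10, 2)]), (2002, [(151, 0), (2, 1)]), (2145, [(8, 0)])], .N 11]⟩,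
  ⟨173, 190, 13, 15, [.N 2]⟩,
  ⟨175, 190, 6, 32, [.N 42, .N 3]⟩,
  ⟨175, 191, 13, 15, [.N 3]⟩,
  ⟨177, 191, 13, 15, [.N 4]⟩,
  ⟨177, 192, 13, 15, [.N 4]⟩,
  ⟨179, 192, 13, 15, [.N 5]⟩,
  ⟨179, 193, 13, 15, [.N 5]⟩,
  ⟨181, 193, 13, 15, [.N 6]⟩,
  ⟨200, 204, 14, 15, [.N 2]⟩,
  ⟨202, 204, 13, 16, [.N 15, .N 1]⟩,
  ⟨202, 205, 14, 15, [.N 3]⟩]

/-- cases treated by germs -/
def exc_14_4 : List (ℕ × ℕ) := [(171, 188)]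

theorem tab_14_4 : tabM 14 exc_14_4 cert_14_4 77 126 161 = true := by decide +kernel

/-- certificates for `m = 14`, `203 ≤ r < 283` -/
def cert_14_5 : List Cert := [
  ⟨204, 205, 14, 15, [.N 4]⟩,
  ⟨204, 206, 14, 15, [.N 4]⟩,
  ⟨206, 206, 14, 15, [.N 5]⟩,
  ⟨206, 207, 14, 15, [.N 5]⟩,
  ⟨208, 207, 14, 15, [.N 6]⟩,
  ⟨208, 208, 14, 15, [.N 6]⟩,
  ⟨210, 208, 14, 15, [.N 7]⟩,
  ⟨235, 221, 15, 15, [.N 5]⟩,
  ⟨237, 221, 15, 15, [.N 6]⟩,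
  ⟨237, 222, 15, 15, [.N 6]⟩,
  ⟨239, 222, 15, 15, [.N 7]⟩,
  ⟨239, 223, 15, 15, [.N 7]⟩,
  ⟨241, 223, 15, 15, [.N 8]⟩,
  ⟨272, 238, 16, 15, [.N 8]⟩,
  ⟨274, 238, 16, 15, [.N 9]⟩]

/-- cases treated by germs -/
def exc_14_5 : List (ℕ × ℕ) := []

theorem tab_14_5 : tabM 14 exc_14_5 cert_14_5 80 203 204 = true := by decide +kernel

/-- certificates for `m = 14`, `283 ≤ r < 289` -/
def cert_14_6 : List Cert := []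

/-- cases treated by germs -/
def exc_14_6 : List (ℕ × ℕ) := []

theorem tab_14_6 : tabM 14 exc_14_6 cert_14_6 6 283 242 = true := by decide +kernel

/-- certificates for `m = 15`, `10 ≤ r < 29` -/
def cert_15_0 : List Cert := [
  ⟨10, 47, 2, 24, [.N 1, .M 7 [(0, [(118, 0), (12, 16), (2, 18)]), (7, [(111, 0), (11, 14), (2, 17)]), (14, [(104, 0), (11, 14), (1, 16)]), (21, [(97, 0), (10, 13), (1, 14)]), (28, [(90, 0), (9, 12), (2, 14)]), (35, [(83, 0), (8, 10), (2, 13)]), (42, [(76, 0), (8, 10), (1, 12)]), (49, [(69, 0), (7, 9), (1, 10)]), (56, [(62, 0), (6, 8), (1, 9)]), (63, [(55, 0), (5, 6), (1, 8)]), (70, [(48, 0), (5, 6)]), (77, [(41, 0), (4, 5), (1, 6)]), (84, [(34, 0), (3, 4), (1, 5)]), (91, [(27, 0), (2, 2), (1, 4)]), (98, [(20, 0), (2, 2)]), (105, [(13, 0), (1, 1), (1, 2)]), (112, [(6, 0)])], .N 1]⟩,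
  ⟨10, 48, 2, 25, [.N 1, .M 8 [(0, [(121, 0), (26, 15), (5, 18), (2, 19)]), (8, [(113, 0), (24, 14), (5, 17)]), (16, [(105, 0), (22, 13), (4, 15), (2, 16)]), (24, [(97, 0), (21, 12), (3, 14), (2, 15)]), (32, [(89, 0), (19, 11), (3, 13)]), (40, [(81, 0), (17, 10), (4, 12)]), (48, [(73, 0), (15, 9), (4, 11)]), (56, [(65, 0), (14, 8), (1, 9), (2, 10)]), (64, [(57, 0), (12, 7), (2, 8)]), (72, [(49, 0), (10, 6), (2, 7)]), (80, [(41, 0), (8, 5), (2, 6)]), (88, [(33, 0), (7, 4), (1, 5)]), (96, [(25, 0), (5, 3)]), (104, [(17, 0), (3, 2)]), (112, [(9, 0), (1, 1)]), (120, [(1, 0)])]]⟩,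
  ⟨12, 52, 2, 27, [.N 1, .M 7 [(0, [(131, 0), (13, 18), (2, 20)]), (7, [(124, 0), (12, 16), (2, 19)]), (14, [(117, 0), (12, 16), (1, 18)]), (21, [(110, 0), (11, 15), (1, 16)]), (28, [(103, 0), (10, 14), (2, 16)]), (35, [(96, 0), (9, 12), (2, 15)]), (42, [(89, 0), (9, 12), (1, 14)]), (49, [(82, 0), (8, 11), (1, 12)]), (56, [(75, 0), (7, 10), (1, 11)]), (63, [(68, 0), (6, 8), (1, 10)]), (70, [(61, 0), (6, 8)]), (77, [(54, 0), (5, 7), (1, 8)]), (84, [(47, 0), (4, 6), (1, 7)]), (91, [(40, 0), (3, 4), (1, 6)]), (98, [(33, 0), (3, 4)]), (105, [(26, 0), (2, 3), (1, 4)]), (112, [(19, 0), (1, 2)]), (119, [(12, 0)]), (126, [(5, 0)])], .N 1, .N 1]⟩,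
  ⟨12, 53, 2, 27, [.N 3]⟩,
  ⟨13, 54, 3, 19, [.N 1, .M 12 [(0, [(180, 0), (13, 15), (1, 16)]), (12, [(168, 0), (12, 14), (1, 15)]), (24, [(156, 0), (11, 13)]), (36, [(144, 0), (10, 12)]), (48, [(132, 0), (9, 11)]), (60, [(120, 0), (8, 10)]), (72, [(108, 0), (7, 8)]), (84, [(96, 0), (7, 8)]), (96, [(84, 0), (6, 7)]), (108, [(72, 0), (5, 6)]), (120, [(60, 0), (4, 5)]), (132, [(48, 0), (3, 4)]), (144, [(36, 0), (2, 3)]), (156, [(24, 0), (1, 2)]), (168, [(12, 0)])]]⟩,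
  ⟨13, 55, 3, 19, [.N 2]⟩,
  ⟨14, 56, 2, 29, [.N 1, .M 7 [(0, [(141, 0), (15, 20), (1, 22)]), (7, [(134, 0), (14, 19), (1, 20)]), (14, [(127, 0), (13, 18), (2, 20)]), (21, [(120, 0), (12, 16), (1, 18), (1, 19)]), (28, [(113, 0), (12, 16)]), (35, [(106, 0), (11, 15), (1, 16)]), (42, [(99, 0), (10, 14), (1, 15)]), (49, [(92, 0), (9, 12), (1, 14)]), (56, [(85, 0), (9, 12)]), (63, [(78, 0), (8, 11), (1, 12)]), (70, [(71, 0), (7, 10), (1, 11)]), (77, [(64, 0), (6, 8), (1, 10)]), (84, [(57, 0), (6, 8)]), (91, [(50, 0), (5, 7)]), (98, [(43, 0), (4, 6)]), (105, [(36, 0), (3, 4)]), (112, [(29, 0), (3, 4)]), (119, [(22, 0), (2, 3)]), (126, [(15, 0), (1, 2)]), (133, [(8, 0)]), (140, [(1, 0)])], .N 1, .N 1, .N 1]⟩,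
  ⟨14, 57, 2, 29, [.N 3, .N 1]⟩,
  ⟨15, 58, 3, 20, [.N 1, .M 13 [(0, [(193, 0), (26, 14), (4, 16), (2, 17)]), (13, [(180, 0), (24, 13), (4, 15), (2, 16)]), (26, [(167, 0), (22, 12), (4, 14)]), (39, [(154, 0), (21, 11), (3, 13)]), (52, [(141, 0), (19, 10), (3, 12)]), (65, [(128, 0), (17, 9), (4, 11)]), (78, [(115, 0), (15, 8), (4, 10)]), (91, [(102, 0), (13, 7), (2, 8), (2, 9)]), (104, [(89, 0), (11, 6), (2, 7)]), (117, [(76, 0), (9, 5), (2, 6)]), (130, [(63, 0), (7, 4), (2, 5)]), (143, [(50, 0), (5, 3), (2, 4)]), (156, [(37, 0), (4, 2), (1, 3)]), (169, [(24, 0), (2, 1), (2, 2)]), (182, [(11, 0)])]]⟩,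
  ⟨15, 59, 3, 20, [.N 1, .M 13 [(0, [(196, 0), (28, 15), (4, 17)]), (13, [(183, 0), (27, 14), (3, 16)]), (26, [(170, 0), (25, 13), (3, 15)]), (39, [(157, 0), (23, 12), (2, 13), (2, 14)]), (52, [(144, 0), (21, 11), (2, 12)]), (65, [(131, 0), (19, 10), (2, 11)]), (78, [(118, 0), (17, 9), (2, 10)]), (91, [(105, 0), (15, 8), (2, 9)]), (104, [(92, 0), (13, 7), (2, 8)]), (117, [(79, 0), (11, 6)]), (130, [(66, 0), (10, 5)]), (143, [(53, 0), (8, 4)]), (156, [(40, 0), (6, 3)]), (169, [(27, 0), (4, 2)]), (182, [(14, 0), (2, 1)]), (195, [(1, 0)])]]⟩,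
  ⟨16, 60, 3, 21, [.N 3]⟩,
  ⟨16, 61, 4, 16, []⟩,
  ⟨17, 62, 3, 21, [.N 1, .M 13 [(0, [(206, 0), (28, 15), (6, 18)]), (13, [(193, 0), (27, 14), (3, 16), (2, 17)]), (26, [(180, 0), (25, 13), (3, 15), (2, 16)]), (39, [(167, 0), (23, 12), (4, 14)]), (52, [(154, 0), (21, 11), (4, 13)]), (65, [(141, 0), (19, 10), (4, 12)]), (78, [(128, 0), (17, 9), (4, 11)]), (91, [(115, 0), (15, 8), (4, 10)]), (104, [(102, 0), (13, 7), (2, 8), (2, 9)]), (117, [(89, 0), (11, 6), (2, 7)]), (130, [(76, 0), (10, 5), (1, 6)]), (143, [(63, 0), (8, 4), (2, 5)]), (156, [(50, 0), (6, 3), (2, 4)]), (169, [(37, 0), (4, 2), (2, 3)]), (182, [(24, 0), (2, 1), (2, 2)]), (195, [(11, 0)])], .N 1]⟩,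
  ⟨17, 63, 3, 22, [.N 2, .M 15 [(0, [(230, 0), (23, 15), (2, 16), (2, 17)]), (15, [(215, 0), (21, 14), (2, 15)]), (30, [(200, 0), (20, 13), (1, 14)]), (45, [(185, 0), (19, 12), (1, 13)]), (60, [(170, 0), (17, 11), (2, 12)]), (75, [(155, 0), (15, 10), (2, 11)]), (90, [(140, 0), (13, 8), (2, 10)]), (105, [(125, 0), (13, 8)]), (120, [(110, 0), (11, 7), (2, 8)]), (135, [(95, 0), (9, 6)]), (150, [(80, 0), (7, 5)]), (165, [(65, 0), (6, 4)]), (180, [(50, 0), (5, 3)]), (195, [(35, 0), (3, 2)]), (210, [(20, 0), (1, 1)]), (225, [(5, 0)])]]⟩,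
  ⟨19, 67, 3, 23, [.N 4]⟩,
  ⟨20, 68, 4, 18, [.N 2]⟩,
  ⟨21, 69, 3, 24, [.N 4, .N 1]⟩,
  ⟨21, 70, 3, 24, [.N 4, .N 1]⟩,
  ⟨22, 71, 4, 18, [.N 1, .N 1, .N 1]⟩,
  ⟨22, 72, 4, 19, [.N 3]⟩,
  ⟨23, 72, 3, 25, [.N 4, .N 2]⟩,
  ⟨23, 73, 3, 25, [.N 4, .N 2]⟩,
  ⟨24, 74, 3, 25, [.N 5, .N 1]⟩,
  ⟨24, 75, 4, 19, [.N 2, .N 2]⟩,
  ⟨25, 75, 4, 19, [.N 4]⟩,
  ⟨25, 76, 5, 16, []⟩,
  ⟨26, 77, 3, 26, [.N 5, .N 2]⟩,
  ⟨26, 78, 4, 20, [.N 3, .M 24 [(0, [(367, 0), (21, 15), (2, 16)]), (24, [(343, 0), (19, 14), (2, 15)]), (48, [(319, 0), (17, 12), (2, 14)]), (72, [(295, 0), (17, 12)]), (96, [(271, 0), (16, 11)]), (120, [(247, 0), (14, 10)]), (144, [(223, 0), (12, 9)]), (168, [(199, 0), (10, 8)]), (192, [(175, 0), (9, 6)]), (216, [(151, 0), (9, 6)]), (240, [(127, 0), (7, 5)]), (264, [(103, 0), (5, 4)]), (288, [(79, 0), (3, 3)]), (312, [(55,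 0), (1, 1)]), (336, [(31, 0), (1, 1)]), (360, [(7, 0)])]]⟩,
  ⟨28, 80, 3, 27, [.N 5, .N 3]⟩,
  ⟨28, 81, 4, 21, [.N 3, .M 25 [(0, [(382, 0), (36, 15), (2, 16)]), (25, [(357, 0), (33, 14), (3, 15)]), (50, [(332, 0), (30, 13), (3, 14)]), (75, [(307, 0), (27, 12), (3, 13)]), (100, [(282, 0), (25, 11), (2, 12)]), (125, [(257, 0), (24, 10), (1, 11)]), (150, [(232, 0), (21, 9), (3, 10)]), (175, [(207, 0), (18, 8), (3, 9)]), (200, [(182, 0), (15, 7)]), (225, [(157, 0), (12, 5)]), (250, [(132, 0), (12, 5)]), (275, [(107, 0), (9, 4)]), (300, [(82, 0), (6, 3)]), (325, [(57, 0), (3, 2)]), (350, [(32, 0)]), (375, [(7, 0)])]]⟩]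

/-- cases treated by germs -/
def exc_15_0 : List (ℕ × ℕ) := [(19, 66)]

theorem tab_15_0 : tabM 15 exc_15_0 cert_15_0 19 10 47 = true := by decide +kernel

/-- certificates for `m = 15`, `29 ≤ r < 51` -/
def cert_15_1 : List Cert := [
  ⟨30, 83, 4, 21, [.N 6]⟩,
  ⟨30, 84, 4, 22, [.N 6]⟩,
  ⟨31, 85, 5, 18, [.N 3]⟩,
  ⟨32, 86, 4, 22, [.N 1, .N 1, .N 2, .M 25 [(0, [(420, 0), (11, 16), (1, 17)]), (25, [(395, 0), (10, 15), (1, 16)]), (50, [(370, 0), (9, 14), (1, 15)]), (75, [(345, 0), (8, 13), (1, 14)]), (100, [(320, 0), (7, 12), (1, 13)]), (125, [(295, 0), (6, 9), (1, 12)]), (150, [(270, 0), (6, 9)]), (175, [(245, 0), (6, 9)]), (200, [(220, 0), (5, 8), (1, 9)]), (225, [(195, 0), (4, 7)]), (250, [(170, 0), (3, 5)]), (275, [(145, 0), (3, 5)]), (300, [(120, 0), (2, 4)]), (325, [(95, 0), (1, 3)]), (350, [(70, 0)]), (375,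 [(45, 0)]), (400, [(20, 0)])], .N 3]⟩,
  ⟨32, 87, 5, 18, [.N 3]⟩,
  ⟨33, 87, 5, 18, [.N 2, .N 2]⟩,
  ⟨33, 88, 4, 23, [.N 7]⟩,
  ⟨34, 88, 5, 18, [.N 4]⟩,
  ⟨34, 89, 3, 30, [.N 8, .N 1]⟩,
  ⟨35, 90, 5, 19, [.N 1, .N 1, .M 31 [(0, [(480, 0), (28, 15), (2, 16)]), (31, [(449, 0), (26, 14), (2, 15)]), (62, [(418, 0), (24, 13), (2, 14)]), (93, [(387, 0), (22, 12), (2, 13)]), (124, [(356, 0), (20, 11), (2, 12)]), (155, [(325, 0), (18, 10), (2, 11)]), (186, [(294, 0), (16, 9), (2, 10)]), (217, [(263, 0), (14, 8)]), (248, [(232, 0), (12, 7)]), (279, [(201, 0), (10, 6)]), (310, [(170, 0), (8, 5)]), (341, [(139, 0), (6, 4)]), (372, [(108, 0), (4, 3)]), (403, [(77, 0), (3, 2)]), (434, [(46, 0), (1, 1)]), (465, [(15, 0)])], .N 1]⟩,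
  ⟨35, 91, 5, 19, [.N 5]⟩,
  ⟨36, 91, 5, 19, [.N 5]⟩,
  ⟨36, 92, 6, 16, []⟩,
  ⟨37, 92, 5, 19, [.N 2, .N 4]⟩,
  ⟨37, 93, 5, 19, [.N 3, .M 34 [(0, [(514, 0), (39, 15), (3, 16)]), (34, [(480, 0), (36, 14), (3, 15)]), (68, [(446, 0), (33, 13), (3, 14)]), (102, [(412, 0), (30, 12), (3, 13)]), (136, [(378, 0), (29, 11)]), (170, [(344, 0), (27, 10)]), (204, [(310, 0), (24, 9)]), (238, [(276, 0), (21, 8)]), (272, [(242, 0), (18, 7)]), (306, [(208, 0), (15, 6)]), (340, [(174, 0), (12, 5)]), (374, [(140, 0), (9, 4)]), (408, [(106, 0), (7, 3)]), (442, [(72, 0), (6, 2)]), (476, [(38, 0), (3, 1)]), (510, [(4, 0)])]]⟩,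
  ⟨38, 94, 6, 16, [.N 1]⟩,
  ⟨39, 95, 3, 32, [.N 7, .N 4, .N 1]⟩,
  ⟨39, 96, 5, 20, [.N 6]⟩,
  ⟨41, 97, 5, 20, [.N 7]⟩,
  ⟨41, 98, 4, 25, [.N 9, .N 1]⟩,
  ⟨43, 100, 5, 21, [.N 2, .N 1, .M 33 [(0, [(552, 0), (28, 16), (2, 17)]), (33, [(519, 0), (26, 15), (2, 16)]), (66, [(486, 0), (24, 14), (2, 15)]), (99, [(453, 0), (22, 13), (2, 14)]), (132, [(420, 0), (20, 12), (2, 13)]), (165, [(387, 0), (18, 11), (2, 12)]), (198, [(354, 0), (16, 9), (2, 11)]), (231, [(321, 0), (16, 9)]), (264, [(288, 0), (15, 8), (1, 9)]), (297, [(255, 0), (13, 7), (2, 8)]), (330, [(222, 0), (11, 6), (2, 7)]), (363, [(189, 0), (9, 5), (2, 6)]), (396, [(156, 0), (7, 4)]), (429, [(123, 0), (5, 3)]), (462, [(90, 0), (3, 2)]), (495, [(57, 0), (1, 1)]), (528, [(24, 0)])], .N 3, .N 1]⟩,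
  ⟨43, 101, 6, 17, [.N 3]⟩,
  ⟨45, 102, 5, 21, [.N 7, .N 2]⟩,
  ⟨45, 103, 5, 21, [.N 7, .N 2]⟩,
  ⟨47, 104, 6, 18, [.N 5]⟩,
  ⟨47, 105, 4, 27, [.N 9, .N 1, .N 3]⟩,
  ⟨49, 106, 5, 22, [.N 10]⟩,
  ⟨49, 107, 7, 16, []⟩,
  ⟨50, 108, 6, 19, [.N 2, .M 42 [(0, [(674, 0), (29, 16)]), (42, [(632, 0), (27, 15)]), (84, [(590, 0), (25, 14)]), (126, [(548, 0), (24, 13)]), (168, [(506, 0), (23, 12)]), (210, [(464, 0), (21, 11)]), (252, [(422, 0), (19, 10)]), (294, [(380, 0), (17, 9)]), (336, [(338, 0), (15, 8)]), (378, [(296, 0), (13, 7)]), (420, [(254, 0), (11, 6)]), (462, [(212, 0), (9, 5)]), (504, [(170, 0), (7, 4)]), (546, [(128, 0), (5, 3)]), (588, [(86, 0), (3, 2)]), (630, [(44, 0), (1, 1)]), (672, [(2, 0)])], .N 3]⟩,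
  ⟨50, 109, 5, 22, [.N 10]⟩]

/-- cases treated by germs -/
def exc_15_1 : List (ℕ × ℕ) := []

theorem tab_15_1 : tabM 15 exc_15_1 cert_15_1 22 29 81 = true := by decide +kernel

/-- certificates for `m = 15`, `51 ≤ r < 78` -/
def cert_15_2 : List Cert := [
  ⟨51, 109, 7, 16, [.N 1]⟩,
  ⟨51, 110, 6, 19, [.N 7]⟩,
  ⟨52, 110, 6, 19, [.N 1, .N 2, .N 2, .N 3]⟩,
  ⟨52, 111, 6, 19, [.N 7]⟩,
  ⟨54, 112, 6, 19, [.N 3, .N 3, .N 3]⟩,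
  ⟨54, 113, 6, 19, [.N 8]⟩,
  ⟨56, 114, 6, 20, [.N 8, .N 1]⟩,
  ⟨56, 115, 6, 20, [.N 9]⟩,
  ⟨58, 116, 6, 20, [.N 9, .N 1]⟩,
  ⟨58, 117, 5, 24, [.N 13]⟩,
  ⟨60, 118, 6, 20, [.N 9, .N 2]⟩,
  ⟨60, 119, 7, 18, [.N 5]⟩,
  ⟨62, 120, 6, 21, [.N 8, .N 4]⟩,
  ⟨62, 121, 7, 18, [.N 6]⟩,
  ⟨64, 122, 7, 18, [.N 7]⟩,
  ⟨64, 123, 8, 16, []⟩,
  ⟨66, 124, 8, 16, [.N 1]⟩,
  ⟨66, 125, 7, 18, [.N 8]⟩,
  ⟨67, 126, 7, 19, [.N 8]⟩,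
  ⟨68, 126, 8, 16, [.N 2]⟩,
  ⟨69, 127, 7, 19, [.N 3, .M 58 [(0, [(929, 0), (42, 16)]), (58, [(871, 0), (39, 15)]), (116, [(813, 0), (36, 13)]), (174, [(755, 0), (36, 13)]), (232, [(697, 0), (33, 12)]), (290, [(639, 0), (30, 11)]), (348, [(581, 0), (27, 10)]), (406, [(523, 0), (24, 9)]), (464, [(465, 0), (21, 8)]), (522, [(407, 0), (18, 7)]), (580, [(349, 0), (15, 6)]), (638, [(291, 0), (12, 5)]), (696, [(233, 0), (9, 4)]), (754, [(175, 0), (6, 3)]), (812, [(117, 0), (3, 2)]), (870, [(59, 0)]), (928, [(1, 0)])], .N 4]⟩,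
  ⟨69, 128, 8, 17, [.N 2]⟩,
  ⟨71, 129, 7, 19, [.N 3, .N 1, .M 61 [(0, [(960, 0), (56, 15), (4, 16)]), (61, [(899, 0), (52, 14), (4, 15)]), (122, [(838, 0), (48, 13), (4, 14)]), (183, [(777, 0), (44, 12), (4, 13)]), (244, [(716, 0), (40, 11), (4, 12)]), (305, [(655, 0), (36, 10), (4, 11)]), (366, [(594, 0), (32, 9), (4, 10)]), (427, [(533, 0), (28, 8), (4, 9)]), (488, [(472, 0), (24, 7), (4, 8)]), (549, [(411, 0), (20, 6), (4, 7)]), (610, [(350, 0), (16, 5), (4, 6)]), (671, [(289, 0), (13, 4)]), (732, [(228, 0), (10, 3)]), (793, [(167, 0), (8, 2)]), (854, [(106, 0), (4, 1)]), (915, [(45, 0)])], .N 3]⟩,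
  ⟨71, 130, 8, 17, [.N 3]⟩,
  ⟨73, 130, 7, 19, [.N 11]⟩,
  ⟨73, 131, 7, 19, [.M 53 [(0, [(903, 0), (68, 17), (4, 18)]), (53, [(850, 0), (64, 16), (4, 17)]), (106, [(797, 0), (60, 15), (4, 16)]), (159, [(744, 0), (56, 14), (4, 15)]), (212, [(691, 0), (52, 13), (4, 14)]), (265, [(638, 0), (48, 12)]), (318, [(585, 0), (44, 11)]), (371, [(532, 0), (40, 10)]), (424, [(479, 0), (36, 9)]), (477, [(426, 0), (32, 8)]), (530, [(373, 0), (28, 7)]), (583, [(320, 0), (24, 6)]), (636, [(267, 0), (20, 5)]), (689, [(214, 0), (16, 4)]), (742, [(161, 0), (12, 3)]), (795, [(108, 0), (8, 2)]), (848, [(55, 0), (4, 1)]), (901, [(2, 0)])], .M 62 [(0, [(975, 0), (71, 15), (5, 16)]), (62, [(913, 0), (66, 14), (5, 15)]), (124, [(851, 0), (61, 13), (5, 14)]), (186, [(789, 0), (56, 12), (5, 13)]), (248, [(727, 0), (51, 11), (5, 12)]), (310,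 [(665, 0), (46, 10), (5, 11)]), (372, [(603, 0), (41, 9), (5, 10)]), (434, [(541, 0), (36, 8), (5, 9)]), (496, [(479, 0), (31, 7), (5, 8)]), (558, [(417, 0), (26, 6), (5, 7)]), (620, [(355, 0), (21, 5), (5, 6)]), (682, [(293, 0), (20, 4), (1, 5)]), (744, [(231, 0), (15, 3)]), (806, [(169, 0), (10, 2)]), (868, [(107, 0), (5, 1)]), (930, [(45, 0)])], .N 3]⟩,
  ⟨75, 132, 7, 19, [.N 11, .N 1]⟩,
  ⟨75, 133, 7, 20, [.N 10, .N 2]⟩,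
  ⟨77, 134, 7, 20, [.N 10, .N 3]⟩,
  ⟨77, 135, 8, 17, [.N 6]⟩]

/-- cases treated by germs -/
def exc_15_2 : List (ℕ × ℕ) := []

theorem tab_15_2 : tabM 15 exc_15_2 cert_15_2 27 51 109 = true := by decide +kernel

/-- certificates for `m = 15`, `78 ≤ r < 116` -/
def cert_15_3 : List Cert := [
  ⟨79, 136, 6, 23, [.N 9, .N 6, .N 3, .N 2]⟩,
  ⟨79, 137, 7, 20, [.N 13]⟩,
  ⟨81, 137, 7, 20, [.N 14]⟩,
  ⟨81, 138, 9, 16, []⟩,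
  ⟨83, 139, 8, 18, [.N 9]⟩,
  ⟨83, 140, 9, 16, [.N 1]⟩,
  ⟨85, 141, 9, 16, [.N 2]⟩,
  ⟨85, 142, 9, 16, [.N 2]⟩,
  ⟨88, 144, 8, 19, [.N 4, .M 80 [(0, [(1201, 0), (115, 15), (8, 16)]), (80, [(1121, 0), (107, 14), (8, 15)]), (160, [(1041, 0), (99, 13), (8, 14)]), (240, [(961, 0), (91, 12), (8, 13)]), (320, [(881, 0), (83, 11), (8, 12)]), (400, [(801, 0), (79, 10), (4, 11)]), (480, [(721, 0), (71, 9)]), (560, [(641, 0), (63, 8)]), (640, [(561, 0), (55, 7)]), (720, [(481, 0), (47, 6)]), (800, [(401, 0), (39, 5)]), (880, [(321, 0), (31, 4)]), (960, [(241, 0), (23, 3)]), (1040, [(161, 0), (15, 2)]), (1120, [(81, 0), (7, 1)]), (1200, [(1, 0)])]]⟩,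
  ⟨90, 145, 8, 19, [.N 12]⟩,
  ⟨90, 146, 8, 19, [.N 12]⟩,
  ⟨92, 147, 8, 19, [.N 4, .M 78 [(0, [(1228, 0), (86, 15), (6, 16)]), (78, [(1150, 0), (80, 14), (6, 15)]), (156, [(1072, 0), (74, 13), (6, 14)]), (234, [(994, 0), (68, 12), (6, 13)]), (312, [(916, 0), (62, 11), (6, 12)]), (390, [(838, 0), (56, 10), (6, 11)]), (468, [(760, 0), (50, 9), (6, 10)]), (546, [(682, 0), (44, 8), (6, 9)]), (624, [(604, 0), (38, 7), (6, 8)]), (702, [(526, 0), (32, 6), (6, 7)]), (780, [(448, 0), (26, 5), (6, 6)]), (858, [(370, 0), (20, 4), (6, 5)]), (936, [(292, 0), (14, 3)]), (1014, [(214, 0), (10, 2)]), (1092, [(136, 0), (6, 1)]), (1170, [(58, 0)])], .N 4]⟩,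
  ⟨92, 148, 9, 17, [.N 5]⟩,
  ⟨94, 148, 9, 17, [.N 6]⟩,
  ⟨94, 149, 8, 19, [.N 4, .N 5, .N 6]⟩,
  ⟨96, 150, 5, 31, [.N 23, .N 2]⟩,
  ⟨96, 151, 9, 17, [.N 7]⟩,
  ⟨98, 151, 9, 17, [.N 8]⟩,
  ⟨98, 152, 5, 31, [.N 24, .N 1]⟩,
  ⟨100, 153, 9, 18, [.N 9]⟩,
  ⟨100, 154, 10, 16, []⟩,
  ⟨102, 154, 7, 23, [.N 22]⟩,
  ⟨102, 155, 10, 16, [.N 1]⟩,
  ⟨104, 156, 10, 16, [.N 2]⟩,
  ⟨104, 157, 10, 16, [.N 2]⟩,
  ⟨106, 158, 10, 16, [.N 3]⟩,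
  ⟨111, 162, 9, 19, [.N 1, .N 8, .N 5, .N 1]⟩,
  ⟨113, 163, 9, 19, [.N 4, .M 96 [(0, [(1511, 0), (101, 15), (4, 16)]), (96, [(1415, 0), (95, 14), (6, 15)]), (192, [(1319, 0), (88, 13), (7, 14)]), (288, [(1223, 0), (81, 12), (7, 13)]), (384, [(1127, 0), (74, 11), (7, 12)]), (480, [(1031, 0), (67, 10), (7, 11)]), (576, [(935, 0), (60, 9), (7, 10)]), (672, [(839, 0), (53, 8), (7, 9)]), (768, [(743, 0), (46, 7), (7, 8)]), (864, [(647, 0), (39, 6), (7, 7)]), (960, [(551, 0), (32, 5), (7, 6)]), (1056, [(455, 0), (25, 4), (7, 5)]), (1152, [(359, 0), (18, 3)]), (1248, [(263, 0), (11, 2)]), (1344, [(167, 0), (4, 1)]), (1440, [(71, 0)])], .N 5]⟩,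
  ⟨113, 164, 10, 17, [.N 6]⟩,
  ⟨115, 164, 10, 17, [.N 7]⟩,
  ⟨115, 165, 10, 17, [.N 5, .N 2]⟩]

/-- cases treated by germs -/
def exc_15_3 : List (ℕ × ℕ) := []

theorem tab_15_3 : tabM 15 exc_15_3 cert_15_3 38 78 135 = true := by decide +kernel

/-- certificates for `m = 15`, `116 ≤ r < 153` -/
def cert_15_4 : List Cert := [
  ⟨117, 166, 9, 19, [.N 6, .M 99 [(0, [(1575, 0), (78, 14), (6, 16)]), (99, [(1476, 0), (78, 14)]), (198, [(1377, 0), (72, 13), (6, 14)]), (297, [(1278, 0), (66, 12), (6, 13)]), (396, [(1179, 0), (60, 11), (6, 12)]), (495, [(1080, 0), (54, 10), (6, 11)]), (594, [(981, 0), (48, 9), (6, 10)]), (693, [(882, 0), (42, 8), (6, 9)]), (792, [(783, 0), (36, 7), (6, 8)]), (891, [(684, 0), (30, 6), (6, 7)]), (990, [(585, 0), (24, 5), (6, 6)]), (1089, [(486, 0), (18, 4), (6, 5)]), (1188, [(387, 0), (12,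 3), (6, 4)]), (1287, [(288, 0), (9, 2), (3, 3)]), (1386, [(189, 0), (6, 1)]), (1485, [(90, 0)])], .N 6]⟩,
  ⟨117, 167, 10, 17, [.N 8]⟩,
  ⟨119, 167, 10, 17, [.N 9]⟩,
  ⟨119, 168, 10, 17, [.N 9]⟩,
  ⟨121, 168, 9, 19, [.N 18]⟩,
  ⟨121, 169, 11, 16, []⟩,
  ⟨123, 170, 10, 18, [.N 11]⟩,
  ⟨123, 171, 9, 20, [.N 19]⟩,
  ⟨125, 171, 10, 18, [.N 12]⟩,
  ⟨125, 172, 11, 16, [.N 2]⟩,
  ⟨127, 173, 11, 16, [.N 3]⟩,
  ⟨127, 174, 11, 16, [.N 3]⟩,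
  ⟨129, 174, 11, 16, [.N 4]⟩,
  ⟨136, 180, 11, 17, [.N 7]⟩,
  ⟨138, 180, 10, 19, [.N 14, .N 4]⟩,
  ⟨138, 181, 11, 17, [.N 8]⟩,
  ⟨140, 181, 11, 17, [.N 9]⟩,
  ⟨140, 182, 6, 31, [.N 35]⟩,
  ⟨142, 183, 6, 31, [.N 34, .N 3]⟩,
  ⟨142, 184, 11, 17, [.N 10]⟩,
  ⟨144, 184, 11, 17, [.N 11]⟩,
  ⟨144, 185, 12, 16, []⟩,
  ⟨146, 185, 11, 17, [.N 12]⟩,
  ⟨146, 186, 12, 16, [.N 1]⟩,
  ⟨148, 186, 11, 17, [.N 13]⟩,
  ⟨148, 187, 12, 16, [.N 2]⟩,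
  ⟨150, 188, 12, 16, [.N 3]⟩,
  ⟨150, 189, 12, 16, [.N 3]⟩,
  ⟨152, 189, 12, 16, [.N 4]⟩,
  ⟨152, 190, 12, 16, [.N 4]⟩]

/-- cases treated by germs -/
def exc_15_4 : List (ℕ × ℕ) := []

theorem tab_15_4 : tabM 15 exc_15_4 cert_15_4 37 116 165 = true := by decide +kernel

/-- certificates for `m = 15`, `153 ≤ r < 209` -/
def cert_15_5 : List Cert := [
  ⟨154, 190, 12, 16, [.N 5]⟩,
  ⟨165, 198, 12, 17, [.N 10]⟩,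
  ⟨167, 198, 12, 17, [.N 11]⟩,
  ⟨167, 199, 12, 17, [.N 7, .N 4]⟩,
  ⟨169, 199, 11, 19, [.N 22]⟩,
  ⟨169, 200, 13, 16, []⟩,
  ⟨171, 201, 11, 19, [.N 7, .M 144 [(0, [(2293, 0), (126, 15), (4, 16)]), (144, [(2149, 0), (119, 14), (7, 15)]), (288, [(2005, 0), (110, 13), (9, 14)]), (432, [(1861, 0), (101, 12), (9, 13)]), (576, [(1717, 0), (92, 11), (9, 12)]), (720, [(1573, 0), (83, 10), (9, 11)]), (864, [(1429, 0), (74, 9), (9, 10)]), (1008, [(1285, 0), (65, 8), (9, 9)]), (1152, [(1141, 0), (56, 7), (9, 8)]), (1296, [(997, 0), (47, 6), (9, 7)]), (1440, [(853, 0), (38, 5), (9, 6)]), (1584, [(709, 0), (29, 4), (9, 5)]), (1728, [(565, 0), (20, 3), (9, 4)]), (1872, [(421, 0), (11, 2), (9, 3)]), (2016, [(277, 0), (5, 1)]), (2160, [(133, 0)])], .N 9]⟩,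
  ⟨171, 202, 10, 21, [.N 31]⟩,
  ⟨173, 202, 12, 17, [.N 10, .N 4]⟩,
  ⟨173, 203, 13, 16, [.N 2]⟩,
  ⟨175, 203, 13, 16, [.N 3]⟩,
  ⟨175, 204, 13, 16, [.N 3]⟩,
  ⟨177, 204, 12, 18, [.N 16]⟩,
  ⟨177, 205, 13, 16, [.N 4]⟩,
  ⟨179, 205, 12, 18, [.N 17]⟩,
  ⟨179, 206, 13, 16, [.N 5]⟩,
  ⟨181, 206, 12, 18, [.N 18]⟩,
  ⟨196, 216, 14, 16, []⟩,
  ⟨198, 216, 13, 17, [.N 14]⟩,
  ⟨198, 217, 13, 17, [.N 14]⟩,
  ⟨200, 217, 13, 17, [.N 15]⟩,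
  ⟨200, 218, 14, 16, [.N 2]⟩,
  ⟨202, 218, 13, 17, [.N 16]⟩,
  ⟨202, 219, 14, 16, [.N 3]⟩,
  ⟨204, 219, 13, 17, [.N 17]⟩,
  ⟨204, 220, 14, 16, [.N 4]⟩,
  ⟨206, 220, 13, 17, [.N 18]⟩,
  ⟨206, 221, 14, 16, [.N 5]⟩,
  ⟨208, 221, 13, 18, [.N 19]⟩,
  ⟨208, 222, 14, 16, [.N 6]⟩]

/-- cases treated by germs -/
def exc_15_5 : List (ℕ × ℕ) := []

theorem tab_15_5 : tabM 15 exc_15_5 cert_15_5 56 153 190 = true := by decide +kernel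

/-- certificates for `m = 15`, `209 ≤ r < 289` -/
def cert_15_6 : List Cert := [
  ⟨231, 234, 15, 16, [.N 3]⟩,
  ⟨233, 234, 13, 19, [.N 30]⟩,
  ⟨233, 235, 15, 16, [.N 4]⟩,
  ⟨235, 235, 13, 19, [.N 31]⟩,
  ⟨235, 236, 15, 16, [.N 5]⟩,
  ⟨237, 236, 14, 17, [.N 20]⟩,
  ⟨237, 237, 15, 16, [.N 6]⟩,
  ⟨239, 238, 15, 16, [.N 7]⟩,
  ⟨266, 252, 16, 16, [.N 5]⟩,
  ⟨268, 252, 14, 19, [.N 14, .M 237 [(0, [(3690, 0), (180, 15), (13, 16)]), (237, [(3453, 0), (167, 14), (13, 15)]), (474, [(3216, 0), (154, 13), (13, 14)]), (711, [(2979, 0), (141, 12), (13, 13)]), (948, [(2742, 0), (128, 11), (13, 12)]), (1185, [(2505, 0), (115, 10), (13, 11)]), (1422, [(2268, 0), (102, 9), (13, 10)]), (1659, [(2031, 0), (96, 8)]), (1896, [(1794, 0), (90, 7)]), (2133, [(1557, 0), (77, 6)]), (2370, [(1320, 0), (64, 5)]), (2607, [(1083, 0), (51, 4)]),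 (2844, [(846, 0), (38, 3)]), (3081, [(609, 0), (25, 2)]), (3318, [(372, 0), (12, 1)]), (3555, [(135, 0)])], .N 9]⟩,
  ⟨268, 253, 16, 16, [.N 6]⟩,
  ⟨270, 253, 16, 16, [.N 7]⟩,
  ⟨270, 254, 14, 19, [.N 34]⟩,
  ⟨272, 254, 16, 16, [.N 8]⟩,
  ⟨274, 254, 14, 19, [.N 36]⟩]

/-- cases treated by germs -/
def exc_15_6 : List (ℕ × ℕ) := []

theorem tab_15_6 : tabM 15 exc_15_6 cert_15_6 80 209 222 = true := by decide +kernel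

/-- certificates for `m = 15`, `289 ≤ r < 324` -/
def cert_15_7 : List Cert := [
  ⟨305, 270, 17, 16, [.N 7]⟩,
  ⟨307, 270, 17, 16, [.N 9]⟩,
  ⟨309, 270, 15, 19, [.N 39]⟩]

/-- cases treated by germs -/
def exc_15_7 : List (ℕ × ℕ) := []

theorem tab_15_7 : tabM 15 exc_15_7 cert_15_7 35 289 261 = true := by decide +kernel

/-- certificates for `m = 16`, `10 ≤ r < 27` -/
def cert_16_0 : List Cert := [
  ⟨10, 50, 2, 26, [.N 1, .M 7 [(0, [(126, 0), (13, 18), (1, 19), (1, 20)]), (7, [(119, 0), (12, 16), (1, 18)]), (14, [(112, 0), (12, 16)]), (21, [(105, 0), (11, 15), (1, 16)]), (28, [(98, 0), (10, 14), (1, 15)]), (35, [(91, 0), (9, 12), (1, 14)]), (42, [(84, 0), (9, 12)]), (49, [(77, 0), (8, 11), (1, 12)]), (56, [(70, 0), (7, 10), (1, 11)]), (63, [(63, 0), (6, 8)]), (70, [(56, 0), (6, 8)]), (77, [(49, 0), (5, 7)]), (84,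 [(42, 0), (4, 6)]), (91, [(35, 0), (3, 4)]), (98, [(28, 0), (3, 4)]), (105, [(21, 0), (2, 3)]), (112, [(14, 0), (1, 2)]), (119, [(7, 0)])], .N 1]⟩,
  ⟨10, 51, 2, 26, [.N 1, .M 7 [(0, [(128, 0), (14, 18), (1, 20)]), (7, [(121, 0), (13, 17), (1, 18)]), (14, [(114, 0), (12, 16), (2, 18)]), (21, [(107, 0), (11, 14), (1, 16), (1, 17)]), (28, [(100, 0), (11, 14)]), (35, [(93, 0), (10, 13), (1, 14)]), (42, [(86, 0), (9, 12), (1, 13)]), (49, [(79, 0), (8, 10), (1, 12)]), (56, [(72, 0), (8, 10)]), (63, [(65, 0), (7, 9), (1, 10)]), (70, [(58, 0), (6, 8), (1, 9)]), (77, [(51, 0), (5, 6), (1, 8)]), (84, [(44, 0), (5, 6)]), (91, [(37, 0), (4, 5)]), (98, [(30, 0), (3, 4)]), (105, [(23, 0), (2, 2)]), (112, [(16, 0), (2, 2)]), (119, [(9, 0), (1, 1)]), (126, [(2, 0)])], .N 1]⟩,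
  ⟨11, 54, 3, 19, [.N 1]⟩,
  ⟨12, 55, 2, 28, [.N 3]⟩,
  ⟨12, 56, 2, 29, [.N 1, .M 7 [(0, [(141, 0), (15, 20), (1, 22)]), (7, [(134, 0), (14, 19), (1, 20)]), (14, [(127, 0), (13, 18), (2, 20)]), (21, [(120, 0), (12, 16), (1, 18), (1, 19)]), (28, [(113, 0), (12, 16)]), (35, [(106, 0), (11, 15), (1, 16)]), (42, [(99, 0), (10, 14), (1, 15)]), (49, [(92, 0), (9, 12), (1, 14)]), (56, [(85, 0), (9, 12)]), (63, [(78, 0), (8, 11), (1, 12)]), (70, [(71, 0), (7, 10), (1, 11)]), (77, [(64, 0), (6, 8), (1, 10)]), (84, [(57, 0), (6, 8)]), (91, [(50, 0), (5, 7)]), (98, [(43, 0), (4, 6)]), (105, [(36, 0), (3, 4)]), (112, [(29, 0), (3, 4)]), (119, [(22, 0), (2, 3)]), (126, [(15, 0), (1, 2)]), (133, [(8, 0)]), (140, [(1, 0)])], .N 1, .N 1]⟩,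
  ⟨13, 57, 3, 20, [.N 2]⟩,
  ⟨14, 60, 2, 31, [.N 1, .M 7 [(0, [(151, 0), (15, 20), (2, 23), (1, 24)]), (7, [(144, 0), (15, 20), (1, 22)]), (14, [(137, 0), (14, 19), (1, 20)]), (21, [(130, 0), (13, 18), (2, 20)]), (28, [(123, 0), (12, 16), (2, 19)]), (35, [(116, 0), (12, 16), (1, 18)]), (42, [(109, 0), (11, 15), (1, 16)]), (49, [(102, 0), (10, 14), (2, 16)]), (56, [(95, 0), (9, 12), (1, 14), (1, 15)]), (63, [(88, 0), (9, 12)]), (70, [(81, 0), (8, 11), (1, 12)]), (77, [(74, 0), (7, 10), (1, 11)]), (84, [(67, 0), (6, 8), (1, 10)]), (91, [(60, 0), (6, 8)]), (98, [(53, 0), (5, 7), (1, 8)]), (105, [(46, 0), (4, 6), (1, 7)]), (112, [(39, 0), (3, 4), (1, 6)]), (119, [(32, 0), (3, 4)]), (126, [(25, 0), (2, 3)]), (133, [(18, 0), (1, 2)]), (140, [(11, 0)]), (147, [(4, 0)])], .N 1, .N 1, .M 13 [(0, [(208, 0), (15, 16), (1, 17)]),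 (13, [(195, 0), (14, 15), (1, 16)]), (26, [(182, 0), (13, 14), (1, 15)]), (39, [(169, 0), (11, 13)]), (52, [(156, 0), (10, 12)]), (65, [(143, 0), (9, 10)]), (78, [(130, 0), (9, 10)]), (91, [(117, 0), (8, 8)]), (104, [(104, 0), (8, 8)]), (117, [(91, 0), (7, 7)]), (130, [(78, 0), (5, 6)]), (143, [(65, 0), (4, 5)]), (156, [(52, 0), (3, 3)]), (169, [(39, 0), (3, 3)]), (182, [(26, 0), (1, 2)]), (195, [(13, 0)])]]⟩,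
  ⟨14, 61, 2, 31, [.N 3, .N 1]⟩,
  ⟨15, 62, 3, 21, [.N 1, .M 13 [(0, [(206, 0), (28, 15), (6, 18)]), (13, [(193, 0), (27, 14), (3, 16), (2, 17)]), (26, [(180, 0), (25, 13), (3, 15), (2, 16)]), (39, [(167, 0), (23, 12), (4, 14)]), (52, [(154, 0), (21, 11), (4, 13)]), (65, [(141, 0), (19, 10), (4, 12)]), (78, [(128, 0), (17, 9), (4, 11)]), (91, [(115, 0), (15, 8), (4, 10)]), (104, [(102, 0), (13, 7), (2, 8), (2, 9)]), (117, [(89, 0), (11, 6), (2, 7)]), (130, [(76, 0), (10, 5), (1, 6)]), (143, [(63, 0), (8, 4), (2, 5)]), (156, [(50, 0), (6, 3), (2, 4)]), (169, [(37, 0), (4, 2), (2, 3)]), (182, [(24, 0), (2, 1), (2, 2)]), (195, [(11, 0)])]]⟩,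
  ⟨15, 63, 3, 22, [.N 1, .N 2]⟩,
  ⟨16, 64, 3, 22, [.N 3]⟩,
  ⟨16, 65, 4, 17, []⟩,
  ⟨17, 66, 3, 23, [.N 1, .M 12 [(0, [(220, 0), (15, 17), (1, 19)]), (12, [(208, 0), (15, 17)]), (24, [(196, 0), (14, 16), (1, 17)]), (36, [(184, 0), (13, 15), (1, 16)]), (48, [(172, 0), (12, 14), (1, 15)]), (60, [(160, 0), (11, 13), (1, 14)]), (72, [(148, 0), (10, 12), (1, 13)]), (84, [(136, 0), (9, 11), (1, 12)]), (96, [(124, 0), (8, 10), (1, 11)]), (108, [(112, 0), (7, 8)]), (120, [(100, 0), (7, 8)]), (132, [(88, 0), (6, 7)]), (144, [(76, 0), (5, 6)]), (156, [(64, 0), (4, 5)]), (168, [(52, 0), (3, 4)]), (180, [(40, 0), (2, 3)]), (192, [(28, 0), (1, 2)]), (204, [(16, 0)]), (216, [(4, 0)])], .N 2]⟩,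
  ⟨17, 67, 3, 23, [.N 1, .N 1, .N 1, .N 1]⟩,
  ⟨19, 70, 2, 36, [.N 3, .N 3]⟩,
  ⟨19, 71, 3, 24, [.N 4]⟩,
  ⟨20, 72, 4, 19, [.N 1, .N 1]⟩,
  ⟨20, 73, 4, 19, [.N 2]⟩,
  ⟨21, 74, 2, 38, [.N 3, .N 3, .N 1]⟩,
  ⟨21, 75, 3, 26, [.N 4, .N 1]⟩,
  ⟨22, 75, 4, 19, [.N 3]⟩,
  ⟨22, 76, 4, 20, [.N 1, .M 20 [(0, [(321, 0), (30, 16), (2, 17)]), (20, [(301, 0), (28, 15), (2, 16)]), (40, [(281, 0), (26, 14), (2, 15)]), (60, [(261, 0), (25, 13), (1, 14)]), (80, [(241, 0), (23, 12), (2, 13)]), (100, [(221, 0), (21, 11), (2, 12)]), (120, [(201, 0), (19, 10), (2, 11)]), (140, [(181, 0), (17, 9)]), (160, [(161, 0), (15, 8)]), (180, [(141, 0), (13, 7)]), (200, [(121, 0), (11, 6)]), (220, [(101, 0), (9, 5)]), (240, [(81, 0), (7, 4)]), (260, [(61, 0), (5, 3)]), (280, [(41, 0), (3, 2)]), (300, [(21, 0), (1, 1)]), (320, [(1, 0)])]]⟩,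
  ⟨23, 77, 3, 26, [.N 4, .N 2]⟩,
  ⟨23, 78, 3, 27, [.N 4, .N 2]⟩,
  ⟨24, 79, 4, 20, [.N 2, .M 22 [(0, [(352, 0), (28, 16), (2, 17)]), (22, [(330, 0), (26, 15), (2, 16)]), (44, [(308, 0), (24, 14), (2, 15)]), (66, [(286, 0), (22, 12), (2, 14)]), (88, [(264, 0), (22, 12)]), (110, [(242, 0), (20, 11)]), (132, [(220, 0), (18, 10)]), (154, [(198, 0), (16, 9)]), (176, [(176, 0), (14, 8)]), (198, [(154, 0), (12, 7)]), (220, [(132, 0), (10, 6)]), (242, [(110, 0), (8, 4)]), (264, [(88, 0), (8, 4)]), (286, [(66, 0), (6, 3)]), (308, [(44, 0), (4, 2)]), (330, [(22, 0), (2, 1)])]]⟩,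
  ⟨24, 80, 4, 21, [.N 2, .N 2]⟩,
  ⟨25, 80, 4, 21, [.N 4]⟩,
  ⟨25, 81, 5, 17, []⟩,
  ⟨26, 82, 3, 28, [.N 5, .N 2]⟩,
  ⟨26, 83, 3, 28, [.N 5, .N 2]⟩]

/-- cases treated by germs -/
def exc_16_0 : List (ℕ × ℕ) := [(13, 58)]

theorem tab_16_0 : tabM 16 exc_16_0 cert_16_0 17 10 50 = true := by decide +kernel

/-- certificates for `m = 16`, `27 ≤ r < 50` -/
def cert_16_1 : List Cert := [
  ⟨28, 85, 3, 29, [.N 7]⟩,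
  ⟨28, 86, 3, 29, [.N 5, .N 1, .N 2]⟩,
  ⟨30, 88, 4, 23, [.N 6]⟩,
  ⟨30, 89, 4, 23, [.N 2, .M 22 [(0, [(398, 0), (30, 18), (2, 19)]), (22, [(376, 0), (28, 16), (2, 18)]), (44, [(354, 0), (28, 16)]), (66, [(332, 0), (26, 15), (2, 16)]), (88, [(310, 0), (24, 14), (2, 15)]), (110, [(288, 0), (22, 13), (2, 14)]), (132, [(266, 0), (20, 12), (2, 13)]), (154, [(244, 0), (18, 11)]), (176, [(222, 0), (16, 10)]), (198, [(200, 0), (14, 8)]), (220, [(178, 0), (14, 8)]), (242, [(156, 0), (12, 7)]), (264, [(134, 0), (10, 6)]), (286, [(112, 0), (8, 5)]), (308, [(90, 0), (6, 4)]), (330, [(68, 0), (4, 3)]), (352, [(46, 0), (2, 2)]), (374, [(24, 0), (1, 1)]), (396, [(2, 0)])], .N 2, .N 1]⟩,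
  ⟨31, 90, 5, 19, [.N 2, .N 1]⟩,
  ⟨31, 91, 5, 19, [.N 3]⟩,
  ⟨32, 91, 4, 23, [.N 6, .N 1]⟩,
  ⟨32, 92, 3, 31, [.N 8]⟩,
  ⟨33, 93, 5, 19, [.N 1, .N 2, .N 1]⟩,
  ⟨33, 94, 4, 24, [.N 7]⟩,
  ⟨34, 94, 4, 24, [.N 6, .N 2]⟩,
  ⟨34, 95, 4, 24, [.N 2, .N 6]⟩,
  ⟨35, 96, 2, 49, [.N 1, .N 4, .N 2, .N 2, .N 1, .M 28 [(0, [(496, 0), (14, 17)]), (28, [(468, 0), (13, 16)]), (56, [(440, 0), (11, 15)]), (84, [(412, 0), (10, 14), (1, 15)]), (112, [(384, 0), (8, 12), (2, 14)]), (140, [(356, 0), (8, 12)]), (168, [(328, 0), (7, 10)]), (196, [(300, 0), (7, 10)]), (224, [(272, 0), (6, 9)]), (252, [(244, 0), (5, 6)]), (280, [(216, 0), (5, 6)]), (308, [(188, 0), (5, 6)]), (336, [(160, 0), (3, 5)]), (364, [(132, 0), (2, 3)]), (392, [(104, 0), (2, 3)]), (420, [(76, 0)]), (448, [(48, 0)]), (476, [(20, 0)])], .N 2, .N 1]⟩,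
  ⟨35, 97, 5, 20, [.N 5]⟩,
  ⟨36, 97, 5, 20, [.N 5]⟩,
  ⟨36, 98, 6, 17, []⟩,
  ⟨37, 98, 5, 20, [.N 2, .N 4]⟩,
  ⟨37, 99, 5, 20, [.M 28 [(0, [(490, 0), (51, 17), (6, 19)]), (28, [(462, 0), (48, 16), (6, 18)]), (56, [(434, 0), (45, 15), (6, 17)]), (84, [(406, 0), (42, 14), (6, 16)]), (112, [(378, 0), (39, 13), (3, 14), (3, 15)]), (140, [(350, 0), (36, 12), (3, 13)]), (168, [(322, 0), (33, 11), (3, 12)]), (196, [(294, 0), (30, 10), (3, 11)]), (224, [(266, 0), (27, 9), (3, 10)]), (252, [(238, 0), (24, 8), (3, 9)]), (280, [(210, 0), (21, 7), (3, 8)]), (308, [(182, 0), (18, 6), (3, 7)]), (336, [(154, 0), (15, 5), (3, 6)]), (364, [(126, 0), (12, 4)]), (392, [(98, 0), (9, 3)]), (420, [(70, 0), (6, 2)]), (448, [(42, 0), (3, 1)]), (476, [(14, 0)])], .M 34 [(0, [(547, 0), (42, 16), (3, 17)]), (34, [(513, 0), (39, 15), (3, 16)]),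 (68, [(479, 0), (36, 14), (3, 15)]), (102, [(445, 0), (33, 12), (3, 14)]), (136, [(411, 0), (33, 12)]), (170, [(377, 0), (30, 11)]), (204, [(343, 0), (27, 10)]), (238, [(309, 0), (24, 9)]), (272, [(275, 0), (21, 8)]), (306, [(241, 0), (18, 7)]), (340, [(207, 0), (15, 6)]), (374, [(173, 0), (12, 4)]), (408, [(139, 0), (12, 4)]), (442, [(105, 0), (9, 3)]), (476, [(71, 0), (6, 2)]), (510, [(37, 0), (3, 1)]), (544, [(3, 0)])]]⟩,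
  ⟨38, 100, 6, 17, [.N 1]⟩,
  ⟨39, 101, 4, 26, [.N 7, .N 3]⟩,
  ⟨39, 102, 4, 26, [.N 9]⟩,
  ⟨41, 104, 5, 21, [.N 1, .N 2, .N 1, .M 34 [(0, [(591, 0), (13, 17)]), (34, [(557, 0), (12, 16)]), (68, [(523, 0), (11, 14)]), (102, [(489, 0), (11, 14)]), (136, [(455, 0), (10, 13)]), (170, [(421, 0), (9, 9)]), (204, [(387, 0), (9, 9)]), (238, [(353, 0), (9, 9)]), (272, [(319, 0), (9, 9)]), (306, [(285, 0), (8, 8)]), (340, [(251, 0), (7, 7)]), (374, [(217, 0), (6, 6)]), (408, [(183, 0), (5, 5)]), (442, [(149, 0), (4, 4)]), (476, [(115, 0), (3, 3)]), (510, [(81, 0), (2, 2)]), (544, [(47, 0), (1, 1)]), (578, [(13, 0)])], .N 3]⟩,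
  ⟨41, 105, 5, 22, [.N 7]⟩,
  ⟨43, 106, 5, 22, [.N 7, .N 1]⟩,
  ⟨43, 107, 5, 22, [.N 7, .N 1]⟩,
  ⟨45, 109, 5, 22, [.N 1, .N 3, .M 36 [(0, [(621, 0), (44, 17), (3, 18)]), (36, [(585, 0), (41, 16), (3, 17)]), (72, [(549, 0), (40, 15), (1, 16)]), (108, [(513, 0), (39, 14), (1, 15)]), (144, [(477, 0), (36, 13), (3, 14)]), (180, [(441, 0), (33, 12), (3, 13)]), (216, [(405, 0), (30, 11), (3, 12)]), (252, [(369, 0), (27, 10), (3, 11)]), (288, [(333, 0), (24, 9)]), (324, [(297, 0), (21, 8)]), (360, [(261, 0), (18, 7)]), (396, [(225, 0), (17, 6)]), (432, [(189, 0), (15, 5)]), (468, [(153, 0), (12, 4)]), (504, [(117, 0), (9, 3)]), (540, [(81, 0), (6, 2)]), (576, [(45, 0), (3, 1)]), (612, [(9, 0)])], .N 3]⟩,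
  ⟨45, 110, 6, 19, [.N 4]⟩,
  ⟨47, 111, 5, 23, [.N 7, .N 3]⟩,
  ⟨47, 112, 5, 23, [.N 7, .N 3]⟩,
  ⟨49, 113, 5, 23, [.N 10]⟩,
  ⟨49, 114, 7, 17, []⟩]

/-- cases treated by germs -/
def exc_16_1 : List (ℕ × ℕ) := []

theorem tab_16_1 : tabM 16 exc_16_1 cert_16_1 23 27 84 = true := by decide +kernel

/-- certificates for `m = 16`, `50 ≤ r < 76` -/
def cert_16_2 : List Cert := [
  ⟨50, 115, 6, 20, [.N 2, .M 42 [(0, [(719, 0), (30, 17)]), (42, [(677, 0), (29, 16)]), (84, [(635, 0), (28, 15)]), (126, [(593, 0), (26, 14)]), (168, [(551, 0), (24, 13)]), (210, [(509, 0), (22, 12)]), (252, [(467, 0), (20, 11)]), (294, [(425, 0), (18, 10)]), (336, [(383, 0), (16, 9)]), (378, [(341, 0), (14, 8)]), (420, [(299, 0), (12, 7)]), (462, [(257, 0), (10, 6)]), (504, [(215, 0), (8, 5)]), (546, [(173, 0), (6, 4)]), (588, [(131, 0), (4,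 3)]), (630, [(89, 0), (2, 2)]), (672, [(47, 0), (1, 1)]), (714, [(5, 0)])], .N 3]⟩,
  ⟨50, 116, 6, 20, [.N 4, .N 3]⟩,
  ⟨51, 116, 7, 17, [.N 1]⟩,
  ⟨51, 117, 6, 20, [.N 7]⟩,
  ⟨52, 117, 5, 24, [.N 8, .N 4]⟩,
  ⟨52, 118, 5, 24, [.N 11]⟩,
  ⟨54, 119, 5, 24, [.N 11, .N 1]⟩,
  ⟨54, 120, 6, 21, [.N 3, .N 3, .N 3]⟩,
  ⟨56, 121, 6, 21, [.N 9]⟩,
  ⟨56, 122, 6, 21, [.N 3, .M 46 [(0, [(783, 0), (62, 17), (4, 18)]), (46, [(737, 0), (58, 16), (4, 17)]), (92, [(691, 0), (54, 15), (4, 16)]), (138, [(645, 0), (50, 14), (4, 15)]), (184, [(599, 0), (46, 13), (4, 14)]), (230, [(553, 0), (45, 12), (1, 13)]), (276, [(507, 0), (41, 11)]), (322, [(461, 0), (37, 10)]), (368, [(415, 0), (33, 9)]), (414, [(369, 0), (29, 8)]), (460, [(323, 0), (25, 7)]), (506, [(277, 0), (21, 6)]), (552, [(231, 0), (17, 5)]), (598, [(185, 0), (13, 4)]), (644,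 [(139, 0), (9, 3)]), (690, [(93, 0), (5, 2)]), (736, [(47, 0), (4, 1)]), (782, [(1, 0)])], .N 3]⟩,
  ⟨58, 124, 6, 21, [.N 3, .M 45 [(0, [(795, 0), (45, 16), (3, 18)]), (45, [(750, 0), (45, 16)]), (90, [(705, 0), (42, 15), (3, 16)]), (135, [(660, 0), (39, 14), (3, 15)]), (180, [(615, 0), (36, 13), (3, 14)]), (225, [(570, 0), (33, 12), (3, 13)]), (270, [(525, 0), (30, 11), (3, 12)]), (315, [(480, 0), (27, 10), (3, 11)]), (360, [(435, 0), (24, 9), (3, 10)]), (405, [(390, 0), (21, 8), (3, 9)]), (450, [(345, 0), (18, 7), (3, 8)]), (495, [(300, 0), (15, 6), (3, 7)]), (540, [(255, 0), (12, 4)]), (585, [(210, 0), (12, 4)]), (630, [(165, 0), (9, 3)]), (675, [(120, 0), (6, 2)]), (720, [(75, 0), (3, 1)]), (765, [(30, 0)])], .N 2, .N 3]⟩,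
  ⟨58, 125, 7, 18, [.N 4]⟩,
  ⟨60, 126, 5, 26, [.N 11, .N 2, .N 2]⟩,
  ⟨60, 127, 7, 19, [.N 5]⟩,
  ⟨62, 128, 5, 26, [.N 13, .N 2]⟩,
  ⟨62, 129, 7, 19, [.N 6]⟩,
  ⟨64, 130, 7, 19, [.N 7]⟩,
  ⟨64, 131, 8, 17, []⟩,
  ⟨66, 132, 7, 19, [.N 8]⟩,
  ⟨66, 133, 7, 20, [.N 8]⟩,
  ⟨67, 133, 7, 20, [.N 5, .N 4]⟩,
  ⟨67, 134, 7, 20, [.N 5, .N 4]⟩,
  ⟨68, 134, 8, 17, [.N 2]⟩,
  ⟨69, 135, 7, 20, [.N 3, .N 4, .N 3]⟩,
  ⟨69, 136, 7, 20, [.N 6, .N 4]⟩,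
  ⟨71, 137, 6, 23, [.N 13, .N 2]⟩,
  ⟨71, 138, 7, 20, [.N 10]⟩,
  ⟨73, 139, 7, 20, [.N 10, .N 1]⟩,
  ⟨73, 140, 8, 18, [.N 4]⟩,
  ⟨75, 141, 6, 24, [.N 6, .N 9, .N 3]⟩,
  ⟨75, 142, 8, 18, [.N 5]⟩]

/-- cases treated by germs -/
def exc_16_2 : List (ℕ × ℕ) := []

theorem tab_16_2 : tabM 16 exc_16_2 cert_16_2 26 50 115 = true := by decide +kernel

/-- certificates for `m = 16`, `76 ≤ r < 107` -/
def cert_16_3 : List Cert := [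
  ⟨77, 143, 7, 21, [.N 2, .N 4, .M 67 [(0, [(1103, 0), (90, 16), (5, 17)]), (67, [(1036, 0), (84, 15), (6, 16)]), (134, [(969, 0), (78, 14), (6, 15)]), (201, [(902, 0), (72, 13), (6, 14)]), (268, [(835, 0), (66, 12), (6, 13)]), (335, [(768, 0), (60, 11), (6, 12)]), (402, [(701, 0), (54, 10), (6, 11)]), (469, [(634, 0), (48, 9), (6, 10)]), (536, [(567, 0), (42, 8), (6, 9)]), (603, [(500, 0), (36, 7), (6, 8)]), (670, [(433, 0), (30, 6)]), (737, [(366, 0), (24, 5)]), (804, [(299, 0), (22, 4)]), (871, [(232, 0), (18, 3)]), (938, [(165, 0), (12, 2)]), (1005, [(98, 0), (6, 1)]), (1072, [(31, 0)])], .N 2]⟩,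
  ⟨77, 144, 8, 19, [.N 6]⟩,
  ⟨79, 145, 7, 21, [.N 4, .M 61 [(0, [(1081, 0), (62, 17), (2, 18)]), (61, [(1020, 0), (60, 16), (2, 17)]), (122, [(959, 0), (56, 15), (4, 16)]), (183, [(898, 0), (52, 14), (4, 15)]), (244, [(837, 0), (48, 13), (4, 14)]), (305, [(776, 0), (44, 12), (4, 13)]), (366, [(715, 0), (40, 11), (4, 12)]), (427, [(654, 0), (36, 10), (4, 11)]), (488, [(593, 0), (32, 9), (4, 10)]), (549, [(532, 0), (28, 8), (4, 9)]), (610, [(471, 0), (24, 7), (4, 8)]), (671, [(410, 0), (20, 6), (4, 7)]), (732, [(349, 0), (17, 5), (3, 6)]), (793, [(288, 0), (16, 4)]), (854, [(227, 0), (12, 3)]), (915, [(166, 0), (8, 2)]), (976, [(105, 0), (4, 1)]), (1037, [(44, 0)])], .N 3, .N 4]⟩,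
  ⟨79, 146, 8, 19, [.N 7]⟩,
  ⟨81, 146, 7, 21, [.N 14]⟩,
  ⟨81, 147, 9, 17, []⟩,
  ⟨83, 148, 7, 22, [.N 15]⟩,
  ⟨83, 149, 9, 17, [.N 1]⟩,
  ⟨85, 150, 9, 17, [.N 2]⟩,
  ⟨85, 151, 9, 17, [.N 2]⟩,
  ⟨86, 152, 8, 20, [.N 10]⟩,
  ⟨88, 153, 8, 20, [.N 4, .M 76 [(0, [(1279, 0), (57, 16), (4, 17)]), (76, [(1203, 0), (53, 15), (4, 16)]), (152, [(1127, 0), (49, 14), (4, 15)]), (228, [(1051, 0), (45, 12), (4, 14)]), (304, [(975, 0), (45, 12)]), (380, [(899, 0), (41, 11), (4, 12)]), (456, [(823, 0), (37, 10), (4, 11)]), (532, [(747, 0), (33, 9), (4, 10)]), (608, [(671, 0), (29, 8), (4, 9)]), (684, [(595, 0), (25, 7), (4, 8)]), (760, [(519, 0), (21, 6), (4, 7)]), (836, [(443, 0), (17, 5), (4, 6)]), (912, [(367, 0), (13, 4), (4, 5)]), (988, [(291, 0), (9, 3)]), (1064, [(215, 0), (5, 2)]), (1140, [(139, 0), (1, 1)]), (1216, [(63,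 0)])], .N 4]⟩,
  ⟨88, 154, 9, 18, [.N 3]⟩,
  ⟨90, 154, 8, 20, [.N 12]⟩,
  ⟨90, 155, 8, 20, [.N 4, .M 76 [(0, [(1296, 0), (60, 16)]), (76, [(1220, 0), (60, 16)]), (152, [(1144, 0), (56, 15)]), (228, [(1068, 0), (52, 14)]), (304, [(992, 0), (48, 13)]), (380, [(916, 0), (44, 12)]), (456, [(840, 0), (40, 11)]), (532, [(764, 0), (36, 10)]), (608, [(688, 0), (32, 9)]), (684, [(612, 0), (28, 8)]), (760, [(536, 0), (24, 7)]), (836, [(460, 0), (20, 6)]), (912, [(384, 0), (16, 5)]), (988, [(308, 0), (12, 4)]), (1064, [(232, 0), (8, 3)]), (1140, [(156, 0), (6, 2)]), (1216, [(80, 0), (4, 1)]), (1292, [(4, 0)])], .N 5]⟩,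
  ⟨92, 156, 8, 20, [.N 12, .N 1]⟩,
  ⟨92, 157, 5, 32, [.N 23]⟩,
  ⟨94, 158, 8, 20, [.N 2, .N 12]⟩,
  ⟨94, 159, 9, 18, [.N 6]⟩,
  ⟨96, 160, 8, 21, [.N 4, .M 77 [(0, [(1337, 0), (80, 17), (5, 18)]), (77, [(1260, 0), (75, 16), (5, 17)]), (154, [(1183, 0), (70, 15), (5, 16)]), (231, [(1106, 0), (65, 14), (5, 15)]), (308, [(1029, 0), (60, 13), (5, 14)]), (385, [(952, 0), (55, 12), (5, 13)]), (462, [(875, 0), (50, 11), (5, 12)]), (539, [(798, 0), (49, 10), (1, 11)]), (616, [(721, 0), (44, 9)]), (693, [(644, 0), (39, 8)]), (770, [(567, 0), (34, 7)]), (847, [(490, 0), (29, 6)]), (924, [(413, 0), (24, 5)]), (1001, [(336, 0), (19, 4)]), (1078, [(259, 0), (14, 3)]), (1155, [(182, 0), (9, 2)]), (1232, [(105, 0), (4, 1)]), (1309, [(28, 0)])], .M 84 [(0, [(1422, 0), (31, 16), (3, 17)]), (84, [(1338, 0), (29, 15), (2, 16)]), (168,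 [(1254, 0), (27, 14), (2, 15)]), (252, [(1170, 0), (25, 13), (2, 14)]), (336, [(1086, 0), (23, 12), (2, 13)]), (420, [(1002, 0), (21, 11), (2, 12)]), (504, [(918, 0), (19, 10), (2, 11)]), (588, [(834, 0), (17, 9), (2, 10)]), (672, [(750, 0), (15, 8), (2, 9)]), (756, [(666, 0), (14, 7), (1, 8)]), (840, [(582, 0), (12, 6), (2, 7)]), (924, [(498, 0), (10, 5), (2, 6)]), (1008, [(414, 0), (8, 4), (2, 5)]), (1092, [(330, 0), (6, 3), (2, 4)]), (1176, [(246, 0), (4, 2)]), (1260, [(162, 0), (2, 1)]), (1344, [(78, 0)])], .N 5]⟩,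
  ⟨96, 161, 9, 18, [.N 7]⟩,
  ⟨98, 161, 9, 18, [.N 8]⟩,
  ⟨98, 162, 5, 33, [.N 24, .N 1]⟩,
  ⟨100, 163, 9, 19, [.N 9]⟩,
  ⟨100, 164, 10, 17, []⟩,
  ⟨102, 165, 4, 42, [.N 3, .N 1, .N 24, .N 3]⟩,
  ⟨102, 166, 7, 24, [.N 22]⟩,
  ⟨104, 166, 10, 17, [.N 2]⟩,
  ⟨104, 167, 10, 17, [.N 2]⟩,
  ⟨106, 168, 10, 17, [.N 3]⟩]

/-- cases treated by germs -/
def exc_16_3 : List (ℕ × ℕ) := []

theorem tab_16_3 : tabM 16 exc_16_3 cert_16_3 31 76 142 = true := by decide +kernel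

end Pool.Agent.Helper22.E6L
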