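import Pool.Agent.Helper22.E6L.Tab
import Pool.Agent.Helper22.E6L.G18

set_option autoImplicit false

/-! # Tables of certificates, `m = 16 … 18`, `r < (m + 3) ^ 2` (helper22), MP_e6aa12_ag -/

namespace Pool.Agent.Helper22.E6L

open Pool.Agent.Helper22.E6

/-- certificates for `m = 16`, `107 ≤ r < 145` -/
def cert_16_4 : List Cert := [
  ⟨109, 171, 9, 20, [.N 3, .N 5, .N 6]⟩,
  ⟨111, 172, 8, 22, [.N 9, .N 11, .N 1, .N 1]⟩,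
  ⟨111, 173, 10, 18, [.N 5]⟩,
  ⟨113, 173, 9, 20, [.N 15]⟩,
  ⟨113, 174, 9, 20, [.N 4, .N 5, .N 7]⟩,
  ⟨115, 175, 7, 26, [.N 24, .N 3]⟩,
  ⟨115, 176, 10, 18, [.N 7]⟩,
  ⟨117, 176, 10, 18, [.N 8]⟩,
  ⟨117, 177, 9, 20, [.N 6, .M 100 [(0, [(1680, 0), (106, 16), (7, 17)]), (100, [(1580, 0), (99, 15), (7, 16)]), (200, [(1480, 0), (92, 14), (7, 15)]), (300, [(1380, 0), (85, 13), (7, 14)]), (400, [(1280, 0), (78, 12), (7, 13)]), (500, [(1180, 0), (71, 11), (7, 12)]), (600, [(1080, 0), (64, 10), (7, 11)]), (700, [(980, 0), (57, 9), (7, 10)]), (800, [(880, 0), (50, 8), (7, 9)]), (900, [(780, 0), (43, 7), (7, 8)]), (1000, [(680, 0), (36, 6), (7, 7)]), (1100, [(580, 0), (29, 5), (7, 6)]), (1200, [(480, 0), (26, 4), (3, 5)]), (1300, [(380, 0), (21, 3), (5, 4)]), (1400, [(280, 0), (14, 2)]), (1500, [(180, 0), (7, 1)]), (1600, [(80, 0)])], .N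 5]⟩,
  ⟨119, 178, 9, 20, [.N 12, .N 6]⟩,
  ⟨119, 179, 10, 18, [.N 9]⟩,
  ⟨121, 179, 9, 20, [.N 18]⟩,
  ⟨121, 180, 11, 17, []⟩,
  ⟨123, 181, 10, 19, [.N 11]⟩,
  ⟨123, 182, 10, 19, [.N 11]⟩,
  ⟨125, 182, 9, 21, [.N 20]⟩,
  ⟨125, 183, 11, 17, [.N 2]⟩,
  ⟨127, 184, 11, 17, [.N 3]⟩,
  ⟨127, 185, 11, 17, [.N 3]⟩,
  ⟨129, 185, 11, 17, [.N 4]⟩,
  ⟨134, 190, 11, 18, [.N 6]⟩,
  ⟨136, 190, 10, 20, [.N 17]⟩,
  ⟨136, 191, 6, 32, [.N 34]⟩,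
  ⟨138, 192, 10, 20, [.N 5, .M 117 [(0, [(1980, 0), (107, 16), (2, 17)]), (117, [(1863, 0), (100, 15), (7, 16)]), (234, [(1746, 0), (93, 14), (7, 15)]), (351, [(1629, 0), (86, 13), (7, 14)]), (468, [(1512, 0), (79, 12), (7, 13)]), (585, [(1395, 0), (72, 11), (7, 12)]), (702, [(1278, 0), (65, 10), (7, 11)]), (819, [(1161, 0), (58, 9), (7, 10)]), (936, [(1044, 0), (51, 8), (7, 9)]), (1053, [(927, 0), (44, 7), (7, 8)]), (1170, [(810, 0), (37, 6), (7, 7)]), (1287, [(693, 0), (30, 5), (7, 6)]), (1404, [(576, 0), (23, 4), (7, 5)]), (1521, [(459, 0), (16, 3), (7, 4)]), (1638, [(342, 0), (9, 2), (7, 3)]), (1755, [(225, 0), (3, 1)]), (1872, [(108, 0)])], .N 7]⟩,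
  ⟨138, 193, 11, 18, [.N 8]⟩,
  ⟨140, 193, 11, 18, [.N 9]⟩,
  ⟨140, 194, 11, 18, [.N 7, .N 2]⟩,
  ⟨142, 195, 2, 98, [.N 3, .N 8, .N 34, .N 3]⟩,
  ⟨142, 196, 11, 18, [.N 10]⟩,
  ⟨144, 196, 11, 18, [.N 11]⟩,
  ⟨144, 197, 12, 17, []⟩]

/-- cases treated by germs -/
def exc_16_4 : List (ℕ × ℕ) := []

theorem tab_16_4 : tabM 16 exc_16_4 cert_16_4 38 107 169 = true := by decide +kernel

/-- certificates for `m = 16`, `145 ≤ r < 197` -/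
def cert_16_5 : List Cert := [
  ⟨146, 197, 10, 20, [.N 21]⟩,
  ⟨146, 198, 12, 17, [.N 1]⟩,
  ⟨148, 199, 10, 20, [.N 9, .M 128 [(0, [(2126, 0), (151, 16), (3, 17)]), (128, [(1998, 0), (141, 15), (10, 16)]), (256, [(1870, 0), (131, 14), (10, 15)]), (384, [(1742, 0), (121, 13), (10, 14)]), (512, [(1614, 0), (111, 12), (10, 13)]), (640, [(1486, 0), (101, 11), (10, 12)]), (768, [(1358, 0), (91, 10), (10, 11)]), (896, [(1230, 0), (81, 9), (10, 10)]), (1024, [(1102, 0), (71, 8), (10, 9)]), (1152, [(974, 0), (61, 7), (10, 8)]), (1280, [(846, 0), (52, 6), (9, 7)]), (1408, [(718, 0), (50, 5), (2, 6)]), (1536, [(590, 0), (40, 4)]), (1664, [(462, 0), (30, 3)]), (1792, [(334, 0), (20, 2)]), (1920, [(206, 0), (10, 1)]), (2048, [(78, 0)])], .N 5]⟩,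
  ⟨148, 200, 12, 17, [.N 2]⟩,
  ⟨150, 200, 11, 19, [.N 14]⟩,
  ⟨150, 201, 12, 17, [.N 3]⟩,
  ⟨152, 201, 11, 19, [.N 15]⟩,
  ⟨152, 202, 12, 17, [.N 4]⟩,
  ⟨163, 209, 11, 20, [.N 5, .M 138 [(0, [(2346, 0), (113, 17)]), (138, [(2208, 0), (106, 16)]), (276, [(2070, 0), (101, 15)]), (414, [(1932, 0), (97, 14)]), (552, [(1794, 0), (90, 13)]), (690, [(1656, 0), (83, 12)]), (828, [(1518, 0), (76, 11)]), (966, [(1380, 0), (69, 10)]), (1104, [(1242, 0), (62, 9)]), (1242, [(1104, 0), (55, 8)]), (1380, [(966, 0), (48, 7)]), (1518, [(828, 0), (41, 6)]), (1656, [(690, 0), (34, 5)]), (1794, [(552, 0), (27, 4)]), (1932, [(414, 0), (20, 3)]), (2070, [(276, 0), (13, 2)]), (2208, [(138, 0), (6, 1)])], .N 9]⟩,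
  ⟨163, 210, 12, 18, [.N 9]⟩,
  ⟨165, 210, 11, 20, [.N 6, .N 14, .N 1]⟩,
  ⟨165, 211, 12, 18, [.N 10]⟩,
  ⟨167, 211, 12, 18, [.N 11]⟩,
  ⟨167, 212, 12, 18, [.N 8, .N 3]⟩,
  ⟨169, 212, 11, 20, [.N 22]⟩,
  ⟨169, 213, 13, 17, []⟩,
  ⟨171, 214, 5, 43, [.N 38, .N 6]⟩,
  ⟨171, 215, 10, 22, [.N 31]⟩,
  ⟨173, 215, 12, 18, [.N 14]⟩,
  ⟨173, 216, 13, 17, [.N 2]⟩,
  ⟨175, 216, 12, 19, [.N 15]⟩,
  ⟨175, 217, 13, 17, [.N 3]⟩,
  ⟨177, 217, 12, 19, [.N 16]⟩,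
  ⟨177, 218, 13, 17, [.N 4]⟩,
  ⟨179, 219, 13, 17, [.N 5]⟩,
  ⟨192, 228, 13, 18, [.N 11]⟩,
  ⟨194, 228, 7, 33, [.N 47, .N 3]⟩,
  ⟨194, 229, 12, 20, [.N 23]⟩,
  ⟨196, 229, 13, 18, [.N 13]⟩,
  ⟨196, 230, 14, 17, []⟩]

/-- cases treated by germs -/
def exc_16_5 : List (ℕ × ℕ) := []

theorem tab_16_5 : tabM 16 exc_16_5 cert_16_5 52 145 197 = true := by decide +kernel

/-- certificates for `m = 16`, `197 ≤ r < 269` -/
def cert_16_6 : List Cert := [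
  ⟨198, 230, 13, 18, [.N 14]⟩,
  ⟨198, 231, 14, 17, [.N 1]⟩,
  ⟨200, 231, 12, 20, [.N 26]⟩,
  ⟨200, 232, 14, 17, [.N 2]⟩,
  ⟨202, 232, 12, 20, [.N 27]⟩,
  ⟨202, 233, 14, 17, [.N 3]⟩,
  ⟨204, 234, 7, 34, [.N 1, .N 49, .N 4]⟩,
  ⟨204, 235, 14, 17, [.N 4]⟩,
  ⟨206, 235, 14, 17, [.N 5]⟩,
  ⟨206, 236, 14, 17, [.N 5]⟩,
  ⟨208, 236, 14, 17, [.N 6]⟩,
  ⟨227, 247, 13, 20, [.N 11, .M 202 [(0, [(3345, 0), (164, 16), (11, 17)]), (202, [(3143, 0), (153, 15), (11, 16)]), (404, [(2941, 0), (142, 14), (11, 15)]), (606, [(2739, 0), (131, 13), (11, 14)]), (808, [(2537, 0), (120, 12), (11, 13)]), (1010, [(2335, 0), (109, 11), (11, 12)]), (1212, [(2133, 0), (98, 10), (11, 11)]), (1414, [(1931, 0), (92, 9), (6, 10)]), (1616, [(1729, 0), (87, 8)]), (1818, [(1527, 0), (76, 7)]), (2020, [(1325, 0), (65, 6)]), (2222, [(1123, 0), (54, 5)]), (2424, [(921,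 0), (43, 4)]), (2626, [(719, 0), (32, 3)]), (2828, [(517, 0), (21, 2)]), (3030, [(315, 0), (10, 1)]), (3232, [(113, 0)])], .N 7]⟩,
  ⟨229, 248, 13, 20, [.N 7, .M 193 [(0, [(3288, 0), (160, 17)]), (193, [(3095, 0), (155, 16)]), (386, [(2902, 0), (147, 15)]), (579, [(2709, 0), (137, 14)]), (772, [(2516, 0), (127, 13)]), (965, [(2323, 0), (117, 12)]), (1158, [(2130, 0), (107, 11)]), (1351, [(1937, 0), (97, 10)]), (1544, [(1744, 0), (87, 9)]), (1737, [(1551, 0), (77, 8)]), (1930, [(1358, 0), (67, 7)]), (2123, [(1165, 0), (57, 6)]), (2316, [(972, 0), (47, 5)]), (2509, [(779, 0), (37, 4)]), (2702, [(586, 0), (27, 3)]), (2895, [(393, 0), (17, 2)]), (3088, [(200, 0), (7, 1)]), (3281, [(7, 0)])], .N 13]⟩,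
  ⟨229, 249, 13, 20, [.N 28]⟩,
  ⟨231, 249, 13, 20, [.N 8, .M 195 [(0, [(3322, 0), (156, 17)]), (195, [(3127, 0), (148, 16)]), (390, [(2932, 0), (144, 15)]), (585, [(2737, 0), (134, 14)]), (780, [(2542, 0), (124, 13)]), (975, [(2347, 0), (114, 12)]), (1170, [(2152, 0), (104, 11)]), (1365, [(1957, 0), (94, 10)]), (1560, [(1762, 0), (84, 9)]), (1755, [(1567, 0), (74, 8)]), (1950, [(1372, 0), (64, 7)]), (2145, [(1177, 0), (54, 6)]), (2340, [(982, 0), (44, 5)]), (2535, [(787, 0), (34, 4)]), (2730, [(592, 0), (24, 3)]), (2925, [(397, 0), (14, 2)]), (3120, [(202, 0), (4, 1)]), (3315, [(7, 0)])], .N 13]⟩,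
  ⟨231, 250, 15, 17, [.N 3]⟩,
  ⟨233, 250, 14, 18, [.N 1, .N 11, .N 6]⟩,
  ⟨233, 251, 15, 17, [.N 4]⟩,
  ⟨235, 251, 15, 17, [.N 5]⟩,
  ⟨235, 252, 15, 17, [.N 5]⟩,
  ⟨237, 252, 15, 17, [.N 6]⟩,
  ⟨237, 253, 15, 17, [.N 6]⟩,
  ⟨239, 253, 15, 17, [.N 7]⟩,
  ⟨262, 266, 16, 17, [.N 3]⟩,
  ⟨264, 266, 15, 18, [.N 17, .N 2]⟩,
  ⟨264, 267, 16, 17, [.N 4]⟩,
  ⟨266, 267, 16, 17, [.N 5]⟩,
  ⟨266, 268, 16, 17, [.N 5]⟩,
  ⟨268, 268, 16, 17, [.N 6]⟩,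
  ⟨268, 269, 16, 17, [.N 6]⟩]

/-- cases treated by germs -/
def exc_16_6 : List (ℕ × ℕ) := []

theorem tab_16_6 : tabM 16 exc_16_6 cert_16_6 72 197 229 = true := by decide +kernel

/-- certificates for `m = 16`, `269 ≤ r < 349` -/
def cert_16_7 : List Cert := [
  ⟨270, 269, 16, 17, [.N 7]⟩,
  ⟨270, 270, 16, 17, [.N 7]⟩,
  ⟨272, 270, 16, 17, [.N 8]⟩,
  ⟨301, 285, 17, 17, [.N 6]⟩,
  ⟨303, 285, 17, 17, [.N 7]⟩,
  ⟨303, 286, 17, 17, [.N 7]⟩,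
  ⟨305, 286, 17, 17, [.N 8]⟩,
  ⟨305, 287, 17, 17, [.N 8]⟩,
  ⟨307, 287, 17, 17, [.N 9]⟩,
  ⟨342, 304, 18, 17, [.N 9]⟩,
  ⟨344, 304, 18, 17, [.N 10]⟩]

/-- cases treated by germs -/
def exc_16_7 : List (ℕ × ℕ) := []

theorem tab_16_7 : tabM 16 exc_16_7 cert_16_7 80 269 268 = true := by decide +kernel

/-- certificates for `m = 16`, `349 ≤ r < 361` -/
def cert_16_8 : List Cert := []

/-- cases treated by germs -/
def exc_16_8 : List (ℕ × ℕ) := []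

theorem tab_16_8 : tabM 16 exc_16_8 cert_16_8 12 349 306 = true := by decide +kernel

/-- certificates for `m = 17`, `10 ≤ r < 29` -/
def cert_17_0 : List Cert := [
  ⟨10, 53, 2, 27, [.N 1, .M 7 [(0, [(133, 0), (14, 18), (2, 21)]), (7, [(126, 0), (14, 18), (1, 20)]), (14, [(119, 0), (13, 17), (1, 18)]), (21, [(112, 0), (12, 16), (1, 17)]), (28, [(105, 0), (11, 14), (1, 16)]), (35, [(98, 0), (11, 14)]), (42, [(91, 0), (10, 13), (1, 14)]), (49, [(84, 0), (9, 12), (1, 13)]), (56, [(77, 0), (8, 10), (1, 12)]), (63, [(70, 0), (8, 10)]), (70, [(63, 0), (7, 9), (1, 10)]), (77, [(56, 0), (6, 8)]), (84, [(49, 0), (5, 6)]), (91, [(42, 0), (5, 6)]), (98, [(35, 0), (4, 5)]), (105, [(28, 0), (3, 4)]), (112, [(21, 0), (2, 2)]), (119, [(14, 0), (2, 2)]), (126, [(7, 0), (1, 1)])], .N 1]⟩,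
  ⟨10, 54, 2, 28, [.N 1, .M 7 [(0, [(136, 0), (14, 19), (1, 20)]), (7, [(129, 0), (13, 18), (2, 20)]), (14, [(122, 0), (12, 16), (2, 19)]), (21, [(115, 0), (12, 16), (1, 18)]), (28, [(108, 0), (11, 15), (1, 16)]), (35, [(101, 0), (10, 14), (1, 15), (1, 16)]), (42, [(94, 0), (9, 12), (1, 14)]), (49, [(87, 0), (9, 12)]), (56, [(80, 0), (8, 11), (1, 12)]), (63, [(73, 0), (7, 10), (1, 11)]), (70, [(66, 0), (6, 8), (1, 10)]), (77, [(59, 0), (6, 8)]), (84, [(52, 0), (5, 7), (1, 8)]), (91, [(45, 0), (4, 6), (1, 7)]), (98, [(38, 0), (3, 4)]), (105, [(31, 0), (3, 4)]), (112, [(24, 0), (2, 3)]), (119, [(17, 0), (1, 2)]), (126, [(10, 0)]), (133, [(3, 0)])], .N 1]⟩,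
  ⟨11, 57, 3, 20, [.N 1]⟩,
  ⟨12, 60, 2, 31, [.N 3]⟩,
  ⟨13, 61, 3, 21, [.N 1, .N 1]⟩,
  ⟨13, 62, 3, 21, [.N 1, .N 1]⟩,
  ⟨14, 63, 2, 32, [.N 3, .N 1]⟩,
  ⟨15, 66, 3, 23, [.N 1, .M 12 [(0, [(220, 0), (15, 17), (1, 19)]), (12, [(208, 0), (15, 17)]), (24, [(196, 0), (14, 16), (1, 17)]), (36, [(184, 0), (13, 15), (1, 16)]), (48, [(172, 0), (12, 14), (1, 15)]), (60, [(160, 0), (11, 13), (1, 14)]), (72, [(148, 0), (10, 12), (1, 13)]), (84, [(136, 0), (9, 11), (1, 12)]), (96, [(124, 0), (8, 10), (1, 11)]), (108, [(112, 0), (7, 8)]), (120, [(100, 0), (7, 8)]), (132, [(88, 0), (6, 7)]), (144, [(76, 0), (5, 6)]), (156, [(64, 0), (4, 5)]), (168, [(52, 0), (3, 4)]), (180, [(40, 0), (2, 3)]), (192, [(28, 0), (1, 2)]), (204, [(16, 0)]), (216, [(4, 0)])], .N 1]⟩,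
  ⟨15, 67, 3, 23, [.N 1, .N 2]⟩,
  ⟨16, 68, 3, 23, [.N 3]⟩,
  ⟨16, 69, 4, 18, []⟩,
  ⟨17, 70, 3, 24, [.N 1, .M 12 [(0, [(233, 0), (17, 19), (1, 20)]), (12, [(221, 0), (16, 18), (1, 19)]), (24, [(209, 0), (15, 17), (1, 18)]), (36, [(197, 0), (14, 16), (1, 17)]), (48, [(185, 0), (13, 15), (1, 16)]), (60, [(173, 0), (12, 14), (1, 15)]), (72, [(161, 0), (11, 13), (1, 14)]), (84, [(149, 0), (10, 11), (1, 13)]), (96, [(137, 0), (10, 11)]), (108, [(125, 0), (9, 10), (1, 11)]), (120, [(113, 0), (8, 9), (1, 10)]), (132, [(101, 0), (7, 8), (1, 9)]), (144, [(89, 0), (6, 7)]), (156, [(77, 0), (5, 6)]), (168, [(65, 0), (4, 5)]), (180, [(53, 0), (3, 4)]), (192, [(41, 0), (2, 2)]), (204, [(29, 0), (2, 2)]), (216, [(17, 0), (1, 1)]), (228, [(5, 0)])], .N 2]⟩,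
  ⟨17, 71, 3, 24, [.N 1, .N 1, .M 15 [(0, [(257, 0), (30, 17), (4, 19)]), (15, [(242, 0), (28, 16), (4, 18)]), (30, [(227, 0), (26, 15), (2, 16), (2, 17)]), (45, [(212, 0), (25, 14), (1, 15)]), (60, [(197, 0), (24, 13), (1, 14)]), (75, [(182, 0), (22, 12), (2, 13)]), (90, [(167, 0), (20, 11), (2, 12)]), (105, [(152, 0), (18, 10), (2, 11)]), (120, [(137, 0), (16, 9), (2, 10)]), (135, [(122, 0), (14, 8), (2, 9)]), (150, [(107, 0), (12, 7)]), (165, [(92, 0), (10, 6)]), (180, [(77, 0), (9, 5)]), (195, [(62, 0), (7, 4)]), (210, [(47, 0), (5, 3)]), (225, [(32, 0), (4, 2)]), (240, [(17, 0), (2, 1)]), (255, [(2, 0)])]]⟩,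
  ⟨19, 74, 2, 38, [.N 3, .N 3]⟩,
  ⟨19, 75, 2, 38, [.N 3, .N 3]⟩,
  ⟨20, 76, 4, 20, [.N 2]⟩,
  ⟨20, 77, 4, 20, [.N 2]⟩,
  ⟨21, 78, 3, 27, [.N 4, .N 1]⟩,
  ⟨21, 79, 3, 27, [.N 2, .M 15 [(0, [(289, 0), (29, 19), (3, 21)]), (15, [(274, 0), (28, 18), (2, 20)]), (30, [(259, 0), (26, 17), (3, 19)]), (45, [(244, 0), (24, 16), (2, 17), (2, 18)]), (60, [(229, 0), (22, 14), (2, 16)]), (75, [(214, 0), (22, 14)]), (90, [(199, 0), (20, 13), (2, 14)]), (105, [(184, 0), (18, 12), (2, 13)]), (120, [(169, 0), (16, 11), (2, 12)]), (135, [(154, 0), (15, 10), (1, 11)]), (150, [(139, 0), (14, 9), (1, 10)]), (165, [(124, 0), (12, 8), (2, 9)]), (180, [(109, 0), (10, 7)]), (195, [(94, 0), (8, 5)]), (210, [(79, 0), (8, 5)]), (225, [(64, 0), (6, 4)]), (240, [(49, 0), (4, 3)]), (255, [(34, 0), (2, 2)]), (270, [(19, 0), (1, 1)]), (285, [(4, 0)])], .N 2]⟩,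
  ⟨22, 80, 4, 21, [.N 2, .N 1]⟩,
  ⟨22, 81, 3, 28, [.N 5]⟩,
  ⟨23, 82, 3, 28, [.N 4, .N 2]⟩,
  ⟨23, 83, 3, 28, [.N 4, .N 2]⟩,
  ⟨24, 84, 4, 22, [.N 1, .M 20 [(0, [(355, 0), (32, 17), (4, 19)]), (20, [(335, 0), (30, 16), (4, 18)]), (40, [(315, 0), (28, 15), (4, 17)]), (60, [(295, 0), (26, 14), (4, 16)]), (80, [(275, 0), (25, 13), (3, 15)]), (100, [(255, 0), (23, 12), (2, 13), (1, 14)]), (120, [(235, 0), (21, 11), (2, 12)]), (140, [(215, 0), (19, 10), (2, 11)]), (160, [(195, 0), (17, 9), (2, 10)]), (180, [(175, 0), (15, 8), (2, 9)]), (200, [(155, 0), (13, 7), (2, 8)]), (220, [(135, 0), (11, 6), (2, 7)]), (240, [(115, 0), (9, 5), (2, 6)]), (260, [(95, 0), (7, 4), (2, 5)]), (280, [(75, 0), (5, 3), (2, 4)]), (300, [(55, 0), (3, 2)]), (320, [(35, 0), (1, 1)]), (340, [(15, 0)])], .N 1]⟩,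
  ⟨24, 85, 4, 22, [.N 2, .N 2]⟩,
  ⟨25, 85, 4, 22, [.N 4]⟩,
  ⟨25, 86, 5, 18, []⟩,
  ⟨26, 87, 3, 30, [.N 5, .N 2]⟩,
  ⟨26, 88, 3, 30, [.N 5, .N 2]⟩,
  ⟨28, 92, 4, 24, [.N 5]⟩]

/-- cases treated by germs -/
def exc_17_0 : List (ℕ × ℕ) := [(12, 59), (14, 64), (28, 91)]

theorem tab_17_0 : tabM 17 exc_17_0 cert_17_0 19 10 53 = true := by decide +kernel

/-- certificates for `m = 17`, `29 ≤ r < 51` -/
def cert_17_1 : List Cert := [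
  ⟨30, 94, 3, 32, [.N 4, .N 5]⟩,
  ⟨30, 95, 4, 24, [.N 6]⟩,
  ⟨31, 95, 5, 20, [.N 3]⟩,
  ⟨31, 96, 5, 20, [.N 1, .N 2]⟩,
  ⟨32, 97, 4, 25, [.N 2, .N 2, .M 28 [(0, [(476, 0), (58, 17), (8, 19)]), (28, [(448, 0), (56, 16), (6, 18)]), (56, [(420, 0), (52, 15), (4, 16), (2, 17)]), (84, [(392, 0), (48, 14), (4, 15)]), (112, [(364, 0), (46, 13), (2, 14)]), (140, [(336, 0), (42, 12), (4, 13)]), (168, [(308, 0), (38, 11), (4, 12)]), (196, [(280, 0), (34, 10), (4, 11)]), (224, [(252, 0), (30, 9), (4, 10)]), (252, [(224, 0), (28, 8), (2, 9)]), (280, [(196, 0), (24, 7)]), (308, [(168, 0), (20, 6)]), (336, [(140, 0), (16, 5)]), (364, [(112, 0), (12, 4)]), (392, [(84, 0), (10, 3)]), (420, [(56, 0), (6, 2)]), (448, [(28, 0), (3, 1)])]]⟩,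
  ⟨32, 98, 3, 33, [.N 8]⟩,
  ⟨33, 98, 5, 20, [.N 4]⟩,
  ⟨33, 99, 5, 20, [.N 1, .N 1, .M 30 [(0, [(527, 0), (16, 17), (1, 18)]), (30, [(497, 0), (15, 16), (1, 17)]), (60, [(467, 0), (14, 14), (1, 16)]), (90, [(437, 0), (14, 14)]), (120, [(407, 0), (13, 13), (1, 14)]), (150, [(377, 0), (12, 12)]), (180, [(347, 0), (11, 11)]), (210, [(317, 0), (10, 10)]), (240, [(287, 0), (9, 9)]), (270, [(257, 0), (8, 8)]), (300, [(227, 0), (7, 7)]), (330, [(197, 0), (6, 6)]), (360, [(167, 0), (5, 5)]), (390, [(137, 0), (4, 4)]), (420, [(107, 0), (3, 3)]), (450, [(77, 0), (2, 2)]), (480, [(47, 0), (1, 1)]), (510, [(17, 0)])], .N 1]⟩,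
  ⟨34, 100, 4, 26, [.N 5, .N 3]⟩,
  ⟨34, 101, 4, 26, [.N 6, .N 2]⟩,
  ⟨35, 101, 5, 21, [.N 3, .N 2]⟩,
  ⟨36, 103, 5, 21, [.N 5]⟩,
  ⟨36, 104, 6, 18, []⟩,
  ⟨37, 104, 5, 21, [.N 4, .N 2]⟩,
  ⟨37, 105, 5, 22, [.N 1, .N 2, .M 34 [(0, [(579, 0), (48, 17), (3, 18)]), (34, [(545, 0), (45, 16), (3, 17)]), (68, [(511, 0), (42, 15), (3, 16)]), (102, [(477, 0), (39, 14), (3, 15)]), (136, [(443, 0), (37, 13), (2, 14)]), (170, [(409, 0), (35, 12), (2, 13)]), (204, [(375, 0), (32, 11)]), (238, [(341, 0), (29, 10)]), (272, [(307, 0), (26, 9)]), (306, [(273, 0), (23, 8)]), (340, [(239, 0), (20, 7)]), (374, [(205, 0), (17, 6)]), (408, [(171, 0), (14, 5)]), (442, [(137, 0), (11, 4)]), (476, [(103, 0), (8, 3)]), (510, [(69, 0), (5, 2)]), (544, [(35, 0), (2, 1)]), (578, [(1, 0)])]]⟩,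
  ⟨38, 106, 6, 18, [.N 1]⟩,
  ⟨39, 107, 4, 27, [.N 7, .N 3]⟩,
  ⟨39, 108, 5, 22, [.N 3, .M 35 [(0, [(598, 0), (62, 17), (4, 18)]), (35, [(563, 0), (58, 16), (4, 17)]), (70, [(528, 0), (54, 15), (4, 16)]), (105, [(493, 0), (50, 14), (4, 15)]), (140, [(458, 0), (46, 13), (4, 14)]), (175, [(423, 0), (42, 12), (4, 13)]), (210, [(388, 0), (40, 11), (2, 12)]), (245, [(353, 0), (37, 10), (3, 11)]), (280, [(318, 0), (33, 9), (4, 10)]), (315, [(283, 0), (29, 8)]), (350, [(248, 0), (25, 7)]), (385, [(213, 0), (21, 6)]), (420, [(178, 0), (17, 5)]), (455, [(143, 0), (13, 4)]), (490, [(108, 0), (10, 3)]), (525, [(73, 0), (8, 2)]), (560, [(38, 0), (4, 1)]), (595, [(3, 0)])]]⟩,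
  ⟨41, 110, 4, 28, [.N 9, .N 1]⟩,
  ⟨41, 111, 5, 23, [.N 7]⟩,
  ⟨43, 113, 5, 23, [.N 2, .N 2, .N 1, .M 39 [(0, [(663, 0), (62, 17), (3, 18)]), (39, [(624, 0), (59, 16), (3, 17)]), (78, [(585, 0), (55, 15), (4, 16)]), (117, [(546, 0), (51, 14), (4, 15)]), (156, [(507, 0), (47, 13), (4, 14)]), (195, [(468, 0), (43, 12), (4, 13)]), (234, [(429, 0), (39, 11), (4, 12)]), (273, [(390, 0), (36, 10)]), (312, [(351, 0), (34, 9)]), (351, [(312, 0), (30, 8)]), (390, [(273, 0), (26, 7)]), (429, [(234, 0), (22, 6)]), (468, [(195, 0), (18, 5)]), (507, [(156, 0), (16, 4)]), (546, [(117, 0), (12, 3)]), (585, [(78, 0), (8, 2)]), (624, [(39, 0), (4, 1)])]]⟩,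
  ⟨43, 114, 5, 23, [.N 8]⟩,
  ⟨45, 115, 4, 29, [.N 11]⟩,
  ⟨45, 116, 4, 30, [.N 1, .N 1, .N 10]⟩,
  ⟨47, 118, 5, 24, [.N 7, .N 2, .N 1]⟩,
  ⟨47, 119, 6, 20, [.N 5]⟩,
  ⟨48, 120, 6, 21, [.N 3, .N 3]⟩,
  ⟨49, 120, 6, 21, [.N 6]⟩,
  ⟨49, 121, 7, 18, []⟩,
  ⟨50, 122, 6, 21, [.N 1, .N 2, .M 44 [(0, [(781, 0), (31, 17), (2, 18)]), (44, [(737, 0), (29, 16), (2, 17)]), (88, [(693, 0), (27, 15), (2, 16)]), (132, [(649, 0), (25, 14), (2, 15)]), (176, [(605, 0), (23, 13), (2, 14)]), (220, [(561, 0), (21, 12), (2, 13)]), (264, [(517, 0), (19, 11), (2, 12)]), (308, [(473, 0), (17, 9), (2, 11)]), (352, [(429, 0), (17, 9)]), (396, [(385, 0), (15, 8), (2, 9)]), (440, [(341, 0), (13, 7), (2, 8)]), (484, [(297, 0), (11, 6), (2, 7)]), (528, [(253, 0), (10, 5)]), (572, [(209, 0), (8, 4)]), (616, [(165, 0), (6, 3)]), (660, [(121, 0), (4, 2)]), (704,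 [(77, 0), (2, 1)]), (748, [(33, 0)])], .N 2]⟩,
  ⟨50, 123, 6, 21, [.N 4, .N 3]⟩]

/-- cases treated by germs -/
def exc_17_1 : List (ℕ × ℕ) := [(35, 102)]

theorem tab_17_1 : tabM 17 exc_17_1 cert_17_1 22 29 92 = true := by decide +kernel

/-- certificates for `m = 17`, `51 ≤ r < 76` -/
def cert_17_2 : List Cert := [
  ⟨51, 123, 7, 18, [.N 1]⟩,
  ⟨51, 124, 6, 21, [.N 7]⟩,
  ⟨52, 124, 5, 25, [.N 8, .N 4]⟩,
  ⟨52, 125, 6, 21, [.N 4, .M 48 [(0, [(821, 0), (60, 17), (4, 18)]), (48, [(773, 0), (56, 16), (4, 17)]), (96, [(725, 0), (52, 15), (4, 16)]), (144, [(677, 0), (49, 14), (3, 15)]), (192, [(629, 0), (48, 13), (1, 14)]), (240, [(581, 0), (44, 12), (4, 13)]), (288, [(533, 0), (40, 11)]), (336, [(485, 0), (36, 10)]), (384, [(437, 0), (32, 9)]), (432, [(389, 0), (28, 8)]), (480, [(341, 0), (24, 7)]), (528, [(293, 0), (20, 6)]), (576,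 [(245, 0), (17, 5)]), (624, [(197, 0), (16, 4)]), (672, [(149, 0), (12, 3)]), (720, [(101, 0), (8, 2)]), (768, [(53, 0), (4, 1)]), (816, [(5, 0)])]]⟩,
  ⟨54, 127, 6, 22, [.N 1, .N 2, .M 43 [(0, [(814, 0), (15, 18), (1, 19)]), (43, [(771, 0), (14, 17), (1, 18)]), (86, [(728, 0), (13, 16), (1, 17)]), (129, [(685, 0), (12, 15), (1, 16)]), (172, [(642, 0), (11, 14), (1, 15)]), (215, [(599, 0), (10, 13), (1, 14)]), (258, [(556, 0), (9, 12), (1, 13)]), (301, [(513, 0), (8, 11), (1, 12)]), (344, [(470, 0), (7, 10), (1, 11)]), (387, [(427, 0), (6, 9), (1, 10)]), (430, [(384, 0), (5, 8), (1, 9)]), (473, [(341, 0), (4, 5), (1, 8)]), (516, [(298, 0), (4, 5)]), (559, [(255, 0), (4, 5)]), (602, [(212, 0), (3, 4), (1, 5)]), (645, [(169, 0), (2, 2)]), (688, [(126, 0), (2, 2)]), (731, [(83, 0), (1, 1)]), (774, [(40, 0)])], .N 3, .N 2]⟩,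
  ⟨54, 128, 7, 19, [.N 2]⟩,
  ⟨56, 129, 6, 22, [.N 8, .N 1]⟩,
  ⟨56, 130, 6, 22, [.N 9]⟩,
  ⟨58, 131, 6, 22, [.N 9, .N 1]⟩,
  ⟨58, 132, 4, 34, [.N 14, .N 1]⟩,
  ⟨60, 134, 2, 68, [.N 3, .N 13, .M 53 [(0, [(952, 0), (16, 17), (1, 18)]), (53, [(899, 0), (15, 16), (1, 17)]), (106, [(846, 0), (14, 15), (1, 16)]), (159, [(793, 0), (13, 14), (1, 15)]), (212, [(740, 0), (12, 13), (1, 14)]), (265, [(687, 0), (11, 12), (1, 13)]), (318, [(634, 0), (10, 11), (1, 12)]), (371, [(581, 0), (9, 10), (1, 11)]), (424, [(528, 0), (8, 9), (1, 10)]), (477, [(475, 0), (7, 8), (1, 9)]), (530, [(422, 0), (6, 7), (1, 8)]), (583, [(369, 0), (5, 6), (1, 7)]), (636, [(316, 0), (4, 5), (1, 6)]), (689, [(263, 0), (3, 4), (1, 5)]), (742, [(210, 0), (2, 2), (1, 4)]), (795, [(157, 0), (2, 2)]), (848, [(104, 0), (1, 1)]), (901, [(51, 0)])], .N 3]⟩,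
  ⟨60, 135, 7, 20, [.N 5]⟩,
  ⟨62, 136, 5, 28, [.N 13, .N 2]⟩,
  ⟨62, 137, 7, 20, [.N 6]⟩,
  ⟨64, 138, 7, 20, [.N 7]⟩,
  ⟨64, 139, 8, 18, []⟩,
  ⟨65, 140, 7, 21, [.N 4, .N 4]⟩,
  ⟨66, 140, 7, 21, [.N 8]⟩,
  ⟨66, 141, 8, 18, [.N 1]⟩,
  ⟨67, 141, 6, 24, [.N 10, .N 4]⟩,
  ⟨67, 142, 7, 21, [.N 1, .N 4, .N 4]⟩,
  ⟨68, 142, 8, 18, [.N 2]⟩,
  ⟨69, 143, 6, 24, [.N 14]⟩,
  ⟨69, 144, 7, 21, [.N 3, .N 3, .N 4]⟩,
  ⟨71, 145, 7, 21, [.N 10]⟩,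
  ⟨71, 146, 7, 21, [.N 4, .M 62 [(0, [(1088, 0), (81, 17), (5, 18)]), (62, [(1026, 0), (76, 16), (5, 17)]), (124, [(964, 0), (71, 15), (5, 16)]), (186, [(902, 0), (66, 14), (5, 15)]), (248, [(840, 0), (61, 13), (5, 14)]), (310, [(778, 0), (56, 12), (5, 13)]), (372, [(716, 0), (51, 11), (5, 12)]), (434, [(654, 0), (46, 10), (5, 11)]), (496, [(592, 0), (41, 9), (5, 10)]), (558, [(530, 0), (36, 8), (5, 9)]), (620, [(468, 0), (31, 7), (5, 8)]), (682, [(406, 0), (30, 6), (1, 7)]), (744, [(344, 0), (25, 5)]), (806, [(282, 0), (20, 4)]), (868, [(220, 0), (15, 3)]), (930, [(158, 0), (10, 2)]), (992, [(96, 0), (5, 1)]), (1054, [(34, 0)])], .N 2]⟩,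
  ⟨73, 147, 8, 19, [.N 4]⟩,
  ⟨73, 148, 7, 22, [.N 2, .N 3, .N 3, .N 4]⟩,
  ⟨75, 149, 7, 22, [.N 12]⟩,
  ⟨75, 150, 7, 22, [.N 1, .N 4, .N 1, .M 67 [(0, [(1156, 0), (96, 17), (6, 18)]), (67, [(1089, 0), (90, 16), (6, 17)]), (134, [(1022, 0), (84, 15), (6, 16)]), (201, [(955, 0), (78, 14), (6, 15)]), (268, [(888, 0), (72, 13), (6, 14)]), (335, [(821, 0), (66, 12), (6, 13)]), (402, [(754, 0), (60, 11), (6, 12)]), (469, [(687, 0), (55, 10), (5, 11)]), (536, [(620, 0), (50, 9), (5, 10)]), (603, [(553, 0), (48, 8)]), (670, [(486, 0), (42, 7)]), (737, [(419, 0), (36, 6)]), (804, [(352, 0), (30, 5)]), (871, [(285, 0), (24, 4)]), (938, [(218, 0), (18, 3)]), (1005, [(151, 0), (12, 2)]), (1072, [(84, 0), (6, 1)]), (1139, [(17, 0)])], .N 1]⟩]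

/-- cases treated by germs -/
def exc_17_2 : List (ℕ × ℕ) := []

theorem tab_17_2 : tabM 17 exc_17_2 cert_17_2 25 51 123 = true := by decide +kernel

/-- certificates for `m = 17`, `76 ≤ r < 108` -/
def cert_17_3 : List Cert := [
  ⟨77, 153, 8, 20, [.N 6]⟩,
  ⟨79, 153, 8, 20, [.N 7]⟩,
  ⟨81, 155, 7, 23, [.N 14]⟩,
  ⟨81, 156, 9, 18, []⟩,
  ⟨83, 157, 7, 23, [.N 15]⟩,
  ⟨83, 158, 9, 18, [.N 1]⟩,
  ⟨85, 159, 8, 20, [.N 10]⟩,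
  ⟨85, 160, 9, 18, [.N 2]⟩,
  ⟨86, 160, 8, 21, [.N 7, .N 4]⟩,
  ⟨86, 161, 8, 21, [.N 4, .M 79 [(0, [(1347, 0), (112, 17), (7, 18)]), (79, [(1268, 0), (105, 16), (7, 17)]), (158, [(1189, 0), (98, 15), (7, 16)]), (237, [(1110, 0), (91, 14), (7, 15)]), (316, [(1031, 0), (84, 13), (7, 14)]), (395, [(952, 0), (81, 12), (3, 13)]), (474, [(873, 0), (74, 11)]), (553, [(794, 0), (67, 10)]), (632, [(715, 0), (60, 9)]), (711, [(636, 0), (53, 8)]), (790, [(557, 0), (46, 7)]), (869, [(478, 0), (39, 6)]), (948, [(399, 0), (32, 5)]), (1027, [(320, 0), (25, 4)]), (1106, [(241, 0), (18, 3)]), (1185, [(162, 0), (11, 2)]), (1264, [(83, 0), (4, 1)]), (1343, [(4, 0)])]]⟩,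
  ⟨88, 162, 7, 24, [.N 16, .N 1]⟩,
  ⟨88, 163, 5, 33, [.N 22]⟩,
  ⟨90, 164, 8, 21, [.N 11, .N 1]⟩,
  ⟨90, 165, 8, 21, [.N 12]⟩,
  ⟨92, 166, 8, 21, [.N 6, .M 82 [(0, [(1428, 0), (90, 17), (6, 18)]), (82, [(1346, 0), (84, 16), (6, 17)]), (164, [(1264, 0), (80, 15), (4, 16)]), (246, [(1182, 0), (78, 14), (2, 15)]), (328, [(1100, 0), (72, 13), (6, 14)]), (410, [(1018, 0), (66, 12), (6, 13)]), (492, [(936, 0), (60, 11), (6, 12)]), (574, [(854, 0), (54, 10), (6, 11)]), (656, [(772, 0), (48, 9), (6, 10)]), (738, [(690, 0), (42, 8)]), (820, [(608, 0), (36, 7)]), (902, [(526, 0), (30, 6)]), (984, [(444, 0), (24, 5)]), (1066, [(362, 0), (22, 4)]), (1148, [(280, 0), (18, 3)]), (1230, [(198, 0), (12, 2)]), (1312, [(116, 0), (6, 1)]), (1394, [(34, 0)])], .N 2]⟩,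
  ⟨92, 167, 9, 19, [.N 5]⟩,
  ⟨94, 168, 8, 22, [.N 6, .M 83 [(0, [(1445, 0), (112, 17), (1, 18)]), (83, [(1362, 0), (105, 16), (7, 17)]), (166, [(1279, 0), (98, 15), (7, 16)]), (249, [(1196, 0), (91, 14), (7, 15)]), (332, [(1113, 0), (84, 13), (7, 14)]), (415, [(1030, 0), (77, 12), (7, 13)]), (498, [(947, 0), (70, 11), (7, 12)]), (581, [(864, 0), (63, 10), (7, 11)]), (664, [(781, 0), (56, 9), (7, 10)]), (747, [(698, 0), (49, 8), (7, 9)]), (830, [(615, 0), (44, 7)]), (913, [(532, 0), (41, 6)]), (996, [(449, 0), (34, 5)]), (1079, [(366, 0), (27, 4)]), (1162, [(283, 0), (20, 3)]), (1245, [(200, 0), (13, 2)]), (1328, [(117, 0), (6, 1)]), (1411, [(34, 0)])], .N 2]⟩,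
  ⟨94, 169, 9, 19, [.N 6]⟩,
  ⟨96, 169, 9, 19, [.N 7]⟩,
  ⟨96, 170, 5, 35, [.N 24]⟩,
  ⟨98, 171, 9, 20, [.N 8]⟩,
  ⟨98, 172, 5, 35, [.N 24, .N 1]⟩,
  ⟨100, 173, 9, 20, [.N 9]⟩,
  ⟨100, 174, 10, 18, []⟩,
  ⟨102, 175, 5, 36, [.N 24, .N 3]⟩,
  ⟨102, 176, 9, 20, [.N 10]⟩,
  ⟨104, 176, 9, 20, [.N 11]⟩,
  ⟨104, 177, 10, 18, [.N 2]⟩,
  ⟨106, 178, 10, 18, [.N 3]⟩,
  ⟨107, 180, 9, 21, [.N 12]⟩]

/-- cases treated by germs -/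
def exc_17_3 : List (ℕ × ℕ) := [(77, 152), (79, 154)]

theorem tab_17_3 : tabM 17 exc_17_3 cert_17_3 32 76 151 = true := by decide +kernel

/-- certificates for `m = 17`, `108 ≤ r < 143` -/
def cert_17_4 : List Cert := [
  ⟨109, 181, 9, 21, [.N 4, .M 93 [(0, [(1681, 0), (65, 18)]), (93, [(1588, 0), (61, 17)]), (186, [(1495, 0), (57, 16)]), (279, [(1402, 0), (56, 15)]), (372, [(1309, 0), (53, 14)]), (465, [(1216, 0), (49, 13)]), (558, [(1123, 0), (45, 12)]), (651, [(1030, 0), (41, 11)]), (744, [(937, 0), (37, 10)]), (837, [(844, 0), (33, 9)]), (930, [(751, 0), (29, 8)]), (1023, [(658, 0), (25, 7)]), (1116, [(565, 0), (21, 6)]), (1209, [(472, 0), (17, 5)]), (1302, [(379, 0), (13, 4)]), (1395, [(286, 0), (9, 3)]), (1488, [(193, 0), (5, 2)]), (1581, [(100, 0), (1, 1)]), (1674, [(7, 0)])], .N 5, .N 1]⟩,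
  ⟨109, 182, 10, 19, [.N 4]⟩,
  ⟨111, 182, 9, 21, [.N 14]⟩,
  ⟨111, 183, 9, 21, [.N 6, .M 102 [(0, [(1740, 0), (141, 17), (9, 18)]), (102, [(1638, 0), (132, 16), (9, 17)]), (204, [(1536, 0), (123, 15), (9, 16)]), (306, [(1434, 0), (114, 14), (9, 15)]), (408, [(1332, 0), (108, 13), (6, 14)]), (510, [(1230, 0), (102, 12), (6, 13)]), (612, [(1128, 0), (93, 11)]), (714, [(1026, 0), (84, 10)]), (816, [(924, 0), (75, 9)]), (918, [(822, 0), (66, 8)]), (1020, [(720, 0), (57, 7)]), (1122, [(618, 0), (48, 6)]), (1224, [(516, 0), (39, 5)]), (1326, [(414, 0), (30, 4)]), (1428, [(312, 0), (21, 3)]), (1530, [(210, 0), (12, 2)]), (1632, [(108, 0), (7, 1)]), (1734, [(6, 0)])]]⟩,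
  ⟨113, 184, 7, 27, [.N 24, .N 2]⟩,
  ⟨113, 185, 10, 19, [.N 6]⟩,
  ⟨115, 186, 9, 21, [.N 3, .N 5, .M 105 [(0, [(1802, 0), (128, 17), (8, 18)]), (105, [(1697, 0), (120, 16), (8, 17)]), (210, [(1592, 0), (112, 15), (8, 16)]), (315, [(1487, 0), (104, 14), (8, 15)]), (420, [(1382, 0), (96, 13), (8, 14)]), (525, [(1277, 0), (88, 12), (8, 13)]), (630, [(1172, 0), (80, 11)]), (735, [(1067, 0), (73, 10)]), (840, [(962, 0), (70, 9)]), (945, [(857, 0), (64, 8)]), (1050, [(752, 0), (56, 7)]), (1155, [(647, 0), (48, 6)]), (1260, [(542, 0), (40, 5)]), (1365, [(437, 0), (32, 4)]), (1470, [(332, 0), (24, 3)]), (1575, [(227, 0), (16, 2)]), (1680, [(122, 0), (8, 1)]), (1785, [(17, 0)])], .N 1]⟩,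
  ⟨115, 187, 10, 19, [.N 7]⟩,
  ⟨117, 187, 10, 19, [.N 8]⟩,
  ⟨117, 188, 7, 27, [.N 1, .N 25, .N 2]⟩,
  ⟨119, 189, 6, 32, [.N 26, .N 6]⟩,
  ⟨119, 190, 10, 20, [.N 9]⟩,
  ⟨121, 190, 9, 22, [.N 18]⟩,
  ⟨121, 191, 11, 18, []⟩,
  ⟨123, 192, 10, 20, [.N 11]⟩,
  ⟨123, 193, 10, 20, [.N 11]⟩,
  ⟨125, 194, 9, 22, [.N 5, .M 96 [(0, [(1824, 0), (89, 19)]), (96, [(1728, 0), (85, 18)]), (192, [(1632, 0), (80, 17)]), (288, [(1536, 0), (75, 16)]), (384, [(1440, 0), (70, 15)]), (480, [(1344, 0), (65, 14)]), (576, [(1248, 0), (60, 13)]), (672, [(1152, 0), (55, 12)]), (768, [(1056, 0), (50, 11)]), (864, [(960, 0), (45, 10)]), (960, [(864, 0), (40, 9)]), (1056, [(768, 0), (35, 8)]), (1152, [(672, 0), (30, 7)]), (1248, [(576, 0), (25, 6)]), (1344, [(480, 0), (20, 5)]), (1440, [(384, 0), (16, 4)]), (1536, [(288, 0), (15, 3)]), (1632, [(192, 0), (10,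 2)]), (1728, [(96, 0), (5, 1)])], .N 7, .N 5]⟩,
  ⟨125, 195, 11, 18, [.N 2]⟩,
  ⟨127, 195, 11, 18, [.N 3]⟩,
  ⟨127, 196, 11, 18, [.N 3]⟩,
  ⟨132, 200, 10, 21, [.N 14, .N 1]⟩,
  ⟨134, 200, 11, 19, [.N 6]⟩,
  ⟨134, 201, 10, 21, [.N 4, .M 114 [(0, [(2054, 0), (104, 18)]), (114, [(1940, 0), (99, 17)]), (228, [(1826, 0), (93, 16)]), (342, [(1712, 0), (87, 15)]), (456, [(1598, 0), (81, 14)]), (570, [(1484, 0), (75, 13)]), (684, [(1370, 0), (69, 12)]), (798, [(1256, 0), (63, 11)]), (912, [(1142, 0), (57, 10)]), (1026, [(1028, 0), (51, 9)]), (1140, [(914, 0), (45, 8)]), (1254, [(800, 0), (39, 7)]), (1368, [(686, 0), (33, 6)]), (1482, [(572, 0), (27, 5)]), (1596, [(458, 0), (21, 4)]), (1710, [(344, 0), (15, 3)]), (1824, [(230, 0), (9, 2)]), (1938, [(116, 0), (3, 1)]), (2052, [(2, 0)])], .N 7]⟩,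
  ⟨136, 202, 10, 21, [.N 15, .N 2]⟩,
  ⟨136, 203, 11, 19, [.N 6, .N 1]⟩,
  ⟨138, 203, 9, 23, [.N 25]⟩,
  ⟨138, 204, 4, 52, [.N 7, .N 33, .N 3]⟩,
  ⟨140, 205, 10, 21, [.N 14, .N 5]⟩,
  ⟨140, 206, 11, 19, [.N 9]⟩,
  ⟨142, 206, 11, 19, [.N 10]⟩,
  ⟨142, 207, 6, 35, [.N 35, .N 1]⟩]

/-- cases treated by germs -/
def exc_17_4 : List (ℕ × ℕ) := []

theorem tab_17_4 : tabM 17 exc_17_4 cert_17_4 35 108 180 = true := by decide +kernel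

/-- certificates for `m = 17`, `143 ≤ r < 191` -/
def cert_17_5 : List Cert := [
  ⟨144, 208, 11, 19, [.N 11]⟩,
  ⟨144, 209, 12, 18, []⟩,
  ⟨146, 209, 10, 21, [.N 21]⟩,
  ⟨146, 210, 12, 18, [.N 1]⟩,
  ⟨148, 211, 11, 20, [.N 10, .N 3]⟩,
  ⟨148, 212, 12, 18, [.N 2]⟩,
  ⟨150, 212, 11, 20, [.N 14]⟩,
  ⟨150, 213, 12, 18, [.N 3]⟩,
  ⟨152, 214, 12, 18, [.N 4]⟩,
  ⟨159, 220, 12, 19, [.N 7]⟩,
  ⟨161, 220, 11, 21, [.N 16, .N 3]⟩,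
  ⟨161, 221, 12, 19, [.N 8]⟩,
  ⟨163, 221, 10, 23, [.N 28]⟩,
  ⟨163, 222, 11, 21, [.N 8, .M 150 [(0, [(2556, 0), (207, 17), (13, 18)]), (150, [(2406, 0), (194, 16), (13, 17)]), (300, [(2256, 0), (181, 15), (13, 16)]), (450, [(2106, 0), (168, 14), (13, 15)]), (600, [(1956, 0), (155, 13), (13, 14)]), (750, [(1806, 0), (145, 12), (10, 13)]), (900, [(1656, 0), (137, 11)]), (1050, [(1506, 0), (124, 10)]), (1200, [(1356, 0), (111, 9)]), (1350, [(1206, 0), (98, 8)]), (1500, [(1056, 0), (85, 7)]), (1650, [(906, 0), (72, 6)]), (1800, [(756, 0), (59, 5)]), (1950, [(606, 0), (46, 4)]), (2100, [(456, 0), (33, 3)]), (2250, [(306, 0), (20, 2)]), (2400, [(156, 0), (7, 1)]), (2550, [(6, 0)])]]⟩,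
  ⟨165, 223, 11, 21, [.N 7, .M 140 [(0, [(2549, 0), (76, 18)]), (140, [(2409, 0), (71, 17)]), (280, [(2269, 0), (66, 15)]), (420, [(2129, 0), (66, 15)]), (560, [(1989, 0), (63, 14)]), (700, [(1849, 0), (58, 13)]), (840, [(1709, 0), (53, 12)]), (980, [(1569, 0), (48, 11)]), (1120, [(1429, 0), (43, 10)]), (1260, [(1289, 0), (38, 9)]), (1400, [(1149, 0), (33, 8)]), (1540, [(1009, 0), (28, 7)]), (1680, [(869, 0), (23, 6)]), (1820, [(729, 0), (18, 5)]), (1960, [(589, 0), (13, 4)]), (2100, [(449, 0), (8, 3)]), (2240, [(309, 0), (3, 2)]), (2380, [(169, 0), (1, 1)]), (2520, [(29, 0)])], .N 10]⟩,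
  ⟨165, 224, 12, 19, [.N 10]⟩,
  ⟨167, 224, 12, 19, [.N 11]⟩,
  ⟨167, 225, 12, 19, [.N 10, .N 1]⟩,
  ⟨169, 225, 11, 21, [.N 22]⟩,
  ⟨169, 226, 13, 18, []⟩,
  ⟨171, 227, 7, 33, [.N 37, .N 2, .N 8]⟩,
  ⟨171, 228, 11, 21, [.N 23]⟩,
  ⟨173, 228, 12, 20, [.N 14]⟩,
  ⟨173, 229, 13, 18, [.N 2]⟩,
  ⟨175, 229, 12, 20, [.N 15]⟩,
  ⟨175, 230, 13, 18, [.N 3]⟩,
  ⟨177, 231, 13, 18, [.N 4]⟩,
  ⟨177, 232, 13, 18, [.N 4]⟩,
  ⟨179, 232, 13, 18, [.N 5]⟩,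
  ⟨190, 240, 13, 19, [.N 6, .N 4]⟩]

/-- cases treated by germs -/
def exc_17_5 : List (ℕ × ℕ) := []

theorem tab_17_5 : tabM 17 exc_17_5 cert_17_5 48 143 207 = true := by decide +kernel

/-- certificates for `m = 17`, `191 ≤ r < 236` -/
def cert_17_6 : List Cert := [
  ⟨192, 240, 13, 19, [.N 11]⟩,
  ⟨192, 241, 7, 35, [.N 47, .N 2]⟩,
  ⟨194, 242, 7, 35, [.N 47, .N 3]⟩,
  ⟨194, 243, 12, 21, [.N 23]⟩,
  ⟨196, 243, 13, 19, [.N 13]⟩,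
  ⟨196, 244, 14, 18, []⟩,
  ⟨198, 244, 13, 19, [.N 14]⟩,
  ⟨198, 245, 14, 18, [.N 1]⟩,
  ⟨200, 245, 13, 19, [.N 15]⟩,
  ⟨200, 246, 14, 18, [.N 2]⟩,
  ⟨202, 247, 7, 36, [.N 1, .N 49, .N 3]⟩,
  ⟨202, 248, 14, 18, [.N 3]⟩,
  ⟨204, 248, 14, 18, [.N 4]⟩,
  ⟨204, 249, 14, 18, [.N 4]⟩,
  ⟨206, 249, 13, 20, [.N 18]⟩,
  ⟨206, 250, 14, 18, [.N 5]⟩,
  ⟨208, 250, 14, 18, [.N 6]⟩,
  ⟨223, 260, 14, 19, [.N 7, .N 6]⟩,
  ⟨225, 260, 13, 21, [.N 26]⟩,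
  ⟨225, 261, 15, 18, []⟩,
  ⟨227, 262, 13, 21, [.N 8, .M 194 [(0, [(3499, 0), (148, 18)]), (194, [(3305, 0), (139, 17)]), (388, [(3111, 0), (132, 16)]), (582, [(2917, 0), (129, 15)]), (776, [(2723, 0), (120, 14)]), (970, [(2529, 0), (111, 13)]), (1164, [(2335, 0), (102, 12)]), (1358, [(2141, 0), (93, 11)]), (1552, [(1947, 0), (84, 10)]), (1746, [(1753, 0), (75, 9)]), (1940, [(1559, 0), (66, 8)]), (2134, [(1365, 0), (57, 7)]), (2328, [(1171, 0), (48, 6)]), (2522, [(977, 0), (39, 5)]), (2716, [(783, 0), (30, 4)]), (2910, [(589, 0), (21, 3)]), (3104, [(395, 0), (12, 2)]), (3298, [(201, 0), (3, 1)]), (3492, [(7, 0)])], .N 12]⟩,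
  ⟨227, 263, 15, 18, [.N 1]⟩,
  ⟨229, 263, 13, 21, [.N 8, .M 196 [(0, [(3514, 0), (178, 17), (4, 18)]), (196, [(3318, 0), (168, 16), (10, 17)]), (392, [(3122, 0), (157, 15), (11, 16)]), (588, [(2926, 0), (146, 14), (11, 15)]), (784, [(2730, 0), (135, 13), (11, 14)]), (980, [(2534, 0), (124, 12), (11, 13)]), (1176, [(2338, 0), (113, 11), (11, 12)]), (1372, [(2142, 0), (102, 10), (11, 11)]), (1568, [(1946, 0), (91, 9), (11, 10)]), (1764, [(1750, 0), (80, 8), (11, 9)]), (1960, [(1554, 0), (69, 7), (11, 8)]), (2156, [(1358, 0), (58, 6), (11, 7)]), (2352, [(1162, 0), (47, 5), (11, 6)]), (2548, [(966, 0), (36, 4), (11, 5)]), (2744, [(770, 0), (25, 3), (11, 4)]), (2940, [(574, 0), (14, 2), (11, 3)]), (3136, [(378, 0), (5, 1)]), (3332, [(182, 0)])], .N 11]⟩,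
  ⟨229, 264, 14, 19, [.N 16]⟩,
  ⟨231, 264, 14, 19, [.N 14, .N 3]⟩,
  ⟨231, 265, 15, 18, [.N 3]⟩,
  ⟨233, 265, 14, 19, [.N 18]⟩,
  ⟨233, 266, 15, 18, [.N 4]⟩,
  ⟨235, 266, 14, 20, [.N 19]⟩,
  ⟨235, 267, 15, 18, [.N 5]⟩]

/-- cases treated by germs -/
def exc_17_6 : List (ℕ × ℕ) := []

theorem tab_17_6 : tabM 17 exc_17_6 cert_17_6 45 191 240 = true := by decide +kernel

/-- certificates for `m = 17`, `236 ≤ r < 316` -/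
def cert_17_7 : List Cert := [
  ⟨237, 267, 14, 20, [.N 20]⟩,
  ⟨237, 268, 15, 18, [.N 6]⟩,
  ⟨239, 268, 14, 20, [.N 21]⟩,
  ⟨258, 280, 15, 19, [.N 16]⟩,
  ⟨260, 280, 15, 19, [.N 17]⟩,
  ⟨260, 281, 16, 18, [.N 2]⟩,
  ⟨262, 281, 15, 19, [.N 18]⟩,
  ⟨262, 282, 16, 18, [.N 3]⟩,
  ⟨264, 282, 15, 19, [.N 19]⟩,
  ⟨264, 283, 16, 18, [.N 4]⟩,
  ⟨266, 283, 15, 19, [.N 20]⟩,
  ⟨266, 284, 16, 18, [.N 5]⟩,
  ⟨268, 284, 15, 19, [.N 21]⟩,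
  ⟨268, 285, 16, 18, [.N 6]⟩,
  ⟨270, 285, 15, 20, [.N 22]⟩,
  ⟨270, 286, 16, 18, [.N 7]⟩,
  ⟨297, 300, 17, 18, [.N 4]⟩,
  ⟨299, 300, 15, 21, [.N 35]⟩,
  ⟨299, 301, 17, 18, [.N 5]⟩,
  ⟨301, 301, 16, 19, [.N 22]⟩,
  ⟨301, 302, 17, 18, [.N 6]⟩,
  ⟨303, 302, 16, 19, [.N 23]⟩,
  ⟨303, 303, 17, 18, [.N 7]⟩,
  ⟨305, 304, 17, 18, [.N 8]⟩]

/-- cases treated by germs -/
def exc_17_7 : List (ℕ × ℕ) := []

theorem tab_17_7 : tabM 17 exc_17_7 cert_17_7 80 236 267 = true := by decide +kernel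

/-- certificates for `m = 17`, `316 ≤ r < 396` -/
def cert_17_8 : List Cert := [
  ⟨336, 320, 18, 18, [.N 6]⟩,
  ⟨338, 320, 3, 107, [.N 4, .N 59, .N 8]⟩,
  ⟨338, 321, 16, 21, [.N 38]⟩,
  ⟨340, 321, 18, 18, [.N 8]⟩,
  ⟨340, 322, 16, 21, [.N 39]⟩,
  ⟨342, 322, 18, 18, [.N 9]⟩,
  ⟨344, 322, 16, 21, [.N 41]⟩,
  ⟨379, 340, 19, 18, [.N 8]⟩,
  ⟨381, 340, 19, 18, [.N 10]⟩,
  ⟨383, 340, 17, 21, [.N 44]⟩]

/-- cases treated by germs -/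
def exc_17_8 : List (ℕ × ℕ) := []

theorem tab_17_8 : tabM 17 exc_17_8 cert_17_8 80 316 309 = true := by decide +kernel

/-- certificates for `m = 17`, `396 ≤ r < 400` -/
def cert_17_9 : List Cert := []

/-- cases treated by germs -/
def exc_17_9 : List (ℕ × ℕ) := []

theorem tab_17_9 : tabM 17 exc_17_9 cert_17_9 4 396 346 = true := by decide +kernel

/-- certificates for `m = 18`, `10 ≤ r < 29` -/
def cert_18_0 : List Cert := [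
  ⟨10, 56, 2, 29, [.N 1, .M 7 [(0, [(141, 0), (15, 20), (1, 22)]), (7, [(134, 0), (14, 19), (1, 20)]), (14, [(127, 0), (13, 18), (2, 20)]), (21, [(120, 0), (12, 16), (1, 18), (1, 19)]), (28, [(113, 0), (12, 16)]), (35, [(106, 0), (11, 15), (1, 16)]), (42, [(99, 0), (10, 14), (1, 15)]), (49, [(92, 0), (9, 12), (1, 14)]), (56, [(85, 0), (9, 12)]), (63, [(78, 0), (8, 11), (1, 12)]), (70, [(71, 0), (7, 10), (1, 11)]), (77, [(64, 0), (6, 8), (1, 10)]), (84, [(57, 0), (6, 8)]), (91, [(50, 0), (5, 7)]), (98, [(43, 0), (4, 6)]), (105, [(36, 0), (3, 4)]), (112, [(29, 0), (3, 4)]), (119, [(22, 0), (2, 3)]), (126, [(15, 0), (1, 2)]), (133, [(8, 0)]), (140, [(1, 0)])], .N 1]⟩,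
  ⟨11, 60, 3, 21, [.N 1]⟩,
  ⟨12, 62, 2, 32, [.N 3]⟩,
  ⟨12, 63, 2, 32, [.N 1, .N 1, .M 10 [(0, [(183, 0), (29, 18), (4, 21)]), (10, [(173, 0), (27, 17), (5, 20)]), (20, [(163, 0), (25, 16), (4, 18), (1, 19)]), (30, [(153, 0), (23, 15), (4, 17), (2, 18)]), (40, [(143, 0), (22, 14), (3, 16)]), (50, [(133, 0), (21, 13), (2, 15)]), (60, [(123, 0), (19, 12), (3, 14)]), (70, [(113, 0), (17, 11), (4, 13)]), (80, [(103, 0), (16, 10), (1, 11), (2, 12)]), (90, [(93, 0), (14, 9), (2, 10)]), (100, [(83, 0), (12, 8), (2, 9)]), (110, [(73, 0), (11, 7), (1, 8)]), (120, [(63, 0), (10, 6), (1, 7)]), (130, [(53, 0), (8, 5), (2, 6)]), (140, [(43, 0), (6, 4)]), (150, [(33, 0), (4, 3)]), (160, [(23, 0), (3, 2)]), (170, [(13, 0), (2, 1)]), (180, [(3, 0)])]]⟩,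
  ⟨13, 65, 3, 22, [.N 1, .M 12 [(0, [(216, 0), (16, 18), (1, 19)]), (12, [(204, 0), (15, 17), (1, 18)]), (24, [(192, 0), (14, 16), (1, 17)]), (36, [(180, 0), (13, 14), (1, 16)]), (48, [(168, 0), (13, 14)]), (60, [(156, 0), (12, 13), (1, 14)]), (72, [(144, 0), (11, 12)]), (84, [(132, 0), (10, 11)]), (96, [(120, 0), (9, 10)]), (108, [(108, 0), (8, 9)]), (120, [(96, 0), (7, 8)]), (132, [(84, 0), (6, 7)]), (144, [(72, 0), (5, 5)]), (156, [(60, 0), (5, 5)]), (168, [(48, 0), (4, 4)]), (180, [(36, 0), (3, 3)]), (192, [(24, 0), (2, 2)]), (204, [(12, 0), (1, 1)])]]⟩,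
  ⟨13, 66, 3, 23, [.N 2]⟩,
  ⟨14, 67, 2, 34, [.N 3, .M 13 [(0, [(234, 0), (13, 18), (2, 19)]), (13, [(221, 0), (12, 16)]), (26, [(208, 0), (12, 16)]), (39, [(195, 0), (11, 15)]), (52, [(182, 0), (10, 14)]), (65, [(169, 0), (9, 12)]), (78, [(156, 0), (9, 12)]), (91, [(143, 0), (8, 11)]), (104, [(130, 0), (7, 10)]), (117, [(117, 0), (6, 8)]), (130, [(104, 0), (6, 8)]), (143, [(91, 0), (5, 7)]), (156, [(78, 0), (4, 6)]), (169, [(65, 0), (3, 4)]), (182, [(52, 0), (3, 4)]), (195, [(39, 0), (2, 3)]), (208, [(26, 0), (1, 2)]), (221, [(13, 0)])]]⟩,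
  ⟨14, 68, 2, 35, [.N 1, .N 1, .M 10 [(0, [(198, 0), (30, 19), (4, 22), (2, 23)]), (10, [(188, 0), (28, 18), (4, 20), (2, 22)]), (20, [(178, 0), (26, 17), (6, 20)]), (30, [(168, 0), (25, 16), (5, 19)]), (40, [(158, 0), (23, 15), (5, 18)]), (50, [(148, 0), (21, 14), (4, 16), (1, 17)]), (60, [(138, 0), (20, 13), (3, 15), (2, 16)]), (70, [(128, 0), (19, 12), (2, 14)]), (80, [(118, 0), (17, 11), (3, 13)]), (90, [(108, 0), (15, 10), (4, 12)]), (100, [(98, 0), (13, 9), (4, 11)]), (110, [(88, 0), (12, 8), (3, 10)]), (120, [(78, 0), (11, 7), (1, 8), (1, 9)]), (130, [(68, 0), (9, 6), (2, 7)]), (140, [(58, 0), (7, 5), (2, 6)]), (150, [(48, 0), (6, 4), (1, 5)]), (160, [(38, 0), (4, 3), (2, 4)]), (170, [(28, 0), (2, 2), (2, 3)]), (180, [(18, 0), (1, 1)]), (190, [(8, 0)])], .N 1]⟩,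
  ⟨15, 70, 3, 24, [.N 1, .M 12 [(0, [(233, 0), (17, 19), (1, 20)]), (12, [(221, 0), (16, 18), (1, 19)]), (24, [(209, 0), (15, 17), (1, 18)]), (36, [(197, 0), (14, 16), (1, 17)]), (48, [(185, 0), (13, 15), (1, 16)]), (60, [(173, 0), (12, 14), (1, 15)]), (72, [(161, 0), (11, 13), (1, 14)]), (84, [(149, 0), (10, 11), (1, 13)]), (96, [(137, 0), (10, 11)]), (108, [(125, 0), (9, 10), (1, 11)]), (120, [(113, 0), (8, 9), (1, 10)]), (132, [(101, 0), (7, 8), (1, 9)]), (144, [(89, 0), (6, 7)]), (156, [(77, 0), (5, 6)]), (168, [(65, 0), (4, 5)]), (180, [(53, 0), (3, 4)]), (192, [(41, 0), (2, 2)]), (204, [(29, 0), (2, 2)]), (216, [(17, 0), (1, 1)]), (228, [(5, 0)])], .N 1]⟩,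
  ⟨15, 71, 3, 24, [.N 1, .N 2]⟩,
  ⟨16, 72, 3, 25, [.N 3]⟩,
  ⟨16, 73, 4, 19, []⟩,
  ⟨17, 74, 3, 25, [.N 1, .M 12 [(0, [(246, 0), (18, 20), (2, 22)]), (12, [(234, 0), (17, 19), (1, 20), (1, 21)]), (24, [(222, 0), (16, 18), (1, 19)]), (36, [(210, 0), (15, 17), (1, 18)]), (48, [(198, 0), (14, 16), (1, 17)]), (60, [(186, 0), (13, 14), (1, 16)]), (72, [(174, 0), (13, 14)]), (84, [(162, 0), (12, 13), (1, 14)]), (96, [(150, 0), (11, 12), (1, 13)]), (108, [(138, 0), (10, 11), (1, 12)]), (120, [(126, 0), (9, 10), (1, 11)]), (132, [(114, 0), (8, 9), (1, 10)]), (144, [(102, 0), (7, 8), (1, 9)]), (156, [(90, 0), (6, 7), (1, 8)]), (168, [(78, 0), (5, 5)]), (180, [(66, 0), (5, 5)]), (192, [(54, 0), (4, 4)]), (204, [(42, 0), (3, 3)]), (216, [(30, 0), (2, 2)]), (228, [(18, 0), (1, 1)]), (240, [(6, 0)])], .N 2]⟩,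
  ⟨17, 75, 3, 26, [.N 1, .N 1, .M 15 [(0, [(272, 0), (31, 18), (4, 20)]), (15, [(257, 0), (30, 17), (3, 19)]), (30, [(242, 0), (28, 16), (3, 18)]), (45, [(227, 0), (27, 15), (1, 16), (2, 17)]), (60, [(212, 0), (25, 14), (2, 15)]), (75, [(197, 0), (23, 13), (2, 14)]), (90, [(182, 0), (21, 12), (2, 13)]), (105, [(167, 0), (19, 11), (2, 12)]), (120, [(152, 0), (17, 10), (2, 11)]), (135, [(137, 0), (15, 9), (2, 10)]), (150, [(122, 0), (14, 8), (1, 9)]), (165, [(107, 0), (12, 7)]), (180, [(92, 0), (10, 6)]), (195, [(77, 0), (8, 5)]), (210, [(62, 0), (7, 4)]), (225, [(47, 0), (5, 3)]), (240, [(32, 0), (3, 2)]), (255, [(17, 0), (1, 1)]), (270, [(2, 0)])]]⟩,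
  ⟨19, 80, 3, 27, [.N 4]⟩,
  ⟨20, 81, 4, 21, [.N 1, .N 1]⟩,
  ⟨20, 82, 4, 21, [.N 2]⟩,
  ⟨21, 83, 2, 42, [.N 3, .N 3, .N 1]⟩,
  ⟨21, 84, 3, 29, [.N 4, .N 1]⟩,
  ⟨22, 85, 4, 22, [.N 1, .N 1, .N 1]⟩,
  ⟨22, 86, 4, 22, [.N 3]⟩,
  ⟨23, 87, 2, 44, [.N 1, .N 4, .N 2, .N 1]⟩,
  ⟨23, 88, 4, 23, [.N 3]⟩,
  ⟨24, 89, 4, 23, [.N 1, .N 1, .M 21 [(0, [(396, 0), (15, 17), (1, 19)]), (21, [(375, 0), (15, 17)]), (42, [(354, 0), (14, 16), (1, 17)]), (63, [(333, 0), (13, 15), (1, 16)]), (84, [(312, 0), (12, 13), (1, 15)]), (105, [(291, 0), (12, 13)]), (126, [(270, 0), (11, 12), (1, 13)]), (147, [(249, 0), (10, 11), (1, 12)]), (168, [(228, 0), (9, 10), (1, 11)]), (189, [(207, 0), (8, 9), (1, 10)]), (210, [(186, 0), (7, 8), (1, 9)]), (231, [(165, 0), (6, 7), (1, 8)]), (252, [(144, 0), (5, 6), (1, 7)]), (273, [(123, 0), (4, 5), (1, 6)]), (294, [(102,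 0), (3, 4), (1, 5)]), (315, [(81, 0), (2, 2)]), (336, [(60, 0), (2, 2)]), (357, [(39, 0), (1, 1)]), (378, [(18, 0)])], .N 1]⟩,
  ⟨24, 90, 4, 23, [.N 3, .N 1]⟩,
  ⟨25, 90, 4, 23, [.N 4]⟩,
  ⟨25, 91, 5, 19, []⟩,
  ⟨26, 92, 3, 31, [.N 5, .N 2]⟩,
  ⟨26, 93, 4, 24, [.M 18 [(0, [(370, 0), (40, 20), (4, 22), (3, 23)]), (18, [(352, 0), (38, 19), (4, 21)]), (36, [(334, 0), (36, 18), (4, 20)]), (54, [(316, 0), (34, 17), (4, 19)]), (72, [(298, 0), (32, 16), (4, 18)]), (90, [(280, 0), (30, 15), (4, 17)]), (108, [(262, 0), (28, 14), (4, 16)]), (126, [(244, 0), (26, 13), (4, 15)]), (144, [(226, 0), (24, 12), (2, 13), (2, 14)]), (162, [(208, 0), (22, 11), (2, 12)]), (180, [(190, 0), (20, 10), (2, 11)]), (198, [(172, 0), (18, 9), (2, 10)]), (216, [(154, 0), (16, 8), (2, 9)]), (234, [(136, 0), (14, 7), (2, 8)]), (252, [(118, 0), (12, 6), (2, 7)]),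 (270, [(100, 0), (10, 5), (2, 6)]), (288, [(82, 0), (8, 4), (2, 5)]), (306, [(64, 0), (6, 3)]), (324, [(46, 0), (4, 2)]), (342, [(28, 0), (2, 1)]), (360, [(10, 0)])], .M 23 [(0, [(417, 0), (47, 18), (6, 20)]), (23, [(394, 0), (44, 17), (6, 19)]), (46, [(371, 0), (43, 16), (4, 18)]), (69, [(348, 0), (40, 15), (3, 16), (1, 17)]), (92, [(325, 0), (37, 14), (3, 15)]), (115, [(302, 0), (34, 13), (3, 14)]), (138, [(279, 0), (31, 12), (3, 13)]), (161, [(256, 0), (28, 11), (3, 12)]), (184, [(233, 0), (25, 10), (3, 11)]), (207, [(210, 0), (22, 9), (3, 10)]), (230, [(187, 0), (21, 8), (1, 9)]), (253, [(164, 0), (18, 7)]), (276, [(141, 0), (15, 6)]), (299, [(118, 0), (12, 5)]), (322, [(95, 0), (9, 4)]), (345, [(72, 0), (6, 3)]), (368, [(49, 0), (3, 2)]), (391, [(26, 0)]), (414, [(3, 0)])]]⟩,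
  ⟨28, 96, 3, 33, [.N 2, .N 6]⟩,
  ⟨28, 97, 3, 33, [.N 5, .N 3]⟩]

/-- cases treated by germs -/
def exc_18_0 : List (ℕ × ℕ) := [(10, 57), (19, 79)]

theorem tab_18_0 : tabM 18 exc_18_0 cert_18_0 19 10 56 = true := by decide +kernel

/-- certificates for `m = 18`, `29 ≤ r < 50` -/
def cert_18_1 : List Cert := [
  ⟨30, 99, 4, 25, [.N 6]⟩,
  ⟨30, 100, 4, 26, [.N 2, .M 23 [(0, [(447, 0), (52, 19), (6, 21)]), (23, [(424, 0), (49, 18), (6, 20)]), (46, [(401, 0), (46, 17), (6, 19)]), (69, [(378, 0), (43, 16), (6, 18)]), (92, [(355, 0), (40, 15), (6, 17)]), (115, [(332, 0), (39, 14), (4, 16)]), (138, [(309, 0), (36, 13), (4, 15)]), (161, [(286, 0), (33, 12), (3, 13), (3, 14)]), (184, [(263, 0), (30, 11), (3, 12)]), (207, [(240, 0), (27, 10), (3, 11)]), (230, [(217, 0), (24, 9), (3, 10)]), (253, [(194, 0), (21, 8), (3, 9)]), (276, [(171,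 0), (18, 7), (3, 8)]), (299, [(148, 0), (17, 6), (1, 7)]), (322, [(125, 0), (14, 5), (3, 6)]), (345, [(102, 0), (11, 4)]), (368, [(79, 0), (8, 3)]), (391, [(56, 0), (5, 2)]), (414, [(33, 0), (2, 1)]), (437, [(10, 0)])], .M 28 [(0, [(505, 0), (34, 18), (3, 19)]), (28, [(477, 0), (32, 17), (2, 18)]), (56, [(449, 0), (30, 16), (2, 17)]), (84, [(421, 0), (28, 14), (2, 16)]), (112, [(393, 0), (28, 14)]), (140, [(365, 0), (25, 13)]), (168, [(337, 0), (23, 12)]), (196, [(309, 0), (21, 11)]), (224, [(281, 0), (19, 10)]), (252, [(253, 0), (17, 9)]), (280, [(225, 0), (15, 7)]), (308, [(197, 0), (15, 7)]), (336, [(169, 0), (12, 6)]), (364, [(141, 0), (10, 5)]), (392, [(113, 0), (8, 4)]), (420, [(85, 0), (6, 3)]), (448, [(57, 0), (4, 2)]), (476, [(29, 0), (2, 1)]), (504, [(1, 0)])]]⟩,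
  ⟨31, 101, 5, 21, [.N 2, .N 1]⟩,
  ⟨31, 102, 5, 21, [.N 3]⟩,
  ⟨32, 103, 4, 26, [.N 2, .M 22 [(0, [(460, 0), (36, 20), (2, 22)]), (22, [(438, 0), (34, 19), (2, 20)]), (44, [(416, 0), (32, 18), (4, 20)]), (66, [(394, 0), (30, 17), (4, 19)]), (88, [(372, 0), (28, 16), (4, 18)]), (110, [(350, 0), (26, 15), (4, 17)]), (132, [(328, 0), (24, 14), (4, 16)]), (154, [(306, 0), (22, 12), (2, 14), (2, 15)]), (176, [(284, 0), (22, 12)]), (198, [(262, 0), (20, 11), (2, 12)]), (220, [(240, 0), (18, 10), (2, 11)]), (242, [(218, 0), (16, 9), (2, 10)]), (264, [(196, 0), (14, 8), (2, 9)]), (286, [(174, 0), (12, 7), (2, 8)]), (308, [(152, 0), (10, 6), (2, 7)]), (330, [(130, 0), (8, 4), (2, 6)]), (352, [(108, 0), (8, 4)]), (374, [(86, 0), (6, 3), (2, 4)]), (396, [(64, 0), (4, 2), (2, 3)]), (418, [(42, 0), (2, 1), (2, 2)]), (440, [(20, 0)])], .N 1,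 .N 2, .N 1]⟩,
  ⟨32, 104, 3, 35, [.N 8]⟩,
  ⟨33, 104, 4, 27, [.N 7]⟩,
  ⟨33, 105, 5, 22, [.N 2, .N 2]⟩,
  ⟨34, 106, 3, 36, [.N 8, .N 1]⟩,
  ⟨34, 107, 5, 22, [.N 4]⟩,
  ⟨35, 107, 5, 22, [.N 3, .N 2]⟩,
  ⟨35, 108, 5, 22, [.N 2, .N 1, .M 33 [(0, [(596, 0), (32, 18), (2, 19)]), (33, [(563, 0), (31, 17), (1, 18)]), (66, [(530, 0), (30, 16)]), (99, [(497, 0), (28, 15)]), (132, [(464, 0), (26, 14)]), (165, [(431, 0), (24, 13)]), (198, [(398, 0), (22, 12)]), (231, [(365, 0), (20, 11)]), (264, [(332, 0), (18, 10)]), (297, [(299, 0), (16, 9)]), (330, [(266, 0), (14, 8)]), (363, [(233, 0), (12, 7)]), (396, [(200, 0), (10, 6)]), (429, [(167, 0), (8, 4)]), (462, [(134, 0), (8, 4)]), (495, [(101, 0), (6, 3)]), (528, [(68, 0), (4, 2)]), (561, [(35, 0), (2, 1)]), (594, [(2, 0)])]]⟩,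
  ⟨36, 109, 5, 22, [.N 5]⟩,
  ⟨36, 110, 6, 19, []⟩,
  ⟨37, 110, 5, 23, [.N 4, .N 2]⟩,
  ⟨38, 112, 6, 19, [.N 1]⟩,
  ⟨39, 113, 4, 29, [.N 9]⟩,
  ⟨39, 114, 5, 23, [.N 1, .N 2, .M 32 [(0, [(629, 0), (16, 19), (1, 20)]), (32, [(597, 0), (15, 18), (1, 19)]), (64, [(565, 0), (14, 17), (1, 18)]), (96, [(533, 0), (13, 16), (1, 17)]), (128, [(501, 0), (12, 14), (1, 16)]), (160, [(469, 0), (12, 14)]), (192, [(437, 0), (11, 13), (1, 14)]), (224, [(405, 0), (10, 12)]), (256, [(373, 0), (9, 11)]), (288, [(341, 0), (8, 8)]), (320, [(309, 0), (8, 8)]), (352, [(277, 0), (8, 8)]), (384, [(245, 0), (7, 7)]), (416, [(213, 0), (6, 6)]), (448, [(181, 0), (5, 5)]), (480, [(149, 0), (4, 4)]), (512, [(117, 0), (3, 3)]), (544, [(85, 0), (2, 2)]), (576, [(53, 0), (1, 1)]), (608, [(21, 0)])], .N 2, .N 1]⟩,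
  ⟨41, 116, 5, 24, [.N 7]⟩,
  ⟨41, 117, 5, 24, [.N 2, .N 1, .M 34 [(0, [(647, 0), (52, 19), (3, 20)]), (34, [(613, 0), (49, 18), (3, 19)]), (68, [(579, 0), (46, 17), (3, 18)]), (102, [(545, 0), (43, 16), (3, 17)]), (136, [(511, 0), (40, 15), (3, 16)]), (170, [(477, 0), (39, 14), (1, 15)]), (204, [(443, 0), (36, 13), (3, 14)]), (238, [(409, 0), (34, 12), (2, 13)]), (272, [(375, 0), (31, 11)]), (306, [(341, 0), (28, 10)]), (340, [(307, 0), (25, 9)]), (374, [(273, 0), (22, 8)]), (408, [(239, 0), (19, 7)]), (442, [(205, 0), (16, 6)]), (476, [(171, 0), (13, 5)]), (510, [(137, 0), (10, 4)]), (544, [(103, 0), (7, 3)]), (578, [(69, 0), (6, 2)]), (612, [(35, 0), (3, 1)]), (646, [(1, 0)])], .N 2]⟩,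
  ⟨43, 119, 5, 24, [.N 7, .N 1]⟩,
  ⟨43, 120, 5, 25, [.N 3, .M 34 [(0, [(665, 0), (50, 19), (6, 21)]), (34, [(631, 0), (47, 18), (3, 19), (3, 20)]), (68, [(597, 0), (44, 17), (3, 18)]), (102, [(563, 0), (41, 16), (3, 17)]), (136, [(529, 0), (38, 14), (3, 16)]), (170, [(495, 0), (38, 14)]), (204, [(461, 0), (35, 13), (3, 14)]), (238, [(427, 0), (32, 12), (3, 13)]), (272, [(393, 0), (29, 11), (3, 12)]), (306, [(359, 0), (26, 10), (3, 11)]), (340, [(325, 0), (23, 9), (3, 10)]), (374, [(291, 0), (20, 8), (3, 9)]), (408, [(257, 0), (17, 7), (3, 8)]), (442, [(223, 0), (16, 6), (1, 7)]), (476, [(189, 0), (14, 5)]), (510, [(155, 0), (11, 4)]), (544, [(121, 0), (8, 3)]), (578, [(87, 0), (5, 2)]), (612, [(53, 0), (2, 1)]), (646, [(19, 0)])], .N 3]⟩,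
  ⟨45, 122, 5, 25, [.N 7, .N 2]⟩,
  ⟨45, 123, 5, 25, [.N 7, .N 2]⟩,
  ⟨47, 125, 4, 32, [.N 4, .N 7, .N 1, .N 2]⟩,
  ⟨47, 126, 6, 22, [.N 5]⟩,
  ⟨48, 126, 6, 22, [.N 4, .N 2]⟩,
  ⟨48, 127, 6, 22, [.N 3, .N 3]⟩,
  ⟨49, 127, 6, 22, [.N 6]⟩,
  ⟨49, 128, 7, 19, []⟩]

/-- cases treated by germs -/
def exc_18_1 : List (ℕ × ℕ) := [(37, 111)]

theorem tab_18_1 : tabM 18 exc_18_1 cert_18_1 21 29 98 = true := by decide +kernel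

end Pool.Agent.Helper22.E6L
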