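import Pool.Agent.Helper22.E6L.Tab
import Pool.Agent.Helper22.E6L.G19

set_option autoImplicit false

/-! # Tables of certificates, `m = 18 … 19`, `r < (m + 3) ^ 2` (helper22), MP_e6aa12_ag -/

namespace Pool.Agent.Helper22.E6L

open Pool.Agent.Helper22.E6

/-- certificates for `m = 18`, `50 ≤ r < 74` -/
def cert_18_2 : List Cert := [
  ⟨50, 129, 5, 26, [.N 1, .N 9, .N 1]⟩,
  ⟨50, 130, 6, 22, [.N 4, .N 3]⟩,
  ⟨51, 130, 7, 19, [.N 1]⟩,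
  ⟨51, 131, 7, 19, [.N 1]⟩,
  ⟨52, 131, 6, 22, [.N 5, .N 3]⟩,
  ⟨52, 132, 6, 23, [.N 1, .N 2, .N 2, .N 3]⟩,
  ⟨54, 134, 5, 27, [.N 9, .N 1, .N 3]⟩,
  ⟨54, 135, 6, 23, [.N 8]⟩,
  ⟨56, 136, 6, 23, [.N 9]⟩,
  ⟨56, 137, 3, 46, [.N 2, .N 14]⟩,
  ⟨58, 139, 4, 35, [.N 14, .N 1]⟩,
  ⟨58, 140, 5, 29, [.N 13]⟩,
  ⟨60, 141, 6, 24, [.N 9, .N 2]⟩,
  ⟨60, 142, 4, 36, [.N 15]⟩,
  ⟨62, 144, 6, 25, [.N 4, .N 1, .M 50 [(0, [(969, 0), (66, 19), (4, 20)]), (50, [(919, 0), (62, 18), (4, 19)]), (100, [(869, 0), (58, 17), (4, 18)]), (150, [(819, 0), (54, 16), (4, 17)]), (200, [(769, 0), (53, 15), (1, 16)]), (250, [(719, 0), (51, 14), (2, 15)]), (300, [(669, 0), (47, 13), (4, 14)]), (350, [(619, 0), (43, 12), (4, 13)]), (400, [(569, 0), (39, 11), (4, 12)]), (450, [(519, 0), (35, 10), (4, 11)]), (500, [(469, 0), (31, 9), (4, 10)]), (550, [(419, 0), (27, 8)]),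 (600, [(369, 0), (23, 7)]), (650, [(319, 0), (22, 6)]), (700, [(269, 0), (19, 5)]), (750, [(219, 0), (15, 4)]), (800, [(169, 0), (11, 3)]), (850, [(119, 0), (7, 2)]), (900, [(69, 0), (3, 1)]), (950, [(19, 0)])], .N 4]⟩,
  ⟨62, 145, 7, 21, [.N 6]⟩,
  ⟨64, 146, 7, 21, [.N 7]⟩,
  ⟨64, 147, 8, 19, []⟩,
  ⟨65, 147, 7, 22, [.N 5, .N 3]⟩,
  ⟨65, 148, 7, 22, [.N 4, .N 4]⟩,
  ⟨66, 148, 7, 22, [.N 8]⟩,
  ⟨66, 149, 8, 19, [.N 1]⟩,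
  ⟨67, 149, 7, 22, [.N 3, .N 6]⟩,
  ⟨67, 150, 7, 22, [.N 4, .M 62 [(0, [(1120, 0), (82, 18), (5, 19)]), (62, [(1058, 0), (77, 17), (5, 18)]), (124, [(996, 0), (72, 16), (5, 17)]), (186, [(934, 0), (67, 15), (5, 16)]), (248, [(872, 0), (62, 14), (5, 15)]), (310, [(810, 0), (61, 13), (1, 14)]), (372, [(748, 0), (56, 12)]), (434, [(686, 0), (51, 11)]), (496, [(624, 0), (46, 10)]), (558, [(562, 0), (41, 9)]), (620, [(500, 0), (36, 8)]), (682, [(438, 0), (31, 7)]), (744, [(376, 0), (26, 6)]), (806, [(314, 0), (21, 5)]), (868, [(252, 0), (16, 4)]), (930, [(190, 0), (11, 3)]), (992, [(128, 0), (8, 2)]), (1054, [(66, 0), (5, 1)]), (1116, [(4, 0)])]]⟩,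
  ⟨69, 152, 7, 22, [.N 1, .N 3, .N 3, .N 3]⟩,
  ⟨69, 153, 8, 20, [.N 2]⟩,
  ⟨71, 154, 6, 26, [.N 9, .N 6, .N 1]⟩,
  ⟨71, 155, 7, 23, [.N 10]⟩,
  ⟨73, 156, 7, 23, [.N 10, .N 1]⟩,
  ⟨73, 157, 7, 23, [.N 10, .N 1]⟩]

/-- cases treated by germs -/
def exc_18_2 : List (ℕ × ℕ) := []

theorem tab_18_2 : tabM 18 exc_18_2 cert_18_2 24 50 129 = true := by decide +kernel

/-- certificates for `m = 18`, `74 ≤ r < 103` -/
def cert_18_3 : List Cert := [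
  ⟨75, 158, 7, 23, [.N 10, .N 2]⟩,
  ⟨75, 159, 7, 23, [.N 6, .M 68 [(0, [(1231, 0), (114, 18), (6, 19)]), (68, [(1163, 0), (107, 17), (7, 18)]), (136, [(1095, 0), (100, 16), (7, 17)]), (204, [(1027, 0), (93, 15), (7, 16)]), (272, [(959, 0), (86, 14), (7, 15)]), (340, [(891, 0), (79, 13), (7, 14)]), (408, [(823, 0), (72, 12), (7, 13)]), (476, [(755, 0), (69, 11), (3, 12)]), (544, [(687, 0), (64, 10), (5, 11)]), (612, [(619, 0), (57, 9)]), (680, [(551, 0), (50, 8)]), (748, [(483, 0), (43, 7)]), (816, [(415, 0), (36, 6)]), (884, [(347, 0), (29, 5)]), (952, [(279, 0), (22, 4)]), (1020, [(211, 0), (18, 3)]), (1088, [(143, 0), (14, 2)]), (1156, [(75, 0), (7, 1)]), (1224, [(7, 0)])]]⟩,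
  ⟨77, 160, 8, 21, [.N 6]⟩,
  ⟨77, 161, 7, 24, [.N 4, .M 62 [(0, [(1202, 0), (90, 19), (5, 20)]), (62, [(1140, 0), (85, 18), (5, 19)]), (124, [(1078, 0), (80, 17), (5, 18)]), (186, [(1016, 0), (75, 16), (5, 17)]), (248, [(954, 0), (70, 15), (5, 16)]), (310, [(892, 0), (65, 14), (5, 15)]), (372, [(830, 0), (60, 13), (5, 14)]), (434, [(768, 0), (55, 12), (5, 13)]), (496, [(706, 0), (50, 11), (5, 12)]), (558, [(644, 0), (45, 10), (5, 11)]), (620, [(582, 0), (40, 9), (5, 10)]), (682, [(520, 0), (38, 8), (2, 9)]), (744, [(458, 0), (34, 7)]), (806, [(396, 0), (29, 6)]), (868, [(334, 0), (24, 5)]), (930, [(272, 0), (19, 4)]), (992, [(210, 0), (14, 3)]), (1054, [(148, 0), (9, 2)]), (1116, [(86, 0), (4, 1)]), (1178, [(24, 0)])], .N 5]⟩,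
  ⟨79, 162, 8, 21, [.N 7]⟩,
  ⟨79, 163, 7, 24, [.N 5, .M 64 [(0, [(1242, 0), (83, 19), (2, 20)]), (64, [(1178, 0), (80, 18), (3, 19)]), (128, [(1114, 0), (75, 17), (5, 18)]), (192, [(1050, 0), (70, 16), (5, 17)]), (256, [(986, 0), (65, 15), (5, 16)]), (320, [(922, 0), (60, 14), (5, 15)]), (384, [(858, 0), (55, 13), (5, 14)]), (448, [(794, 0), (50, 12), (5, 13)]), (512, [(730, 0), (45, 11), (5, 12)]), (576, [(666, 0), (40, 10), (5, 11)]), (640, [(602, 0), (39, 9), (1, 10)]), (704, [(538, 0), (35, 8)]), (768, [(474, 0), (30, 7)]), (832, [(410, 0), (25, 6)]), (896, [(346, 0), (20, 5)]), (960, [(282, 0), (15, 4)]), (1024, [(218, 0), (10, 3)]), (1088, [(154, 0), (5, 2)]), (1152, [(90, 0), (1, 1)]), (1216, [(26, 0)])], .N 5]⟩,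
  ⟨81, 164, 7, 24, [.N 14]⟩,
  ⟨81, 165, 9, 19, []⟩,
  ⟨83, 166, 7, 24, [.N 15]⟩,
  ⟨83, 167, 9, 19, [.N 1]⟩,
  ⟨84, 168, 8, 22, [.N 4, .M 76 [(0, [(1405, 0), (67, 18), (4, 19)]), (76, [(1329, 0), (63, 17), (4, 18)]), (152, [(1253, 0), (59, 16), (4, 17)]), (228, [(1177, 0), (55, 15), (4, 16)]), (304, [(1101, 0), (51, 14), (4, 15)]), (380, [(1025, 0), (47, 13), (4, 14)]), (456, [(949, 0), (43, 12), (4, 13)]), (532, [(873, 0), (39, 10), (4, 12)]), (608, [(797, 0), (39, 10)]), (684, [(721, 0), (35, 9)]), (760, [(645, 0), (31, 8)]), (836, [(569, 0), (27, 7)]), (912, [(493, 0), (23, 6)]), (988, [(417, 0), (19, 5)]), (1064, [(341, 0), (15, 4)]), (1140, [(265, 0), (11, 3)]), (1216, [(189, 0), (7, 2)]), (1292, [(113, 0), (3, 1)]), (1368, [(37, 0)])], .N 2]⟩,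
  ⟨85, 169, 9, 19, [.N 2]⟩,
  ⟨86, 170, 8, 22, [.N 2, .N 1, .M 74 [(0, [(1402, 0), (70, 18), (4, 19)]), (74, [(1328, 0), (66, 17), (4, 18)]), (148, [(1254, 0), (62, 16), (4, 17)]), (222, [(1180, 0), (58, 15), (4, 16)]), (296, [(1106, 0), (54, 14), (4, 15)]), (370, [(1032, 0), (50, 13), (4, 14)]), (444, [(958, 0), (46, 12), (4, 13)]), (518, [(884, 0), (42, 11), (4, 12)]), (592, [(810, 0), (38, 10), (4, 11)]), (666, [(736, 0), (34, 9), (4, 10)]), (740, [(662, 0), (30, 8), (4, 9)]), (814, [(588, 0), (26, 7), (4, 8)]), (888, [(514, 0), (22, 6), (4, 7)]), (962, [(440, 0), (18, 5), (4, 6)]), (1036, [(366, 0), (14, 4), (4, 5)]), (1110, [(292, 0), (10, 3), (4, 4)]), (1184, [(218, 0), (8, 2), (2, 3)]), (1258, [(144, 0), (4, 1), (4, 2)]), (1332, [(70, 0)])], .N 4]⟩,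
  ⟨86, 171, 9, 20, [.N 2]⟩,
  ⟨88, 171, 9, 20, [.N 3]⟩,
  ⟨88, 172, 4, 44, [.N 2, .N 21, .N 2]⟩,
  ⟨90, 173, 8, 22, [.N 12]⟩,
  ⟨90, 174, 8, 22, [.N 2, .N 4, .M 83 [(0, [(1494, 0), (120, 18), (7, 19)]), (83, [(1411, 0), (113, 17), (7, 18)]), (166, [(1328, 0), (106, 16), (7, 17)]), (249, [(1245, 0), (99, 15), (7, 16)]), (332, [(1162, 0), (92, 14), (7, 15)]), (415, [(1079, 0), (87, 13), (5, 14)]), (498, [(996, 0), (84, 12), (3, 13)]), (581, [(913, 0), (77, 11)]), (664, [(830, 0), (70, 10)]), (747, [(747, 0), (63, 9)]), (830, [(664, 0), (56, 8)]), (913, [(581, 0), (49, 7)]), (996, [(498, 0), (42, 6)]), (1079, [(415, 0), (35, 5)]), (1162, [(332, 0), (28, 4)]), (1245, [(249, 0), (21, 3)]), (1328, [(166, 0), (14, 2)]), (1411, [(83, 0), (7, 1)])]]⟩,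
  ⟨92, 175, 8, 22, [.N 13]⟩,
  ⟨92, 176, 8, 23, [.N 4, .N 2, .M 84 [(0, [(1513, 0), (137, 18), (8, 19)]), (84, [(1429, 0), (129, 17), (8, 18)]), (168, [(1345, 0), (121, 16), (8, 17)]), (252, [(1261, 0), (113, 15), (8, 16)]), (336, [(1177, 0), (105, 14), (8, 15)]), (420, [(1093, 0), (99, 13), (6, 14)]), (504, [(1009, 0), (91, 12), (8, 13)]), (588, [(925, 0), (83, 11), (8, 12)]), (672, [(841, 0), (79, 10)]), (756, [(757, 0), (71, 9)]), (840, [(673, 0), (63, 8)]), (924, [(589, 0), (55, 7)]), (1008, [(505, 0), (47, 6)]), (1092, [(421, 0), (39, 5)]), (1176, [(337, 0), (31, 4)]), (1260, [(253, 0), (23, 3)]), (1344, [(169, 0), (15, 2)]), (1428, [(85, 0), (7, 1)]), (1512, [(1, 0)])]]⟩,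
  ⟨94, 177, 9, 20, [.N 6]⟩,
  ⟨94, 178, 5, 36, [.N 23, .N 1]⟩,
  ⟨96, 179, 9, 20, [.N 7]⟩,
  ⟨96, 180, 5, 37, [.N 24]⟩,
  ⟨98, 181, 9, 21, [.N 8]⟩,
  ⟨98, 182, 9, 21, [.N 8]⟩,
  ⟨100, 183, 9, 21, [.N 9]⟩,
  ⟨100, 184, 10, 19, []⟩,
  ⟨102, 185, 5, 38, [.N 24, .N 3]⟩,
  ⟨102, 186, 9, 21, [.N 10]⟩]

/-- cases treated by germs -/
def exc_18_3 : List (ℕ × ℕ) := []

theorem tab_18_3 : tabM 18 exc_18_3 cert_18_3 29 74 157 = true := by decide +kernel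

/-- certificates for `m = 18`, `103 ≤ r < 135` -/
def cert_18_4 : List Cert := [
  ⟨104, 187, 10, 19, [.N 2]⟩,
  ⟨104, 188, 10, 19, [.N 2]⟩,
  ⟨105, 189, 10, 19, [.N 2]⟩,
  ⟨106, 188, 9, 21, [.N 12]⟩,
  ⟨107, 189, 9, 22, [.N 12]⟩,
  ⟨107, 190, 9, 22, [.N 2, .N 5, .N 6]⟩,
  ⟨109, 191, 9, 22, [.N 13]⟩,
  ⟨109, 192, 7, 28, [.N 24]⟩,
  ⟨111, 193, 6, 33, [.N 26, .N 2]⟩,
  ⟨111, 194, 10, 20, [.N 5]⟩,
  ⟨113, 195, 9, 22, [.N 5, .N 1, .M 99 [(0, [(1853, 0), (102, 18), (6, 19)]), (99, [(1754, 0), (96, 17), (6, 18)]), (198, [(1655, 0), (90, 16), (6, 17)]), (297, [(1556, 0), (84, 15), (6, 16)]), (396, [(1457, 0), (78, 14), (6, 15)]), (495, [(1358, 0), (72, 13), (6, 14)]), (594, [(1259, 0), (66, 12), (6, 13)]), (693, [(1160, 0), (60, 11), (6, 12)]), (792, [(1061, 0), (54, 10), (6, 11)]), (891, [(962, 0), (48, 9), (6, 10)]), (990, [(863, 0), (42,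 8), (6, 9)]), (1089, [(764, 0), (37, 7), (5, 8)]), (1188, [(665, 0), (31, 6), (6, 7)]), (1287, [(566, 0), (28, 5), (3, 6)]), (1386, [(467, 0), (24, 4)]), (1485, [(368, 0), (18, 3)]), (1584, [(269, 0), (12, 2)]), (1683, [(170, 0), (6, 1)]), (1782, [(71, 0)])], .N 4]⟩,
  ⟨113, 196, 10, 20, [.N 6]⟩,
  ⟨115, 196, 10, 20, [.N 7]⟩,
  ⟨115, 197, 9, 22, [.N 3, .N 5, .M 106 [(0, [(1909, 0), (154, 18), (9, 19)]), (106, [(1803, 0), (145, 17), (9, 18)]), (212, [(1697, 0), (136, 16), (9, 17)]), (318, [(1591, 0), (127, 15), (9, 16)]), (424, [(1485, 0), (121, 14), (6, 15)]), (530, [(1379, 0), (113, 13), (8, 14)]), (636, [(1273, 0), (108, 12), (5, 13)]), (742, [(1167, 0), (99, 11)]), (848, [(1061, 0), (90, 10)]), (954, [(955, 0), (81, 9)]), (1060, [(849, 0), (72, 8)]), (1166, [(743, 0), (63, 7)]), (1272, [(637, 0), (54, 6)]), (1378, [(531, 0), (45,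 5)]), (1484, [(425, 0), (36, 4)]), (1590, [(319, 0), (27, 3)]), (1696, [(213, 0), (18, 2)]), (1802, [(107, 0), (9, 1)]), (1908, [(1, 0)])]]⟩,
  ⟨117, 198, 9, 23, [.N 13, .N 4]⟩,
  ⟨117, 199, 10, 20, [.N 8]⟩,
  ⟨119, 200, 5, 41, [.N 23, .N 8, .N 4, .N 1]⟩,
  ⟨119, 201, 9, 23, [.N 17]⟩,
  ⟨121, 201, 9, 23, [.N 18]⟩,
  ⟨121, 202, 11, 19, []⟩,
  ⟨123, 203, 10, 21, [.N 11]⟩,
  ⟨123, 204, 11, 19, [.N 1]⟩,
  ⟨125, 205, 11, 19, [.N 2]⟩,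
  ⟨125, 206, 11, 19, [.N 2]⟩,
  ⟨127, 206, 10, 21, [.N 13]⟩,
  ⟨127, 207, 11, 19, [.N 3]⟩,
  ⟨130, 210, 10, 22, [.N 14]⟩,
  ⟨132, 210, 10, 22, [.N 15]⟩,
  ⟨132, 211, 10, 22, [.N 4, .M 113 [(0, [(2158, 0), (88, 19)]), (113, [(2045, 0), (86, 18)]), (226, [(1932, 0), (82, 17)]), (339, [(1819, 0), (77, 16)]), (452, [(1706, 0), (72, 15)]), (565, [(1593, 0), (67, 14)]), (678, [(1480, 0), (62, 13)]), (791, [(1367, 0), (57, 12)]), (904, [(1254, 0), (52, 11)]), (1017, [(1141, 0), (47, 10)]), (1130, [(1028, 0), (42, 9)]), (1243, [(915, 0), (37, 8)]), (1356, [(802, 0), (32, 7)]), (1469, [(689, 0), (27, 6)]), (1582, [(576, 0), (22, 5)]), (1695, [(463, 0), (17, 4)]), (1808, [(350, 0), (12, 3)]), (1921, [(237, 0), (7, 2)]), (2034, [(124, 0), (2, 1)]), (2147, [(11, 0)])], .N 7]⟩,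
  ⟨134, 212, 10, 22, [.N 15, .N 1]⟩,
  ⟨134, 213, 9, 24, [.N 20, .N 4]⟩]

/-- cases treated by germs -/
def exc_18_4 : List (ℕ × ℕ) := []

theorem tab_18_4 : tabM 18 exc_18_4 cert_18_4 32 103 186 = true := by decide +kernel

/-- certificates for `m = 18`, `135 ≤ r < 170` -/
def cert_18_5 : List Cert := [
  ⟨136, 214, 6, 36, [.N 33, .N 2]⟩,
  ⟨136, 215, 11, 20, [.N 7]⟩,
  ⟨138, 215, 11, 20, [.N 8]⟩,
  ⟨138, 216, 10, 22, [.N 9, .M 128 [(0, [(2314, 0), (162, 18), (10, 19)]), (128, [(2186, 0), (152, 17), (10, 18)]), (256, [(2058, 0), (142, 16), (10, 17)]), (384, [(1930, 0), (132, 15), (10, 16)]), (512, [(1802, 0), (122, 14), (10, 15)]), (640, [(1674, 0), (120, 13), (2, 14)]), (768, [(1546, 0), (111, 12)]), (896, [(1418, 0), (101, 11)]), (1024, [(1290, 0), (91, 10)]), (1152, [(1162, 0), (81, 9)]), (1280, [(1034, 0), (71, 8)]), (1408, [(906,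 0), (61, 7)]), (1536, [(778, 0), (51, 6)]), (1664, [(650, 0), (41, 5)]), (1792, [(522, 0), (31, 4)]), (1920, [(394, 0), (22, 3)]), (2048, [(266, 0), (20, 2)]), (2176, [(138, 0), (10, 1)]), (2304, [(10, 0)])]]⟩,
  ⟨140, 217, 10, 22, [.N 8, .M 123 [(0, [(2303, 0), (110, 18), (7, 19)]), (123, [(2180, 0), (103, 16), (7, 18)]), (246, [(2057, 0), (103, 16)]), (369, [(1934, 0), (97, 15), (6, 16)]), (492, [(1811, 0), (90, 14), (7, 15)]), (615, [(1688, 0), (83, 13), (7, 14)]), (738, [(1565, 0), (76, 12), (7, 13)]), (861, [(1442, 0), (69, 11), (7, 12)]), (984, [(1319, 0), (62, 10), (7, 11)]), (1107, [(1196, 0), (55, 9), (7, 10)]), (1230, [(1073, 0), (48, 8), (7, 9)]), (1353, [(950, 0), (41, 7), (7, 8)]), (1476, [(827, 0), (34, 6), (7, 7)]), (1599, [(704, 0), (27, 5)]), (1722, [(581, 0), (24, 4)]), (1845, [(458, 0), (21, 3)]), (1968, [(335, 0),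 (14, 2)]), (2091, [(212, 0), (7, 1)]), (2214, [(89, 0)])], .N 5]⟩,
  ⟨140, 218, 11, 20, [.N 9]⟩,
  ⟨142, 218, 11, 20, [.N 10]⟩,
  ⟨142, 219, 6, 37, [.N 35, .N 1]⟩,
  ⟨144, 220, 11, 21, [.N 11]⟩,
  ⟨144, 221, 12, 19, []⟩,
  ⟨146, 221, 11, 21, [.N 12]⟩,
  ⟨146, 222, 12, 19, [.N 1]⟩,
  ⟨148, 223, 12, 19, [.N 2]⟩,
  ⟨148, 224, 12, 19, [.N 2]⟩,
  ⟨150, 224, 11, 21, [.N 14]⟩,
  ⟨150, 225, 12, 19, [.N 3]⟩,
  ⟨152, 226, 12, 19, [.N 4]⟩,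
  ⟨157, 231, 12, 20, [.N 6]⟩,
  ⟨159, 231, 12, 20, [.N 7]⟩,
  ⟨159, 232, 5, 47, [.N 38]⟩,
  ⟨161, 233, 11, 22, [.N 6, .M 140 [(0, [(2645, 0), (114, 18), (7, 19)]), (140, [(2505, 0), (107, 17), (7, 18)]), (280, [(2365, 0), (103, 16), (4, 17)]), (420, [(2225, 0), (99, 15), (4, 16)]), (560, [(2085, 0), (92, 14), (7, 15)]), (700, [(1945, 0), (85, 13), (7, 14)]), (840, [(1805, 0), (78, 12), (7, 13)]), (980, [(1665, 0), (71, 11), (7, 12)]), (1120, [(1525, 0), (64, 10), (7, 11)]), (1260, [(1385, 0), (57, 9), (7, 10)]), (1400, [(1245, 0), (50, 8), (7, 9)]), (1540, [(1105, 0), (43, 7), (7, 8)]), (1680, [(965, 0), (36, 6), (7, 7)]), (1820, [(825, 0), (29, 5), (7, 6)]), (1960, [(685, 0), (22, 4), (7, 5)]), (2100, [(545, 0), (15, 3), (7, 4)]), (2240, [(405, 0), (8, 2)]), (2380, [(265, 0), (1, 1)]), (2520, [(125, 0)])], .N 7]⟩,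
  ⟨161, 234, 12, 20, [.N 8]⟩,
  ⟨163, 234, 12, 20, [.N 9]⟩,
  ⟨163, 235, 12, 20, [.N 7, .N 2]⟩,
  ⟨165, 236, 11, 22, [.N 1, .N 9, .M 151 [(0, [(2753, 0), (171, 18), (10, 19)]), (151, [(2602, 0), (161, 17), (10, 18)]), (302, [(2451, 0), (151, 16), (10, 17)]), (453, [(2300, 0), (141, 15), (10, 16)]), (604, [(2149, 0), (131, 14), (10, 15)]), (755, [(1998, 0), (121, 13), (10, 14)]), (906, [(1847, 0), (116, 12), (5, 13)]), (1057, [(1696, 0), (110, 11)]), (1208, [(1545, 0), (100, 10)]), (1359, [(1394, 0), (90, 9)]), (1510, [(1243, 0), (80, 8)]), (1661, [(1092, 0), (70, 7)]), (1812, [(941, 0), (60, 6)]), (1963, [(790, 0), (50, 5)]), (2114, [(639, 0), (40, 4)]), (2265, [(488, 0), (30, 3)]), (2416, [(337, 0), (20, 2)]), (2567, [(186, 0), (10, 1)]), (2718, [(35, 0)])], .N 2]⟩,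
  ⟨165, 237, 12, 20, [.N 10]⟩,
  ⟨167, 237, 12, 20, [.N 11]⟩,
  ⟨167, 238, 12, 20, [.N 11]⟩,
  ⟨169, 238, 11, 22, [.N 22]⟩,
  ⟨169, 239, 13, 19, []⟩]

/-- cases treated by germs -/
def exc_18_5 : List (ℕ × ℕ) := []

theorem tab_18_5 : tabM 18 exc_18_5 cert_18_5 35 135 213 = true := by decide +kernel

/-- certificates for `m = 18`, `170 ≤ r < 220` -/
def cert_18_6 : List Cert := [
  ⟨171, 240, 12, 21, [.N 13]⟩,
  ⟨171, 241, 12, 21, [.N 13]⟩,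
  ⟨173, 241, 12, 21, [.N 14]⟩,
  ⟨173, 242, 13, 19, [.N 2]⟩,
  ⟨175, 243, 4, 61, [.N 36, .N 3]⟩,
  ⟨175, 244, 13, 19, [.N 3]⟩,
  ⟨177, 244, 13, 19, [.N 4]⟩,
  ⟨177, 245, 13, 19, [.N 4]⟩,
  ⟨179, 245, 13, 19, [.N 5]⟩,
  ⟨188, 252, 12, 22, [.N 5, .M 162 [(0, [(3071, 0), (138, 18), (8, 19)]), (162, [(2909, 0), (135, 17), (3, 18)]), (324, [(2747, 0), (127, 16), (8, 17)]), (486, [(2585, 0), (119, 15), (8, 16)]), (648, [(2423, 0), (111, 14), (8, 15)]), (810, [(2261, 0), (103, 13), (8, 14)]), (972, [(2099, 0), (95, 12), (8, 13)]), (1134, [(1937, 0), (87, 11), (8, 12)]), (1296, [(1775, 0), (79, 10), (8, 11)]), (1458, [(1613, 0), (71, 9), (8, 10)]), (1620, [(1451, 0), (63, 8), (8, 9)]), (1782, [(1289, 0), (55, 7), (8, 8)]), (1944, [(1127, 0), (47, 6), (8, 7)]), (2106, [(965, 0), (39, 5), (8, 6)]), (2268, [(803, 0), (31, 4), (8, 5)]), (2430, [(641,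 0), (23, 3), (8, 4)]), (2592, [(479, 0), (15, 2), (8, 3)]), (2754, [(317, 0), (7, 1), (8, 2)]), (2916, [(155, 0)])], .N 9]⟩,
  ⟨188, 253, 13, 20, [.N 9]⟩,
  ⟨190, 253, 9, 29, [.N 41, .N 3]⟩,
  ⟨190, 254, 13, 20, [.N 10]⟩,
  ⟨192, 254, 13, 20, [.N 11]⟩,
  ⟨192, 255, 12, 22, [.N 9, .M 177 [(0, [(3195, 0), (252, 18), (15, 19)]), (177, [(3018, 0), (237, 17), (15, 18)]), (354, [(2841, 0), (222, 16), (15, 17)]), (531, [(2664, 0), (207, 15), (15, 16)]), (708, [(2487, 0), (192, 14), (15, 15)]), (885, [(2310, 0), (186, 13), (6, 14)]), (1062, [(2133, 0), (171, 12), (15, 13)]), (1239, [(1956, 0), (156, 11)]), (1416, [(1779, 0), (141, 10)]), (1593, [(1602, 0), (126, 9)]), (1770, [(1425, 0), (111, 8)]), (1947, [(1248, 0), (96, 7)]), (2124, [(1071, 0), (81, 6)]), (2301, [(894, 0), (66, 5)]), (2478, [(717, 0), (51, 4)]), (2655, [(540, 0), (36, 3)]),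 (2832, [(363, 0), (21, 2)]), (3009, [(186, 0), (7, 1)]), (3186, [(9, 0)])]]⟩,
  ⟨194, 256, 7, 37, [.N 47, .N 3]⟩,
  ⟨194, 257, 12, 22, [.N 23]⟩,
  ⟨196, 257, 13, 20, [.N 13]⟩,
  ⟨196, 258, 14, 19, []⟩,
  ⟨198, 258, 13, 20, [.N 14]⟩,
  ⟨198, 259, 14, 19, [.N 1]⟩,
  ⟨200, 260, 6, 44, [.N 5, .N 48, .N 4]⟩,
  ⟨200, 261, 14, 19, [.N 2]⟩,
  ⟨202, 261, 13, 21, [.N 12, .N 4]⟩,
  ⟨202, 262, 14, 19, [.N 3]⟩,
  ⟨204, 262, 13, 21, [.N 17]⟩,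
  ⟨204, 263, 14, 19, [.N 4]⟩,
  ⟨206, 263, 13, 21, [.N 18]⟩,
  ⟨206, 264, 14, 19, [.N 5]⟩,
  ⟨219, 273, 14, 20, [.N 11]⟩]

/-- cases treated by germs -/
def exc_18_6 : List (ℕ × ℕ) := []

theorem tab_18_6 : tabM 18 exc_18_6 cert_18_6 50 170 239 = true := by decide +kernel

/-- certificates for `m = 18`, `220 ≤ r < 267` -/
def cert_18_7 : List Cert := [
  ⟨221, 273, 13, 22, [.N 7, .N 18]⟩,
  ⟨221, 274, 14, 20, [.N 12]⟩,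
  ⟨223, 274, 14, 20, [.N 13]⟩,
  ⟨223, 275, 14, 20, [.N 9, .N 4]⟩,
  ⟨225, 275, 13, 22, [.N 26]⟩,
  ⟨225, 276, 15, 19, []⟩,
  ⟨227, 277, 5, 56, [.N 49, .N 4]⟩,
  ⟨227, 278, 15, 19, [.N 1]⟩,
  ⟨229, 278, 14, 20, [.N 14, .N 2]⟩,
  ⟨229, 279, 14, 20, [.N 16]⟩,
  ⟨231, 279, 14, 20, [.N 17]⟩,
  ⟨231, 280, 15, 19, [.N 3]⟩,
  ⟨233, 280, 14, 21, [.N 18]⟩,
  ⟨233, 281, 15, 19, [.N 4]⟩,
  ⟨235, 281, 14, 21, [.N 19]⟩,
  ⟨235, 282, 15, 19, [.N 5]⟩,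
  ⟨237, 283, 15, 19, [.N 6]⟩,
  ⟨254, 294, 14, 22, [.N 27]⟩,
  ⟨256, 294, 15, 20, [.N 15]⟩,
  ⟨256, 295, 16, 19, []⟩,
  ⟨258, 295, 15, 20, [.N 16]⟩,
  ⟨258, 296, 16, 19, [.N 1]⟩,
  ⟨260, 296, 14, 22, [.N 30]⟩,
  ⟨260, 297, 16, 19, [.N 2]⟩,
  ⟨262, 297, 15, 20, [.N 18]⟩,
  ⟨262, 298, 16, 19, [.N 3]⟩,
  ⟨264, 298, 14, 22, [.N 32]⟩,
  ⟨264, 299, 16, 19, [.N 4]⟩,
  ⟨266, 300, 5, 61, [.N 55, .N 5]⟩,
  ⟨266, 301, 16, 19, [.N 5]⟩]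

/-- cases treated by germs -/
def exc_18_7 : List (ℕ × ℕ) := []

theorem tab_18_7 : tabM 18 exc_18_7 cert_18_7 47 220 272 = true := by decide +kernel

/-- certificates for `m = 18`, `267 ≤ r < 347` -/
def cert_18_8 : List Cert := [
  ⟨268, 301, 16, 19, [.N 6]⟩,
  ⟨268, 302, 16, 19, [.N 6]⟩,
  ⟨270, 302, 16, 19, [.N 7]⟩,
  ⟨293, 315, 3, 106, [.N 40, .N 3, .N 10]⟩,
  ⟨293, 316, 15, 22, [.N 32]⟩,
  ⟨295, 316, 15, 22, [.N 10, .M 255 [(0, [(4853, 0), (177, 19)]), (255, [(4598, 0), (167, 18)]), (510, [(4343, 0), (157, 17)]), (765, [(4088, 0), (147, 16)]), (1020, [(3833, 0), (137, 14)]), (1275, [(3578, 0), (137, 14)]), (1530, [(3323, 0), (127, 13)]), (1785, [(3068, 0), (117, 12)]), (2040, [(2813, 0), (107, 11)]), (2295, [(2558, 0), (97, 10)]), (2550, [(2303, 0), (87, 9)]), (2805, [(2048, 0), (77, 8)]), (3060, [(1793, 0), (67, 7)]), (3315,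 [(1538, 0), (57, 6)]), (3570, [(1283, 0), (47, 5)]), (3825, [(1028, 0), (37, 4)]), (4080, [(773, 0), (27, 3)]), (4335, [(518, 0), (17, 2)]), (4590, [(263, 0), (7, 1)]), (4845, [(8, 0)])], .N 15]⟩,
  ⟨295, 317, 16, 20, [.N 18]⟩,
  ⟨297, 317, 5, 64, [.N 56, .N 7, .N 10]⟩,
  ⟨297, 318, 17, 19, [.N 4]⟩,
  ⟨299, 318, 16, 20, [.N 11, .N 10]⟩,
  ⟨299, 319, 16, 20, [.N 21]⟩,
  ⟨301, 319, 17, 19, [.N 6]⟩,
  ⟨301, 320, 17, 19, [.N 6]⟩,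
  ⟨303, 320, 17, 19, [.N 7]⟩,
  ⟨303, 321, 16, 21, [.N 23]⟩,
  ⟨305, 321, 17, 19, [.N 8]⟩,
  ⟨332, 336, 17, 20, [.N 21]⟩,
  ⟨334, 336, 17, 20, [.N 19, .N 3]⟩,
  ⟨334, 337, 17, 20, [.N 22]⟩,
  ⟨336, 337, 18, 19, [.N 6]⟩,
  ⟨336, 338, 18, 19, [.N 6]⟩,
  ⟨338, 338, 18, 19, [.N 7]⟩,
  ⟨338, 339, 18, 19, [.N 7]⟩,
  ⟨340, 339, 18, 19, [.N 8]⟩,
  ⟨340, 340, 18, 19, [.N 8]⟩,
  ⟨342, 340, 18, 19, [.N 9]⟩]

/-- cases treated by germs -/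
def exc_18_8 : List (ℕ × ℕ) := []

theorem tab_18_8 : tabM 18 exc_18_8 cert_18_8 80 267 300 = true := by decide +kernel

/-- certificates for `m = 18`, `347 ≤ r < 427` -/
def cert_18_9 : List Cert := [
  ⟨375, 357, 19, 19, [.N 7]⟩,
  ⟨377, 357, 19, 19, [.N 8]⟩,
  ⟨377, 358, 19, 19, [.N 8]⟩,
  ⟨379, 358, 19, 19, [.N 9]⟩,
  ⟨379, 359, 19, 19, [.N 9]⟩,
  ⟨381, 359, 19, 19, [.N 10]⟩,
  ⟨420, 378, 20, 19, [.N 10]⟩,
  ⟨422, 378, 20, 19, [.N 11]⟩]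

/-- cases treated by germs -/
def exc_18_9 : List (ℕ × ℕ) := []

theorem tab_18_9 : tabM 18 exc_18_9 cert_18_9 80 347 342 = true := by decide +kernel

/-- certificates for `m = 18`, `427 ≤ r < 441` -/
def cert_18_10 : List Cert := []

/-- cases treated by germs -/
def exc_18_10 : List (ℕ × ℕ) := []

theorem tab_18_10 : tabM 18 exc_18_10 cert_18_10 14 427 380 = true := by decide +kernel

/-- certificates for `m = 19`, `10 ≤ r < 29` -/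
def cert_19_0 : List Cert := [
  ⟨10, 60, 2, 31, [.N 1, .M 7 [(0, [(151, 0), (15, 20), (2, 23), (1, 24)]), (7, [(144, 0), (15, 20), (1, 22)]), (14, [(137, 0), (14, 19), (1, 20)]), (21, [(130, 0), (13, 18), (2, 20)]), (28, [(123, 0), (12, 16), (2, 19)]), (35, [(116, 0), (12, 16), (1, 18)]), (42, [(109, 0), (11, 15), (1, 16)]), (49, [(102, 0), (10, 14), (2, 16)]), (56, [(95, 0), (9, 12), (1, 14), (1, 15)]), (63, [(88, 0), (9, 12)]), (70, [(81, 0), (8, 11), (1, 12)]), (77, [(74, 0), (7, 10), (1, 11)]), (84, [(67, 0), (6, 8), (1, 10)]), (91, [(60, 0), (6, 8)]), (98, [(53, 0), (5, 7), (1, 8)]), (105, [(46, 0), (4, 6), (1, 7)]), (112, [(39, 0), (3, 4), (1, 6)]), (119, [(32, 0), (3, 4)]), (126, [(25, 0), (2, 3)]), (133, [(18, 0), (1, 2)]), (140, [(11, 0)]), (147, [(4, 0)])], .N 1]⟩,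
  ⟨10, 61, 2, 31, [.N 1, .M 8 [(0, [(153, 0), (33, 19), (7, 23), (2, 24)]), (8, [(145, 0), (32, 18), (7, 22), (1, 23)]), (16, [(137, 0), (30, 17), (5, 20), (2, 21)]), (24, [(129, 0), (28, 16), (5, 19), (2, 20)]), (32, [(121, 0), (26, 15), (6, 18), (1, 19)]), (40, [(113, 0), (25, 14), (5, 17)]), (48, [(105, 0), (23, 13), (5, 16)]), (56, [(97, 0), (21, 12), (4, 14), (1, 15)]), (64, [(89, 0), (19, 11), (4, 13), (2, 14)]), (72, [(81, 0), (18, 10), (3, 12)]), (80, [(73, 0), (16, 9), (3, 11)]), (88, [(65, 0), (14, 8), (2, 9), (2, 10)]), (96, [(57, 0), (12, 7), (2, 8)]), (104, [(49, 0), (11, 6), (1, 7)]), (112, [(41, 0), (9, 5), (2, 6)]), (120, [(33, 0), (7, 4), (2, 5)]), (128, [(25, 0), (5, 3)]), (136, [(17, 0), (4, 2)]), (144, [(9, 0), (2, 1)]), (152, [(1, 0)])]]⟩,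
  ⟨11, 63, 3, 22, [.M 9 [(0, [(189, 0), (1, 21)]), (9, [(180, 0)]), (18, [(171, 0)]), (27, [(162, 0)]), (36, [(153, 0)]), (45, [(144, 0)]), (54, [(135, 0)]), (63, [(126, 0)]), (72, [(117, 0)]), (81, [(108, 0)]), (90, [(99, 0)]), (99, [(90, 0)]), (108, [(81, 0)]), (117, [(72, 0)]), (126, [(63, 0)]), (135, [(54, 0)]), (144, [(45, 0)]), (153, [(36, 0)]), (162, [(27, 0)]), (171, [(18, 0)]), (180, [(9, 0)])], .M 10 [(0, [(190, 0), (18, 19), (1, 20)]), (10, [(180, 0), (17, 18), (1, 19)]), (20, [(170, 0), (16, 17), (1, 18)]), (30, [(160, 0), (15, 16), (1, 17)]), (40, [(150, 0), (14, 15), (1, 16)]), (50, [(140, 0), (13, 14), (1, 15)]), (60, [(130, 0), (12, 13), (1, 14)]), (70, [(120, 0), (11, 12), (1, 13)]), (80, [(110, 0), (10, 11), (1, 12)]), (90, [(100, 0), (9, 10)]), (100, [(90, 0), (8, 9)]), (110, [(80, 0), (7, 8)]), (120, [(70, 0), (6,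 7)]), (130, [(60, 0), (5, 6)]), (140, [(50, 0), (4, 5)]), (150, [(40, 0), (3, 4)]), (160, [(30, 0), (2, 3)]), (170, [(20, 0), (1, 2)]), (180, [(10, 0)])]]⟩,
  ⟨11, 64, 3, 22, [.N 1]⟩,
  ⟨12, 67, 2, 34, [.N 3]⟩,
  ⟨13, 68, 3, 23, [.N 1, .N 1]⟩,
  ⟨13, 69, 3, 24, [.N 1, .M 12 [(0, [(230, 0), (16, 19), (1, 20)]), (12, [(218, 0), (15, 17), (1, 19)]), (24, [(206, 0), (15, 17)]), (36, [(194, 0), (14, 16), (1, 17)]), (48, [(182, 0), (13, 15), (1, 16)]), (60, [(170, 0), (12, 14), (1, 15)]), (72, [(158, 0), (11, 13), (1, 14)]), (84, [(146, 0), (10, 12), (1, 13)]), (96, [(134, 0), (9, 11)]), (108, [(122, 0), (8, 10)]), (120, [(110, 0), (7, 8)]), (132, [(98, 0), (7, 8)]), (144, [(86, 0), (6, 7)]), (156, [(74, 0), (5, 6)]), (168, [(62, 0), (4, 5)]), (180, [(50, 0), (3, 4)]), (192, [(38, 0), (2, 3)]), (204, [(26, 0), (1, 2)]), (216, [(14, 0)]), (228,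 [(2, 0)])]]⟩,
  ⟨14, 71, 2, 36, [.N 1, .N 1, .M 10 [(0, [(206, 0), (32, 20), (4, 23), (2, 24)]), (10, [(196, 0), (30, 19), (5, 22), (1, 23)]), (20, [(186, 0), (29, 18), (5, 21), (1, 22)]), (30, [(176, 0), (27, 17), (5, 20)]), (40, [(166, 0), (25, 16), (5, 19)]), (50, [(156, 0), (24, 15), (5, 18)]), (60, [(146, 0), (23, 14), (2, 16), (2, 17)]), (70, [(136, 0), (21, 13), (3, 15), (1, 16)]), (80, [(126, 0), (19, 12), (4, 14)]), (90, [(116, 0), (17, 11), (4, 13)]), (100, [(106, 0), (16, 10), (3, 12)]), (110, [(96, 0), (14, 9), (3, 11)]), (120, [(86, 0), (13, 8), (1, 9), (2, 10)]), (130, [(76, 0), (11, 7), (2, 8)]), (140, [(66, 0), (10, 6), (1, 7)]), (150, [(56, 0), (8, 5), (2, 6)]), (160, [(46, 0), (6, 4), (2, 5)]), (170, [(36, 0), (4, 2), (2, 4)]), (180, [(26, 0), (4, 2)]), (190, [(16, 0), (2, 1)]), (200, [(6, 0)])], .N 1]⟩,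
  ⟨14, 72, 2, 37, [.N 3, .M 13 [(0, [(251, 0), (14, 18), (1, 20)]), (13, [(238, 0), (14, 18)]), (26, [(225, 0), (13, 17), (1, 18)]), (39, [(212, 0), (12, 16), (1, 17)]), (52, [(199, 0), (11, 14), (1, 16)]), (65, [(186, 0), (11, 14)]), (78, [(173, 0), (10, 13), (1, 14)]), (91, [(160, 0), (9, 12), (1, 13)]), (104, [(147, 0), (8, 10)]), (117, [(134, 0), (8, 10)]), (130, [(121, 0), (7, 9)]), (143, [(108, 0), (6, 8)]), (156, [(95, 0), (5, 6)]), (169, [(82, 0), (5, 6)]), (182, [(69, 0), (4, 5)]), (195, [(56, 0), (3, 4)]), (208, [(43, 0), (2, 2)]), (221, [(30, 0), (2, 2)]), (234, [(17, 0), (1, 1)]), (247, [(4, 0)])]]⟩,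
  ⟨15, 75, 3, 26, [.N 1, .N 2]⟩,
  ⟨16, 76, 3, 26, [.N 3]⟩,
  ⟨16, 77, 4, 20, []⟩,
  ⟨17, 78, 3, 27, [.N 1, .M 13 [(0, [(260, 0), (37, 20), (4, 22), (2, 23)]), (13, [(247, 0), (35, 19), (4, 21), (2, 22)]), (26, [(234, 0), (33, 18), (4, 20)]), (39, [(221, 0), (32, 17), (3, 19)]), (52, [(208, 0), (30, 16), (3, 18)]), (65, [(195, 0), (28, 15), (4, 17)]), (78, [(182, 0), (26, 14), (4, 16)]), (91, [(169, 0), (24, 13), (2, 14), (2, 15)]), (104, [(156, 0), (22, 12), (2, 13)]), (117, [(143, 0), (20, 11), (2, 12)]), (130, [(130, 0), (18, 10), (2, 11)]), (143, [(117, 0), (16, 9), (2, 10)]), (156, [(104, 0), (15, 8), (1, 9)]), (169, [(91, 0), (13, 7), (2, 8)]), (182, [(78, 0), (11, 6)]), (195, [(65, 0), (9, 5)]), (208, [(52, 0), (7, 4)]), (221, [(39, 0), (5, 3)]), (234, [(26, 0), (3, 2)]), (247, [(13, 0), (1, 1)])], .N 1]⟩,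
  ⟨17, 79, 3, 27, [.N 1, .M 12 [(0, [(263, 0), (18, 20), (2, 23)]), (12, [(251, 0), (18, 20), (1, 22)]), (24, [(239, 0), (17, 19), (1, 20)]), (36, [(227, 0), (16, 18), (2, 20)]), (48, [(215, 0), (15, 17), (2, 19)]), (60, [(203, 0), (14, 16), (2, 18)]), (72, [(191, 0), (13, 15), (2, 17)]), (84, [(179, 0), (12, 14), (1, 15), (1, 16)]), (96, [(167, 0), (11, 13), (1, 14)]), (108, [(155, 0), (10, 11), (1, 13)]), (120, [(143, 0), (10, 11)]), (132, [(131, 0), (9, 10), (1, 11)]), (144, [(119, 0), (8, 9), (1, 10)]), (156, [(107, 0), (7, 8), (1, 9)]), (168, [(95, 0), (6, 7), (1, 8)]), (180, [(83, 0), (5, 6), (1, 7)]), (192, [(71, 0), (4, 5), (1, 6)]), (204, [(59, 0), (3, 4), (1, 5)]), (216, [(47, 0), (2, 2), (1, 4)]), (228, [(35, 0), (2, 2)]), (240, [(23, 0), (1, 1), (1, 2)]), (252, [(11, 0)])], .N 1, .N 1]⟩,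
  ⟨19, 83, 2, 42, [.N 3, .N 3]⟩,
  ⟨19, 84, 3, 29, [.N 4]⟩,
  ⟨20, 85, 4, 22, [.N 2]⟩,
  ⟨20, 86, 4, 22, [.N 2]⟩,
  ⟨21, 87, 3, 30, [.N 4, .N 1]⟩,
  ⟨21, 88, 2, 45, [.N 3, .N 3, .N 1]⟩,
  ⟨22, 89, 4, 23, [.N 2, .N 1]⟩,
  ⟨22, 90, 4, 23, [.N 1, .M 19 [(0, [(380, 0), (19, 20), (1, 21)]), (19, [(361, 0), (18, 19)]), (38, [(342, 0), (17, 18)]), (57, [(323, 0), (16, 17)]), (76, [(304, 0), (15, 16)]), (95, [(285, 0), (14, 15)]), (114, [(266, 0), (13, 14)]), (133, [(247, 0), (12, 13)]), (152, [(228, 0), (11, 12)]), (171, [(209, 0), (10, 11)]), (190, [(190, 0), (9, 10)]), (209, [(171, 0), (8, 9)]), (228, [(152, 0), (7, 8)]), (247, [(133, 0), (6, 7)]), (266, [(114, 0), (5, 5)]), (285, [(95, 0), (5, 5)]), (304, [(76, 0), (4, 4)]), (323, [(57, 0), (3, 3)]), (342, [(38, 0), (2, 2)]), (361, [(19, 0), (1, 1)])], .N 1]⟩,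
  ⟨23, 91, 3, 31, [.N 4, .N 2]⟩,
  ⟨24, 94, 4, 24, [.N 1, .M 19 [(0, [(397, 0), (19, 20), (1, 21)]), (19, [(378, 0), (18, 19), (1, 20)]), (38, [(359, 0), (17, 18), (1, 19)]), (57, [(340, 0), (16, 17), (1, 18)]), (76, [(321, 0), (15, 16), (1, 17)]), (95, [(302, 0), (14, 15), (1, 16)]), (114, [(283, 0), (13, 14), (1, 15)]), (133, [(264, 0), (12, 13), (1, 14)]), (152, [(245, 0), (11, 12), (1, 13)]), (171, [(226, 0), (10, 11), (1, 12)]), (190, [(207, 0), (9, 10), (1, 11)]), (209, [(188, 0), (8, 9), (1, 10)]), (228, [(169, 0), (7, 8), (1, 9)]), (247, [(150, 0), (6, 7), (1, 8)]), (266, [(131, 0), (5, 5), (1, 7)]), (285, [(112, 0), (5, 5)]), (304, [(93, 0), (4, 4), (1, 5)]), (323, [(74, 0), (3, 3), (1, 4)]), (342, [(55, 0), (2, 2), (1, 3)]), (361, [(36, 0), (1, 1)]), (380, [(17, 0)])], .M 20 [(0, [(417, 0), (1, 16)]), (20, [(397, 0), (1, 16)]),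 (40, [(377, 0), (1, 16)]), (60, [(357, 0)]), (80, [(337, 0)]), (100, [(317, 0)]), (120, [(297, 0)]), (140, [(277, 0)]), (160, [(257, 0)]), (180, [(237, 0)]), (200, [(217, 0)]), (220, [(197, 0)]), (240, [(177, 0)]), (260, [(157, 0)]), (280, [(137, 0)]), (300, [(117, 0)]), (320, [(97, 0)]), (340, [(77, 0)]), (360, [(57, 0)]), (380, [(37, 0)]), (400, [(17, 0)])], .M 21 [(0, [(418, 0), (18, 19), (1, 20)]), (21, [(397, 0), (17, 18), (1, 19)]), (42, [(376, 0), (16, 17), (1, 18)]), (63, [(355, 0), (15, 16), (1, 17)]), (84, [(334, 0), (14, 15), (1, 16)]), (105, [(313, 0), (13, 14), (1, 15)]), (126, [(292, 0), (12, 13), (1, 14)]), (147, [(271, 0), (11, 12), (1, 13)]), (168, [(250, 0), (10, 11), (1, 12)]), (189, [(229, 0), (9, 10), (1, 11)]), (210, [(208, 0), (8, 9), (1, 10)]), (231, [(187, 0), (7, 8), (1, 9)]), (252, [(166, 0), (6, 7), (1, 8)]),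 (273, [(145, 0), (5, 6), (1, 7)]), (294, [(124, 0), (4, 5), (1, 6)]), (315, [(103, 0), (3, 4), (1, 5)]), (336, [(82, 0), (2, 2), (1, 4)]), (357, [(61, 0), (2, 2)]), (378, [(40, 0), (1, 1)]), (399, [(19, 0)])], .N 1]⟩,
  ⟨24, 95, 4, 24, [.N 3, .N 1]⟩,
  ⟨25, 95, 4, 24, [.N 4]⟩,
  ⟨25, 96, 5, 20, []⟩,
  ⟨26, 97, 3, 33, [.N 5, .N 2]⟩,
  ⟨26, 98, 4, 25, [.N 1, .N 1, .N 1, .M 24 [(0, [(457, 0), (35, 19), (2, 20)]), (24, [(433, 0), (33, 18), (2, 19)]), (48, [(409, 0), (31, 17), (2, 18)]), (72, [(385, 0), (29, 16), (2, 17)]), (96, [(361, 0), (28, 15), (1, 16)]), (120, [(337, 0), (26, 14), (2, 15)]), (144, [(313, 0), (25, 13), (1, 14)]), (168, [(289, 0), (23, 12), (2, 13)]), (192, [(265, 0), (21, 11)]), (216, [(241, 0), (19, 10)]), (240, [(217, 0), (17, 9)]), (264, [(193, 0), (15, 8)]), (288, [(169, 0), (13, 7)]), (312, [(145, 0), (11, 6)]),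 (336, [(121, 0), (10, 5)]), (360, [(97, 0), (8, 4)]), (384, [(73, 0), (6, 3)]), (408, [(49, 0), (4, 2)]), (432, [(25, 0), (2, 1)]), (456, [(1, 0)])]]⟩,
  ⟨28, 101, 3, 34, [.N 5, .N 3]⟩,
  ⟨28, 102, 3, 35, [.N 5, .N 3]⟩]

/-- cases treated by germs -/
def exc_19_0 : List (ℕ × ℕ) := [(12, 66), (15, 74), (23, 92)]

theorem tab_19_0 : tabM 19 exc_19_0 cert_19_0 19 10 60 = true := by decide +kernel

/-- certificates for `m = 19`, `29 ≤ r < 50` -/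
def cert_19_1 : List Cert := [
  ⟨30, 105, 3, 36, [.N 5, .N 2, .N 1, .N 1]⟩,
  ⟨30, 106, 4, 27, [.N 6]⟩,
  ⟨31, 107, 5, 22, [.N 1, .M 28 [(0, [(551, 0), (18, 19), (1, 20)]), (28, [(523, 0), (17, 18), (1, 19)]), (56, [(495, 0), (16, 17), (1, 18)]), (84, [(467, 0), (15, 16), (1, 17)]), (112, [(439, 0), (14, 15), (1, 16)]), (140, [(411, 0), (13, 14), (1, 15)]), (168, [(383, 0), (12, 13), (1, 14)]), (196, [(355, 0), (11, 12), (1, 13)]), (224, [(327, 0), (10, 11), (1, 12)]), (252, [(299, 0), (9, 10), (1, 11)]), (280, [(271, 0), (8, 9)]), (308, [(243, 0), (7, 8)]), (336, [(215, 0), (6, 7)]), (364, [(187, 0), (5, 5)]), (392, [(159, 0), (5, 5)]), (420, [(131, 0), (4, 4)]), (448, [(103, 0), (3, 3)]), (476, [(75, 0), (2, 2)]), (504, [(47, 0), (1, 1)]), (532, [(19, 0)])], .N 1]⟩,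
  ⟨31, 108, 5, 22, [.N 3]⟩,
  ⟨32, 108, 4, 28, [.N 6, .N 1]⟩,
  ⟨32, 109, 3, 37, [.N 8]⟩,
  ⟨33, 110, 5, 23, [.N 1, .N 3]⟩,
  ⟨33, 111, 4, 28, [.N 7]⟩,
  ⟨34, 112, 3, 38, [.N 8, .N 1]⟩,
  ⟨34, 113, 5, 23, [.N 4]⟩,
  ⟨35, 113, 5, 23, [.N 3, .N 2]⟩,
  ⟨35, 114, 5, 23, [.N 2, .N 1, .N 2]⟩,
  ⟨36, 115, 5, 24, [.N 5]⟩,
  ⟨36, 116, 6, 20, []⟩,
  ⟨37, 117, 5, 24, [.N 1, .N 1, .M 30 [(0, [(625, 0), (18, 20), (1, 21)]), (30, [(595, 0), (17, 19), (1, 20)]), (60, [(565, 0), (16, 18), (1, 19)]), (90, [(535, 0), (15, 17), (1, 18)]), (120, [(505, 0), (14, 16), (1, 17)]), (150, [(475, 0), (13, 15), (1, 16)]), (180, [(445, 0), (12, 14), (1, 15)]), (210, [(415, 0), (11, 13), (1, 14)]), (240, [(385, 0), (10, 12), (1, 13)]), (270, [(355, 0), (9, 11), (1, 12)]), (300, [(325, 0), (8, 10), (1, 11)]), (330, [(295, 0), (7, 9), (1, 10)]), (360, [(265, 0), (6,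 7), (1, 9)]), (390, [(235, 0), (6, 7)]), (420, [(205, 0), (5, 5), (1, 7)]), (450, [(175, 0), (5, 5)]), (480, [(145, 0), (4, 4)]), (510, [(115, 0), (3, 3)]), (540, [(85, 0), (2, 2)]), (570, [(55, 0), (1, 1)]), (600, [(25, 0)])], .N 2, .N 1]⟩,
  ⟨37, 118, 5, 24, [.N 4, .N 2]⟩,
  ⟨38, 118, 6, 20, [.N 1]⟩,
  ⟨39, 120, 5, 25, [.N 1, .N 2, .M 32 [(0, [(663, 0), (16, 19), (1, 21)]), (32, [(631, 0), (16, 19)]), (64, [(599, 0), (15, 18), (1, 19)]), (96, [(567, 0), (14, 17), (1, 18)]), (128, [(535, 0), (13, 16), (1, 17)]), (160, [(503, 0), (12, 15), (1, 16)]), (192, [(471, 0), (11, 14), (1, 15)]), (224, [(439, 0), (10, 13), (1, 14)]), (256, [(407, 0), (9, 10), (1, 13)]), (288, [(375, 0), (9, 10)]), (320, [(343, 0), (9, 10)]), (352, [(311, 0), (8, 9)]), (384, [(279, 0), (7, 8)]), (416, [(247, 0), (6, 7)]), (448, [(215, 0), (5, 6)]), (480, [(183,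 0), (4, 5)]), (512, [(151, 0), (3, 4)]), (544, [(119, 0), (2, 3)]), (576, [(87, 0), (1, 2)]), (608, [(55, 0)]), (640, [(23, 0)])], .N 3]⟩,
  ⟨39, 121, 4, 31, [.N 9]⟩,
  ⟨41, 123, 4, 31, [.N 9, .N 1]⟩,
  ⟨41, 124, 5, 25, [.N 7]⟩,
  ⟨43, 126, 5, 26, [.N 7, .N 1]⟩,
  ⟨43, 127, 5, 26, [.N 7, .N 1]⟩,
  ⟨45, 129, 5, 26, [.N 3, .M 34 [(0, [(715, 0), (56, 21), (1, 22)]), (34, [(681, 0), (54, 20), (2, 21)]), (68, [(647, 0), (51, 19), (3, 20)]), (102, [(613, 0), (48, 18), (3, 19)]), (136, [(579, 0), (45, 17), (3, 18)]), (170, [(545, 0), (42, 16), (3, 17)]), (204, [(511, 0), (39, 15), (3, 16)]), (238, [(477, 0), (36, 14), (3, 15)]), (272, [(443, 0), (34, 13), (2, 14)]), (306, [(409, 0), (33, 12), (1, 13)]), (340, [(375, 0), (30, 11)]), (374, [(341, 0), (27, 10)]), (408, [(307, 0), (24, 9)]), (442, [(273, 0), (21, 8)]), (476, [(239, 0), (18, 7)]),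 (510, [(205, 0), (15, 6)]), (544, [(171, 0), (12, 4)]), (578, [(137, 0), (12, 4)]), (612, [(103, 0), (9, 3)]), (646, [(69, 0), (6, 2)]), (680, [(35, 0), (3, 1)]), (714, [(1, 0)])], .N 4]⟩,
  ⟨45, 130, 6, 22, [.N 4]⟩,
  ⟨47, 132, 4, 34, [.N 1, .M 19 [(0, [(559, 0), (27, 29)]), (19, [(540, 0), (26, 28), (1, 29)]), (38, [(521, 0), (25, 27), (1, 28)]), (57, [(502, 0), (24, 26), (1, 27)]), (76, [(483, 0), (23, 25), (1, 26)]), (95, [(464, 0), (22, 24), (1, 25)]), (114, [(445, 0), (21, 23), (1, 24)]), (133, [(426, 0), (20, 22), (1, 23)]), (152, [(407, 0), (19, 21), (1, 22)]), (171, [(388, 0), (18, 20), (1, 21)]), (190, [(369, 0), (17, 19), (1, 20)]), (209, [(350, 0), (16, 18), (1, 19)]), (228, [(331, 0), (15, 17), (1, 18)]), (247, [(312, 0), (14, 16), (1, 17)]), (266, [(293, 0), (13, 15), (1, 16)]), (285, [(274, 0), (12, 13), (1, 15)]), (304,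 [(255, 0), (12, 13)]), (323, [(236, 0), (11, 12), (1, 13)]), (342, [(217, 0), (10, 11)]), (361, [(198, 0), (9, 10)]), (380, [(179, 0), (8, 9)]), (399, [(160, 0), (7, 8)]), (418, [(141, 0), (6, 7)]), (437, [(122, 0), (5, 6)]), (456, [(103, 0), (4, 5)]), (475, [(84, 0), (3, 4)]), (494, [(65, 0), (2, 3)]), (513, [(46, 0), (1, 2)]), (532, [(27, 0)]), (551, [(8, 0)])], .N 10, .N 1]⟩,
  ⟨47, 133, 6, 23, [.N 5]⟩,
  ⟨48, 133, 6, 23, [.N 2, .N 3, .N 1]⟩,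
  ⟨48, 134, 6, 23, [.N 3, .N 3]⟩,
  ⟨49, 134, 6, 23, [.N 6]⟩,
  ⟨49, 135, 7, 20, []⟩]

/-- cases treated by germs -/
def exc_19_1 : List (ℕ × ℕ) := []

theorem tab_19_1 : tabM 19 exc_19_1 cert_19_1 21 29 103 = true := by decide +kernel

/-- certificates for `m = 19`, `50 ≤ r < 74` -/
def cert_19_2 : List Cert := [
  ⟨50, 136, 6, 23, [.N 1, .N 2, .N 3, .N 1]⟩,
  ⟨50, 137, 6, 23, [.N 4, .N 3]⟩,
  ⟨51, 137, 6, 23, [.N 7]⟩,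
  ⟨51, 138, 7, 20, [.N 1]⟩,
  ⟨52, 139, 6, 24, [.N 2, .M 41 [(0, [(871, 0), (17, 21)]), (41, [(830, 0), (16, 20)]), (82, [(789, 0), (15, 19)]), (123, [(748, 0), (14, 18)]), (164, [(707, 0), (13, 15)]), (205, [(666, 0), (13, 15)]), (246, [(625, 0), (13, 15)]), (287, [(584, 0), (12, 14)]), (328, [(543, 0), (11, 13)]), (369, [(502, 0), (10, 12)]), (410, [(461, 0), (9, 11)]), (451, [(420, 0), (8, 10)]), (492, [(379, 0), (7, 9)]), (533, [(338, 0), (6, 8)]), (574, [(297, 0), (5, 7)]), (615, [(256, 0), (4, 6)]), (656, [(215, 0), (3, 5)]), (697, [(174, 0), (2, 4)]), (738, [(133, 0), (1, 3)]), (779, [(92, 0)]), (820, [(51, 0)]), (861, [(10, 0)])], .N 2, .N 1, .N 2]⟩,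
  ⟨52, 140, 5, 29, [.N 11]⟩,
  ⟨54, 141, 5, 29, [.N 11, .N 1]⟩,
  ⟨54, 142, 6, 24, [.N 4, .M 49 [(0, [(935, 0), (87, 19), (5, 20)]), (49, [(886, 0), (82, 18), (5, 19)]), (98, [(837, 0), (77, 17), (5, 18)]), (147, [(788, 0), (72, 16), (5, 17)]), (196, [(739, 0), (67, 15), (5, 16)]), (245, [(690, 0), (62, 14), (5, 15)]), (294, [(641, 0), (57, 13), (5, 14)]), (343, [(592, 0), (55, 12), (2, 13)]), (392, [(543, 0), (51, 11), (4, 12)]), (441, [(494, 0), (46, 10), (5, 11)]), (490, [(445, 0), (41, 9)]), (539, [(396, 0), (36, 8)]), (588, [(347, 0), (31, 7)]), (637, [(298, 0), (26, 6)]), (686, [(249, 0), (21, 5)]), (735, [(200, 0), (16, 4)]), (784, [(151, 0), (14, 3)]), (833, [(102, 0), (10, 2)]), (882, [(53, 0), (5, 1)]), (931, [(4, 0)])]]⟩,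
  ⟨56, 144, 5, 29, [.N 6, .N 8]⟩,
  ⟨56, 145, 6, 25, [.N 9]⟩,
  ⟨58, 146, 6, 25, [.N 9, .N 1]⟩,
  ⟨58, 147, 3, 50, [.N 2, .N 14, .N 1]⟩,
  ⟨60, 149, 6, 25, [.N 8, .N 3]⟩,
  ⟨60, 150, 6, 26, [.N 8, .N 3]⟩,
  ⟨62, 151, 7, 22, [.N 6]⟩,
  ⟨62, 152, 3, 51, [.N 2, .N 13, .N 2, .N 3]⟩,
  ⟨63, 154, 7, 23, [.N 7]⟩,
  ⟨64, 154, 7, 23, [.N 7]⟩,
  ⟨64, 155, 8, 20, []⟩,
  ⟨65, 155, 7, 23, [.N 2, .N 6]⟩,
  ⟨65, 156, 7, 23, [.N 1, .N 4, .N 3]⟩,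
  ⟨66, 156, 7, 23, [.N 8]⟩,
  ⟨66, 157, 8, 20, [.N 1]⟩,
  ⟨67, 158, 7, 23, [.N 1, .N 2, .N 3, .N 3]⟩,
  ⟨67, 159, 7, 23, [.N 8]⟩,
  ⟨69, 160, 6, 27, [.N 9, .N 6]⟩,
  ⟨69, 161, 7, 24, [.N 4, .N 6]⟩,
  ⟨71, 162, 7, 24, [.N 10]⟩,
  ⟨71, 163, 7, 24, [.N 4, .N 1, .M 65 [(0, [(1240, 0), (105, 19), (6, 20)]), (65, [(1175, 0), (99, 18), (6, 19)]), (130, [(1110, 0), (93, 17), (6, 18)]), (195, [(1045, 0), (87, 16), (6, 17)]), (260, [(980, 0), (81, 15), (6, 16)]), (325, [(915, 0), (75, 14), (6, 15)]), (390, [(850, 0), (70, 13), (5, 14)]), (455, [(785, 0), (65, 12), (5, 13)]), (520, [(720, 0), (62, 11), (3, 12)]), (585, [(655, 0), (56, 10)]), (650, [(590, 0), (50, 9)]), (715, [(525, 0), (44, 8)]), (780, [(460, 0), (38, 7)]), (845, [(395, 0), (32, 6)]), (910, [(330, 0), (26, 5)]), (975, [(265, 0), (20, 4)]), (1040, [(200, 0), (14, 3)]), (1105, [(135,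 0), (8, 2)]), (1170, [(70, 0), (4, 1)]), (1235, [(5, 0)])]]⟩,
  ⟨73, 165, 7, 24, [.M 50 [(0, [(1141, 0), (22, 22), (2, 23)]), (50, [(1091, 0), (21, 21), (1, 22)]), (100, [(1041, 0), (20, 20), (1, 21)]), (150, [(991, 0), (19, 19), (1, 20)]), (200, [(941, 0), (18, 18), (1, 19)]), (250, [(891, 0), (17, 17), (1, 18)]), (300, [(841, 0), (16, 16), (1, 17)]), (350, [(791, 0), (15, 15), (1, 16)]), (400, [(741, 0), (14, 14), (1, 15)]), (450, [(691, 0), (13, 13), (1, 14)]), (500, [(641, 0), (12, 12), (1, 13)]), (550, [(591, 0), (11, 11), (1, 12)]), (600, [(541, 0), (10, 10), (1, 11)]), (650, [(491, 0), (9, 9), (1, 10)]), (700, [(441, 0), (8, 8)]), (750, [(391, 0), (7, 7)]), (800, [(341, 0), (6, 6)]), (850, [(291, 0), (5, 5)]), (900, [(241, 0), (4, 4)]), (950, [(191, 0), (3, 3)]), (1000, [(141, 0), (2, 2)]), (1050, [(91, 0), (1, 1)]), (1100, [(41,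 0)])], .M 53 [(0, [(1165, 0), (40, 21), (2, 22)]), (53, [(1112, 0), (38, 20), (2, 21)]), (106, [(1059, 0), (36, 19), (2, 20)]), (159, [(1006, 0), (34, 18), (2, 19)]), (212, [(953, 0), (32, 17), (2, 18)]), (265, [(900, 0), (30, 16), (2, 17)]), (318, [(847, 0), (28, 15), (2, 16)]), (371, [(794, 0), (26, 14), (2, 15)]), (424, [(741, 0), (25, 13), (1, 14)]), (477, [(688, 0), (23, 12), (2, 13)]), (530, [(635, 0), (21, 11), (2, 12)]), (583, [(582, 0), (19, 10), (2, 11)]), (636, [(529, 0), (17, 9), (2, 10)]), (689, [(476, 0), (15, 8), (2, 9)]), (742, [(423, 0), (13, 7), (2, 8)]), (795, [(370, 0), (11, 6), (2, 7)]), (848, [(317, 0), (9, 5), (2, 6)]), (901, [(264, 0), (7, 4), (2, 5)]), (954, [(211, 0), (5, 3), (2, 4)]), (1007, [(158, 0), (3, 2), (2, 3)]), (1060, [(105, 0), (1, 1), (2, 2)]), (1113, [(52, 0)])], .N 4, .M 67 [(0, [(1291, 0), (73,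 19), (4, 20)]), (67, [(1224, 0), (69, 18), (4, 19)]), (134, [(1157, 0), (65, 17), (4, 18)]), (201, [(1090, 0), (61, 16), (4, 17)]), (268, [(1023, 0), (57, 15), (4, 16)]), (335, [(956, 0), (53, 14), (4, 15)]), (402, [(889, 0), (49, 12), (4, 14)]), (469, [(822, 0), (49, 12)]), (536, [(755, 0), (45, 11)]), (603, [(688, 0), (41, 10)]), (670, [(621, 0), (37, 9)]), (737, [(554, 0), (32, 8)]), (804, [(487, 0), (28, 7)]), (871, [(420, 0), (24, 6)]), (938, [(353, 0), (20, 5)]), (1005, [(286, 0), (16, 4)]), (1072, [(219, 0), (12, 3)]), (1139, [(152, 0), (8, 2)]), (1206, [(85, 0), (4, 1)]), (1273, [(18, 0)])], .N 1]⟩,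
  ⟨73, 166, 8, 21, [.N 4]⟩]

/-- cases treated by germs -/
def exc_19_2 : List (ℕ × ℕ) := []

theorem tab_19_2 : tabM 19 exc_19_2 cert_19_2 24 50 136 = true := by decide +kernel

/-- certificates for `m = 19`, `74 ≤ r < 101` -/
def cert_19_3 : List Cert := [
  ⟨75, 167, 7, 24, [.N 10, .N 2]⟩,
  ⟨75, 168, 8, 22, [.N 5]⟩,
  ⟨77, 169, 7, 25, [.N 10, .N 3]⟩,
  ⟨77, 170, 7, 25, [.N 10, .N 3]⟩,
  ⟨79, 171, 8, 22, [.N 7]⟩,
  ⟨79, 172, 7, 25, [.N 5, .N 3, .M 72 [(0, [(1375, 0), (121, 19), (5, 20)]), (72, [(1303, 0), (114, 18), (7, 19)]), (144, [(1231, 0), (107, 17), (7, 18)]), (216, [(1159, 0), (100, 16), (7, 17)]), (288, [(1087, 0), (93, 15), (7, 16)]), (360, [(1015, 0), (86, 14), (7, 15)]), (432, [(943, 0), (79, 13), (7, 14)]), (504, [(871, 0), (75, 12), (4, 13)]), (576, [(799, 0), (70, 11), (5, 12)]), (648, [(727, 0), (63, 10)]), (720, [(655,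 0), (56, 9)]), (792, [(583, 0), (49, 8)]), (864, [(511, 0), (42, 7)]), (936, [(439, 0), (35, 6)]), (1008, [(367, 0), (28, 5)]), (1080, [(295, 0), (21, 4)]), (1152, [(223, 0), (14, 3)]), (1224, [(151, 0), (12, 2)]), (1296, [(79, 0), (5, 1)]), (1368, [(7, 0)])]]⟩,
  ⟨81, 173, 8, 22, [.N 8]⟩,
  ⟨81, 174, 9, 20, []⟩,
  ⟨82, 176, 8, 23, [.N 9]⟩,
  ⟨83, 176, 7, 26, [.N 4, .M 60 [(0, [(1317, 0), (56, 21), (2, 22)]), (60, [(1257, 0), (53, 20), (3, 21)]), (120, [(1197, 0), (50, 19), (3, 20)]), (180, [(1137, 0), (47, 18), (3, 19)]), (240, [(1077, 0), (44, 17), (3, 18)]), (300, [(1017, 0), (41, 16), (3, 17)]), (360, [(957, 0), (38, 15), (3, 16)]), (420, [(897, 0), (35, 14), (3, 15)]), (480, [(837, 0), (32, 13), (3, 14)]), (540, [(777, 0), (29, 12), (3, 13)]), (600, [(717, 0), (26, 11), (3, 12)]), (660, [(657, 0), (25, 10), (1, 11)]), (720, [(597,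 0), (24, 9), (1, 10)]), (780, [(537, 0), (21, 8), (3, 9)]), (840, [(477, 0), (18, 7), (3, 8)]), (900, [(417, 0), (15, 6), (3, 7)]), (960, [(357, 0), (12, 5), (3, 6)]), (1020, [(297, 0), (9, 4), (3, 5)]), (1080, [(237, 0), (6, 3), (3, 4)]), (1140, [(177, 0), (3, 2), (3, 3)]), (1200, [(117, 0)]), (1260, [(57, 0)])], .N 1, .N 2, .N 5, .N 2]⟩,
  ⟨83, 177, 9, 20, [.N 1]⟩,
  ⟨84, 177, 8, 23, [.N 3, .M 73 [(0, [(1462, 0), (54, 20)]), (73, [(1389, 0), (51, 19)]), (146, [(1316, 0), (48, 18)]), (219, [(1243, 0), (46, 17)]), (292, [(1170, 0), (45, 16)]), (365, [(1097, 0), (42, 15)]), (438, [(1024, 0), (39, 14)]), (511, [(951, 0), (36, 13)]), (584, [(878, 0), (33, 12)]), (657, [(805, 0), (30, 11)]), (730, [(732, 0), (27, 10)]), (803, [(659, 0), (24, 9)]), (876, [(586, 0), (21, 8)]), (949, [(513, 0), (18, 7)]), (1022, [(440, 0), (15, 6)]), (1095,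 [(367, 0), (12, 5)]), (1168, [(294, 0), (9, 4)]), (1241, [(221, 0), (6, 3)]), (1314, [(148, 0), (3, 2)]), (1387, [(75, 0)]), (1460, [(2, 0)])], .N 4]⟩,
  ⟨84, 178, 7, 26, [.N 15]⟩,
  ⟨85, 178, 9, 20, [.N 2]⟩,
  ⟨86, 179, 8, 23, [.N 4, .M 76 [(0, [(1500, 0), (68, 19), (4, 20)]), (76, [(1424, 0), (64, 18), (4, 19)]), (152, [(1348, 0), (60, 16), (4, 18)]), (228, [(1272, 0), (60, 16)]), (304, [(1196, 0), (56, 15), (4, 16)]), (380, [(1120, 0), (52, 14), (4, 15)]), (456, [(1044, 0), (48, 13), (4, 14)]), (532, [(968, 0), (44, 12), (4, 13)]), (608, [(892, 0), (40, 11), (4, 12)]), (684, [(816, 0), (36, 10), (4, 11)]), (760, [(740, 0), (32, 9), (4, 10)]), (836, [(664, 0), (28, 8), (4, 9)]), (912, [(588, 0), (24, 7), (4, 8)]), (988, [(512, 0), (20, 6), (4, 7)]), (1064, [(436, 0), (16, 5)]), (1140, [(360, 0), (12, 4)]), (1216, [(284, 0), (8, 3)]),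 (1292, [(208, 0), (6, 2)]), (1368, [(132, 0), (4, 1)]), (1444, [(56, 0)])], .N 3]⟩,
  ⟨86, 180, 8, 23, [.N 10]⟩,
  ⟨88, 181, 8, 23, [.N 4, .N 4, .N 4]⟩,
  ⟨88, 182, 8, 23, [.N 11]⟩,
  ⟨90, 183, 8, 23, [.N 11, .N 1]⟩,
  ⟨90, 184, 8, 24, [.N 12]⟩,
  ⟨92, 185, 8, 24, [.N 11, .N 2]⟩,
  ⟨92, 186, 8, 24, [.N 11, .N 2]⟩,
  ⟨94, 187, 8, 24, [.N 11, .N 3]⟩,
  ⟨94, 188, 8, 24, [.N 11, .N 3]⟩,
  ⟨96, 189, 8, 24, [.N 11, .N 4]⟩,
  ⟨96, 190, 9, 22, [.N 7]⟩,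
  ⟨98, 191, 8, 24, [.N 11, .N 5]⟩,
  ⟨98, 192, 9, 22, [.N 8]⟩,
  ⟨100, 193, 9, 22, [.N 9]⟩,
  ⟨100, 194, 10, 20, []⟩]

/-- cases treated by germs -/
def exc_19_3 : List (ℕ × ℕ) := []

theorem tab_19_3 : tabM 19 exc_19_3 cert_19_3 27 74 166 = true := by decide +kernel

/-- certificates for `m = 19`, `101 ≤ r < 131` -/
def cert_19_4 : List Cert := [
  ⟨102, 195, 9, 22, [.N 9, .N 1]⟩,
  ⟨102, 196, 9, 22, [.N 10]⟩,
  ⟨104, 197, 10, 20, [.N 2]⟩,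
  ⟨104, 198, 10, 20, [.N 2]⟩,
  ⟨105, 198, 9, 23, [.N 3, .N 5, .N 4]⟩,
  ⟨105, 199, 9, 23, [.N 11]⟩,
  ⟨107, 200, 9, 23, [.N 1, .N 3, .N 4, .N 5]⟩,
  ⟨107, 201, 10, 21, [.N 3]⟩,
  ⟨109, 202, 9, 23, [.N 1, .N 4, .M 94 [(0, [(1897, 0), (55, 20)]), (94, [(1803, 0), (52, 19)]), (188, [(1709, 0), (49, 18)]), (282, [(1615, 0), (47, 16)]), (376, [(1521, 0), (47, 16)]), (470, [(1427, 0), (44, 15)]), (564, [(1333, 0), (42, 14)]), (658, [(1239, 0), (39, 13)]), (752, [(1145, 0), (36, 12)]), (846, [(1051, 0), (33, 11)]), (940, [(957, 0), (30, 10)]), (1034, [(863, 0), (27, 9)]), (1128, [(769, 0), (24, 8)]), (1222, [(675, 0), (21, 7)]), (1316, [(581, 0), (18, 6)]), (1410, [(487, 0), (15, 5)]), (1504, [(393, 0), (12, 4)]), (1598, [(299, 0), (9, 3)]), (1692, [(205, 0), (6, 2)]), (1786, [(111, 0), (3, 1)]), (1880, [(17, 0)])], .N 5, .N 1]⟩,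
  ⟨109, 203, 10, 21, [.N 4]⟩,
  ⟨111, 203, 9, 23, [.N 14]⟩,
  ⟨111, 204, 9, 23, [.N 5, .M 97 [(0, [(1919, 0), (109, 19), (6, 20)]), (97, [(1822, 0), (103, 18), (6, 19)]), (194, [(1725, 0), (97, 17), (6, 18)]), (291, [(1628, 0), (91, 16), (6, 17)]), (388, [(1531, 0), (85, 15), (6, 16)]), (485, [(1434, 0), (79, 14), (6, 15)]), (582, [(1337, 0), (73, 13), (6, 14)]), (679, [(1240, 0), (67, 12), (6, 13)]), (776, [(1143, 0), (61, 11), (6, 12)]), (873, [(1046, 0), (55, 10), (6, 11)]), (970, [(949, 0), (49, 9), (6, 10)]), (1067, [(852, 0), (43, 8), (6, 9)]), (1164, [(755, 0), (37, 7), (6, 8)]), (1261, [(658, 0), (31, 6), (6, 7)]), (1358, [(561, 0), (28, 5), (3, 6)]), (1455, [(464, 0), (24, 4), (4, 5)]), (1552, [(367, 0), (18, 3)]), (1649, [(270, 0), (12, 2)]), (1746, [(173, 0), (6, 1)]), (1843, [(76, 0)])], .N 4]⟩,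
  ⟨113, 205, 9, 23, [.N 14, .N 1]⟩,
  ⟨113, 206, 9, 23, [.N 8, .M 105 [(0, [(2003, 0), (136, 19), (8, 20)]), (105, [(1898, 0), (128, 18), (8, 19)]), (210, [(1793, 0), (120, 17), (8, 18)]), (315, [(1688, 0), (112, 16), (8, 17)]), (420, [(1583, 0), (110, 15), (2, 16)]), (525, [(1478, 0), (104, 14), (6, 15)]), (630, [(1373, 0), (96, 13)]), (735, [(1268, 0), (88, 12)]), (840, [(1163, 0), (80, 11)]), (945, [(1058, 0), (72, 10)]), (1050, [(953, 0), (64, 9)]), (1155, [(848, 0), (56, 8)]), (1260, [(743, 0), (48, 7)]), (1365, [(638, 0), (40, 6)]), (1470, [(533, 0), (37, 5)]), (1575, [(428, 0), (32, 4)]), (1680, [(323, 0), (24, 3)]), (1785, [(218, 0), (16, 2)]), (1890, [(113, 0), (8, 1)]), (1995, [(8, 0)])]]⟩,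
  ⟨115, 207, 9, 24, [.N 13, .N 3]⟩,
  ⟨115, 208, 10, 21, [.N 7]⟩,
  ⟨117, 209, 9, 24, [.N 12, .N 5]⟩,
  ⟨117, 210, 10, 22, [.N 8]⟩,
  ⟨119, 211, 3, 71, [.N 22, .N 3, .N 3]⟩,
  ⟨119, 212, 9, 24, [.N 17]⟩,
  ⟨121, 212, 9, 24, [.N 18]⟩,
  ⟨121, 213, 11, 20, []⟩,
  ⟨123, 214, 10, 22, [.N 11]⟩,
  ⟨123, 215, 11, 20, [.N 1]⟩,
  ⟨125, 216, 11, 20, [.N 2]⟩,
  ⟨125, 217, 11, 20, [.N 2]⟩,
  ⟨127, 218, 11, 20, [.N 3]⟩,
  ⟨128, 220, 11, 21, [.N 3]⟩,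
  ⟨130, 220, 10, 23, [.N 14]⟩,
  ⟨130, 221, 5, 45, [.N 32]⟩]

/-- cases treated by germs -/
def exc_19_4 : List (ℕ × ℕ) := []

theorem tab_19_4 : tabM 19 exc_19_4 cert_19_4 30 101 194 = true := by decide +kernel

end Pool.Agent.Helper22.E6L
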