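import Pool.Agent.Helper22.E6L.Tab
import Pool.Agent.Helper22.E6L.G16

set_option autoImplicit false

/-! # Tables of certificates, `m = 1 … 13`, `r < (m + 3) ^ 2` (helper22), MP_e6aa12_ag -/

namespace Pool.Agent.Helper22.E6L

open Pool.Agent.Helper22.E6

/-- certificates for `m = 1`, `10 ≤ r < 36` -/
def cert_1_0 : List Cert := [
  ⟨11, 3, 1, 4, [.N 3]⟩,
  ⟨11, 4, 3, 2, []⟩,
  ⟨13, 3, 1, 4, [.N 3]⟩,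
  ⟨13, 4, 1, 5, [.N 3]⟩,
  ⟨15, 4, 1, 5, [.N 4]⟩,
  ⟨17, 4, 1, 5, [.N 4]⟩,
  ⟨19, 4, 1, 5, [.N 4]⟩]

/-- cases treated by germs -/
def exc_1_0 : List (ℕ × ℕ) := []

theorem tab_1_0 : tabM 1 exc_1_0 cert_1_0 26 10 3 = true := by decide +kernel

/-- certificates for `m = 2`, `10 ≤ r < 57` -/
def cert_2_0 : List Cert := [
  ⟨11, 6, 1, 7, [.N 3]⟩,
  ⟨11, 7, 2, 4, [.N 3]⟩,
  ⟨13, 7, 1, 8, [.N 3]⟩,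
  ⟨20, 10, 1, 11, [.N 4]⟩,
  ⟨22, 10, 4, 3, [.N 3]⟩,
  ⟨24, 10, 2, 6, [.N 7]⟩]

/-- cases treated by germs -/
def exc_2_0 : List (ℕ × ℕ) := []

theorem tab_2_0 : tabM 2 exc_2_0 cert_2_0 47 10 6 = true := by decide +kernel

/-- certificates for `m = 3`, `10 ≤ r < 36` -/
def cert_3_0 : List Cert := [
  ⟨10, 10, 3, 4, []⟩,
  ⟨11, 10, 3, 4, [.N 1]⟩,
  ⟨12, 10, 2, 6, [.N 3]⟩,
  ⟨12, 11, 2, 6, [.N 3]⟩,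
  ⟨14, 11, 1, 12, [.N 3]⟩,
  ⟨14, 12, 1, 13, [.N 3]⟩,
  ⟨16, 12, 3, 5, [.N 3]⟩,
  ⟨16, 13, 4, 4, []⟩,
  ⟨18, 13, 3, 5, [.N 4]⟩,
  ⟨18, 14, 4, 4, []⟩,
  ⟨20, 14, 4, 4, [.N 2]⟩,
  ⟨22, 14, 1, 15, [.N 4]⟩,
  ⟨29, 18, 2, 10, [.N 7]⟩,
  ⟨31, 18, 5, 4, [.N 3]⟩,
  ⟨33, 18, 5, 4, [.N 4]⟩]

/-- cases treated by germs -/
def exc_3_0 : List (ℕ × ℕ) := []

theorem tab_3_0 : tabM 3 exc_3_0 cert_3_0 26 10 9 = true := by decide +kernel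

/-- certificates for `m = 4`, `10 ≤ r < 49` -/
def cert_4_0 : List Cert := [
  ⟨10, 12, 3, 5, [.N 1]⟩,
  ⟨10, 13, 2, 7, [.N 1, .N 2]⟩,
  ⟨11, 13, 3, 5, [.N 1]⟩,
  ⟨12, 14, 2, 8, [.N 1, .M 7 [(0, [(36, 0), (3, 4)]), (7, [(29, 0), (3, 4)]), (14, [(22, 0), (2, 3)]), (21, [(15, 0), (1, 2)]), (28, [(8, 0)]), (35, [(1, 0)])], .N 2]⟩,
  ⟨12, 15, 2, 8, [.N 3]⟩,
  ⟨14, 15, 2, 8, [.N 3, .N 1]⟩,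
  ⟨14, 16, 1, 17, [.N 3]⟩,
  ⟨16, 16, 3, 6, [.N 3]⟩,
  ⟨16, 17, 4, 5, []⟩,
  ⟨18, 17, 3, 6, [.N 4]⟩,
  ⟨18, 18, 3, 7, [.N 4]⟩,
  ⟨20, 18, 3, 7, [.N 5]⟩,
  ⟨25, 21, 5, 5, []⟩,
  ⟨27, 21, 3, 8, [.N 7]⟩,
  ⟨27, 22, 4, 6, [.N 5]⟩,
  ⟨29, 22, 4, 6, [.N 6]⟩,
  ⟨29, 23, 2, 12, [.N 7]⟩,
  ⟨31, 23, 5, 5, [.N 3]⟩,
  ⟨42, 28, 2, 15, [.N 9]⟩,
  ⟨44, 28, 6, 5, [.N 4]⟩,
  ⟨46, 28, 3, 10, [.N 12]⟩]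

/-- cases treated by germs -/
def exc_4_0 : List (ℕ × ℕ) := []

theorem tab_4_0 : tabM 4 exc_4_0 cert_4_0 39 10 12 = true := by decide +kernel

/-- certificates for `m = 5`, `10 ≤ r < 64` -/
def cert_5_0 : List Cert := [
  ⟨10, 15, 3, 6, [.N 1]⟩,
  ⟨10, 16, 2, 9, [.N 1, .M 8 [(0, [(41, 0), (8, 5), (2, 6)]), (8, [(33, 0), (7, 4), (1, 5)]), (16, [(25, 0), (5, 3)]), (24, [(17, 0), (3, 2)]), (32, [(9, 0), (1, 1)]), (40, [(1, 0)])]]⟩,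
  ⟨11, 16, 2, 9, [.N 3]⟩,
  ⟨12, 17, 2, 9, [.N 3]⟩,
  ⟨12, 18, 2, 10, [.N 3]⟩,
  ⟨14, 19, 2, 10, [.N 1, .N 1, .M 10 [(0, [(55, 0), (8, 5), (2, 6)]), (10, [(45, 0), (6, 4), (2, 5)]), (20, [(35, 0), (5, 3), (1, 4)]), (30, [(25, 0), (4, 2)]), (40, [(15, 0), (2, 1)]), (50, [(5, 0)])], .N 1]⟩,
  ⟨14, 20, 1, 21, [.N 3]⟩,
  ⟨16, 20, 3, 7, [.N 3]⟩,
  ⟨16, 21, 4, 6, []⟩,
  ⟨18, 21, 3, 8, [.N 4]⟩,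
  ⟨18, 22, 4, 6, [.N 1]⟩,
  ⟨21, 24, 2, 13, [.N 5]⟩,
  ⟨23, 24, 4, 7, [.N 3]⟩,
  ⟨23, 25, 4, 7, [.N 2, .N 1]⟩,
  ⟨25, 25, 3, 9, [.N 6]⟩,
  ⟨25, 26, 5, 6, []⟩,
  ⟨27, 26, 3, 9, [.N 7]⟩,
  ⟨27, 27, 5, 6, [.N 1]⟩,
  ⟨29, 28, 5, 6, [.N 2]⟩,
  ⟨36, 32, 6, 6, []⟩,
  ⟨38, 32, 5, 7, [.N 5, .N 1]⟩,
  ⟨38, 33, 3, 12, [.N 9]⟩,
  ⟨40, 33, 6, 6, [.N 2]⟩,
  ⟨40, 34, 2, 18, [.N 9]⟩,
  ⟨42, 34, 6, 6, [.N 3]⟩,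
  ⟨44, 34, 4, 9, [.N 11]⟩,
  ⟨55, 40, 2, 21, [.N 11]⟩,
  ⟨57, 40, 7, 6, [.N 4]⟩,
  ⟨59, 40, 5, 9, [.N 14]⟩]

/-- cases treated by germs -/
def exc_5_0 : List (ℕ × ℕ) := []

theorem tab_5_0 : tabM 5 exc_5_0 cert_5_0 54 10 15 = true := by decide +kernel

/-- certificates for `m = 6`, `10 ≤ r < 41` -/
def cert_6_0 : List Cert := [
  ⟨10, 20, 3, 7, []⟩,
  ⟨12, 20, 2, 11, [.N 3]⟩,
  ⟨14, 22, 3, 8, [.N 2]⟩,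
  ⟨14, 23, 2, 12, [.N 3, .N 1]⟩,
  ⟨15, 24, 3, 9, [.N 3]⟩,
  ⟨16, 24, 3, 9, [.N 3]⟩,
  ⟨16, 25, 4, 7, []⟩,
  ⟨17, 25, 3, 9, [.N 1, .N 1, .N 2]⟩,
  ⟨17, 26, 4, 7, []⟩,
  ⟨18, 26, 4, 7, [.N 1]⟩,
  ⟨19, 26, 2, 14, [.N 5]⟩,
  ⟨19, 27, 3, 10, [.N 4]⟩,
  ⟨21, 28, 3, 10, [.N 4, .N 1]⟩,
  ⟨21, 29, 2, 15, [.N 5]⟩,
  ⟨23, 29, 4, 8, [.N 3]⟩,
  ⟨23, 30, 4, 8, [.N 3]⟩,
  ⟨25, 30, 3, 11, [.N 6]⟩,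
  ⟨25, 31, 5, 7, []⟩,
  ⟨27, 32, 4, 9, [.N 5]⟩,
  ⟨27, 33, 3, 12, [.N 7]⟩,
  ⟨29, 33, 5, 7, [.N 2]⟩,
  ⟨32, 36, 3, 13, [.N 8]⟩,
  ⟨34, 36, 3, 13, [.N 8, .N 1]⟩,
  ⟨34, 37, 4, 10, [.N 7]⟩,
  ⟨36, 37, 5, 8, [.N 5]⟩,
  ⟨36, 38, 6, 7, []⟩,
  ⟨38, 38, 4, 10, [.N 9]⟩,
  ⟨38, 39, 4, 10, [.N 9]⟩,
  ⟨40, 39, 5, 8, [.N 7]⟩,
  ⟨40, 40, 3, 14, [.N 10]⟩]

/-- cases treated by germs -/
def exc_6_0 : List (ℕ × ℕ) := [(10, 19), (12, 21)]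

theorem tab_6_0 : tabM 6 exc_6_0 cert_6_0 31 10 19 = true := by decide +kernel

/-- certificates for `m = 6`, `41 ≤ r < 81` -/
def cert_6_1 : List Cert := [
  ⟨42, 40, 5, 9, [.N 8]⟩,
  ⟨51, 45, 7, 7, [.N 1]⟩,
  ⟨53, 45, 5, 10, [.N 12]⟩,
  ⟨53, 46, 4, 12, [.N 13]⟩,
  ⟨55, 46, 6, 8, [.N 9]⟩,
  ⟨55, 47, 5, 10, [.N 12]⟩,
  ⟨57, 47, 7, 7, [.N 4]⟩,
  ⟨72, 54, 8, 7, [.N 4]⟩,
  ⟨74, 54, 8, 7, [.N 5]⟩]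

/-- cases treated by germs -/
def exc_6_1 : List (ℕ × ℕ) := []

theorem tab_6_1 : tabM 6 exc_6_1 cert_6_1 40 41 40 = true := by decide +kernel

/-- certificates for `m = 7`, `10 ≤ r < 37` -/
def cert_7_0 : List Cert := [
  ⟨10, 22, 2, 12, [.N 1, .M 8 [(0, [(56, 0), (12, 7), (2, 8)]), (8, [(48, 0), (10, 6), (2, 7)]), (16, [(40, 0), (8, 5), (2, 6)]), (24, [(32, 0), (7, 4)]), (32, [(24, 0), (5, 3)]), (40, [(16, 0), (3, 2)]), (48, [(8, 0), (1, 1)])]]⟩,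
  ⟨10, 23, 2, 12, [.N 1, .N 2]⟩,
  ⟨12, 24, 2, 13, [.N 3]⟩,
  ⟨12, 25, 2, 13, [.N 3]⟩,
  ⟨14, 26, 2, 14, [.N 3, .N 1]⟩,
  ⟨14, 27, 3, 10, [.N 2]⟩,
  ⟨15, 27, 3, 10, [.N 2, .N 1]⟩,
  ⟨15, 28, 3, 10, [.N 3]⟩,
  ⟨16, 28, 3, 10, [.N 3]⟩,
  ⟨16, 29, 4, 8, []⟩,
  ⟨17, 29, 3, 10, [.N 2, .N 2]⟩,
  ⟨17, 30, 3, 11, [.N 3, .M 16 [(0, [(118, 0), (1, 2)]), (16, [(102, 0)]), (32, [(86, 0)]), (48, [(69, 0)]), (64, [(53, 0)]), (80, [(37, 0)]), (96, [(21, 0)]), (112, [(5, 0)])]]⟩,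
  ⟨18, 30, 4, 8, [.N 1]⟩,
  ⟨19, 31, 2, 16, [.N 1, .N 4, .N 1]⟩,
  ⟨19, 32, 2, 17, [.N 5]⟩,
  ⟨21, 32, 3, 11, [.N 5]⟩,
  ⟨21, 33, 3, 12, [.N 4, .N 1]⟩,
  ⟨23, 34, 3, 12, [.N 4, .N 2]⟩,
  ⟨23, 35, 4, 9, [.N 3]⟩,
  ⟨25, 35, 3, 12, [.N 6]⟩,
  ⟨25, 36, 5, 8, []⟩,
  ⟨27, 37, 4, 10, [.N 5]⟩,
  ⟨27, 38, 4, 10, [.N 5]⟩,
  ⟨29, 38, 2, 20, [.N 7]⟩,
  ⟨30, 40, 2, 21, [.N 7]⟩,
  ⟨32, 40, 4, 11, [.N 7]⟩,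
  ⟨32, 41, 3, 14, [.N 8]⟩,
  ⟨34, 42, 3, 15, [.N 8, .N 1]⟩,
  ⟨34, 43, 4, 11, [.N 7]⟩,
  ⟨36, 43, 5, 9, [.N 5]⟩,
  ⟨36, 44, 6, 8, []⟩]

/-- cases treated by germs -/
def exc_7_0 : List (ℕ × ℕ) := []

theorem tab_7_0 : tabM 7 exc_7_0 cert_7_0 27 10 22 = true := by decide +kernel

/-- certificates for `m = 7`, `37 ≤ r < 100` -/
def cert_7_1 : List Cert := [
  ⟨38, 44, 4, 12, [.N 9]⟩,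
  ⟨38, 45, 5, 10, [.N 6]⟩,
  ⟨40, 45, 5, 10, [.N 7]⟩,
  ⟨40, 46, 3, 16, [.N 10]⟩,
  ⟨47, 50, 5, 11, [.N 6, .N 4, .M 46 [(0, [(328, 0), (1, 2)]), (46, [(282, 0)]), (92, [(236, 0)]), (138, [(188, 0)]), (184, [(141, 0)]), (230, [(95, 0)]), (276, [(49, 0)]), (322, [(3, 0)])]]⟩,
  ⟨49, 50, 5, 11, [.N 10]⟩,
  ⟨49, 51, 7, 8, []⟩,
  ⟨51, 51, 4, 13, [.N 13]⟩,
  ⟨51, 52, 7, 8, [.N 1]⟩,
  ⟨53, 52, 5, 11, [.N 12]⟩,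
  ⟨53, 53, 7, 8, [.N 2]⟩,
  ⟨55, 54, 7, 8, [.N 3]⟩,
  ⟨66, 60, 6, 11, [.N 13]⟩,
  ⟨68, 60, 4, 16, [.N 16, .N 2]⟩,
  ⟨68, 61, 3, 21, [.N 16]⟩,
  ⟨70, 61, 8, 8, [.N 3]⟩,
  ⟨70, 62, 8, 8, [.N 2]⟩,
  ⟨72, 62, 8, 8, [.N 4]⟩,
  ⟨74, 62, 6, 11, [.N 16]⟩,
  ⟨89, 70, 9, 8, [.N 3]⟩,
  ⟨91, 70, 9, 8, [.N 5]⟩,
  ⟨93, 70, 7, 11, [.N 19]⟩]

/-- cases treated by germs -/
def exc_7_1 : List (ℕ × ℕ) := []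

theorem tab_7_1 : tabM 7 exc_7_1 cert_7_1 63 37 44 = true := by decide +kernel

/-- certificates for `m = 8`, `10 ≤ r < 35` -/
def cert_8_0 : List Cert := [
  ⟨10, 25, 2, 13, [.N 1, .M 7 [(0, [(63, 0), (7, 9), (1, 10)]), (7, [(56, 0), (6, 8)]), (14, [(49, 0), (5, 6)]), (21, [(42, 0), (5, 6)]), (28, [(35, 0), (4, 5)]), (35, [(28, 0), (3, 4)]), (42, [(21, 0), (2, 2)]), (49, [(14, 0), (2, 2)]), (56, [(7, 0), (1, 1)])], .N 1]⟩,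
  ⟨10, 26, 2, 14, [.N 1, .N 2]⟩,
  ⟨12, 27, 2, 14, [.N 3]⟩,
  ⟨12, 28, 2, 15, [.N 1, .M 7 [(0, [(71, 0), (7, 10), (1, 11)]), (7, [(64, 0), (6, 8), (1, 10)]), (14, [(57, 0), (6, 8)]), (21, [(50, 0), (5, 7)]), (28, [(43, 0), (4, 6)]), (35, [(36, 0), (3, 4)]), (42, [(29, 0), (3, 4)]), (49, [(22, 0), (2, 3)]), (56, [(15, 0), (1, 2)]), (63, [(8, 0)]), (70, [(1, 0)])], .N 1, .N 1]⟩,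
  ⟨13, 30, 2, 16, [.N 3]⟩,
  ⟨14, 30, 2, 16, [.N 3, .N 1]⟩,
  ⟨14, 31, 3, 11, [.N 2]⟩,
  ⟨15, 31, 3, 11, [.N 1, .N 1, .N 1]⟩,
  ⟨15, 32, 3, 11, [.N 3]⟩,
  ⟨16, 32, 3, 11, [.N 3]⟩,
  ⟨16, 33, 4, 9, []⟩,
  ⟨17, 33, 3, 12, [.N 2, .N 2]⟩,
  ⟨17, 34, 3, 12, [.N 2, .N 2]⟩,
  ⟨18, 34, 4, 9, [.N 1]⟩,
  ⟨19, 35, 3, 12, [.N 2, .N 1, .N 2]⟩,
  ⟨19, 36, 3, 13, [.N 4]⟩,
  ⟨21, 37, 3, 13, [.N 4, .N 1]⟩,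
  ⟨21, 38, 2, 20, [.N 5]⟩,
  ⟨23, 39, 2, 20, [.N 3, .N 3, .N 2]⟩,
  ⟨23, 40, 4, 11, [.N 3]⟩,
  ⟨25, 40, 3, 14, [.N 6]⟩,
  ⟨25, 41, 5, 9, []⟩,
  ⟨27, 42, 4, 11, [.N 5]⟩,
  ⟨27, 43, 4, 11, [.N 5]⟩,
  ⟨28, 44, 3, 15, [.N 7]⟩,
  ⟨30, 44, 4, 12, [.N 6]⟩,
  ⟨30, 45, 2, 23, [.N 1, .N 7, .N 1]⟩,
  ⟨32, 46, 4, 12, [.N 6, .N 1]⟩,
  ⟨32, 47, 3, 16, [.N 8]⟩,
  ⟨34, 47, 5, 10, [.N 4]⟩,
  ⟨34, 48, 3, 17, [.N 8, .N 1]⟩]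

/-- cases treated by germs -/
def exc_8_0 : List (ℕ × ℕ) := []

theorem tab_8_0 : tabM 8 exc_8_0 cert_8_0 25 10 25 = true := by decide +kernel

/-- certificates for `m = 8`, `35 ≤ r < 88` -/
def cert_8_1 : List Cert := [
  ⟨36, 49, 5, 10, [.N 5]⟩,
  ⟨36, 50, 6, 9, []⟩,
  ⟨38, 50, 4, 13, [.N 9]⟩,
  ⟨38, 51, 6, 9, [.N 1]⟩,
  ⟨40, 52, 6, 9, [.N 2]⟩,
  ⟨43, 55, 6, 10, [.N 3]⟩,
  ⟨45, 55, 5, 12, [.N 8, .N 1]⟩,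
  ⟨45, 56, 3, 19, [.N 11]⟩,
  ⟨47, 56, 6, 10, [.N 5]⟩,
  ⟨47, 57, 6, 10, [.N 4, .N 1]⟩,
  ⟨49, 57, 5, 12, [.N 10]⟩,
  ⟨49, 58, 7, 9, []⟩,
  ⟨51, 59, 5, 12, [.N 4, .M 39 [(0, [(334, 0), (44, 8), (6, 9)]), (39, [(295, 0), (38, 7), (6, 8)]), (78, [(256, 0), (32, 6), (6, 7)]), (117, [(217, 0), (26, 5), (6, 6)]), (156, [(178, 0), (20, 4), (6, 5)]), (195, [(139, 0), (17, 3), (3, 4)]), (234, [(100, 0), (12, 2)]), (273, [(61, 0), (6, 1)]), (312, [(22, 0)])], .N 3]⟩,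
  ⟨51, 60, 4, 16, [.N 13]⟩,
  ⟨53, 60, 7, 9, [.N 2]⟩,
  ⟨53, 61, 3, 21, [.N 13]⟩,
  ⟨55, 61, 7, 9, [.N 3]⟩,
  ⟨62, 66, 5, 14, [.N 14]⟩,
  ⟨64, 66, 7, 10, [.N 7]⟩,
  ⟨64, 67, 8, 9, []⟩,
  ⟨66, 67, 7, 10, [.N 8]⟩,
  ⟨66, 68, 7, 10, [.N 8]⟩,
  ⟨68, 68, 7, 10, [.N 9]⟩,
  ⟨68, 69, 4, 18, [.N 17]⟩,
  ⟨70, 69, 7, 10, [.N 10]⟩,
  ⟨70, 70, 3, 24, [.N 16]⟩,
  ⟨72, 70, 8, 9, [.N 4]⟩,
  ⟨85, 77, 5, 16, [.N 21]⟩,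
  ⟨87, 77, 8, 10, [.N 11]⟩,
  ⟨87, 78, 9, 9, [.N 3]⟩]

/-- cases treated by germs -/
def exc_8_1 : List (ℕ × ℕ) := []

theorem tab_8_1 : tabM 8 exc_8_1 cert_8_1 53 35 48 = true := by decide +kernel

/-- certificates for `m = 8`, `88 ≤ r < 121` -/
def cert_8_2 : List Cert := [
  ⟨89, 78, 9, 9, [.N 4]⟩,
  ⟨89, 79, 5, 16, [.N 22]⟩,
  ⟨91, 79, 9, 9, [.N 5]⟩,
  ⟨110, 88, 10, 9, [.N 5]⟩,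
  ⟨112, 88, 10, 9, [.N 6]⟩]

/-- cases treated by germs -/
def exc_8_2 : List (ℕ × ℕ) := []

theorem tab_8_2 : tabM 8 exc_8_2 cert_8_2 33 88 78 = true := by decide +kernel

/-- certificates for `m = 9`, `10 ≤ r < 37` -/
def cert_9_0 : List Cert := [
  ⟨10, 28, 2, 15, [.N 1, .M 7 [(0, [(71, 0), (7, 10), (1, 11)]), (7, [(64, 0), (6, 8), (1, 10)]), (14, [(57, 0), (6, 8)]), (21, [(50, 0), (5, 7)]), (28, [(43, 0), (4, 6)]), (35, [(36, 0), (3, 4)]), (42, [(29, 0), (3, 4)]), (49, [(22, 0), (2, 3)]), (56, [(15, 0), (1, 2)]), (63, [(8, 0)]), (70, [(1, 0)])], .N 1]⟩,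
  ⟨10, 29, 2, 15, [.N 1, .M 8 [(0, [(73, 0), (16, 9), (3, 11)]), (8, [(65, 0), (14, 8), (2, 9), (2, 10)]), (16, [(57, 0), (12, 7), (2, 8)]), (24, [(49, 0), (11, 6), (1, 7)]), (32, [(41, 0), (9, 5), (2, 6)]), (40, [(33, 0), (7, 4), (2, 5)]), (48, [(25, 0), (5, 3)]), (56, [(17, 0), (4, 2)]), (64, [(9, 0), (2, 1)]), (72, [(1, 0)])]]⟩,
  ⟨12, 31, 2, 16, [.N 3]⟩,
  ⟨12, 32, 2, 17, [.N 3]⟩,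
  ⟨13, 33, 3, 12, [.N 2]⟩,
  ⟨14, 35, 3, 12, [.N 2]⟩,
  ⟨15, 35, 3, 12, [.N 1, .N 1, .N 1]⟩,
  ⟨15, 36, 3, 13, [.N 3]⟩,
  ⟨16, 36, 3, 13, [.N 3]⟩,
  ⟨16, 37, 4, 10, []⟩,
  ⟨17, 37, 3, 13, [.N 1, .N 2, .N 1]⟩,
  ⟨17, 38, 3, 13, [.N 2, .M 15 [(0, [(138, 0), (14, 9), (2, 10)]), (15, [(123, 0), (12, 8), (2, 9)]), (30, [(108, 0), (11, 7)]), (45, [(93, 0), (10, 6)]), (60, [(78, 0), (8, 5)]), (75, [(63, 0), (6, 4)]), (90, [(48, 0), (4, 2)]), (105, [(33, 0), (4, 2)]), (120, [(18, 0), (2, 1)]), (135, [(3, 0)])]]⟩,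
  ⟨18, 38, 3, 13, [.N 4]⟩,
  ⟨19, 39, 3, 14, [.N 4]⟩,
  ⟨19, 40, 3, 14, [.N 2, .M 16 [(0, [(146, 0), (23, 9), (2, 10)]), (16, [(130, 0), (20, 8), (3, 9)]), (32, [(114, 0), (17, 7), (3, 8)]), (48, [(98, 0), (14, 6), (3, 7)]), (64, [(82, 0), (13, 5)]), (80, [(66, 0), (10, 4)]), (96, [(50, 0), (7, 3)]), (112, [(34, 0), (4, 2)]), (128, [(18, 0), (2, 1)]), (144, [(2, 0)])]]⟩,
  ⟨21, 41, 3, 14, [.N 5]⟩,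
  ⟨23, 45, 4, 12, [.N 3]⟩,
  ⟨25, 45, 3, 16, [.N 6]⟩,
  ⟨25, 46, 5, 10, []⟩,
  ⟨27, 47, 4, 12, [.N 5]⟩,
  ⟨27, 48, 5, 10, [.N 1]⟩,
  ⟨28, 48, 3, 17, [.N 7]⟩,
  ⟨28, 49, 3, 17, [.N 5, .N 3]⟩,
  ⟨30, 50, 4, 13, [.N 6]⟩,
  ⟨30, 51, 5, 11, [.N 2]⟩,
  ⟨32, 52, 3, 18, [.N 3, .N 6, .N 1]⟩,
  ⟨32, 53, 3, 18, [.N 8]⟩,
  ⟨34, 53, 5, 11, [.N 4]⟩,
  ⟨34, 54, 4, 14, [.N 6, .N 2]⟩,
  ⟨36, 55, 5, 12, [.N 5]⟩,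
  ⟨36, 56, 6, 10, []⟩]

/-- cases treated by germs -/
def exc_9_0 : List (ℕ × ℕ) := [(14, 34), (21, 42), (23, 44)]

theorem tab_9_0 : tabM 9 exc_9_0 cert_9_0 27 10 28 = true := by decide +kernel

/-- certificates for `m = 9`, `37 ≤ r < 84` -/
def cert_9_1 : List Cert := [
  ⟨38, 56, 4, 15, [.N 9]⟩,
  ⟨38, 57, 6, 10, [.N 1]⟩,
  ⟨40, 58, 6, 10, [.N 2]⟩,
  ⟨41, 60, 6, 11, [.N 2]⟩,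
  ⟨43, 60, 5, 13, [.N 8]⟩,
  ⟨43, 61, 5, 13, [.N 7, .N 1]⟩,
  ⟨45, 62, 3, 21, [.N 4, .N 9, .N 2]⟩,
  ⟨45, 63, 3, 22, [.N 11]⟩,
  ⟨47, 63, 6, 11, [.N 5]⟩,
  ⟨47, 64, 6, 11, [.N 5]⟩,
  ⟨49, 64, 5, 13, [.N 10]⟩,
  ⟨49, 65, 7, 10, []⟩,
  ⟨51, 66, 6, 12, [.N 7]⟩,
  ⟨51, 67, 5, 14, [.N 11]⟩,
  ⟨53, 67, 6, 12, [.N 8]⟩,
  ⟨53, 68, 4, 18, [.N 13]⟩,
  ⟨55, 68, 4, 18, [.N 14]⟩,
  ⟨60, 72, 6, 13, [.N 3, .M 45 [(0, [(457, 0), (26, 10)]), (45, [(412, 0), (23, 8)]), (90, [(367, 0), (23, 8)]), (135, [(322, 0), (20, 7)]), (180, [(277, 0), (17, 6)]), (225, [(232, 0), (14, 5)]), (270, [(187, 0), (11, 4)]), (315, [(142, 0), (8, 3)]), (360, [(97, 0), (5, 2)]), (405, [(52, 0), (2, 1)]), (450, [(7, 0)])], .N 3, .N 3]⟩,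
  ⟨62, 73, 5, 15, [.N 13, .N 2]⟩,
  ⟨62, 74, 6, 13, [.N 11]⟩,
  ⟨64, 74, 7, 11, [.N 7]⟩,
  ⟨64, 75, 8, 10, []⟩,
  ⟨66, 75, 6, 13, [.N 13]⟩,
  ⟨66, 76, 7, 11, [.N 8]⟩,
  ⟨68, 76, 7, 11, [.N 9]⟩,
  ⟨68, 77, 4, 20, [.N 17]⟩,
  ⟨70, 77, 7, 12, [.N 10]⟩,
  ⟨70, 78, 8, 10, [.N 3]⟩,
  ⟨81, 84, 9, 10, []⟩,
  ⟨83, 84, 6, 15, [.N 19]⟩,
  ⟨83, 85, 9, 10, [.N 1]⟩]

/-- cases treated by germs -/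
def exc_9_1 : List (ℕ × ℕ) := []

theorem tab_9_1 : tabM 9 exc_9_1 cert_9_1 47 37 56 = true := by decide +kernel

/-- certificates for `m = 9`, `84 ≤ r < 144` -/
def cert_9_2 : List Cert := [
  ⟨85, 85, 6, 15, [.N 20]⟩,
  ⟨85, 86, 9, 10, [.N 2]⟩,
  ⟨87, 86, 7, 13, [.N 17]⟩,
  ⟨87, 87, 9, 10, [.N 3]⟩,
  ⟨89, 88, 9, 10, [.N 4]⟩,
  ⟨104, 96, 10, 10, [.N 2]⟩,
  ⟨106, 96, 9, 11, [.N 6, .N 6]⟩,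
  ⟨106, 97, 10, 10, [.N 3]⟩,
  ⟨108, 97, 10, 10, [.N 4]⟩,
  ⟨108, 98, 10, 10, [.N 3]⟩,
  ⟨110, 98, 10, 10, [.N 5]⟩,
  ⟨112, 98, 8, 13, [.N 21]⟩,
  ⟨131, 108, 11, 10, [.N 4]⟩,
  ⟨133, 108, 11, 10, [.N 6]⟩,
  ⟨135, 108, 9, 13, [.N 24]⟩]

/-- cases treated by germs -/
def exc_9_2 : List (ℕ × ℕ) := []

theorem tab_9_2 : tabM 9 exc_9_2 cert_9_2 60 84 85 = true := by decide +kernel

/-- certificates for `m = 10`, `10 ≤ r < 29` -/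
def cert_10_0 : List Cert := [
  ⟨10, 31, 2, 16, [.N 1, .N 1, .N 1]⟩,
  ⟨10, 32, 2, 17, [.N 1, .M 8 [(0, [(81, 0), (17, 10), (4, 12)]), (8, [(73, 0), (15, 9), (4, 11)]), (16, [(65, 0), (14, 8), (1, 9), (2, 10)]), (24, [(57, 0), (12, 7), (2, 8)]), (32, [(49, 0), (10, 6), (2, 7)]), (40, [(41, 0), (8, 5), (2, 6)]), (48, [(33, 0), (7, 4), (1, 5)]), (56, [(25, 0), (5, 3)]), (64, [(17, 0), (3, 2)]), (72, [(9, 0), (1, 1)]), (80, [(1, 0)])]]⟩,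
  ⟨12, 34, 2, 18, [.N 3]⟩,
  ⟨12, 35, 2, 18, [.N 1, .M 7 [(0, [(88, 0), (9, 12), (1, 13), (1, 14)]), (7, [(81, 0), (8, 10), (1, 12)]), (14, [(74, 0), (8, 10)]), (21, [(67, 0), (7, 9), (1, 10)]), (28, [(60, 0), (6, 8), (1, 9)]), (35, [(53, 0), (5, 6), (1, 8)]), (42, [(46, 0), (5, 6)]), (49, [(39, 0), (4, 5), (1, 6)]), (56, [(32, 0), (3, 4), (1, 5)]), (63, [(25, 0), (2, 2)]), (70, [(18, 0), (2, 2)]), (77, [(11, 0), (1, 1)]), (84, [(4, 0)])], .N 1, .N 1]⟩,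
  ⟨13, 36, 3, 13, [.N 1, .N 1]⟩,
  ⟨13, 37, 3, 13, [.N 2]⟩,
  ⟨14, 37, 2, 19, [.N 3, .N 1]⟩,
  ⟨14, 38, 2, 20, [.N 3, .N 1]⟩,
  ⟨15, 39, 3, 14, [.N 1, .M 12 [(0, [(130, 0), (8, 10), (1, 11)]), (12, [(118, 0), (7, 8), (1, 10)]), (24, [(106, 0), (7, 8)]), (36, [(94, 0), (6, 7), (1, 8)]), (48, [(82, 0), (5, 6), (1, 7)]), (60, [(70, 0), (4, 5), (1, 6)]), (72, [(58, 0), (3, 4), (1, 5)]), (84, [(46, 0), (2, 3), (1, 4)]), (96, [(34, 0), (1, 2)]), (108, [(22, 0)]), (120, [(10, 0)])], .N 1]⟩,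
  ⟨15, 40, 3, 14, [.N 3]⟩,
  ⟨16, 40, 3, 14, [.N 3]⟩,
  ⟨16, 41, 4, 11, []⟩,
  ⟨17, 41, 3, 14, [.N 2, .N 1, .N 1]⟩,
  ⟨17, 42, 3, 15, [.N 2, .M 15 [(0, [(153, 0), (15, 10), (2, 11)]), (15, [(138, 0), (13, 8), (2, 10)]), (30, [(123, 0), (13, 8)]), (45, [(108, 0), (11, 7)]), (60, [(93, 0), (9, 6)]), (75, [(78, 0), (7, 5)]), (90, [(63, 0), (6, 4)]), (105, [(48, 0), (5, 3)]), (120, [(33, 0), (3, 2)]), (135, [(18, 0), (1, 1)]), (150, [(3, 0)])]]⟩,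
  ⟨19, 44, 3, 15, [.N 2, .M 16 [(0, [(160, 0), (26, 10), (3, 11)]), (16, [(144, 0), (23, 9), (3, 10)]), (32, [(128, 0), (20, 8), (3, 9)]), (48, [(112, 0), (18, 7), (2, 8)]), (64, [(96, 0), (16, 6), (2, 7)]), (80, [(80, 0), (13, 5)]), (96, [(64, 0), (10, 4)]), (112, [(48, 0), (7, 3)]), (128, [(32, 0), (6, 2)]), (144, [(16, 0), (3, 1)])]]⟩,
  ⟨19, 45, 3, 16, [.N 4]⟩,
  ⟨21, 46, 3, 16, [.N 4, .N 1]⟩,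
  ⟨21, 47, 3, 16, [.N 4, .N 1]⟩,
  ⟨22, 48, 3, 17, [.N 5]⟩,
  ⟨23, 48, 4, 13, [.N 3]⟩,
  ⟨23, 49, 3, 17, [.N 4, .N 1, .N 1]⟩,
  ⟨24, 49, 3, 17, [.N 6]⟩,
  ⟨24, 50, 4, 13, [.N 2, .N 2]⟩,
  ⟨25, 50, 3, 17, [.N 6]⟩,
  ⟨25, 51, 5, 11, []⟩,
  ⟨26, 51, 5, 11, [.N 1]⟩,
  ⟨26, 52, 2, 27, [.N 1, .N 6, .N 1]⟩,
  ⟨27, 53, 5, 11, [.N 1]⟩,
  ⟨28, 54, 4, 14, [.N 1, .M 19 [(0, [(227, 0), (10, 11), (1, 12)]), (19, [(208, 0), (9, 10), (1, 11)]), (38, [(189, 0), (8, 9), (1, 10)]), (57, [(170, 0), (7, 8), (1, 9)]), (76, [(151, 0), (6, 7), (1, 8)]), (95, [(132, 0), (5, 5), (1, 7)]), (114, [(113, 0), (5, 5)]), (133, [(94, 0), (4, 4), (1, 5)]), (152, [(75, 0), (3, 3), (1, 4)]), (171, [(56, 0), (2, 2), (1, 3)]), (190, [(37, 0), (1, 1), (1, 2)]), (209, [(18, 0)])], .N 1, .N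 1, .N 2]⟩,
  ⟨28, 55, 3, 19, [.N 7]⟩]

/-- cases treated by germs -/
def exc_10_0 : List (ℕ × ℕ) := []

theorem tab_10_0 : tabM 10 exc_10_0 cert_10_0 19 10 31 = true := by decide +kernel

/-- certificates for `m = 10`, `29 ≤ r < 61` -/
def cert_10_1 : List Cert := [
  ⟨30, 55, 4, 14, [.N 6]⟩,
  ⟨30, 56, 4, 15, [.N 2, .N 1, .M 25 [(0, [(261, 0), (26, 10), (3, 11)]), (25, [(236, 0), (23, 9), (3, 10)]), (50, [(211, 0), (20, 8), (3, 9)]), (75, [(186, 0), (17, 7), (3, 8)]), (100, [(161, 0), (16, 6), (1, 7)]), (125, [(136, 0), (14, 5), (2, 6)]), (150, [(111, 0), (11, 4)]), (175, [(86, 0), (8, 3)]), (200, [(61, 0), (5, 2)]), (225, [(36, 0), (2, 1)]), (250, [(11, 0)])], .N 1]⟩,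
  ⟨32, 57, 4, 15, [.N 7]⟩,
  ⟨32, 58, 3, 20, [.N 8]⟩,
  ⟨34, 59, 5, 12, [.N 4]⟩,
  ⟨34, 60, 5, 13, [.N 4]⟩,
  ⟨36, 61, 5, 13, [.N 5]⟩,
  ⟨36, 62, 6, 11, []⟩,
  ⟨38, 63, 6, 11, [.N 1]⟩,
  ⟨38, 64, 4, 17, [.N 9]⟩,
  ⟨39, 65, 3, 22, [.N 10]⟩,
  ⟨40, 64, 5, 13, [.N 7]⟩,
  ⟨41, 65, 5, 14, [.N 7]⟩,
  ⟨41, 66, 5, 14, [.N 7]⟩,
  ⟨43, 67, 5, 14, [.N 7, .N 1]⟩,
  ⟨43, 68, 6, 12, [.N 3]⟩,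
  ⟨45, 68, 4, 18, [.N 11]⟩,
  ⟨45, 69, 3, 24, [.N 4, .N 9, .N 2]⟩,
  ⟨47, 70, 5, 15, [.N 7, .N 3]⟩,
  ⟨47, 71, 5, 15, [.N 9]⟩,
  ⟨49, 71, 5, 15, [.N 10]⟩,
  ⟨49, 72, 7, 11, []⟩,
  ⟨51, 73, 6, 13, [.N 7]⟩,
  ⟨51, 74, 6, 13, [.N 7]⟩,
  ⟨53, 74, 6, 13, [.N 8]⟩,
  ⟨53, 75, 7, 11, [.N 2]⟩,
  ⟨58, 78, 6, 14, [.N 8, .N 2]⟩,
  ⟨58, 79, 7, 12, [.N 4]⟩,
  ⟨60, 79, 5, 16, [.N 14]⟩,
  ⟨60, 80, 4, 21, [.N 15]⟩]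

/-- cases treated by germs -/
def exc_10_1 : List (ℕ × ℕ) := []

theorem tab_10_1 : tabM 10 exc_10_1 cert_10_1 32 29 54 = true := by decide +kernel

/-- certificates for `m = 10`, `61 ≤ r < 109` -/
def cert_10_2 : List Cert := [
  ⟨62, 81, 6, 14, [.N 2, .M 43 [(0, [(503, 0), (31, 11), (3, 12)]), (43, [(460, 0), (28, 10), (3, 11)]), (86, [(417, 0), (25, 9), (3, 10)]), (129, [(374, 0), (22, 8), (3, 9)]), (172, [(331, 0), (19, 7), (3, 8)]), (215, [(288, 0), (16, 6), (3, 7)]), (258, [(245, 0), (13, 5), (3, 6)]), (301, [(202, 0), (12, 4)]), (344, [(159, 0), (9, 3)]), (387, [(116, 0), (6, 2)]), (430, [(73, 0), (3, 1)]), (473, [(30, 0)])], .N 3, .N 5]⟩,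
  ⟨62, 82, 5, 17, [.N 14]⟩,
  ⟨64, 82, 7, 12, [.N 7]⟩,
  ⟨64, 83, 8, 11, []⟩,
  ⟨66, 83, 5, 17, [.N 16]⟩,
  ⟨66, 84, 8, 11, [.N 1]⟩,
  ⟨68, 84, 6, 15, [.N 14]⟩,
  ⟨68, 85, 8, 11, [.N 2]⟩,
  ⟨70, 86, 8, 11, [.N 3]⟩,
  ⟨77, 91, 4, 23, [.N 19]⟩,
  ⟨79, 91, 8, 12, [.N 7]⟩,
  ⟨79, 92, 8, 12, [.N 4, .N 3]⟩,
  ⟨81, 92, 7, 14, [.N 14]⟩,
  ⟨81, 93, 9, 11, []⟩,
  ⟨83, 94, 3, 32, [.N 17, .N 4]⟩,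
  ⟨83, 95, 5, 20, [.N 21]⟩,
  ⟨85, 95, 7, 14, [.N 7, .N 6, .N 3, .N 1]⟩,
  ⟨85, 96, 9, 11, [.N 2]⟩,
  ⟨87, 96, 9, 11, [.N 3]⟩,
  ⟨87, 97, 9, 11, [.N 3]⟩,
  ⟨89, 97, 9, 11, [.N 4]⟩,
  ⟨100, 104, 10, 11, []⟩,
  ⟨102, 104, 9, 12, [.N 10]⟩,
  ⟨102, 105, 9, 12, [.N 10]⟩,
  ⟨104, 105, 9, 12, [.N 11]⟩,
  ⟨104, 106, 10, 11, [.N 2]⟩,
  ⟨106, 106, 10, 11, [.N 3]⟩,
  ⟨106, 107, 10, 11, [.N 3]⟩,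
  ⟨108, 107, 10, 11, [.N 4]⟩,
  ⟨108, 108, 5, 22, [.N 27]⟩]

/-- cases treated by germs -/
def exc_10_2 : List (ℕ × ℕ) := []

theorem tab_10_2 : tabM 10 exc_10_2 cert_10_2 48 61 80 = true := by decide +kernel

/-- certificates for `m = 10`, `109 ≤ r < 169` -/
def cert_10_3 : List Cert := [
  ⟨110, 108, 10, 11, [.N 5]⟩,
  ⟨127, 117, 11, 11, [.N 3]⟩,
  ⟨129, 117, 10, 12, [.N 14]⟩,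
  ⟨129, 118, 11, 11, [.N 4]⟩,
  ⟨131, 118, 11, 11, [.N 5]⟩,
  ⟨131, 119, 11, 11, [.N 5]⟩,
  ⟨133, 119, 11, 11, [.N 6]⟩,
  ⟨156, 130, 12, 11, [.N 6]⟩,
  ⟨158, 130, 12, 11, [.N 7]⟩]

/-- cases treated by germs -/
def exc_10_3 : List (ℕ × ℕ) := []

theorem tab_10_3 : tabM 10 exc_10_3 cert_10_3 60 109 108 = true := by decide +kernel

/-- certificates for `m = 11`, `10 ≤ r < 29` -/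
def cert_11_0 : List Cert := [
  ⟨10, 34, 2, 18, [.N 1, .N 1, .N 1]⟩,
  ⟨10, 35, 2, 18, [.N 1, .M 7 [(0, [(88, 0), (9, 12), (1, 13), (1, 14)]), (7, [(81, 0), (8, 10), (1, 12)]), (14, [(74, 0), (8, 10)]), (21, [(67, 0), (7, 9), (1, 10)]), (28, [(60, 0), (6, 8), (1, 9)]), (35, [(53, 0), (5, 6), (1, 8)]), (42, [(46, 0), (5, 6)]), (49, [(39, 0), (4, 5), (1, 6)]), (56, [(32, 0), (3, 4), (1, 5)]), (63, [(25, 0), (2, 2)]), (70, [(18, 0), (2, 2)]), (77, [(11, 0), (1, 1)]), (84, [(4, 0)])], .N 1]⟩,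
  ⟨12, 38, 2, 20, [.N 3]⟩,
  ⟨12, 39, 2, 20, [.N 3]⟩,
  ⟨13, 39, 3, 14, [.N 2]⟩,
  ⟨13, 40, 3, 14, [.N 1, .N 1]⟩,
  ⟨14, 41, 2, 21, [.N 3, .N 1]⟩,
  ⟨14, 42, 2, 22, [.N 3, .N 1]⟩,
  ⟨15, 44, 3, 15, [.N 3]⟩,
  ⟨16, 44, 3, 15, [.N 3]⟩,
  ⟨16, 45, 4, 12, []⟩,
  ⟨17, 45, 3, 16, [.N 2, .N 1, .N 1]⟩,
  ⟨17, 46, 3, 16, [.N 1, .N 1, .M 15 [(0, [(166, 0), (20, 11), (1, 12)]), (15, [(151, 0), (18, 10), (2, 11)]), (30, [(136, 0), (16, 9), (2, 10)]), (45, [(121, 0), (14, 8), (2, 9)]), (60, [(106, 0), (13, 7)]), (75, [(91, 0), (11, 6)]), (90, [(76, 0), (9, 5)]), (105, [(61, 0), (7, 4)]), (120, [(46, 0), (5, 3)]), (135, [(31, 0), (4, 2)]), (150, [(16, 0), (2, 1)]), (165, [(1, 0)])]]⟩,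
  ⟨19, 48, 2, 25, [.N 3, .N 3]⟩,
  ⟨19, 49, 3, 17, [.N 4]⟩,
  ⟨21, 51, 2, 26, [.N 3, .N 3, .N 1]⟩,
  ⟨21, 52, 4, 14, [.N 2]⟩,
  ⟨22, 52, 4, 14, [.N 2, .N 1]⟩,
  ⟨22, 53, 3, 18, [.N 5]⟩,
  ⟨23, 53, 3, 18, [.N 4, .N 2]⟩,
  ⟨23, 54, 3, 19, [.N 4, .N 2]⟩,
  ⟨24, 54, 4, 14, [.N 3, .N 1]⟩,
  ⟨24, 55, 4, 14, [.N 2, .N 2]⟩,
  ⟨25, 55, 3, 19, [.N 6]⟩,
  ⟨25, 56, 5, 12, []⟩,
  ⟨26, 57, 3, 20, [.N 2, .N 1, .N 2, .N 2, .N 1]⟩,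
  ⟨26, 58, 4, 15, [.N 4]⟩,
  ⟨27, 58, 5, 12, [.N 1]⟩,
  ⟨28, 59, 4, 15, [.N 2, .N 2, .N 2]⟩,
  ⟨28, 60, 3, 21, [.N 7]⟩]

/-- cases treated by germs -/
def exc_11_0 : List (ℕ × ℕ) := [(15, 43)]

theorem tab_11_0 : tabM 11 exc_11_0 cert_11_0 19 10 34 = true := by decide +kernel

/-- certificates for `m = 11`, `29 ≤ r < 61` -/
def cert_11_1 : List Cert := [
  ⟨30, 61, 4, 16, [.N 6]⟩,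
  ⟨30, 62, 4, 16, [.N 6]⟩,
  ⟨32, 63, 4, 16, [.N 6, .N 1]⟩,
  ⟨32, 64, 3, 22, [.N 8]⟩,
  ⟨34, 65, 4, 17, [.N 6, .N 2]⟩,
  ⟨34, 66, 5, 14, [.N 4]⟩,
  ⟨36, 67, 5, 14, [.N 5]⟩,
  ⟨36, 68, 6, 12, []⟩,
  ⟨38, 69, 6, 12, [.N 1]⟩,
  ⟨38, 70, 5, 15, [.N 6]⟩,
  ⟨39, 70, 5, 15, [.N 2, .N 2, .N 3]⟩,
  ⟨39, 71, 4, 18, [.N 9]⟩,
  ⟨41, 72, 5, 15, [.N 2, .N 1, .M 34 [(0, [(396, 0), (30, 11), (3, 12)]), (34, [(362, 0), (27, 10), (3, 11)]), (68, [(328, 0), (24, 9), (3, 10)]), (102, [(294, 0), (21, 8), (3, 9)]), (136, [(260, 0), (18, 7), (3, 8)]), (170, [(226, 0), (15, 6), (3, 7)]), (204, [(192, 0), (12, 5), (3, 6)]), (238, [(158, 0), (9, 4)]), (272, [(124, 0), (7, 3)]), (306, [(90, 0), (6, 2)]), (340, [(56, 0), (3, 1)]), (374, [(22, 0)])], .N 2]⟩,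
  ⟨41, 73, 6, 13, [.N 2]⟩,
  ⟨43, 73, 5, 15, [.N 8]⟩,
  ⟨43, 74, 5, 15, [.N 3, .M 35 [(0, [(407, 0), (41, 11), (4, 12)]), (35, [(372, 0), (37, 10), (4, 11)]), (70, [(337, 0), (33, 9), (4, 10)]), (105, [(302, 0), (29, 8), (4, 9)]), (140, [(267, 0), (25, 7), (4, 8)]), (175, [(232, 0), (21, 6), (4, 7)]), (210, [(197, 0), (17, 5), (4, 6)]), (245, [(162, 0), (16, 4), (1, 5)]), (280, [(127, 0), (12, 3)]), (315, [(92, 0), (8, 2)]), (350, [(57, 0), (4, 1)]), (385, [(22, 0)])], .N 2]⟩,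
  ⟨45, 75, 5, 16, [.N 8, .N 1]⟩,
  ⟨45, 76, 6, 13, [.N 4]⟩,
  ⟨47, 77, 5, 16, [.N 7, .N 3]⟩,
  ⟨47, 78, 6, 14, [.N 5]⟩,
  ⟨49, 78, 5, 16, [.N 10]⟩,
  ⟨49, 79, 7, 12, []⟩,
  ⟨51, 80, 6, 14, [.N 7]⟩,
  ⟨51, 81, 6, 14, [.N 7]⟩,
  ⟨53, 82, 7, 12, [.N 2]⟩,
  ⟨56, 84, 6, 15, [.N 9]⟩,
  ⟨56, 85, 6, 15, [.N 9]⟩,
  ⟨58, 86, 6, 15, [.N 3, .N 1, .M 47 [(0, [(561, 0), (30, 11), (3, 12)]), (47, [(514, 0), (27, 10), (3, 11)]), (94, [(467, 0), (24, 9), (3, 10)]), (141, [(420, 0), (21, 8), (3, 9)]), (188, [(373, 0), (18, 7), (3, 8)]), (235, [(326, 0), (15, 6), (3, 7)]), (282, [(279, 0), (12, 5), (3, 6)]), (329, [(232, 0), (9, 4), (3, 5)]), (376, [(185, 0), (6, 3), (3, 4)]), (423, [(138, 0), (3, 1), (3, 3)]), (470, [(91, 0), (3, 1)]), (517, [(44, 0)])], .N 4]⟩,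
  ⟨58, 87, 7, 13, [.N 4]⟩,
  ⟨60, 87, 6, 15, [.N 8, .N 3]⟩,
  ⟨60, 88, 4, 23, [.N 15]⟩]

/-- cases treated by germs -/
def exc_11_1 : List (ℕ × ℕ) := []

theorem tab_11_1 : tabM 11 exc_11_1 cert_11_1 32 29 60 = true := by decide +kernel

/-- certificates for `m = 11`, `61 ≤ r < 103` -/
def cert_11_2 : List Cert := [
  ⟨62, 88, 7, 13, [.N 6]⟩,
  ⟨62, 89, 4, 23, [.N 15, .N 1]⟩,
  ⟨64, 90, 7, 13, [.N 7]⟩,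
  ⟨64, 91, 8, 12, []⟩,
  ⟨66, 91, 5, 19, [.N 16]⟩,
  ⟨66, 92, 8, 12, [.N 1]⟩,
  ⟨68, 93, 8, 12, [.N 2]⟩,
  ⟨68, 94, 4, 24, [.N 17]⟩,
  ⟨70, 94, 8, 12, [.N 3]⟩,
  ⟨75, 98, 7, 15, [.N 3, .M 59 [(0, [(712, 0), (44, 12)]), (59, [(653, 0), (42, 11)]), (118, [(594, 0), (39, 10)]), (177, [(535, 0), (35, 9)]), (236, [(476, 0), (31, 8)]), (295, [(417, 0), (27, 7)]), (354, [(358, 0), (23, 6)]), (413, [(299, 0), (19, 5)]), (472, [(240, 0), (15, 4)]), (531, [(181, 0), (11, 3)]), (590, [(122, 0), (7, 2)]), (649, [(63, 0), (3, 1)]), (708, [(4, 0)])], .N 3, .N 3]⟩,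
  ⟨75, 99, 8, 13, [.N 5]⟩,
  ⟨77, 99, 5, 20, [.N 17, .N 3]⟩,
  ⟨77, 100, 8, 13, [.N 6]⟩,
  ⟨79, 100, 8, 13, [.N 7]⟩,
  ⟨79, 101, 8, 13, [.N 6, .N 1]⟩,
  ⟨81, 101, 7, 15, [.N 14]⟩,
  ⟨81, 102, 9, 12, []⟩,
  ⟨83, 103, 7, 15, [.N 8, .N 4, .N 4]⟩,
  ⟨83, 104, 6, 18, [.N 19]⟩,
  ⟨85, 104, 8, 14, [.N 10]⟩,
  ⟨85, 105, 9, 12, [.N 2]⟩,
  ⟨87, 105, 8, 14, [.N 11]⟩,
  ⟨87, 106, 9, 12, [.N 3]⟩,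
  ⟨89, 106, 6, 18, [.N 21]⟩,
  ⟨96, 112, 9, 13, [.N 7]⟩,
  ⟨98, 112, 8, 15, [.N 10, .N 4, .N 2]⟩,
  ⟨98, 113, 8, 15, [.N 15]⟩,
  ⟨100, 113, 9, 13, [.N 9]⟩,
  ⟨100, 114, 10, 12, []⟩,
  ⟨102, 114, 9, 13, [.N 10]⟩,
  ⟨102, 115, 9, 13, [.N 10]⟩]

/-- cases treated by germs -/
def exc_11_2 : List (ℕ × ℕ) := []

theorem tab_11_2 : tabM 11 exc_11_2 cert_11_2 42 61 88 = true := by decide +kernel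

/-- certificates for `m = 11`, `103 ≤ r < 183` -/
def cert_11_3 : List Cert := [
  ⟨104, 115, 8, 15, [.N 18]⟩,
  ⟨104, 116, 5, 24, [.N 26]⟩,
  ⟨106, 116, 9, 13, [.N 12]⟩,
  ⟨106, 117, 10, 12, [.N 3]⟩,
  ⟨108, 117, 9, 14, [.N 13]⟩,
  ⟨108, 118, 10, 12, [.N 4]⟩,
  ⟨123, 126, 11, 12, [.N 1]⟩,
  ⟨125, 126, 9, 15, [.N 20]⟩,
  ⟨125, 127, 11, 12, [.N 2]⟩,
  ⟨127, 127, 9, 15, [.N 21]⟩,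
  ⟨127, 128, 11, 12, [.N 3]⟩,
  ⟨129, 128, 9, 15, [.N 22]⟩,
  ⟨129, 129, 11, 12, [.N 4]⟩,
  ⟨131, 130, 11, 12, [.N 5]⟩,
  ⟨150, 140, 12, 12, [.N 3]⟩,
  ⟨152, 140, 8, 18, [.N 32, .N 4]⟩,
  ⟨152, 141, 12, 12, [.N 4]⟩,
  ⟨154, 141, 12, 12, [.N 5]⟩,
  ⟨154, 142, 12, 12, [.N 4]⟩,
  ⟨156, 142, 12, 12, [.N 6]⟩,
  ⟨158, 142, 10, 15, [.N 26]⟩,
  ⟨181, 154, 13, 12, [.N 5]⟩]

/-- cases treated by germs -/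
def exc_11_3 : List (ℕ × ℕ) := []

theorem tab_11_3 : tabM 11 exc_11_3 cert_11_3 80 103 115 = true := by decide +kernel

/-- certificates for `m = 11`, `183 ≤ r < 196` -/
def cert_11_4 : List Cert := [
  ⟨183, 154, 13, 12, [.N 7]⟩,
  ⟨185, 154, 11, 15, [.N 29]⟩]

/-- cases treated by germs -/
def exc_11_4 : List (ℕ × ℕ) := []

theorem tab_11_4 : tabM 11 exc_11_4 cert_11_4 13 183 153 = true := by decide +kernel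

/-- certificates for `m = 12`, `10 ≤ r < 31` -/
def cert_12_0 : List Cert := [
  ⟨10, 39, 2, 20, [.N 1, .M 8 [(0, [(98, 0), (21, 12), (4, 14), (1, 15)]), (8, [(90, 0), (19, 11), (4, 13), (2, 14)]), (16, [(82, 0), (18, 10), (3, 12)]), (24, [(74, 0), (16, 9), (3, 11)]), (32, [(66, 0), (14, 8), (4, 10)]), (40, [(58, 0), (12, 7), (2, 8), (2, 9)]), (48, [(50, 0), (11, 6), (1, 7)]), (56, [(42, 0), (9, 5), (2, 6)]), (64, [(34, 0), (7, 4), (2, 5)]), (72, [(26, 0), (5, 3)]), (80, [(18, 0), (4, 2)]), (88, [(10, 0), (2, 1)]), (96, [(2, 0)])]]⟩,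
  ⟨12, 41, 2, 21, [.N 3]⟩,
  ⟨12, 42, 2, 22, [.N 1, .N 1, .M 10 [(0, [(122, 0), (19, 12), (3, 14)]), (10, [(112, 0), (18, 11), (2, 13)]), (20, [(102, 0), (16, 10), (2, 11), (1, 12)]), (30, [(92, 0), (14, 9), (2, 10)]), (40, [(82, 0), (13, 8), (1, 9)]), (50, [(72, 0), (11, 7), (2, 8)]), (60, [(62, 0), (9, 6), (2, 7)]), (70, [(52, 0), (8, 5), (1, 6)]), (80, [(42, 0), (7, 4)]), (90, [(32, 0), (5, 3)]), (100, [(22, 0), (3, 2)]), (110, [(12, 0), (1, 1)]), (120, [(2, 0)])]]⟩,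
  ⟨13, 43, 3, 15, [.N 1, .N 1]⟩,
  ⟨13, 44, 3, 15, [.N 2]⟩,
  ⟨14, 46, 3, 16, [.N 2]⟩,
  ⟨15, 46, 3, 16, [.N 2, .N 1]⟩,
  ⟨15, 47, 3, 16, [.N 1, .M 12 [(0, [(156, 0), (12, 13), (1, 14)]), (12, [(144, 0), (11, 12)]), (24, [(132, 0), (10, 11)]), (36, [(120, 0), (9, 10)]), (48, [(108, 0), (8, 9)]), (60, [(96, 0), (7, 8)]), (72, [(84, 0), (6, 7)]), (84, [(72, 0), (5, 5)]), (96, [(60, 0), (5, 5)]), (108, [(48, 0), (4, 4)]), (120, [(36, 0), (3, 3)]), (132, [(24, 0), (2, 2)]), (144, [(12, 0), (1, 1)])], .N 1]⟩,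
  ⟨16, 48, 3, 17, [.N 3]⟩,
  ⟨16, 49, 4, 13, []⟩,
  ⟨17, 50, 3, 17, [.N 1, .M 12 [(0, [(166, 0), (12, 13), (1, 14)]), (12, [(154, 0), (11, 12), (1, 13)]), (24, [(142, 0), (10, 11), (1, 12)]), (36, [(130, 0), (9, 10), (1, 11)]), (48, [(118, 0), (8, 9), (1, 10)]), (60, [(106, 0), (7, 8), (1, 9)]), (72, [(94, 0), (6, 7), (1, 8)]), (84, [(82, 0), (5, 5), (1, 7)]), (96, [(70, 0), (5, 5)]), (108, [(58, 0), (4, 4), (1, 5)]), (120, [(46, 0), (3, 3), (1, 4)]), (132, [(34, 0), (2, 2), (1, 3)]), (144, [(22, 0), (1, 1)]), (156, [(10, 0)])], .M 13 [(0, [(179, 0), (1, 9)]), (13, [(166, 0), (1, 9)]), (26, [(153, 0), (1, 9)]), (39, [(140, 0)]), (52, [(127, 0)]), (65, [(114, 0)]), (78, [(101, 0)]), (91, [(88, 0)]), (104, [(75, 0)]), (117, [(62, 0)]), (130, [(49, 0)]),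 (143, [(36, 0)]), (156, [(23, 0)]), (169, [(10, 0)])], .M 14 [(0, [(180, 0), (11, 12), (1, 13)]), (14, [(166, 0), (10, 11), (1, 12)]), (28, [(152, 0), (9, 10), (1, 11)]), (42, [(138, 0), (8, 9), (1, 10)]), (56, [(124, 0), (7, 8), (1, 9)]), (70, [(110, 0), (6, 7), (1, 8)]), (84, [(96, 0), (5, 6), (1, 7)]), (98, [(82, 0), (4, 5), (1, 6)]), (112, [(68, 0), (3, 4), (1, 5)]), (126, [(54, 0), (2, 2), (1, 4)]), (140, [(40, 0), (2, 2)]), (154, [(26, 0), (1, 1)]), (168, [(12, 0)])], .N 1]⟩,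
  ⟨17, 51, 3, 18, [.N 2, .N 2]⟩,
  ⟨19, 52, 3, 18, [.N 4]⟩,
  ⟨19, 53, 3, 18, [.N 1, .N 1, .M 14 [(0, [(191, 0), (11, 13), (1, 14)]), (14, [(177, 0), (10, 12), (1, 13)]), (28, [(163, 0), (9, 11), (1, 12)]), (42, [(149, 0), (8, 10), (1, 11)]), (56, [(135, 0), (7, 8), (1, 10)]), (70, [(121, 0), (7, 8)]), (84, [(107, 0), (6, 7), (1, 8)]), (98, [(93, 0), (5, 5), (1, 7)]), (112, [(79, 0), (5, 5)]), (126, [(65, 0), (4, 4)]), (140, [(51, 0), (3, 3)]), (154, [(37, 0), (2, 2)]), (168, [(23, 0), (1, 1)]), (182, [(9, 0)])], .N 1, .N 1]⟩,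
  ⟨21, 55, 3, 19, [.N 4, .N 1]⟩,
  ⟨21, 56, 3, 19, [.N 4, .N 1]⟩,
  ⟨22, 57, 4, 15, [.N 1, .M 19 [(0, [(240, 0), (11, 12), (1, 13)]), (19, [(221, 0), (10, 11), (1, 12)]), (38, [(202, 0), (9, 10), (1, 11)]), (57, [(183, 0), (8, 9), (1, 10)]), (76, [(164, 0), (7, 8), (1, 9)]), (95, [(145, 0), (6, 7)]), (114, [(126, 0), (5, 6)]), (133, [(107, 0), (4, 5)]), (152, [(88, 0), (3, 4)]), (171, [(69, 0), (2, 2)]), (190, [(50, 0), (2, 2)]), (209, [(31, 0), (1, 1)]), (228, [(12, 0)])], .N 1]⟩,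
  ⟨22, 58, 3, 20, [.N 5]⟩,
  ⟨23, 58, 3, 20, [.N 4, .N 2]⟩,
  ⟨23, 59, 4, 15, [.N 3]⟩,
  ⟨24, 59, 4, 15, [.N 3, .N 1]⟩,
  ⟨24, 60, 4, 16, [.N 2, .N 2]⟩,
  ⟨25, 60, 3, 21, [.N 6]⟩,
  ⟨25, 61, 5, 13, []⟩,
  ⟨26, 62, 3, 21, [.N 5, .N 2]⟩,
  ⟨26, 63, 4, 16, [.N 3, .N 2]⟩,
  ⟨27, 63, 5, 13, [.N 1]⟩,
  ⟨28, 64, 3, 22, [.N 7]⟩,
  ⟨28, 65, 4, 17, [.N 3, .M 25 [(0, [(306, 0), (27, 12), (3, 13)]), (25, [(281, 0), (25, 11), (2, 12)]), (50, [(256, 0), (24, 10), (1, 11)]), (75, [(231, 0), (21, 9), (3, 10)]), (100, [(206, 0), (18, 8)]), (125, [(181, 0), (15, 7)]), (150, [(156, 0), (12, 5)]), (175, [(131, 0), (12, 5)]), (200, [(106, 0), (9, 4)]), (225, [(81, 0), (6, 3)]), (250, [(56, 0), (3, 2)]), (275, [(31, 0)]), (300, [(6, 0)])]]⟩,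
  ⟨30, 66, 4, 17, [.N 6]⟩,
  ⟨30, 67, 4, 17, [.N 1, .N 2, .M 25 [(0, [(312, 0), (33, 12), (3, 13)]), (25, [(287, 0), (30, 11), (3, 12)]), (50, [(262, 0), (27, 10), (3, 11)]), (75, [(237, 0), (25, 9), (2, 10)]), (100, [(212, 0), (22, 8), (3, 9)]), (125, [(187, 0), (19, 7), (3, 8)]), (150, [(162, 0), (16, 6), (3, 7)]), (175, [(137, 0), (14, 5), (2, 6)]), (200, [(112, 0), (12, 4)]), (225, [(87, 0), (9, 3)]), (250, [(62, 0), (6, 2)]), (275, [(37, 0), (3, 1)]), (300, [(12, 0)])], .N 1]⟩]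

/-- cases treated by germs -/
def exc_12_0 : List (ℕ × ℕ) := [(10, 38), (14, 45)]

theorem tab_12_0 : tabM 12 exc_12_0 cert_12_0 21 10 38 = true := by decide +kernel

/-- certificates for `m = 12`, `31 ≤ r < 59` -/
def cert_12_1 : List Cert := [
  ⟨32, 69, 3, 24, [.N 5, .N 2, .N 1, .N 2]⟩,
  ⟨32, 70, 3, 24, [.N 8]⟩,
  ⟨34, 71, 4, 18, [.N 6, .N 2]⟩,
  ⟨34, 72, 5, 15, [.N 4]⟩,
  ⟨36, 73, 5, 15, [.N 5]⟩,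
  ⟨36, 74, 6, 13, []⟩,
  ⟨37, 75, 5, 16, [.N 3, .N 3]⟩,
  ⟨38, 75, 5, 16, [.N 6]⟩,
  ⟨38, 76, 5, 16, [.N 6]⟩,
  ⟨39, 76, 4, 20, [.N 7, .N 3]⟩,
  ⟨39, 77, 4, 20, [.N 9]⟩,
  ⟨41, 78, 4, 20, [.N 9, .N 1]⟩,
  ⟨41, 79, 5, 16, [.N 7]⟩,
  ⟨43, 80, 5, 17, [.N 7, .N 1]⟩,
  ⟨43, 81, 5, 17, [.N 8]⟩,
  ⟨45, 82, 5, 17, [.N 7, .N 2]⟩,
  ⟨45, 83, 6, 14, [.N 4]⟩,
  ⟨47, 84, 4, 22, [.N 4, .N 7, .N 3, .M 46 [(0, [(563, 0), (1, 1)]), (46, [(517, 0)]), (92, [(467, 0)]), (138, [(421, 0)]), (184, [(375, 0)]), (230, [(329, 0)]), (276, [(280, 0)]), (322, [(234, 0)]), (368, [(188, 0)]), (414, [(140, 0)]), (460, [(93, 0)]), (506, [(47, 0)])]]⟩,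
  ⟨47, 85, 5, 18, [.N 9]⟩,
  ⟨49, 85, 5, 18, [.N 10]⟩,
  ⟨49, 86, 7, 13, []⟩,
  ⟨51, 87, 5, 18, [.N 11]⟩,
  ⟨51, 88, 7, 13, [.N 1]⟩,
  ⟨53, 89, 7, 13, [.N 2]⟩,
  ⟨54, 90, 6, 16, [.N 2, .N 4, .N 3]⟩,
  ⟨54, 91, 7, 14, [.N 2]⟩,
  ⟨56, 91, 6, 16, [.N 9]⟩,
  ⟨56, 92, 6, 16, [.N 3, .M 45 [(0, [(588, 0), (33, 12)]), (45, [(543, 0), (33, 12)]), (90, [(498, 0), (30, 11)]), (135, [(453, 0), (27, 10)]), (180, [(408, 0), (24, 9)]), (225, [(363, 0), (21, 8)]), (270, [(318, 0), (18, 7)]), (315, [(273, 0), (15, 6)]), (360, [(228, 0), (12, 5)]), (405, [(183, 0), (9, 4)]), (450, [(138, 0), (6, 3)]), (495, [(93, 0), (3, 1)]), (540, [(48, 0), (3, 1)]), (585, [(3, 0)])], .N 4]⟩,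
  ⟨58, 93, 6, 16, [.N 9, .N 1]⟩,
  ⟨58, 94, 6, 16, [.N 1, .N 9]⟩]

/-- cases treated by germs -/
def exc_12_1 : List (ℕ × ℕ) := []

theorem tab_12_1 : tabM 12 exc_12_1 cert_12_1 28 31 68 = true := by decide +kernel

/-- certificates for `m = 12`, `59 ≤ r < 99` -/
def cert_12_2 : List Cert := [
  ⟨60, 95, 4, 24, [.N 14, .N 2]⟩,
  ⟨60, 96, 7, 14, [.N 5]⟩,
  ⟨62, 96, 7, 14, [.N 6]⟩,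
  ⟨62, 97, 4, 25, [.N 15, .N 1]⟩,
  ⟨64, 98, 7, 15, [.N 7]⟩,
  ⟨64, 99, 8, 13, []⟩,
  ⟨66, 99, 6, 17, [.N 13]⟩,
  ⟨66, 100, 8, 13, [.N 1]⟩,
  ⟨68, 101, 8, 13, [.N 2]⟩,
  ⟨68, 102, 8, 13, [.N 2]⟩,
  ⟨73, 105, 7, 16, [.N 3, .N 4, .N 5]⟩,
  ⟨73, 106, 8, 14, [.N 4]⟩,
  ⟨75, 106, 7, 16, [.N 12]⟩,
  ⟨75, 107, 7, 16, [.N 4, .N 3, .N 6]⟩,
  ⟨77, 108, 4, 28, [.N 3, .N 18, .N 2]⟩,
  ⟨77, 109, 8, 14, [.N 6]⟩,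
  ⟨79, 109, 8, 14, [.N 7]⟩,
  ⟨79, 110, 8, 14, [.N 7]⟩,
  ⟨81, 110, 7, 16, [.N 14]⟩,
  ⟨81, 111, 9, 13, []⟩,
  ⟨83, 112, 8, 15, [.N 9]⟩,
  ⟨83, 113, 6, 19, [.N 19]⟩,
  ⟨85, 113, 8, 15, [.N 10]⟩,
  ⟨85, 114, 5, 23, [.N 21]⟩,
  ⟨87, 115, 9, 13, [.N 3]⟩,
  ⟨94, 120, 9, 14, [.N 4, .N 2]⟩,
  ⟨96, 120, 9, 14, [.N 7]⟩,
  ⟨96, 121, 5, 25, [.N 24]⟩,
  ⟨98, 122, 5, 25, [.N 23, .N 3]⟩,
  ⟨98, 123, 7, 18, [.N 20]⟩]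

/-- cases treated by germs -/
def exc_12_2 : List (ℕ × ℕ) := []

theorem tab_12_2 : tabM 12 exc_12_2 cert_12_2 40 59 94 = true := by decide +kernel

/-- certificates for `m = 12`, `99 ≤ r < 155` -/
def cert_12_3 : List Cert := [
  ⟨100, 123, 9, 14, [.N 9]⟩,
  ⟨100, 124, 10, 13, []⟩,
  ⟨102, 124, 9, 14, [.N 10]⟩,
  ⟨102, 125, 10, 13, [.N 1]⟩,
  ⟨104, 125, 9, 14, [.N 11]⟩,
  ⟨104, 126, 10, 13, [.N 2]⟩,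
  ⟨106, 127, 10, 13, [.N 3]⟩,
  ⟨106, 128, 10, 13, [.N 3]⟩,
  ⟨108, 128, 10, 13, [.N 4]⟩,
  ⟨119, 135, 10, 14, [.N 5, .N 4]⟩,
  ⟨121, 135, 9, 16, [.N 18]⟩,
  ⟨121, 136, 11, 13, []⟩,
  ⟨123, 137, 9, 16, [.N 6, .M 99 [(0, [(1296, 0), (66, 13)]), (99, [(1197, 0), (60, 11)]), (198, [(1098, 0), (60, 11)]), (297, [(999, 0), (54, 10)]), (396, [(900, 0), (48, 9)]), (495, [(801, 0), (42, 8)]), (594, [(702, 0), (36, 7)]), (693, [(603, 0), (30, 6)]), (792, [(504, 0), (24, 5)]), (891, [(405, 0), (18, 4)]), (990, [(306, 0), (12, 3)]), (1089, [(207, 0), (6, 2)]), (1188, [(108, 0)]), (1287, [(9, 0)])], .N 6, .N 3]⟩,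
  ⟨123, 138, 6, 24, [.N 30]⟩,
  ⟨125, 138, 9, 16, [.N 6, .M 102 [(0, [(1305, 0), (102, 12), (6, 13)]), (102, [(1203, 0), (93, 11), (9, 12)]), (204, [(1101, 0), (84, 10), (9, 11)]), (306, [(999, 0), (75, 9), (9, 10)]), (408, [(897, 0), (66, 8), (9, 9)]), (510, [(795, 0), (57, 7), (9, 8)]), (612, [(693, 0), (48, 6), (9, 7)]), (714, [(591, 0), (39, 5), (9, 6)]), (816, [(489, 0), (30, 4), (9, 5)]), (918, [(387, 0), (21, 3), (9, 4)]), (1020, [(285, 0), (12, 2)]), (1122, [(183, 0), (7, 1)]), (1224, [(81, 0)])], .N 7]⟩,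
  ⟨125, 139, 11, 13, [.N 2]⟩,
  ⟨127, 139, 11, 13, [.N 3]⟩,
  ⟨127, 140, 11, 13, [.N 3]⟩,
  ⟨129, 140, 11, 13, [.N 4]⟩,
  ⟨129, 141, 11, 13, [.N 4]⟩,
  ⟨131, 141, 11, 13, [.N 5]⟩,
  ⟨146, 150, 8, 19, [.N 33]⟩,
  ⟨148, 150, 11, 14, [.N 13]⟩,
  ⟨148, 151, 12, 13, [.N 2]⟩,
  ⟨150, 151, 12, 13, [.N 3]⟩,
  ⟨150, 152, 12, 13, [.N 3]⟩,
  ⟨152, 152, 12, 13, [.N 4]⟩,
  ⟨152, 153, 12, 13, [.N 4]⟩,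
  ⟨154, 153, 12, 13, [.N 5]⟩,
  ⟨154, 154, 12, 13, [.N 5]⟩]

/-- cases treated by germs -/
def exc_12_3 : List (ℕ × ℕ) := []

theorem tab_12_3 : tabM 12 exc_12_3 cert_12_3 56 99 122 = true := by decide +kernel

/-- certificates for `m = 12`, `155 ≤ r < 225` -/
def cert_12_4 : List Cert := [
  ⟨156, 154, 12, 13, [.N 6]⟩,
  ⟨177, 165, 7, 24, [.N 44]⟩,
  ⟨179, 165, 13, 13, [.N 5]⟩,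
  ⟨179, 166, 13, 13, [.N 5]⟩,
  ⟨181, 166, 13, 13, [.N 6]⟩,
  ⟨181, 167, 7, 24, [.N 45]⟩,
  ⟨183, 167, 13, 13, [.N 7]⟩,
  ⟨210, 180, 14, 13, [.N 7]⟩,
  ⟨212, 180, 14, 13, [.N 8]⟩]

/-- cases treated by germs -/
def exc_12_4 : List (ℕ × ℕ) := []

theorem tab_12_4 : tabM 12 exc_12_4 cert_12_4 70 155 154 = true := by decide +kernel

/-- certificates for `m = 13`, `10 ≤ r < 31` -/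
def cert_13_0 : List Cert := [
  ⟨10, 41, 2, 21, [.N 1, .M 7 [(0, [(103, 0), (11, 14), (1, 16)]), (7, [(96, 0), (10, 13), (1, 14)]), (14, [(89, 0), (9, 12), (2, 14)]), (21, [(82, 0), (8, 10), (1, 12), (1, 13)]), (28, [(75, 0), (8, 10)]), (35, [(68, 0), (7, 9), (1, 10)]), (42, [(61, 0), (6, 8), (1, 9)]), (49, [(54, 0), (5, 6), (1, 8)]), (56, [(47, 0), (5, 6)]), (63, [(40, 0), (4, 5), (1, 6)]), (70, [(33, 0), (3, 4), (1, 5)]), (77, [(26, 0), (2, 2), (1, 4)]), (84, [(19, 0), (2, 2)]), (91, [(12, 0), (1, 1)]), (98, [(5, 0)])], .N 1]⟩,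
  ⟨10, 42, 2, 22, [.N 1, .M 8 [(0, [(106, 0), (22, 13), (6, 16)]), (8, [(98, 0), (21, 12), (3, 14), (2, 15)]), (16, [(90, 0), (19, 11), (3, 13), (2, 14)]), (24, [(82, 0), (17, 10), (4, 12)]), (32, [(74, 0), (15, 9), (4, 11)]), (40, [(66, 0), (14, 8), (3, 10)]), (48, [(58, 0), (12, 7), (2, 8), (1, 9)]), (56, [(50, 0), (10, 6), (2, 7)]), (64, [(42, 0), (8, 5), (2, 6)]), (72, [(34, 0), (7, 4), (1, 5)]), (80, [(26, 0), (5, 3)]), (88, [(18, 0), (3, 2)]), (96, [(10, 0), (1, 1)]), (104, [(2, 0)])]]⟩,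
  ⟨12, 46, 2, 24, [.N 3]⟩,
  ⟨13, 47, 3, 16, [.N 1, .M 12 [(0, [(156, 0), (12, 13), (1, 14)]), (12, [(144, 0), (11, 12)]), (24, [(132, 0), (10, 11)]), (36, [(120, 0), (9, 10)]), (48, [(108, 0), (8, 9)]), (60, [(96, 0), (7, 8)]), (72, [(84, 0), (6, 7)]), (84, [(72, 0), (5, 5)]), (96, [(60, 0), (5, 5)]), (108, [(48, 0), (4, 4)]), (120, [(36, 0), (3, 3)]), (132, [(24, 0), (2, 2)]), (144, [(12, 0), (1, 1)])]]⟩,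
  ⟨13, 48, 3, 17, [.N 2]⟩,
  ⟨14, 48, 2, 25, [.N 3, .N 1]⟩,
  ⟨15, 50, 3, 17, [.N 2, .N 1]⟩,
  ⟨15, 51, 3, 18, [.N 1, .M 13 [(0, [(170, 0), (24, 13), (2, 14), (2, 15)]), (13, [(157, 0), (22, 12), (2, 13)]), (26, [(144, 0), (20, 11), (2, 12)]), (39, [(131, 0), (18, 10), (2, 11)]), (52, [(118, 0), (16, 9), (2, 10)]), (65, [(105, 0), (15, 8), (1, 9)]), (78, [(92, 0), (13, 7), (2, 8)]), (91, [(79, 0), (11, 6)]), (104, [(66, 0), (9, 5)]), (117, [(53, 0), (7, 4)]), (130, [(40, 0), (5, 3)]), (143, [(27, 0), (3, 2)]), (156, [(14, 0), (1, 1)]), (169, [(1, 0)])]]⟩,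
  ⟨16, 52, 3, 18, [.N 3]⟩,
  ⟨16, 53, 4, 14, []⟩,
  ⟨17, 54, 3, 19, [.N 1, .M 12 [(0, [(180, 0), (13, 15), (1, 16)]), (12, [(168, 0), (12, 14), (1, 15)]), (24, [(156, 0), (11, 13)]), (36, [(144, 0), (10, 12)]), (48, [(132, 0), (9, 11)]), (60, [(120, 0), (8, 10)]), (72, [(108, 0), (7, 8)]), (84, [(96, 0), (7, 8)]), (96, [(84, 0), (6, 7)]), (108, [(72, 0), (5, 6)]), (120, [(60, 0), (4, 5)]), (132, [(48, 0), (3, 4)]), (144, [(36, 0), (2, 3)]), (156, [(24, 0), (1, 2)]), (168, [(12, 0)])], .M 14 [(0, [(194, 0), (13, 13), (1, 14)]), (14, [(180, 0), (12, 12), (1, 13)]), (28, [(166, 0), (11, 11), (1, 12)]), (42, [(152, 0), (10, 10), (1, 11)]), (56, [(138, 0), (9, 9), (1, 10)]), (70, [(124, 0), (8, 8), (1, 9)]), (84, [(110, 0), (7, 7), (1, 8)]), (98, [(96, 0),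 (5, 6), (2, 7)]), (112, [(82, 0), (4, 5), (1, 6)]), (126, [(68, 0), (3, 4), (1, 5)]), (140, [(54, 0), (2, 3), (1, 4)]), (154, [(40, 0), (1, 1)]), (168, [(26, 0), (1, 1)]), (182, [(12, 0)])], .N 1]⟩,
  ⟨17, 55, 3, 19, [.N 2, .N 2]⟩,
  ⟨19, 57, 2, 29, [.N 3, .N 3]⟩,
  ⟨19, 58, 3, 20, [.N 4]⟩,
  ⟨21, 60, 3, 21, [.N 4, .N 1]⟩,
  ⟨21, 61, 3, 21, [.N 4, .N 1]⟩,
  ⟨22, 61, 4, 16, [.N 2, .N 1]⟩,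
  ⟨22, 62, 4, 16, [.N 1, .N 2]⟩,
  ⟨23, 63, 3, 22, [.N 4, .N 2]⟩,
  ⟨23, 64, 4, 17, [.N 3]⟩,
  ⟨24, 64, 4, 17, [.N 1, .N 3]⟩,
  ⟨24, 65, 4, 17, [.N 2, .N 2]⟩,
  ⟨25, 65, 3, 22, [.N 6]⟩,
  ⟨25, 66, 5, 14, []⟩,
  ⟨26, 67, 4, 17, [.N 2, .N 1, .N 2]⟩,
  ⟨26, 68, 4, 18, [.N 3, .N 2]⟩,
  ⟨27, 68, 4, 18, [.N 5]⟩,
  ⟨28, 69, 3, 24, [.N 7]⟩,
  ⟨28, 70, 3, 24, [.N 5, .N 2, .N 1]⟩,
  ⟨30, 72, 4, 19, [.N 6]⟩,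
  ⟨30, 73, 4, 19, [.N 6]⟩]

/-- cases treated by germs -/
def exc_13_0 : List (ℕ × ℕ) := [(12, 45), (14, 49)]

theorem tab_13_0 : tabM 13 exc_13_0 cert_13_0 21 10 41 = true := by decide +kernel

/-- certificates for `m = 13`, `31 ≤ r < 57` -/
def cert_13_1 : List Cert := [
  ⟨32, 74, 4, 19, [.N 6, .N 1]⟩,
  ⟨32, 75, 3, 26, [.N 8]⟩,
  ⟨34, 77, 3, 26, [.N 8, .N 1]⟩,
  ⟨34, 78, 5, 16, [.N 4]⟩,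
  ⟨36, 79, 5, 16, [.N 5]⟩,
  ⟨36, 80, 6, 14, []⟩,
  ⟨37, 80, 4, 21, [.N 7, .N 2]⟩,
  ⟨37, 81, 5, 17, [.N 3, .N 3]⟩,
  ⟨38, 81, 5, 17, [.N 6]⟩,
  ⟨38, 82, 6, 14, [.N 1]⟩,
  ⟨39, 82, 5, 17, [.N 2, .N 5]⟩,
  ⟨39, 83, 5, 17, [.N 3, .M 35 [(0, [(458, 0), (46, 13), (4, 14)]), (35, [(423, 0), (42, 12), (4, 13)]), (70, [(388, 0), (40, 11), (2, 12)]), (105, [(353, 0), (37, 10), (3, 11)]), (140, [(318, 0), (33, 9), (4, 10)]), (175, [(283, 0), (29, 8)]), (210, [(248, 0), (25, 7)]), (245, [(213, 0), (21, 6)]), (280, [(178, 0), (17, 5)]), (315, [(143, 0), (13, 4)]), (350, [(108, 0), (10, 3)]), (385, [(73, 0), (8, 2)]), (420, [(38, 0), (4, 1)]), (455, [(3, 0)])]]⟩,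
  ⟨41, 84, 5, 17, [.N 7]⟩,
  ⟨41, 85, 5, 18, [.N 3, .M 35 [(0, [(469, 0), (48, 13), (4, 14)]), (35, [(434, 0), (44, 12), (4, 13)]), (70, [(399, 0), (40, 11), (4, 12)]), (105, [(364, 0), (36, 10), (4, 11)]), (140, [(329, 0), (32, 9), (4, 10)]), (175, [(294, 0), (28, 8), (4, 9)]), (210, [(259, 0), (24, 7), (4, 8)]), (245, [(224, 0), (22, 6), (2, 7)]), (280, [(189, 0), (19, 5)]), (315, [(154, 0), (15, 4)]), (350, [(119, 0), (11, 3)]), (385, [(84, 0), (7, 2)]), (420, [(49, 0), (3, 1)]), (455, [(14, 0)])], .N 1]⟩,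
  ⟨43, 86, 5, 18, [.N 8]⟩,
  ⟨43, 87, 5, 18, [.N 2, .M 31 [(0, [(464, 0), (26, 14)]), (31, [(433, 0), (24, 13), (2, 14)]), (62, [(402, 0), (22, 12), (2, 13)]), (93, [(371, 0), (20, 11), (2, 12)]), (124, [(340, 0), (18, 10), (2, 11)]), (155, [(309, 0), (16, 9), (2, 10)]), (186, [(278, 0), (14, 8), (2, 9)]), (217, [(247, 0), (12, 7), (2, 8)]), (248, [(216, 0), (10, 6), (2, 7)]), (279, [(185, 0), (8, 5), (2, 6)]), (310, [(154, 0), (6, 4), (2, 5)]), (341, [(123, 0), (4, 2), (2, 4)]), (372, [(92, 0), (4, 2)]), (403, [(61, 0), (2, 1), (2, 2)]), (434, [(30, 0)])], .M 35 [(0, [(490, 0), (30, 13)]), (35, [(455, 0), (30, 13)]), (70, [(420, 0), (26, 12)]), (105, [(385, 0), (24, 11)]), (140, [(350, 0), (22, 10)]), (175, [(315, 0), (20, 9)]), (210, [(280, 0), (18,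 8)]), (245, [(245, 0), (16, 7)]), (280, [(210, 0), (14, 6)]), (315, [(175, 0), (12, 5)]), (350, [(140, 0), (10, 4)]), (385, [(105, 0), (8, 3)]), (420, [(70, 0), (6, 2)]), (455, [(35, 0), (4, 1)])], .N 3]⟩,
  ⟨45, 89, 5, 18, [.N 2, .N 1, .M 34 [(0, [(490, 0), (39, 14), (3, 15)]), (34, [(456, 0), (36, 13), (3, 14)]), (68, [(422, 0), (33, 12), (3, 13)]), (102, [(388, 0), (30, 11), (3, 12)]), (136, [(354, 0), (27, 10), (3, 11)]), (170, [(320, 0), (24, 9), (3, 10)]), (204, [(286, 0), (21, 8), (3, 9)]), (238, [(252, 0), (20, 7), (1, 8)]), (272, [(218, 0), (18, 6)]), (306, [(184, 0), (15, 5)]), (340, [(150, 0), (12, 4)]), (374, [(116, 0), (9, 3)]), (408, [(82, 0), (6, 2)]), (442, [(48, 0), (3, 1)]), (476, [(14, 0)])], .N 1, .N 3]⟩,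
  ⟨45, 90, 6, 16, [.N 4]⟩,
  ⟨47, 90, 6, 16, [.N 5]⟩,
  ⟨47, 91, 5, 19, [.N 1, .N 2, .M 34 [(0, [(502, 0), (39, 14), (3, 15), (3, 16)]), (34, [(468, 0), (36, 13), (3, 14)]), (68, [(434, 0), (33, 12), (3, 13)]), (102, [(400, 0), (30, 11), (3, 12)]), (136, [(366, 0), (27, 10), (3, 11)]), (170, [(332, 0), (24, 9), (3, 10)]), (204, [(298, 0), (21, 8), (3, 9)]), (238, [(264, 0), (18, 7), (3, 8)]), (272, [(230, 0), (15, 6), (3, 7)]), (306, [(196, 0), (12, 5), (3, 6)]), (340, [(162, 0), (9, 4), (3, 5)]), (374, [(128, 0), (8, 3), (1, 4)]), (408, [(94, 0), (6, 2)]), (442, [(60, 0), (3, 1)]), (476, [(26, 0)])], .M 39 [(0, [(547, 0), (25, 14)]), (39, [(507, 0), (24, 13)]), (78, [(468, 0), (22, 12)]), (117, [(429, 0), (20, 11)]), (156, [(390, 0), (18, 10)]), (195,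 [(351, 0), (16, 9)]), (234, [(312, 0), (14, 8)]), (273, [(273, 0), (12, 7)]), (312, [(234, 0), (10, 6)]), (351, [(195, 0), (8, 5)]), (390, [(156, 0), (6, 4)]), (429, [(117, 0), (4, 3)]), (468, [(78, 0), (2, 2)]), (507, [(39, 0)])], .N 3]⟩,
  ⟨49, 92, 5, 19, [.N 10]⟩,
  ⟨49, 93, 7, 14, []⟩,
  ⟨51, 94, 5, 19, [.N 11]⟩,
  ⟨51, 95, 7, 14, [.N 1]⟩,
  ⟨52, 96, 6, 17, [.N 2, .N 2, .N 4]⟩,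
  ⟨53, 96, 6, 17, [.N 8]⟩,
  ⟨54, 97, 5, 20, [.N 12]⟩,
  ⟨54, 98, 6, 17, [.N 3, .N 2, .N 4]⟩,
  ⟨56, 99, 6, 17, [.N 8, .N 1]⟩,
  ⟨56, 100, 6, 17, [.N 9]⟩]

/-- cases treated by germs -/
def exc_13_1 : List (ℕ × ℕ) := []

theorem tab_13_1 : tabM 13 exc_13_1 cert_13_1 26 31 73 = true := by decide +kernel

/-- certificates for `m = 13`, `57 ≤ r < 93` -/
def cert_13_2 : List Cert := [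
  ⟨58, 101, 4, 26, [.N 14, .N 1]⟩,
  ⟨58, 102, 7, 15, [.N 4]⟩,
  ⟨60, 103, 2, 52, [.N 3, .M 13 [(0, [(360, 0), (20, 27), (1, 28)]), (13, [(347, 0), (19, 26), (2, 28)]), (26, [(334, 0), (18, 24), (2, 27)]), (39, [(321, 0), (18, 24), (1, 26)]), (52, [(308, 0), (17, 23), (1, 24)]), (65, [(295, 0), (16, 22), (1, 23), (1, 24)]), (78, [(282, 0), (15, 20), (1, 22)]), (91, [(269, 0), (15, 20)]), (104, [(256, 0), (14, 19), (1, 20)]), (117, [(243, 0), (13, 18), (1, 19)]), (130, [(230, 0), (12, 16), (1, 18)]), (143, [(217, 0), (12, 16)]), (156, [(204, 0), (11, 15), (1, 16)]), (169, [(191, 0), (10, 14), (1, 15)]), (182, [(178, 0), (9, 12), (1, 14)]), (195, [(165, 0), (9, 12)]), (208, [(152, 0), (8, 11), (1, 12)]), (221, [(139, 0), (7, 10), (1, 11)]), (234, [(126,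 0), (6, 8), (1, 10)]), (247, [(113, 0), (6, 8)]), (260, [(100, 0), (5, 7), (1, 8)]), (273, [(87, 0), (4, 6), (1, 7)]), (286, [(74, 0), (3, 4)]), (299, [(61, 0), (3, 4)]), (312, [(48, 0), (2, 3)]), (325, [(35, 0), (1, 2)]), (338, [(22, 0)]), (351, [(9, 0)])], .N 14, .N 2]⟩,
  ⟨60, 104, 7, 15, [.N 5]⟩,
  ⟨62, 104, 7, 15, [.N 6]⟩,
  ⟨62, 105, 5, 22, [.N 13, .N 2]⟩,
  ⟨64, 106, 7, 16, [.N 7]⟩,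
  ⟨64, 107, 8, 14, []⟩,
  ⟨66, 108, 3, 37, [.N 1, .N 2, .N 16, .N 1]⟩,
  ⟨66, 109, 6, 19, [.N 13]⟩,
  ⟨68, 109, 7, 16, [.N 9]⟩,
  ⟨68, 110, 8, 14, [.N 2]⟩,
  ⟨71, 112, 7, 17, [.N 3, .N 3, .N 5]⟩,
  ⟨71, 113, 5, 23, [.N 17]⟩,
  ⟨73, 113, 7, 17, [.N 11]⟩,
  ⟨73, 114, 7, 17, [.N 5, .M 66 [(0, [(864, 0), (81, 13), (7, 14)]), (66, [(798, 0), (74, 12), (7, 13)]), (132, [(732, 0), (67, 11), (7, 12)]), (198, [(666, 0), (60, 10), (7, 11)]), (264, [(600, 0), (57, 9)]), (330, [(534, 0), (51, 8)]), (396, [(468, 0), (44, 7)]), (462, [(402, 0), (37, 6)]), (528, [(336, 0), (30, 5)]), (594, [(270, 0), (23, 4)]), (660, [(204, 0), (16, 3)]), (726, [(138, 0), (9, 2)]), (792, [(72, 0), (3, 1)]), (858, [(6, 0)])]]⟩,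
  ⟨75, 115, 5, 24, [.N 16, .N 4]⟩,
  ⟨75, 116, 8, 15, [.N 5]⟩,
  ⟨77, 116, 6, 20, [.N 17]⟩,
  ⟨77, 117, 7, 17, [.N 2, .N 4, .M 69 [(0, [(897, 0), (98, 13), (8, 14)]), (69, [(828, 0), (90, 12), (8, 13)]), (138, [(759, 0), (82, 11), (8, 12)]), (207, [(690, 0), (75, 10), (7, 11)]), (276, [(621, 0), (72, 9), (3, 10)]), (345, [(552, 0), (64, 8)]), (414, [(483, 0), (56, 7)]), (483, [(414, 0), (48, 6)]), (552, [(345, 0), (40, 5)]), (621, [(276, 0), (32, 4)]), (690, [(207, 0), (24, 3)]), (759, [(138, 0), (16, 2)]), (828, [(69, 0), (8, 1)])]]⟩,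
  ⟨79, 118, 7, 17, [.N 10, .N 4]⟩,
  ⟨79, 119, 8, 15, [.N 7]⟩,
  ⟨81, 119, 7, 18, [.N 14]⟩,
  ⟨81, 120, 9, 14, []⟩,
  ⟨83, 121, 8, 16, [.N 9]⟩,
  ⟨83, 122, 8, 16, [.N 9]⟩,
  ⟨85, 122, 8, 16, [.N 10]⟩,
  ⟨85, 123, 9, 14, [.N 2]⟩,
  ⟨87, 124, 9, 14, [.N 3]⟩,
  ⟨92, 128, 8, 17, [.N 3, .N 5, .N 6]⟩]

/-- cases treated by germs -/
def exc_13_2 : List (ℕ × ℕ) := []

theorem tab_13_2 : tabM 13 exc_13_2 cert_13_2 36 57 100 = true := by decide +kernel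

/-- certificates for `m = 13`, `93 ≤ r < 130` -/
def cert_13_3 : List Cert := [
  ⟨94, 129, 7, 19, [.N 8, .N 10, .N 3]⟩,
  ⟨94, 130, 9, 15, [.N 6]⟩,
  ⟨96, 130, 9, 15, [.N 7]⟩,
  ⟨96, 131, 9, 15, [.N 5, .N 2]⟩,
  ⟨98, 132, 4, 34, [.N 1, .N 2, .N 23, .N 3]⟩,
  ⟨98, 133, 6, 23, [.N 23]⟩,
  ⟨100, 133, 9, 15, [.N 9]⟩,
  ⟨100, 134, 10, 14, []⟩,
  ⟨102, 134, 8, 17, [.N 17]⟩,
  ⟨102, 135, 10, 14, [.N 1]⟩,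
  ⟨104, 136, 4, 35, [.N 1, .N 24, .N 3]⟩,
  ⟨104, 137, 10, 14, [.N 2]⟩,
  ⟨106, 137, 10, 14, [.N 3]⟩,
  ⟨106, 138, 10, 14, [.N 3]⟩,
  ⟨108, 138, 10, 14, [.N 4]⟩,
  ⟨115, 144, 10, 15, [.N 7]⟩,
  ⟨117, 144, 9, 17, [.N 5, .N 12]⟩,
  ⟨117, 145, 10, 15, [.N 8]⟩,
  ⟨119, 145, 10, 15, [.N 9]⟩,
  ⟨119, 146, 10, 15, [.N 6, .N 3]⟩,
  ⟨121, 146, 9, 17, [.N 18]⟩,
  ⟨121, 147, 11, 14, []⟩,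
  ⟨123, 148, 9, 17, [.N 6, .M 101 [(0, [(1401, 0), (98, 13), (8, 14)]), (101, [(1300, 0), (90, 12), (8, 13)]), (202, [(1199, 0), (82, 11), (8, 12)]), (303, [(1098, 0), (74, 10), (8, 11)]), (404, [(997, 0), (66, 9), (8, 10)]), (505, [(896, 0), (58, 8), (8, 9)]), (606, [(795, 0), (50, 7), (8, 8)]), (707, [(694, 0), (42, 6), (8, 7)]), (808, [(593, 0), (34, 5), (8, 6)]), (909, [(492, 0), (26, 4), (8, 5)]), (1010, [(391, 0), (18, 3), (8, 4)]), (1111, [(290, 0), (13, 2), (5, 3)]), (1212, [(189, 0), (8, 1)]), (1313, [(88, 0)])], .N 7]⟩,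
  ⟨123, 149, 9, 17, [.N 19]⟩,
  ⟨125, 149, 10, 15, [.N 10, .N 2]⟩,
  ⟨125, 150, 11, 14, [.N 2]⟩,
  ⟨127, 150, 10, 16, [.N 13]⟩,
  ⟨127, 151, 11, 14, [.N 3]⟩,
  ⟨129, 151, 10, 16, [.N 14]⟩,
  ⟨129, 152, 11, 14, [.N 4]⟩]

/-- cases treated by germs -/
def exc_13_3 : List (ℕ × ℕ) := []

theorem tab_13_3 : tabM 13 exc_13_3 cert_13_3 37 93 128 = true := by decide +kernel

/-- certificates for `m = 13`, `130 ≤ r < 210` -/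
def cert_13_4 : List Cert := [
  ⟨131, 152, 8, 20, [.N 28]⟩,
  ⟨142, 160, 8, 21, [.N 31]⟩,
  ⟨144, 160, 11, 15, [.N 11]⟩,
  ⟨144, 161, 12, 14, []⟩,
  ⟨146, 161, 11, 15, [.N 12]⟩,
  ⟨146, 162, 11, 15, [.N 12]⟩,
  ⟨148, 162, 10, 17, [.N 22]⟩,
  ⟨148, 163, 12, 14, [.N 2]⟩,
  ⟨150, 163, 11, 15, [.N 14]⟩,
  ⟨150, 164, 12, 14, [.N 3]⟩,
  ⟨152, 164, 11, 15, [.N 15]⟩,
  ⟨152, 165, 12, 14, [.N 4]⟩,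
  ⟨154, 165, 11, 16, [.N 16]⟩,
  ⟨154, 166, 12, 14, [.N 5]⟩,
  ⟨173, 176, 13, 14, [.N 2]⟩,
  ⟨175, 176, 11, 17, [.N 25]⟩,
  ⟨175, 177, 13, 14, [.N 3]⟩,
  ⟨177, 177, 11, 17, [.N 26]⟩,
  ⟨177, 178, 13, 14, [.N 4]⟩,
  ⟨179, 178, 11, 17, [.N 27]⟩,
  ⟨179, 179, 13, 14, [.N 5]⟩,
  ⟨181, 180, 13, 14, [.N 6]⟩,
  ⟨204, 192, 14, 14, [.N 4]⟩,
  ⟨206, 192, 12, 17, [.N 6, .N 12, .N 13]⟩,
  ⟨206, 193, 14, 14, [.N 5]⟩,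
  ⟨208, 193, 14, 14, [.N 6]⟩,
  ⟨208, 194, 14, 14, [.N 5]⟩]

/-- cases treated by germs -/
def exc_13_4 : List (ℕ × ℕ) := []

theorem tab_13_4 : tabM 13 exc_13_4 cert_13_4 80 130 152 = true := by decide +kernel

/-- certificates for `m = 13`, `210 ≤ r < 256` -/
def cert_13_5 : List Cert := [
  ⟨210, 194, 14, 14, [.N 7]⟩,
  ⟨212, 194, 12, 17, [.N 31]⟩,
  ⟨239, 208, 15, 14, [.N 6]⟩,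
  ⟨241, 208, 15, 14, [.N 8]⟩,
  ⟨243, 208, 14, 15, [.N 23]⟩]

/-- cases treated by germs -/
def exc_13_5 : List (ℕ × ℕ) := []

theorem tab_13_5 : tabM 13 exc_13_5 cert_13_5 46 210 194 = true := by decide +kernel

end Pool.Agent.Helper22.E6L
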