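import Pool.Agent.Helper22.E6L.Tab
import Pool.Agent.Helper22.E6L.T00

set_option autoImplicit false

/-! # Tables of certificates, `m = 19 … 20`, `r < (m + 3) ^ 2` (helper22), MP_e6aa12_ag -/

namespace Pool.Agent.Helper22.E6L

open Pool.Agent.Helper22.E6

/-- certificates for `m = 19`, `131 ≤ r < 164` -/
def cert_19_5 : List Cert := [
  ⟨132, 222, 10, 23, [.N 15]⟩,
  ⟨132, 223, 10, 23, [.N 14, .N 1]⟩,
  ⟨134, 224, 4, 57, [.N 4, .N 32, .N 2]⟩,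
  ⟨134, 225, 11, 21, [.N 6]⟩,
  ⟨136, 225, 11, 21, [.N 7]⟩,
  ⟨136, 226, 6, 38, [.N 34]⟩,
  ⟨138, 227, 10, 23, [.N 14, .N 4]⟩,
  ⟨138, 228, 11, 21, [.N 8]⟩,
  ⟨140, 229, 10, 23, [.N 5, .N 5, .M 130 [(0, [(2470, 0), (180, 19), (10, 20)]), (130, [(2340, 0), (170, 18), (10, 19)]), (260, [(2210, 0), (160, 17), (10, 18)]), (390, [(2080, 0), (150, 16), (10, 17)]), (520, [(1950, 0), (140, 15), (10, 16)]), (650, [(1820, 0), (130, 14), (10, 15)]), (780, [(1690, 0), (120, 13)]), (910, [(1560, 0), (110, 12)]), (1040, [(1430, 0), (100, 11)]), (1170, [(1300, 0), (95, 10)]), (1300, [(1170, 0), (90, 9)]), (1430, [(1040, 0), (80, 8)]), (1560, [(910, 0), (70, 7)]), (1690, [(780, 0), (60, 6)]), (1820, [(650, 0), (50, 5)]), (1950, [(520, 0), (40, 4)]), (2080, [(390, 0), (30, 3)]), (2210, [(260, 0), (20, 2)]), (2340, [(130, 0), (10, 1)])]]⟩,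
  ⟨140, 230, 11, 21, [.N 9]⟩,
  ⟨142, 230, 11, 21, [.N 10]⟩,
  ⟨142, 231, 6, 39, [.N 35, .N 1]⟩,
  ⟨144, 232, 11, 22, [.N 11]⟩,
  ⟨144, 233, 12, 20, []⟩,
  ⟨146, 234, 4, 59, [.N 31, .N 4]⟩,
  ⟨146, 235, 12, 20, [.N 1]⟩,
  ⟨148, 235, 12, 20, [.N 2]⟩,
  ⟨148, 236, 12, 20, [.N 2]⟩,
  ⟨150, 237, 12, 20, [.N 3]⟩,
  ⟨150, 238, 12, 20, [.N 3]⟩,
  ⟨152, 238, 12, 20, [.N 4]⟩,
  ⟨155, 242, 12, 21, [.N 5]⟩,
  ⟨157, 242, 11, 23, [.N 17]⟩,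
  ⟨157, 243, 7, 35, [.N 37, .N 3]⟩,
  ⟨159, 244, 8, 31, [.N 31, .N 4, .N 5]⟩,
  ⟨159, 245, 12, 21, [.N 7]⟩,
  ⟨161, 245, 12, 21, [.N 8]⟩,
  ⟨161, 246, 11, 23, [.N 7, .N 3, .M 151 [(0, [(2876, 0), (176, 19), (10, 20)]), (151, [(2725, 0), (166, 18), (10, 19)]), (302, [(2574, 0), (158, 17), (8, 18)]), (453, [(2423, 0), (153, 16), (5, 17)]), (604, [(2272, 0), (143, 15)]), (755, [(2121, 0), (133, 14)]), (906, [(1970, 0), (123, 13)]), (1057, [(1819, 0), (113, 12)]), (1208, [(1668, 0), (103, 11)]), (1359, [(1517, 0), (93, 10)]), (1510, [(1366, 0), (83, 9)]), (1661, [(1215, 0), (73, 8)]), (1812, [(1064, 0), (63, 7)]), (1963, [(913, 0), (53, 6)]), (2114, [(762, 0), (43, 5)]), (2265, [(611, 0), (33, 4)]), (2416, [(460, 0), (23, 3)]), (2567, [(309, 0), (14, 2)]), (2718, [(158, 0), (10, 1)]), (2869, [(7, 0)])]]⟩,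
  ⟨163, 247, 10, 25, [.N 11, .N 15, .N 4]⟩,
  ⟨163, 248, 12, 21, [.N 9]⟩]

/-- cases treated by germs -/
def exc_19_5 : List (ℕ × ℕ) := []

theorem tab_19_5 : tabM 19 exc_19_5 cert_19_5 33 131 221 = true := by decide +kernel

/-- certificates for `m = 19`, `164 ≤ r < 201` -/
def cert_19_6 : List Cert := [
  ⟨165, 248, 12, 21, [.N 10]⟩,
  ⟨165, 249, 11, 23, [.M 123 [(0, [(2695, 0), (42, 21), (5, 22)]), (123, [(2572, 0), (40, 20), (2, 21)]), (246, [(2449, 0), (38, 19), (2, 20)]), (369, [(2326, 0), (36, 18), (2, 19)]), (492, [(2203, 0), (34, 17), (2, 18)]), (615, [(2080, 0), (32, 16), (2, 17)]), (738, [(1957, 0), (30, 15), (2, 16)]), (861, [(1834, 0), (28, 14), (2, 15)]), (984, [(1711, 0), (26, 13), (2, 14)]), (1107, [(1588, 0), (24, 12), (2, 13)]), (1230, [(1465, 0), (22, 11), (2, 12)]), (1353, [(1342, 0), (20, 10), (2, 11)]), (1476, [(1219, 0),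 (18, 9), (2, 10)]), (1599, [(1096, 0), (16, 8), (2, 9)]), (1722, [(973, 0), (14, 7), (2, 8)]), (1845, [(850, 0), (12, 6), (2, 7)]), (1968, [(727, 0), (10, 5)]), (2091, [(604, 0), (8, 4)]), (2214, [(481, 0), (6, 3)]), (2337, [(358, 0), (4, 2)]), (2460, [(235, 0), (2, 1)]), (2583, [(112, 0)])], .N 8, .M 153 [(0, [(2910, 0), (215, 19), (12, 20)]), (153, [(2757, 0), (203, 18), (12, 19)]), (306, [(2604, 0), (191, 17), (12, 18)]), (459, [(2451, 0), (179, 16), (12, 17)]), (612, [(2298, 0), (169, 15), (10, 16)]), (765, [(2145, 0), (157, 14), (12, 15)]), (918, [(1992, 0), (153, 13), (4, 14)]), (1071, [(1839, 0), (141, 12)]), (1224, [(1686, 0), (129, 11)]), (1377, [(1533, 0), (117, 10)]), (1530, [(1380, 0), (105, 9)]), (1683, [(1227, 0), (93, 8)]), (1836, [(1074, 0), (81, 7)]), (1989, [(921, 0), (69, 6)]), (2142, [(768, 0), (57, 5)]), (2295, [(615, 0),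 (45, 4)]), (2448, [(462, 0), (33, 3)]), (2601, [(309, 0), (21, 2)]), (2754, [(156, 0), (9, 1)]), (2907, [(3, 0)])]]⟩,
  ⟨167, 250, 11, 23, [.N 5, .N 14, .N 3]⟩,
  ⟨167, 251, 12, 21, [.N 11]⟩,
  ⟨169, 251, 11, 23, [.N 22]⟩,
  ⟨169, 252, 13, 20, []⟩,
  ⟨171, 253, 12, 22, [.N 13]⟩,
  ⟨171, 254, 12, 22, [.N 13]⟩,
  ⟨173, 254, 11, 24, [.N 24]⟩,
  ⟨173, 255, 13, 20, [.N 2]⟩,
  ⟨175, 256, 13, 20, [.N 3]⟩,
  ⟨175, 257, 13, 20, [.N 3]⟩,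
  ⟨177, 257, 13, 20, [.N 4]⟩,
  ⟨177, 258, 13, 20, [.N 4]⟩,
  ⟨186, 264, 12, 23, [.N 5, .N 10, .N 6]⟩,
  ⟨186, 265, 13, 21, [.N 8]⟩,
  ⟨188, 265, 13, 21, [.N 9]⟩,
  ⟨188, 266, 7, 39, [.N 47]⟩,
  ⟨190, 267, 6, 45, [.N 44, .N 6]⟩,
  ⟨190, 268, 13, 21, [.N 10]⟩,
  ⟨192, 268, 13, 21, [.N 11]⟩,
  ⟨192, 269, 13, 21, [.N 9, .N 2]⟩,
  ⟨194, 270, 6, 46, [.N 39, .M 159 [(0, [(3316, 0), (56, 20), (3, 21)]), (159, [(3157, 0), (53, 19), (3, 20)]), (318, [(2998, 0), (50, 18), (3, 19)]), (477, [(2839, 0), (47, 17), (3, 18)]), (636, [(2680, 0), (44, 16), (3, 17)]), (795, [(2521, 0), (41, 15), (3, 16)]), (954, [(2362, 0), (38, 14), (3, 15)]), (1113, [(2203, 0), (35, 13), (3, 14)]), (1272, [(2044, 0), (32, 12), (3, 13)]), (1431, [(1885, 0), (29, 11), (3, 12)]), (1590, [(1726, 0), (26, 10), (3, 11)]), (1749, [(1567, 0), (23, 8), (3, 10)]), (1908, [(1408, 0), (23,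 8)]), (2067, [(1249, 0), (20, 7)]), (2226, [(1090, 0), (17, 6)]), (2385, [(931, 0), (14, 5)]), (2544, [(772, 0), (11, 4)]), (2703, [(613, 0), (8, 3)]), (2862, [(454, 0), (5, 2)]), (3021, [(295, 0), (2, 1)]), (3180, [(136, 0)])], .N 7, .N 9]⟩,
  ⟨194, 271, 13, 21, [.N 12]⟩,
  ⟨196, 271, 13, 21, [.N 13]⟩,
  ⟨196, 272, 14, 20, []⟩,
  ⟨198, 272, 12, 23, [.N 25]⟩,
  ⟨198, 273, 14, 20, [.N 1]⟩,
  ⟨200, 274, 12, 23, [.N 5, .N 8, .M 184 [(0, [(3512, 0), (253, 19), (14, 20)]), (184, [(3328, 0), (239, 18), (14, 19)]), (368, [(3144, 0), (225, 17), (14, 18)]), (552, [(2960, 0), (211, 16), (14, 17)]), (736, [(2776, 0), (197, 15), (14, 16)]), (920, [(2592, 0), (183, 14), (14, 15)]), (1104, [(2408, 0), (171, 13), (12, 14)]), (1288, [(2224, 0), (168, 12), (3, 13)]), (1472, [(2040, 0), (154, 11)]), (1656, [(1856, 0), (140, 10)]), (1840, [(1672, 0), (126, 9)]),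 (2024, [(1488, 0), (112, 8)]), (2208, [(1304, 0), (98, 7)]), (2392, [(1120, 0), (84, 6)]), (2576, [(936, 0), (70, 5)]), (2760, [(752, 0), (56, 4)]), (2944, [(568, 0), (42, 3)]), (3128, [(384, 0), (28, 2)]), (3312, [(200, 0), (14, 1)]), (3496, [(16, 0)])], .N 1]⟩,
  ⟨200, 275, 14, 20, [.N 2]⟩]

/-- cases treated by germs -/
def exc_19_6 : List (ℕ × ℕ) := []

theorem tab_19_6 : tabM 19 exc_19_6 cert_19_6 37 164 248 = true := by decide +kernel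

/-- certificates for `m = 19`, `201 ≤ r < 259` -/
def cert_19_7 : List Cert := [
  ⟨202, 275, 13, 22, [.N 16]⟩,
  ⟨202, 276, 14, 20, [.N 3]⟩,
  ⟨204, 276, 13, 22, [.N 17]⟩,
  ⟨204, 277, 14, 20, [.N 4]⟩,
  ⟨206, 278, 14, 20, [.N 5]⟩,
  ⟨217, 286, 13, 23, [.N 8, .M 201 [(0, [(3822, 0), (295, 19), (16, 20)]), (201, [(3621, 0), (279, 18), (16, 19)]), (402, [(3420, 0), (263, 17), (16, 18)]), (603, [(3219, 0), (247, 16), (16, 17)]), (804, [(3018, 0), (231, 15), (16, 16)]), (1005, [(2817, 0), (215, 14), (16, 15)]), (1206, [(2616, 0), (199, 13), (16, 14)]), (1407, [(2415, 0), (191, 12)]), (1608, [(2214, 0), (175, 11)]), (1809, [(2013, 0), (159, 10)]), (2010, [(1812, 0), (143, 9)]), (2211, [(1611, 0), (127, 8)]), (2412, [(1410, 0), (111, 7)]), (2613, [(1209, 0), (95, 6)]), (2814, [(1008, 0), (79, 5)]), (3015, [(807, 0), (63, 4)]), (3216, [(606, 0),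 (47, 3)]), (3417, [(405, 0), (31, 2)]), (3618, [(204, 0), (15, 1)]), (3819, [(3, 0)])]]⟩,
  ⟨219, 286, 14, 21, [.N 11]⟩,
  ⟨219, 287, 13, 23, [.N 10, .M 199 [(0, [(3879, 0), (177, 19), (10, 20)]), (199, [(3680, 0), (167, 18), (10, 19)]), (398, [(3481, 0), (157, 17), (10, 18)]), (597, [(3282, 0), (147, 16), (10, 17)]), (796, [(3083, 0), (137, 15), (10, 16)]), (995, [(2884, 0), (127, 14), (10, 15)]), (1194, [(2685, 0), (117, 13), (10, 14)]), (1393, [(2486, 0), (107, 12), (10, 13)]), (1592, [(2287, 0), (104, 11), (3, 12)]), (1791, [(2088, 0), (97, 10)]), (1990, [(1889, 0), (87, 9)]), (2189, [(1690, 0), (77, 8)]), (2388, [(1491, 0), (67, 7)]), (2587, [(1292, 0), (57, 6)]), (2786, [(1093, 0), (47, 5)]), (2985, [(894, 0), (37, 4)]), (3184, [(695, 0), (27, 3)]), (3383, [(496, 0), (17, 2)]), (3582, [(297, 0), (7, 1)]), (3781, [(98, 0)])], .N 5]⟩,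
  ⟨221, 288, 13, 23, [.N 9, .M 195 [(0, [(3874, 0), (137, 19), (8, 20)]), (195, [(3679, 0), (129, 18), (8, 19)]), (390, [(3484, 0), (121, 17), (8, 18)]), (585, [(3289, 0), (113, 16), (8, 17)]), (780, [(3094, 0), (105, 15), (8, 16)]), (975, [(2899, 0), (101, 14), (4, 15)]), (1170, [(2704, 0), (98, 13), (3, 14)]), (1365, [(2509, 0), (90, 12), (8, 13)]), (1560, [(2314, 0), (82, 11), (8, 12)]), (1755, [(2119, 0), (74, 10), (8, 11)]), (1950, [(1924, 0), (66, 9), (8, 10)]), (2145, [(1729, 0), (58, 8), (8, 9)]), (2340, [(1534, 0), (50, 7), (8, 8)]), (2535, [(1339, 0), (42, 6), (8, 7)]), (2730, [(1144, 0), (34, 5), (8, 6)]), (2925, [(949, 0), (26, 4), (8, 5)]), (3120, [(754, 0), (18, 3)]), (3315, [(559, 0), (10, 2)]), (3510, [(364, 0), (2, 1)]), (3705, [(169, 0)])], .N 9]⟩,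
  ⟨221, 289, 14, 21, [.N 12]⟩,
  ⟨223, 289, 14, 21, [.N 13]⟩,
  ⟨223, 290, 14, 21, [.N 10, .N 3]⟩,
  ⟨225, 290, 13, 23, [.N 26]⟩,
  ⟨225, 291, 15, 20, []⟩,
  ⟨227, 292, 13, 23, [.N 9, .M 199 [(0, [(3929, 0), (219, 19), (5, 20)]), (199, [(3730, 0), (207, 18), (12, 19)]), (398, [(3531, 0), (195, 17), (12, 18)]), (597, [(3332, 0), (183, 16), (12, 17)]), (796, [(3133, 0), (171, 15), (12, 16)]), (995, [(2934, 0), (159, 14), (12, 15)]), (1194, [(2735, 0), (147, 13), (12, 14)]), (1393, [(2536, 0), (135, 12), (12, 13)]), (1592, [(2337, 0), (123, 11), (12, 12)]), (1791, [(2138, 0), (111, 10), (12, 11)]), (1990, [(1939, 0), (99, 9), (12, 10)]), (2189, [(1740, 0), (87, 8), (12, 9)]), (2388, [(1541, 0), (75, 7), (12, 8)]), (2587, [(1342, 0), (63, 6), (12, 7)]), (2786, [(1143, 0), (51, 5), (12, 6)]), (2985, [(944, 0), (39, 4)]), (3184, [(745, 0), (28, 3)]),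 (3383, [(546, 0), (24, 2)]), (3582, [(347, 0), (12, 1)]), (3781, [(148, 0)])], .N 8]⟩,
  ⟨227, 293, 15, 20, [.N 1]⟩,
  ⟨229, 293, 14, 21, [.N 16]⟩,
  ⟨229, 294, 14, 22, [.N 16]⟩,
  ⟨231, 294, 14, 22, [.N 17]⟩,
  ⟨231, 295, 15, 20, [.N 3]⟩,
  ⟨233, 297, 15, 20, [.N 4]⟩,
  ⟨235, 297, 15, 20, [.N 5]⟩,
  ⟨235, 298, 15, 20, [.N 5]⟩,
  ⟨237, 298, 15, 20, [.N 6]⟩,
  ⟨252, 308, 14, 23, [.M 201 [(0, [(4235, 0), (105, 21)]), (201, [(4034, 0), (100, 20)]), (402, [(3833, 0), (95, 19)]), (603, [(3632, 0), (90, 18)]), (804, [(3431, 0), (85, 17)]), (1005, [(3230, 0), (80, 16)]), (1206, [(3029, 0), (75, 15)]), (1407, [(2828, 0), (70, 14)]), (1608, [(2627, 0), (65, 13)]), (1809, [(2426, 0), (60, 12)]), (2010, [(2225, 0), (55, 11)]), (2211, [(2024, 0), (50, 10)]), (2412, [(1823, 0), (45, 9)]), (2613, [(1622, 0), (40, 8)]), (2814, [(1421, 0), (35, 7)]), (3015,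 [(1220, 0), (30, 6)]), (3216, [(1019, 0), (25, 5)]), (3417, [(818, 0), (20, 4)]), (3618, [(617, 0), (15, 3)]), (3819, [(416, 0), (10, 2)]), (4020, [(215, 0), (5, 1)]), (4221, [(14, 0)])], .N 11, .N 12]⟩,
  ⟨254, 309, 14, 23, [.N 7, .N 10, .N 11, .N 1]⟩,
  ⟨254, 310, 15, 21, [.N 14]⟩,
  ⟨256, 310, 15, 21, [.N 15]⟩,
  ⟨256, 311, 16, 20, []⟩,
  ⟨258, 311, 15, 21, [.N 16]⟩,
  ⟨258, 312, 16, 20, [.N 1]⟩]

/-- cases treated by germs -/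
def exc_19_7 : List (ℕ × ℕ) := [(233, 296)]

theorem tab_19_7 : tabM 19 exc_19_7 cert_19_7 58 201 274 = true := by decide +kernel

/-- certificates for `m = 19`, `259 ≤ r < 331` -/
def cert_19_8 : List Cert := [
  ⟨260, 312, 14, 23, [.N 30]⟩,
  ⟨260, 313, 16, 20, [.N 2]⟩,
  ⟨262, 314, 4, 79, [.N 47, .N 7]⟩,
  ⟨262, 315, 16, 20, [.N 3]⟩,
  ⟨264, 315, 5, 64, [.N 55, .N 4]⟩,
  ⟨264, 316, 16, 20, [.N 4]⟩,
  ⟨266, 316, 16, 20, [.N 5]⟩,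
  ⟨266, 317, 16, 20, [.N 5]⟩,
  ⟨268, 317, 15, 22, [.N 21]⟩,
  ⟨268, 318, 16, 20, [.N 6]⟩,
  ⟨270, 318, 15, 22, [.N 22]⟩,
  ⟨289, 330, 17, 20, []⟩,
  ⟨291, 331, 2, 166, [.N 3, .N 46, .N 7]⟩,
  ⟨291, 332, 14, 24, [.N 43]⟩,
  ⟨293, 332, 15, 23, [.N 8, .M 255 [(0, [(5064, 0), (260, 19), (11, 20)]), (255, [(4809, 0), (246, 18), (14, 19)]), (510, [(4554, 0), (232, 17), (14, 18)]), (765, [(4299, 0), (218, 16), (14, 17)]), (1020, [(4044, 0), (204, 15), (14, 16)]), (1275, [(3789, 0), (190, 14), (14, 15)]), (1530, [(3534, 0), (176, 13), (14, 14)]), (1785, [(3279, 0), (162, 12), (14, 13)]), (2040, [(3024, 0), (148, 11), (14, 12)]), (2295, [(2769, 0), (134, 10), (14, 11)]), (2550, [(2514, 0), (120, 9), (14, 10)]), (2805, [(2259, 0), (106, 8), (14, 9)]), (3060, [(2004, 0), (92, 7), (14, 8)]), (3315, [(1749, 0), (78, 6), (14, 7)]), (3570, [(1494, 0), (64,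 5), (14, 6)]), (3825, [(1239, 0), (50, 4), (14, 5)]), (4080, [(984, 0), (36, 3), (14, 4)]), (4335, [(729, 0), (22, 2)]), (4590, [(474, 0), (8, 1)]), (4845, [(219, 0)])], .N 12]⟩,
  ⟨293, 333, 16, 21, [.N 18]⟩,
  ⟨295, 333, 16, 21, [.N 14, .N 5]⟩,
  ⟨295, 334, 16, 21, [.N 19]⟩,
  ⟨297, 334, 16, 21, [.N 18, .N 2]⟩,
  ⟨297, 335, 17, 20, [.N 4]⟩,
  ⟨299, 335, 16, 21, [.N 21]⟩,
  ⟨299, 336, 17, 20, [.N 5]⟩,
  ⟨301, 336, 16, 22, [.N 22]⟩,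
  ⟨301, 337, 17, 20, [.N 6]⟩,
  ⟨303, 337, 16, 22, [.N 23]⟩,
  ⟨303, 338, 17, 20, [.N 7]⟩,
  ⟨305, 338, 16, 22, [.N 24]⟩,
  ⟨328, 352, 18, 20, [.N 2]⟩,
  ⟨330, 352, 17, 21, [.N 20]⟩,
  ⟨330, 353, 18, 20, [.N 3]⟩]

/-- cases treated by germs -/
def exc_19_8 : List (ℕ × ℕ) := []

theorem tab_19_8 : tabM 19 exc_19_8 cert_19_8 72 259 312 = true := by decide +kernel

/-- certificates for `m = 19`, `331 ≤ r < 411` -/
def cert_19_9 : List Cert := [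
  ⟨332, 353, 17, 21, [.N 21]⟩,
  ⟨332, 354, 18, 20, [.N 4]⟩,
  ⟨334, 354, 17, 21, [.N 22]⟩,
  ⟨334, 355, 18, 20, [.N 5]⟩,
  ⟨336, 355, 17, 21, [.N 23]⟩,
  ⟨336, 356, 18, 20, [.N 6]⟩,
  ⟨338, 356, 17, 21, [.N 24]⟩,
  ⟨338, 357, 18, 20, [.N 7]⟩,
  ⟨340, 357, 17, 22, [.N 25]⟩,
  ⟨340, 358, 18, 20, [.N 8]⟩,
  ⟨371, 374, 19, 20, [.N 5]⟩,
  ⟨373, 374, 18, 21, [.N 24]⟩,
  ⟨373, 375, 19, 20, [.N 6]⟩,
  ⟨375, 375, 18, 21, [.N 25]⟩,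
  ⟨375, 376, 19, 20, [.N 7]⟩,
  ⟨377, 376, 18, 21, [.N 26]⟩,
  ⟨377, 377, 19, 20, [.N 8]⟩,
  ⟨379, 378, 19, 20, [.N 9]⟩]

/-- cases treated by germs -/
def exc_19_9 : List (ℕ × ℕ) := []

theorem tab_19_9 : tabM 19 exc_19_9 cert_19_9 80 331 353 = true := by decide +kernel

/-- certificates for `m = 19`, `411 ≤ r < 484` -/
def cert_19_10 : List Cert := [
  ⟨414, 396, 20, 20, [.N 7]⟩,
  ⟨416, 396, 4, 100, [.N 64, .N 8]⟩,
  ⟨416, 397, 19, 21, [.N 26]⟩,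
  ⟨418, 397, 20, 20, [.N 9]⟩,
  ⟨418, 398, 18, 23, [.N 44]⟩,
  ⟨420, 398, 20, 20, [.N 10]⟩,
  ⟨422, 398, 18, 23, [.N 46]⟩,
  ⟨461, 418, 21, 20, [.N 9]⟩,
  ⟨463, 418, 21, 20, [.N 11]⟩,
  ⟨465, 418, 20, 21, [.N 32]⟩]

/-- cases treated by germs -/
def exc_19_10 : List (ℕ × ℕ) := []

theorem tab_19_10 : tabM 19 exc_19_10 cert_19_10 73 411 393 = true := by decide +kernel

/-- certificates for `m = 20`, `10 ≤ r < 29` -/
def cert_20_0 : List Cert := [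
  ⟨10, 63, 2, 32, [.N 1, .M 7 [(0, [(158, 0), (17, 22), (2, 25)]), (7, [(151, 0), (16, 21), (1, 22), (1, 24)]), (14, [(144, 0), (15, 20), (2, 22)]), (21, [(137, 0), (14, 18), (2, 21)]), (28, [(130, 0), (14, 18), (1, 20)]), (35, [(123, 0), (13, 17), (1, 18)]), (42, [(116, 0), (12, 16), (2, 18)]), (49, [(109, 0), (11, 14), (2, 17)]), (56, [(102, 0), (11, 14), (1, 16)]), (63, [(95, 0), (10, 13), (1, 14)]), (70, [(88, 0), (9, 12), (1, 13), (1, 14)]), (77, [(81, 0), (8, 10), (1, 12)]), (84, [(74, 0), (8, 10)]), (91, [(67, 0), (7, 9), (1, 10)]), (98, [(60, 0), (6, 8), (1, 9)]), (105, [(53, 0), (5, 6), (1, 8)]), (112, [(46, 0), (5, 6)]), (119, [(39, 0), (4, 5), (1, 6)]), (126, [(32, 0), (3, 4), (1, 5)]), (133, [(25, 0), (2, 2)]), (140, [(18, 0), (2, 2)]), (147, [(11, 0), (1, 1)]), (154, [(4, 0)])], .N 1]⟩,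
  ⟨10, 64, 2, 33, [.N 1, .M 8 [(0, [(161, 0), (35, 20), (7, 24), (1, 25)]), (8, [(153, 0), (33, 19), (7, 23), (2, 24)]), (16, [(145, 0), (31, 18), (7, 22)]), (24, [(137, 0), (29, 17), (6, 20), (1, 21)]), (32, [(129, 0), (28, 16), (5, 19), (2, 20)]), (40, [(121, 0), (26, 15), (5, 18), (2, 19)]), (48, [(113, 0), (24, 14), (5, 17)]), (56, [(105, 0), (22, 13), (4, 15), (2, 16)]), (64, [(97, 0), (21, 12), (3, 14), (2, 15)]), (72, [(89, 0), (19, 11), (3, 13)]), (80, [(81, 0), (17, 10), (4, 12)]), (88, [(73, 0), (15, 9), (4, 11)]), (96, [(65, 0), (14, 8), (1, 9), (2, 10)]), (104, [(57, 0), (12, 7), (2, 8)]), (112, [(49, 0), (10, 6), (2, 7)]), (120, [(41, 0), (8, 5), (2, 6)]), (128, [(33, 0), (7, 4), (1, 5)]), (136, [(25, 0), (5, 3)]), (144, [(17, 0), (3, 2)]), (152, [(9, 0), (1, 1)]), (160, [(1, 0)])]]⟩,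
  ⟨11, 66, 3, 23, [.N 1]⟩,
  ⟨11, 67, 3, 23, [.N 1]⟩,
  ⟨12, 69, 2, 35, [.N 1, .M 7 [(0, [(173, 0), (18, 24), (2, 26)]), (7, [(166, 0), (17, 22), (3, 26)]), (14, [(159, 0), (17, 22), (2, 25)]), (21, [(152, 0), (16, 21), (2, 24)]), (28, [(145, 0), (15, 20), (2, 22)]), (35, [(138, 0), (14, 18), (2, 21), (1, 22)]), (42, [(131, 0), (14, 18), (1, 20)]), (49, [(124, 0), (13, 17), (1, 18)]), (56, [(117, 0), (12, 16), (2, 18)]), (63, [(110, 0), (11, 14), (2, 17)]), (70, [(103, 0), (11, 14), (1, 16)]), (77, [(96, 0), (10, 13), (1, 14)]), (84, [(89, 0), (9, 12), (2, 14)]), (91, [(82, 0), (8, 10), (1, 12), (1, 13)]), (98, [(75, 0), (8, 10)]), (105, [(68, 0), (7, 9), (1, 10)]), (112, [(61, 0), (6, 8), (1, 9)]), (119, [(54, 0), (5, 6), (1, 8)]), (126, [(47, 0), (5, 6)]), (133, [(40, 0), (4, 5), (1, 6)]), (140, [(33, 0), (3, 4), (1, 5)]), (147, [(26, 0),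 (2, 2), (1, 4)]), (154, [(19, 0), (2, 2)]), (161, [(12, 0), (1, 1)]), (168, [(5, 0)])], .N 1, .N 1]⟩,
  ⟨12, 70, 2, 36, [.N 1, .N 1, .M 10 [(0, [(204, 0), (31, 20), (5, 23), (2, 24)]), (10, [(194, 0), (29, 19), (5, 22)]), (20, [(184, 0), (28, 18), (4, 21)]), (30, [(174, 0), (26, 17), (5, 20)]), (40, [(164, 0), (25, 16), (3, 18), (1, 19)]), (50, [(154, 0), (23, 15), (3, 17), (2, 18)]), (60, [(144, 0), (21, 14), (4, 16)]), (70, [(134, 0), (19, 12), (4, 15)]), (80, [(124, 0), (19, 12), (2, 14)]), (90, [(114, 0), (17, 11), (2, 12)]), (100, [(104, 0), (15, 10), (2, 11), (2, 12)]), (110, [(94, 0), (13, 9), (2, 10)]), (120, [(84, 0), (12, 8), (1, 9)]), (130, [(74, 0), (10, 7), (2, 8)]), (140, [(64, 0), (9, 6), (1, 7)]), (150, [(54, 0), (7, 5), (2, 6)]), (160, [(44, 0), (6, 4), (1, 5)]), (170, [(34, 0), (4, 3)]), (180, [(24, 0), (2, 2)]), (190, [(14,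 0)]), (200, [(4, 0)])]]⟩,
  ⟨13, 72, 3, 25, [.N 1, .M 12 [(0, [(240, 0), (17, 20), (1, 21)]), (12, [(228, 0), (16, 19), (1, 20)]), (24, [(216, 0), (15, 17), (1, 19)]), (36, [(204, 0), (15, 17)]), (48, [(192, 0), (14, 16), (1, 17)]), (60, [(180, 0), (13, 15), (1, 16)]), (72, [(168, 0), (12, 14), (1, 15)]), (84, [(156, 0), (11, 13)]), (96, [(144, 0), (10, 12)]), (108, [(132, 0), (9, 11)]), (120, [(120, 0), (8, 10)]), (132, [(108, 0), (7, 8)]), (144, [(96, 0), (7, 8)]), (156, [(84, 0), (6, 7)]), (168, [(72, 0), (5, 6)]), (180, [(60, 0), (4, 5)]), (192, [(48, 0), (3, 4)]), (204, [(36, 0), (2, 3)]), (216, [(24, 0), (1, 2)]), (228, [(12, 0)])]]⟩,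
  ⟨13, 73, 3, 25, [.N 1, .N 1]⟩,
  ⟨14, 76, 2, 39, [.N 3, .N 1]⟩,
  ⟨15, 77, 3, 26, [.N 1, .N 1, .N 1]⟩,
  ⟨15, 78, 3, 27, [.N 1, .M 12 [(0, [(260, 0), (18, 21), (2, 23)]), (12, [(248, 0), (17, 20), (2, 22)]), (24, [(236, 0), (16, 19), (2, 21)]), (36, [(224, 0), (15, 17), (1, 19), (1, 20)]), (48, [(212, 0), (15, 17)]), (60, [(200, 0), (14, 16), (1, 17)]), (72, [(188, 0), (13, 15), (1, 16)]), (84, [(176, 0), (12, 14), (1, 15)]), (96, [(164, 0), (11, 13), (1, 14)]), (108, [(152, 0), (10, 12), (1, 13)]), (120, [(140, 0), (9, 11), (1, 12)]), (132, [(128, 0), (8, 10), (1, 11)]), (144, [(116, 0), (7, 8), (1, 10)]), (156, [(104, 0), (7, 8)]), (168, [(92, 0), (6, 7), (1, 8)]), (180, [(80, 0), (5, 6), (1, 7)]), (192, [(68, 0), (4, 5), (1, 6)]), (204, [(56, 0), (3, 4)]), (216, [(44, 0), (2, 3)]), (228, [(32, 0), (1, 2)]), (240, [(20, 0)]), (252, [(8,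 0)])], .N 1]⟩,
  ⟨16, 80, 3, 27, [.N 3]⟩,
  ⟨16, 81, 4, 21, []⟩,
  ⟨17, 84, 3, 29, [.N 2, .M 15 [(0, [(307, 0), (31, 20), (3, 22)]), (15, [(292, 0), (29, 19), (4, 21)]), (30, [(277, 0), (27, 17), (4, 20)]), (45, [(262, 0), (27, 17), (2, 19)]), (60, [(247, 0), (25, 16), (2, 17)]), (75, [(232, 0), (23, 15), (4, 17)]), (90, [(217, 0), (21, 14), (2, 15), (2, 16)]), (105, [(202, 0), (20, 13), (1, 14)]), (120, [(187, 0), (19, 12), (1, 13)]), (135, [(172, 0), (17, 11), (2, 12)]), (150, [(157, 0), (15, 10), (2, 11)]), (165, [(142, 0), (13, 8), (2, 10)]), (180, [(127, 0), (13, 8)]), (195, [(112, 0), (11, 7), (2, 8)]), (210, [(97, 0), (9, 6), (2, 7)]), (225, [(82, 0), (7, 5)]), (240, [(67, 0), (6, 4)]), (255, [(52, 0), (5, 3)]), (270, [(37, 0), (3, 2)]), (285, [(22, 0), (1, 1)]), (300, [(7, 0)])]]⟩,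
  ⟨19, 87, 2, 44, [.N 3, .N 3]⟩,
  ⟨19, 88, 2, 45, [.N 3, .N 3]⟩,
  ⟨20, 90, 4, 23, [.N 1, .M 19 [(0, [(380, 0), (19, 20), (1, 21)]), (19, [(361, 0), (18, 19)]), (38, [(342, 0), (17, 18)]), (57, [(323, 0), (16, 17)]), (76, [(304, 0), (15, 16)]), (95, [(285, 0), (14, 15)]), (114, [(266, 0), (13, 14)]), (133, [(247, 0), (12, 13)]), (152, [(228, 0), (11, 12)]), (171, [(209, 0), (10, 11)]), (190, [(190, 0), (9, 10)]), (209, [(171, 0), (8, 9)]), (228, [(152, 0), (7, 8)]), (247, [(133, 0), (6, 7)]), (266, [(114, 0), (5, 5)]), (285, [(95, 0), (5, 5)]), (304, [(76, 0), (4, 4)]), (323, [(57, 0), (3, 3)]), (342, [(38, 0), (2, 2)]), (361, [(19, 0), (1, 1)])]]⟩,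
  ⟨20, 91, 4, 23, [.N 2]⟩,
  ⟨21, 92, 3, 31, [.N 4, .N 1]⟩,
  ⟨21, 93, 3, 32, [.N 4, .N 1]⟩,
  ⟨22, 94, 4, 24, [.N 2, .N 1]⟩,
  ⟨22, 95, 4, 24, [.N 2, .N 1]⟩,
  ⟨23, 96, 3, 33, [.N 4, .N 2]⟩,
  ⟨23, 97, 3, 33, [.N 2, .M 14 [(0, [(355, 0), (13, 23), (1, 26)]), (14, [(341, 0), (12, 22), (1, 25)]), (28, [(327, 0), (12, 22)]), (42, [(313, 0), (12, 22)]), (56, [(299, 0), (11, 21), (1, 22)]), (70, [(285, 0), (10, 18), (1, 21)]), (84, [(271, 0), (10, 18)]), (98, [(257, 0), (10, 18)]), (112, [(243, 0), (9, 17), (1, 18)]), (126, [(229, 0), (8, 16)]), (140, [(215, 0), (7, 13)]), (154, [(201, 0), (7, 13)]), (168, [(187, 0), (7, 13)]), (182, [(173, 0), (6, 12)]), (196, [(159, 0), (5, 9)]), (210, [(145, 0), (5, 9)]), (224, [(131, 0), (5, 9)]), (238, [(117, 0), (4, 8)]), (252, [(103, 0), (3, 7)]), (266, [(89, 0), (2, 4)]), (280, [(75, 0), (2, 4)]), (294,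 [(61, 0), (2, 4)]), (308, [(47, 0), (1, 3)]), (322, [(33, 0)]), (336, [(19, 0)]), (350, [(5, 0)])], .N 2, .N 2]⟩,
  ⟨24, 98, 4, 25, [.N 2, .N 2]⟩,
  ⟨24, 99, 4, 25, [.N 1, .M 19 [(0, [(418, 0), (21, 22), (1, 23)]), (19, [(399, 0), (20, 21), (1, 22)]), (38, [(380, 0), (19, 20), (1, 21)]), (57, [(361, 0), (18, 19)]), (76, [(342, 0), (17, 18)]), (95, [(323, 0), (16, 17)]), (114, [(304, 0), (15, 16)]), (133, [(285, 0), (14, 15)]), (152, [(266, 0), (13, 14)]), (171, [(247, 0), (12, 13)]), (190, [(228, 0), (11, 12)]), (209, [(209, 0), (10, 11)]), (228, [(190, 0), (9, 9)]), (247, [(171, 0), (9, 9)]), (266, [(152, 0), (8, 8)]), (285, [(133, 0), (7, 7)]), (304, [(114, 0), (6, 6)]), (323, [(95, 0), (5, 5)]), (342, [(76, 0), (4, 4)]), (361, [(57, 0), (3, 3)]), (380, [(38, 0), (2, 2)]), (399, [(19, 0), (1, 1)])], .N 1, .N 1]⟩,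
  ⟨25, 100, 4, 26, [.N 4]⟩,
  ⟨25, 101, 5, 21, []⟩,
  ⟨26, 104, 4, 27, [.N 2, .N 3]⟩,
  ⟨28, 106, 3, 36, [.N 7]⟩,
  ⟨28, 107, 4, 27, [.N 1, .N 2, .M 25 [(0, [(501, 0), (54, 20), (6, 22)]), (25, [(476, 0), (51, 19), (6, 21)]), (50, [(451, 0), (49, 18), (5, 20)]), (75, [(426, 0), (47, 17), (2, 18), (2, 19)]), (100, [(401, 0), (44, 16), (3, 17)]), (125, [(376, 0), (41, 15), (3, 16)]), (150, [(351, 0), (38, 14), (3, 15)]), (175, [(326, 0), (35, 13), (3, 14)]), (200, [(301, 0), (32, 12), (3, 13)]), (225, [(276, 0), (29, 11), (3, 12)]), (250, [(251, 0), (26, 10), (3, 11)]), (275, [(226, 0), (25, 9), (1, 10)]), (300, [(201, 0), (23, 8)]), (325, [(176, 0), (20, 7)]), (350, [(151, 0), (17, 6)]), (375, [(126, 0), (14, 5)]), (400, [(101, 0), (11, 4)]), (425, [(76, 0), (8, 3)]), (450, [(51, 0), (5, 2)]), (475, [(26, 0), (2, 1)]), (500, [(1, 0)])]]⟩]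

/-- cases treated by germs -/
def exc_20_0 : List (ℕ × ℕ) := [(14, 75), (17, 83), (26, 103)]

theorem tab_20_0 : tabM 20 exc_20_0 cert_20_0 19 10 63 = true := by decide +kernel

/-- certificates for `m = 20`, `29 ≤ r < 50` -/
def cert_20_1 : List Cert := [
  ⟨30, 110, 4, 28, [.N 6]⟩,
  ⟨30, 111, 3, 38, [.N 5, .N 1, .N 2, .N 1]⟩,
  ⟨31, 112, 5, 23, [.N 2, .N 1]⟩,
  ⟨31, 113, 5, 23, [.N 3]⟩,
  ⟨32, 114, 4, 29, [.N 2, .N 2, .M 28 [(0, [(560, 0), (70, 20), (6, 22)]), (28, [(532, 0), (66, 19), (8, 21)]), (56, [(504, 0), (64, 18), (6, 20)]), (84, [(476, 0), (60, 17), (6, 19)]), (112, [(448, 0), (56, 16), (8, 18)]), (140, [(420, 0), (52, 15), (4, 16), (4, 17)]), (168, [(392, 0), (48, 14), (4, 15)]), (196, [(364, 0), (44, 13), (4, 14)]), (224, [(336, 0), (40, 12), (4, 13)]), (252, [(308, 0), (38, 11), (2, 12)]), (280, [(280, 0), (36, 10), (2, 11)]),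 (308, [(252, 0), (32, 9), (4, 10)]), (336, [(224, 0), (28, 8), (4, 9)]), (364, [(196, 0), (24, 7)]), (392, [(168, 0), (20, 6)]), (420, [(140, 0), (16, 5)]), (448, [(112, 0), (12, 4)]), (476, [(84, 0), (8, 3)]), (504, [(56, 0), (6, 2)]), (532, [(28, 0), (4, 1)])]]⟩,
  ⟨32, 115, 3, 39, [.N 8]⟩,
  ⟨33, 116, 4, 30, [.N 2, .N 3, .N 3]⟩,
  ⟨33, 117, 5, 24, [.N 4]⟩,
  ⟨34, 119, 5, 24, [.N 4]⟩,
  ⟨35, 119, 5, 24, [.N 2, .N 3]⟩,
  ⟨35, 120, 5, 25, [.N 2, .N 1, .N 2]⟩,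
  ⟨36, 121, 5, 25, [.N 5]⟩,
  ⟨36, 122, 6, 21, []⟩,
  ⟨37, 123, 5, 25, [.N 2, .M 31 [(0, [(658, 0), (38, 21), (2, 22)]), (31, [(627, 0), (36, 20), (2, 21)]), (62, [(596, 0), (34, 19), (2, 20)]), (93, [(565, 0), (32, 18), (2, 19)]), (124, [(534, 0), (31, 17), (1, 18)]), (155, [(503, 0), (30, 16), (1, 17)]), (186, [(472, 0), (28, 15), (2, 16)]), (217, [(441, 0), (26, 14), (2, 15)]), (248, [(410, 0), (24, 13), (2, 14)]), (279, [(379, 0), (22, 12)]), (310, [(348, 0), (20, 11)]), (341, [(317, 0), (18, 10)]), (372, [(286, 0), (16, 9)]), (403, [(255, 0), (14, 8)]), (434, [(224, 0), (12, 7)]), (465, [(193, 0), (10, 6)]), (496, [(162, 0), (8, 4)]), (527, [(131, 0), (8, 4)]), (558, [(100, 0), (6, 3)]), (589, [(69, 0), (4, 2)]), (620, [(38, 0), (2, 1)]), (651, [(7, 0)])], .N 2]⟩,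
  ⟨37, 124, 5, 25, [.N 3, .N 3]⟩,
  ⟨38, 124, 6, 21, [.N 1]⟩,
  ⟨39, 126, 4, 32, [.N 7, .N 2, .N 1]⟩,
  ⟨39, 127, 4, 32, [.N 9]⟩,
  ⟨41, 129, 5, 26, [.N 7]⟩,
  ⟨41, 130, 4, 33, [.N 9, .N 1]⟩,
  ⟨43, 132, 5, 27, [.N 7, .N 1]⟩,
  ⟨43, 133, 5, 27, [.N 2, .N 2, .M 37 [(0, [(760, 0), (73, 20), (7, 22)]), (37, [(723, 0), (70, 19), (6, 21)]), (74, [(686, 0), (66, 18), (7, 20)]), (111, [(649, 0), (63, 17), (7, 19)]), (148, [(612, 0), (60, 16), (6, 18)]), (185, [(575, 0), (56, 15), (7, 17)]), (222, [(538, 0), (52, 14), (4, 15), (4, 16)]), (259, [(501, 0), (48, 13), (4, 14)]), (296, [(464, 0), (44, 12), (4, 13)]), (333, [(427, 0), (40, 11), (4, 12)]), (370, [(390, 0), (36, 10), (4, 11)]), (407, [(353, 0), (32, 9), (4, 10)]), (444, [(316, 0), (28, 8), (4, 9)]), (481, [(279, 0), (24, 7), (4, 8)]), (518, [(242, 0), (20, 6), (4, 7)]), (555, [(205, 0), (18,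 5), (2, 6)]), (592, [(168, 0), (16, 4)]), (629, [(131, 0), (12, 3)]), (666, [(94, 0), (8, 2)]), (703, [(57, 0), (4, 1)]), (740, [(20, 0)])], .N 1]⟩,
  ⟨45, 135, 4, 34, [.N 11]⟩,
  ⟨45, 136, 5, 28, [.N 2, .M 31 [(0, [(729, 0), (42, 23), (2, 24)]), (31, [(698, 0), (40, 22), (2, 23)]), (62, [(667, 0), (38, 21), (2, 22)]), (93, [(636, 0), (36, 20), (2, 21)]), (124, [(605, 0), (34, 19), (2, 20)]), (155, [(574, 0), (32, 18), (2, 19)]), (186, [(543, 0), (30, 17), (2, 18)]), (217, [(512, 0), (28, 16), (2, 17)]), (248, [(481, 0), (26, 15), (2, 16)]), (279, [(450, 0), (24, 14), (2, 15)]), (310, [(419, 0), (22, 13), (2, 14)]), (341, [(388, 0), (21, 12), (1, 13)]), (372, [(357, 0), (20, 11), (1, 12)]), (403, [(326, 0), (18, 10), (2, 11)]), (434, [(295, 0), (16, 9), (2, 10)]), (465, [(264, 0), (14, 8)]), (496, [(233, 0), (12, 7)]), (527, [(202, 0), (10,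 6)]), (558, [(171, 0), (8, 5)]), (589, [(140, 0), (6, 4)]), (620, [(109, 0), (4, 3)]), (651, [(78, 0), (2, 2)]), (682, [(47, 0), (1, 1)]), (713, [(16, 0)])], .N 1, .N 2, .M 42 [(0, [(840, 0), (57, 20), (3, 21)]), (42, [(798, 0), (54, 19), (3, 20)]), (84, [(756, 0), (51, 18), (3, 19)]), (126, [(714, 0), (48, 17), (3, 18)]), (168, [(672, 0), (45, 16), (3, 17)]), (210, [(630, 0), (43, 15), (2, 16)]), (252, [(588, 0), (42, 14), (1, 15)]), (294, [(546, 0), (39, 13)]), (336, [(504, 0), (37, 12)]), (378, [(462, 0), (33, 11)]), (420, [(420, 0), (30, 10)]), (462, [(378, 0), (27, 9)]), (504, [(336, 0), (24, 8)]), (546, [(294, 0), (21, 7)]), (588, [(252, 0), (18, 6)]), (630, [(210, 0), (15, 5)]), (672, [(168, 0), (12, 4)]), (714, [(126, 0), (9, 3)]), (756, [(84, 0), (6, 2)]), (798, [(42, 0), (3, 1)])]]⟩,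
  ⟨46, 138, 6, 24, [.N 3, .N 2]⟩,
  ⟨47, 140, 6, 24, [.N 5]⟩,
  ⟨48, 140, 6, 24, [.N 3, .M 45 [(0, [(900, 0), (54, 20), (3, 21)]), (45, [(855, 0), (51, 19), (3, 20)]), (90, [(810, 0), (48, 18), (3, 19)]), (135, [(765, 0), (45, 17), (3, 18)]), (180, [(720, 0), (42, 16)]), (225, [(675, 0), (39, 15)]), (270, [(630, 0), (36, 14)]), (315, [(585, 0), (33, 12)]), (360, [(540, 0), (33, 12)]), (405, [(495, 0), (30, 11)]), (450, [(450, 0), (27, 10)]), (495, [(405, 0), (24, 9)]), (540, [(360, 0), (21, 8)]), (585, [(315, 0), (18, 7)]), (630, [(270, 0), (15, 6)]), (675, [(225, 0), (12, 5)]), (720, [(180, 0), (9, 4)]), (765, [(135, 0), (6, 3)]), (810, [(90, 0), (3, 1)]), (855, [(45, 0), (3, 1)])]]⟩,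
  ⟨48, 141, 6, 24, [.N 3, .N 3]⟩,
  ⟨49, 141, 6, 24, [.N 6]⟩,
  ⟨49, 142, 7, 21, []⟩]

/-- cases treated by germs -/
def exc_20_1 : List (ℕ × ℕ) := [(34, 118), (47, 139)]

theorem tab_20_1 : tabM 20 exc_20_1 cert_20_1 21 29 108 = true := by decide +kernel

/-- certificates for `m = 20`, `50 ≤ r < 72` -/
def cert_20_2 : List Cert := [
  ⟨50, 143, 6, 24, [.N 3, .N 2, .N 2]⟩,
  ⟨50, 144, 6, 25, [.N 3, .N 4]⟩,
  ⟨51, 144, 7, 21, [.N 1]⟩,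
  ⟨51, 145, 7, 21, [.N 1]⟩,
  ⟨52, 146, 6, 25, [.N 3, .M 45 [(0, [(939, 0), (54, 20), (6, 22)]), (45, [(894, 0), (51, 19), (6, 21)]), (90, [(849, 0), (48, 18), (3, 19), (3, 20)]), (135, [(804, 0), (45, 17), (3, 18)]), (180, [(759, 0), (42, 16), (3, 17)]), (225, [(714, 0), (39, 15), (3, 16)]), (270, [(669, 0), (36, 14), (3, 15)]), (315, [(624, 0), (33, 12), (3, 14)]), (360, [(579, 0), (33, 12)]), (405, [(534, 0), (30, 11), (3, 12)]), (450, [(489, 0), (27, 10), (3, 11)]), (495, [(444, 0), (24, 9), (3, 10)]), (540, [(399, 0), (21, 8), (3, 9)]), (585, [(354, 0), (18, 7), (3, 8)]), (630, [(309, 0), (15, 6), (3, 7)]), (675, [(264, 0), (12, 5), (3, 6)]), (720, [(219, 0), (9, 4), (3, 5)]), (765, [(174, 0), (6, 3), (3, 4)]), (810, [(129, 0), (3, 1)]), (855, [(84, 0), (3, 1)]), (900, [(39, 0)])], .N 2]⟩,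
  ⟨52, 147, 5, 30, [.N 11]⟩,
  ⟨54, 149, 6, 25, [.N 3, .M 45 [(0, [(957, 0), (57, 21), (3, 22)]), (45, [(912, 0), (54, 20), (3, 21)]), (90, [(867, 0), (51, 18), (3, 20)]), (135, [(822, 0), (51, 18)]), (180, [(777, 0), (48, 17), (3, 18)]), (225, [(732, 0), (45, 16), (3, 17)]), (270, [(687, 0), (42, 15), (3, 16)]), (315, [(642, 0), (39, 14), (3, 15)]), (360, [(597, 0), (36, 13), (3, 14)]), (405, [(552, 0), (33, 12), (3, 13)]), (450, [(507, 0), (30, 11)]), (495, [(462, 0), (27, 10)]), (540, [(417, 0), (24, 9)]), (585, [(372, 0), (21, 8)]), (630, [(327, 0), (18, 6)]), (675, [(282, 0), (18, 6)]), (720, [(237, 0), (15, 5)]), (765, [(192, 0), (12, 4)]), (810, [(147, 0), (9, 3)]), (855, [(102, 0), (6, 2)]), (900, [(57, 0), (3, 1)]), (945, [(12, 0)])], .N 3]⟩,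
  ⟨54, 150, 6, 26, [.N 8]⟩,
  ⟨56, 151, 6, 26, [.N 9]⟩,
  ⟨56, 152, 3, 51, [.N 2, .N 14]⟩,
  ⟨58, 154, 6, 26, [.N 9, .N 1]⟩,
  ⟨58, 155, 5, 32, [.N 13]⟩,
  ⟨60, 157, 6, 27, [.N 4, .N 1, .M 50 [(0, [(1059, 0), (72, 21), (4, 22)]), (50, [(1009, 0), (68, 20), (4, 21)]), (100, [(959, 0), (64, 19), (4, 20)]), (150, [(909, 0), (60, 18), (4, 19)]), (200, [(859, 0), (57, 17), (3, 18)]), (250, [(809, 0), (56, 16), (1, 17)]), (300, [(759, 0), (52, 15), (4, 16)]), (350, [(709, 0), (48, 14), (4, 15)]), (400, [(659, 0), (44, 13), (4, 14)]), (450, [(609, 0), (41, 12), (3, 13)]), (500, [(559, 0), (37, 11)]), (550, [(509, 0), (33, 10)]), (600, [(459, 0), (29, 9)]), (650, [(409, 0), (26, 8)]), (700, [(359, 0), (25, 7)]), (750, [(309, 0), (21, 6)]), (800, [(259, 0), (17, 5)]), (850, [(209, 0), (13, 4)]), (900, [(159, 0), (9, 3)]), (950, [(109, 0), (5, 2)]), (1000,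 [(59, 0), (1, 1)]), (1050, [(9, 0)])], .N 3]⟩,
  ⟨60, 158, 7, 23, [.N 5]⟩,
  ⟨62, 159, 7, 23, [.N 6]⟩,
  ⟨62, 160, 4, 41, [.N 15, .N 1]⟩,
  ⟨63, 161, 7, 24, [.N 2, .N 2, .N 3]⟩,
  ⟨63, 162, 7, 24, [.N 7]⟩,
  ⟨64, 162, 7, 24, [.N 7]⟩,
  ⟨64, 163, 8, 21, []⟩,
  ⟨65, 163, 6, 28, [.N 10, .N 3]⟩,
  ⟨65, 164, 7, 24, [.N 3, .M 60 [(0, [(1203, 0), (94, 20), (5, 21)]), (60, [(1143, 0), (89, 19), (5, 20)]), (120, [(1083, 0), (86, 18), (3, 19)]), (180, [(1023, 0), (82, 17), (4, 18)]), (240, [(963, 0), (77, 16), (5, 17)]), (300, [(903, 0), (72, 15), (5, 16)]), (360, [(843, 0), (67, 14), (5, 15)]), (420, [(783, 0), (62, 13), (5, 14)]), (480, [(723, 0), (57, 12), (5, 13)]), (540, [(663, 0), (52, 11)]), (600, [(603, 0), (47, 10)]), (660, [(543, 0), (42, 9)]), (720, [(483, 0), (37, 8)]), (780, [(423, 0), (32, 7)]), (840, [(363, 0), (27, 6)]), (900, [(303, 0),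 (22, 5)]), (960, [(243, 0), (17, 4)]), (1020, [(183, 0), (13, 3)]), (1080, [(123, 0), (10, 2)]), (1140, [(63, 0), (5, 1)]), (1200, [(3, 0)])]]⟩,
  ⟨66, 164, 7, 24, [.N 8]⟩,
  ⟨66, 165, 8, 21, [.N 1]⟩,
  ⟨67, 166, 7, 24, [.N 1, .N 3, .N 3, .N 2]⟩,
  ⟨67, 167, 6, 28, [.N 13]⟩,
  ⟨69, 168, 6, 29, [.N 13, .N 1]⟩,
  ⟨69, 169, 7, 25, [.N 5, .M 60 [(0, [(1287, 0), (9, 17)]), (60, [(1225, 0), (10, 16)]), (120, [(1165, 0), (9, 15)]), (180, [(1105, 0), (8, 14)]), (240, [(1045, 0), (8, 14)]), (300, [(985, 0), (8, 14)]), (360, [(925, 0), (8, 14)]), (420, [(865, 0), (8, 14)]), (480, [(805, 0), (7, 13)]), (540, [(745, 0), (6, 12)]), (600, [(685, 0), (5, 11)]), (660, [(625, 0), (4, 10)]), (720, [(565, 0), (3, 4)]), (780, [(505, 0), (3, 4)]), (840, [(445, 0), (3, 4)]), (900, [(385, 0), (3, 4)]), (960, [(325, 0), (3, 4)]), (1020, [(265, 0), (3, 4)]), (1080,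 [(205, 0), (2, 3)]), (1140, [(145, 0), (1, 2)]), (1200, [(85, 0)]), (1260, [(25, 0)])], .N 4]⟩,
  ⟨71, 171, 7, 25, [.N 1, .N 4, .M 64 [(0, [(1299, 0), (95, 20), (1, 21)]), (64, [(1235, 0), (90, 19), (5, 20)]), (128, [(1171, 0), (85, 18), (5, 19)]), (192, [(1107, 0), (80, 17), (5, 18)]), (256, [(1043, 0), (75, 16), (5, 17)]), (320, [(979, 0), (70, 15), (5, 16)]), (384, [(915, 0), (65, 14), (5, 15)]), (448, [(851, 0), (60, 13), (5, 14)]), (512, [(787, 0), (55, 12), (5, 13)]), (576, [(723, 0), (50, 11), (5, 12)]), (640, [(659, 0), (45, 10), (5, 11)]), (704, [(595, 0), (41, 9)]), (768, [(531, 0), (37, 8)]), (832, [(467, 0), (35, 7)]), (896, [(403, 0), (30, 6)]), (960, [(339, 0), (25, 5)]), (1024, [(275, 0), (20, 4)]), (1088, [(211, 0), (15, 3)]), (1152, [(147, 0), (10, 2)]), (1216, [(83, 0), (5, 1)]), (1280, [(19, 0)])], .N 1]⟩,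
  ⟨71, 172, 7, 25, [.N 10]⟩]

/-- cases treated by germs -/
def exc_20_2 : List (ℕ × ℕ) := []

theorem tab_20_2 : tabM 20 exc_20_2 cert_20_2 22 50 143 = true := by decide +kernel

/-- certificates for `m = 20`, `72 ≤ r < 99` -/
def cert_20_3 : List Cert := [
  ⟨73, 173, 7, 25, [.N 10, .N 1]⟩,
  ⟨73, 174, 7, 25, [.N 10, .N 1]⟩,
  ⟨75, 175, 8, 22, [.N 5]⟩,
  ⟨75, 176, 7, 26, [.N 4, .N 2, .N 1, .M 68 [(0, [(1383, 0), (92, 20), (5, 21)]), (68, [(1315, 0), (87, 19), (5, 20)]), (136, [(1247, 0), (82, 18), (5, 19)]), (204, [(1179, 0), (77, 17), (5, 18)]), (272, [(1111, 0), (72, 16), (5, 17)]), (340, [(1043, 0), (67, 15), (5, 16)]), (408, [(975, 0), (62, 14), (5, 15)]), (476, [(907, 0), (57, 13), (5, 14)]), (544, [(839, 0), (52, 12), (5, 13)]), (612, [(771, 0), (47, 11), (5, 12)]), (680, [(703, 0), (45, 10), (2, 11)]), (748, [(635, 0), (42, 9)]), (816,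 [(567, 0), (37, 8)]), (884, [(499, 0), (32, 7)]), (952, [(431, 0), (27, 6)]), (1020, [(363, 0), (22, 5)]), (1088, [(295, 0), (17, 4)]), (1156, [(227, 0), (12, 3)]), (1224, [(159, 0), (7, 2)]), (1292, [(91, 0), (2, 1)]), (1360, [(23, 0)])], .N 1]⟩,
  ⟨77, 178, 7, 26, [.N 2, .N 10, .N 1]⟩,
  ⟨77, 179, 8, 23, [.N 6]⟩,
  ⟨79, 180, 8, 23, [.N 7]⟩,
  ⟨79, 181, 7, 26, [.N 1, .N 10, .N 3]⟩,
  ⟨81, 182, 8, 23, [.N 8]⟩,
  ⟨81, 183, 9, 21, []⟩,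
  ⟨82, 184, 8, 24, [.N 2, .M 72 [(0, [(1497, 0), (79, 20), (4, 21)]), (72, [(1425, 0), (75, 19), (4, 20)]), (144, [(1353, 0), (71, 18), (4, 19)]), (216, [(1281, 0), (67, 17), (4, 18)]), (288, [(1209, 0), (63, 16), (4, 17)]), (360, [(1137, 0), (59, 15), (4, 16)]), (432, [(1065, 0), (55, 14), (4, 15)]), (504, [(993, 0), (51, 13), (4, 14)]), (576, [(921, 0), (47, 12), (4, 13)]), (648, [(849, 0), (43, 11), (4, 12)]), (720, [(777, 0), (39, 10), (4, 11)]), (792, [(705, 0), (35, 9), (4, 10)]), (864, [(633, 0), (31, 8), (4, 9)]), (936, [(561, 0), (27, 7), (4, 8)]), (1008, [(489, 0), (23, 6), (4, 7)]), (1080, [(417, 0), (19, 5), (4, 6)]), (1152, [(345, 0), (15, 4), (4, 5)]), (1224, [(273, 0), (11, 3)]), (1296, [(201, 0), (7, 2)]), (1368, [(129, 0), (3, 1)]), (1440, [(57, 0)])], .N 3]⟩,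
  ⟨82, 185, 8, 24, [.N 9]⟩,
  ⟨83, 185, 4, 47, [.N 20, .N 1]⟩,
  ⟨83, 186, 8, 24, [.N 9]⟩,
  ⟨84, 186, 8, 24, [.N 3, .N 3, .N 4]⟩,
  ⟨84, 187, 7, 27, [.N 15]⟩,
  ⟨85, 187, 9, 21, [.N 2]⟩,
  ⟨86, 188, 6, 32, [.N 19, .N 1]⟩,
  ⟨86, 189, 8, 24, [.N 4, .N 7]⟩,
  ⟨88, 190, 8, 24, [.N 11]⟩,
  ⟨88, 191, 8, 24, [.N 6, .M 82 [(0, [(1646, 0), (108, 20), (6, 21)]), (82, [(1564, 0), (102, 19), (6, 20)]), (164, [(1482, 0), (96, 18), (6, 19)]), (246, [(1400, 0), (90, 17), (6, 18)]), (328, [(1318, 0), (88, 16), (2, 17)]), (410, [(1236, 0), (84, 15), (4, 16)]), (492, [(1154, 0), (78, 14), (6, 15)]), (574, [(1072, 0), (72, 13)]), (656, [(990, 0), (66, 12)]), (738, [(908, 0), (60, 11)]), (820, [(826, 0), (54, 10)]), (902, [(744, 0), (48, 9)]), (984, [(662, 0), (42, 8)]), (1066, [(580, 0), (36, 7)]), (1148, [(498, 0), (30, 5)]), (1230, [(416, 0), (30, 5)]), (1312,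 [(334, 0), (24, 4)]), (1394, [(252, 0), (18, 3)]), (1476, [(170, 0), (12, 2)]), (1558, [(88, 0), (6, 1)]), (1640, [(6, 0)])]]⟩,
  ⟨90, 192, 8, 25, [.N 12]⟩,
  ⟨90, 193, 8, 25, [.N 4, .N 2, .M 83 [(0, [(1663, 0), (131, 20), (7, 21)]), (83, [(1580, 0), (124, 19), (7, 20)]), (166, [(1497, 0), (117, 18), (7, 19)]), (249, [(1414, 0), (110, 17), (7, 18)]), (332, [(1331, 0), (103, 16), (7, 17)]), (415, [(1248, 0), (96, 15), (7, 16)]), (498, [(1165, 0), (89, 14), (7, 15)]), (581, [(1082, 0), (84, 13), (5, 14)]), (664, [(999, 0), (81, 12), (3, 13)]), (747, [(916, 0), (74, 11)]), (830, [(833, 0), (67, 10)]), (913, [(750, 0), (60, 9)]), (996, [(667, 0), (53, 8)]), (1079, [(584, 0), (46, 7)]), (1162, [(501, 0), (39, 6)]), (1245, [(418, 0), (32, 5)]), (1328, [(335, 0), (25, 4)]), (1411, [(252, 0), (18, 3)]), (1494, [(169, 0), (11, 2)]), (1577, [(86, 0),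 (4, 1)]), (1660, [(3, 0)])]]⟩,
  ⟨92, 195, 4, 49, [.N 1, .N 2, .N 22, .N 2]⟩,
  ⟨92, 196, 9, 22, [.N 5]⟩,
  ⟨94, 197, 5, 40, [.N 23, .N 1]⟩,
  ⟨94, 198, 9, 23, [.N 6]⟩,
  ⟨96, 199, 5, 40, [.N 23, .N 2]⟩,
  ⟨96, 200, 9, 23, [.N 7]⟩,
  ⟨98, 201, 8, 26, [.N 11, .N 5]⟩,
  ⟨98, 202, 9, 23, [.N 8]⟩]

/-- cases treated by germs -/
def exc_20_3 : List (ℕ × ℕ) := []

theorem tab_20_3 : tabM 20 exc_20_3 cert_20_3 27 72 172 = true := by decide +kernel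

/-- certificates for `m = 20`, `99 ≤ r < 128` -/
def cert_20_4 : List Cert := [
  ⟨100, 203, 9, 23, [.N 9]⟩,
  ⟨100, 204, 10, 21, []⟩,
  ⟨102, 205, 9, 23, [.N 10]⟩,
  ⟨102, 206, 9, 23, [.N 10]⟩,
  ⟨103, 207, 9, 24, [.N 6, .N 5]⟩,
  ⟨104, 207, 10, 21, [.N 2]⟩,
  ⟨104, 208, 10, 21, [.N 2]⟩,
  ⟨105, 208, 8, 27, [.N 14, .N 5]⟩,
  ⟨105, 209, 9, 24, [.N 7, .N 5]⟩,
  ⟨107, 210, 9, 24, [.N 4, .N 5, .N 4]⟩,
  ⟨107, 211, 9, 24, [.N 12]⟩,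
  ⟨109, 212, 7, 31, [.N 22, .N 3]⟩,
  ⟨109, 213, 9, 24, [.N 13]⟩,
  ⟨111, 214, 6, 36, [.N 26, .N 2]⟩,
  ⟨111, 215, 10, 22, [.N 5]⟩,
  ⟨113, 216, 7, 31, [.N 24, .N 2]⟩,
  ⟨113, 217, 10, 22, [.N 6]⟩,
  ⟨115, 218, 8, 28, [.N 9, .N 12, .N 3]⟩,
  ⟨115, 219, 10, 22, [.N 7]⟩,
  ⟨117, 220, 4, 56, [.N 25, .N 1, .N 5]⟩,
  ⟨117, 221, 10, 23, [.N 8]⟩,
  ⟨119, 222, 9, 25, [.N 5, .M 95 [(0, [(2091, 0), (78, 22)]), (95, [(1996, 0), (77, 21)]), (190, [(1901, 0), (75, 20)]), (285, [(1806, 0), (71, 19)]), (380, [(1711, 0), (67, 18)]), (475, [(1616, 0), (63, 17)]), (570, [(1521, 0), (59, 16)]), (665, [(1426, 0), (55, 15)]), (760, [(1331, 0), (51, 14)]), (855, [(1236, 0), (47, 13)]), (950, [(1141, 0), (43, 12)]), (1045, [(1046, 0), (39, 11)]), (1140, [(951, 0), (35, 10)]), (1235, [(856, 0), (31, 9)]), (1330, [(761, 0), (27, 8)]), (1425, [(666, 0), (23, 7)]), (1520,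 [(571, 0), (19, 6)]), (1615, [(476, 0), (18, 5)]), (1710, [(381, 0), (16, 4)]), (1805, [(286, 0), (12, 3)]), (1900, [(191, 0), (8, 2)]), (1995, [(96, 0), (4, 1)]), (2090, [(1, 0)])], .N 6, .N 4]⟩,
  ⟨119, 223, 10, 23, [.N 9]⟩,
  ⟨121, 223, 10, 23, [.N 10]⟩,
  ⟨121, 224, 11, 21, []⟩,
  ⟨123, 225, 10, 23, [.N 11]⟩,
  ⟨123, 226, 11, 21, [.N 1]⟩,
  ⟨125, 227, 11, 21, [.N 2]⟩,
  ⟨125, 228, 11, 21, [.N 2]⟩,
  ⟨127, 229, 11, 21, [.N 3]⟩]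

/-- cases treated by germs -/
def exc_20_4 : List (ℕ × ℕ) := []

theorem tab_20_4 : tabM 20 exc_20_4 cert_20_4 29 99 202 = true := by decide +kernel

/-- certificates for `m = 20`, `128 ≤ r < 160` -/
def cert_20_5 : List Cert := [
  ⟨128, 230, 10, 24, [.N 3, .N 8, .N 3]⟩,
  ⟨128, 231, 10, 24, [.N 13]⟩,
  ⟨130, 232, 10, 24, [.N 4, .M 115 [(0, [(2377, 0), (136, 20), (4, 21)]), (115, [(2262, 0), (129, 19), (7, 20)]), (230, [(2147, 0), (122, 18), (7, 19)]), (345, [(2032, 0), (115, 17), (7, 18)]), (460, [(1917, 0), (108, 16), (7, 17)]), (575, [(1802, 0), (101, 15), (7, 16)]), (690, [(1687, 0), (94, 14), (7, 15)]), (805, [(1572, 0), (87, 13), (7, 14)]), (920, [(1457, 0), (80, 12), (7, 13)]), (1035, [(1342, 0), (73, 11), (7, 12)]), (1150, [(1227, 0), (66, 10), (7, 11)]), (1265, [(1112, 0), (59, 9), (7, 10)]), (1380, [(997, 0), (52, 8), (7, 9)]), (1495,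 [(882, 0), (45, 7), (7, 8)]), (1610, [(767, 0), (38, 6), (7, 7)]), (1725, [(652, 0), (31, 5)]), (1840, [(537, 0), (24, 4)]), (1955, [(422, 0), (17, 3)]), (2070, [(307, 0), (10, 2)]), (2185, [(192, 0), (5, 1)]), (2300, [(77, 0)])], .N 4]⟩,
  ⟨130, 233, 11, 22, [.N 4]⟩,
  ⟨132, 233, 10, 24, [.N 15]⟩,
  ⟨132, 234, 10, 24, [.N 5, .M 115 [(0, [(2420, 0), (95, 20)]), (115, [(2305, 0), (95, 20)]), (230, [(2190, 0), (90, 19)]), (345, [(2075, 0), (85, 18)]), (460, [(1960, 0), (80, 17)]), (575, [(1845, 0), (75, 16)]), (690, [(1730, 0), (70, 15)]), (805, [(1615, 0), (65, 14)]), (920, [(1500, 0), (60, 13)]), (1035, [(1385, 0), (55, 12)]), (1150, [(1270, 0), (50, 11)]), (1265, [(1155, 0), (45, 10)]), (1380, [(1040, 0), (40, 9)]), (1495, [(925, 0), (35, 8)]), (1610, [(810, 0), (30, 7)]), (1725, [(695, 0), (25, 6)]), (1840, [(580, 0), (20, 5)]), (1955, [(465,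 0), (15, 4)]), (2070, [(350, 0), (10, 2)]), (2185, [(235, 0), (10, 2)]), (2300, [(120, 0), (5, 1)]), (2415, [(5, 0)])], .N 6]⟩,
  ⟨134, 235, 10, 24, [.N 15, .N 1]⟩,
  ⟨134, 236, 10, 24, [.N 8, .M 125 [(0, [(2509, 0), (164, 20), (9, 21)]), (125, [(2384, 0), (155, 19), (9, 20)]), (250, [(2259, 0), (146, 18), (9, 19)]), (375, [(2134, 0), (137, 17), (9, 18)]), (500, [(2009, 0), (128, 16), (9, 17)]), (625, [(1884, 0), (124, 15), (4, 16)]), (750, [(1759, 0), (118, 14), (6, 15)]), (875, [(1634, 0), (109, 13)]), (1000, [(1509, 0), (100, 12)]), (1125, [(1384, 0), (91, 11)]), (1250, [(1259, 0), (82, 10)]), (1375, [(1134, 0), (73, 9)]), (1500, [(1009, 0), (64, 8)]), (1625, [(884, 0), (55, 7)]), (1750, [(759, 0), (46, 6)]), (1875, [(634, 0), (37, 5)]), (2000, [(509, 0), (28, 4)]), (2125, [(384, 0), (23, 3)]), (2250, [(259, 0), (18, 2)]), (2375, [(134, 0),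 (9, 1)]), (2500, [(9, 0)])]]⟩,
  ⟨136, 237, 10, 24, [.N 14, .N 3]⟩,
  ⟨136, 238, 11, 22, [.N 7]⟩,
  ⟨138, 239, 6, 40, [.N 33, .N 3]⟩,
  ⟨138, 240, 11, 22, [.N 8]⟩,
  ⟨140, 240, 11, 22, [.N 9]⟩,
  ⟨140, 241, 10, 25, [.N 7, .N 2, .M 127 [(0, [(2583, 0), (168, 20), (9, 21)]), (127, [(2456, 0), (159, 19), (9, 20)]), (254, [(2329, 0), (150, 18), (9, 19)]), (381, [(2202, 0), (141, 17), (9, 18)]), (508, [(2075, 0), (132, 16), (9, 17)]), (635, [(1948, 0), (123, 15), (9, 16)]), (762, [(1821, 0), (114, 14), (9, 15)]), (889, [(1694, 0), (105, 13), (9, 14)]), (1016, [(1567, 0), (96, 12), (9, 13)]), (1143, [(1440, 0), (87, 11), (9, 12)]), (1270, [(1313, 0), (84, 10), (3, 11)]), (1397, [(1186, 0), (78, 9)]), (1524, [(1059, 0), (69, 8)]), (1651, [(932, 0), (60, 7)]), (1778, [(805, 0), (51, 6)]), (1905, [(678, 0), (42, 5)]), (2032, [(551, 0), (33, 4)]), (2159,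 [(424, 0), (24, 3)]), (2286, [(297, 0), (15, 2)]), (2413, [(170, 0), (6, 1)]), (2540, [(43, 0)])], .N 2]⟩,
  ⟨142, 242, 11, 23, [.N 10]⟩,
  ⟨142, 243, 10, 25, [.N 9, .M 128 [(0, [(2611, 0), (182, 20), (7, 21)]), (128, [(2483, 0), (172, 19), (10, 20)]), (256, [(2355, 0), (162, 18), (10, 19)]), (384, [(2227, 0), (152, 17), (10, 18)]), (512, [(2099, 0), (142, 16), (10, 17)]), (640, [(1971, 0), (132, 15), (10, 16)]), (768, [(1843, 0), (122, 14), (10, 15)]), (896, [(1715, 0), (112, 13), (10, 14)]), (1024, [(1587, 0), (102, 12), (10, 13)]), (1152, [(1459, 0), (92, 11), (10, 12)]), (1280, [(1331, 0), (87, 10), (5, 11)]), (1408, [(1203, 0), (81, 9), (6, 10)]), (1536, [(1075, 0), (71, 8)]), (1664, [(947, 0), (61, 7)]), (1792, [(819, 0), (51, 6)]), (1920, [(691, 0), (41, 5)]), (2048, [(563, 0), (31, 4)]), (2176, [(435, 0), (21, 3)]), (2304, [(307, 0),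 (11, 2)]), (2432, [(179, 0), (2, 1)]), (2560, [(51, 0)])], .N 2]⟩,
  ⟨144, 244, 11, 23, [.N 11]⟩,
  ⟨144, 245, 12, 21, []⟩,
  ⟨146, 246, 6, 42, [.N 35, .N 3]⟩,
  ⟨146, 247, 12, 21, [.N 1]⟩,
  ⟨148, 247, 11, 23, [.N 13]⟩,
  ⟨148, 248, 12, 21, [.N 2]⟩,
  ⟨150, 249, 12, 21, [.N 3]⟩,
  ⟨150, 250, 12, 21, [.N 3]⟩,
  ⟨155, 253, 11, 24, [.N 16]⟩,
  ⟨155, 254, 11, 24, [.N 6, .M 144 [(0, [(2885, 0), (211, 20), (11, 21)]), (144, [(2741, 0), (200, 19), (11, 20)]), (288, [(2597, 0), (189, 18), (11, 19)]), (432, [(2453, 0), (178, 17), (11, 18)]), (576, [(2309, 0), (167, 16), (11, 17)]), (720, [(2165, 0), (156, 15), (11, 16)]), (864, [(2021, 0), (149, 14), (7, 15)]), (1008, [(1877, 0), (140, 13), (9, 14)]), (1152, [(1733, 0), (129, 12)]), (1296, [(1589, 0), (118, 11)]), (1440, [(1445, 0), (107, 10)]), (1584, [(1301, 0), (96, 9)]), (1728, [(1157, 0), (85,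 8)]), (1872, [(1013, 0), (74, 7)]), (2016, [(869, 0), (63, 6)]), (2160, [(725, 0), (52, 5)]), (2304, [(581, 0), (41, 4)]), (2448, [(437, 0), (30, 3)]), (2592, [(293, 0), (19, 2)]), (2736, [(149, 0), (8, 1)]), (2880, [(5, 0)])]]⟩,
  ⟨157, 255, 7, 37, [.N 37, .N 3]⟩,
  ⟨157, 256, 12, 22, [.N 6]⟩,
  ⟨159, 256, 11, 24, [.N 18]⟩,
  ⟨159, 257, 11, 24, [.N 5, .M 138 [(0, [(2898, 0), (142, 21), (7, 22)]), (138, [(2760, 0), (135, 20)]), (276, [(2622, 0), (128, 19)]), (414, [(2484, 0), (121, 18)]), (552, [(2346, 0), (114, 17)]), (690, [(2208, 0), (107, 16)]), (828, [(2070, 0), (100, 15)]), (966, [(1932, 0), (93, 14)]), (1104, [(1794, 0), (86, 13)]), (1242, [(1656, 0), (79, 12)]), (1380, [(1518, 0), (72, 11)]), (1518, [(1380, 0), (65, 10)]), (1656, [(1242, 0), (58, 9)]), (1794, [(1104, 0), (51, 8)]), (1932, [(966, 0), (44, 7)]), (2070, [(828, 0), (37,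 6)]), (2208, [(690, 0), (30, 5)]), (2346, [(552, 0), (23, 4)]), (2484, [(414, 0), (16, 3)]), (2622, [(276, 0), (14, 2)]), (2760, [(138, 0), (7, 1)])], .N 7]⟩]

/-- cases treated by germs -/
def exc_20_5 : List (ℕ × ℕ) := []

theorem tab_20_5 : tabM 20 exc_20_5 cert_20_5 32 128 230 = true := by decide +kernel

end Pool.Agent.Helper22.E6L
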