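import Pool.Agent.Helper22.E6L.Tab
import Pool.Agent.Helper22.E6L.T01

set_option autoImplicit false

/-! # Tables of certificates, `m = 20 … 20`, `r < (m + 3) ^ 2` (helper22), MP_e6aa12_ag -/

namespace Pool.Agent.Helper22.E6L

open Pool.Agent.Helper22.E6

/-- certificates for `m = 20`, `160 ≤ r < 197` -/
def cert_20_6 : List Cert := [
  ⟨161, 258, 11, 24, [.N 15, .N 4]⟩,
  ⟨161, 259, 12, 22, [.N 7, .N 1]⟩,
  ⟨163, 260, 11, 24, [.N 8, .M 144 [(0, [(3000, 0), (124, 20), (7, 21)]), (144, [(2856, 0), (119, 19), (5, 20)]), (288, [(2712, 0), (118, 18), (1, 19)]), (432, [(2568, 0), (111, 17), (7, 18)]), (576, [(2424, 0), (104, 16), (7, 17)]), (720, [(2280, 0), (97, 15), (7, 16)]), (864, [(2136, 0), (90, 14), (7, 15)]), (1008, [(1992, 0), (83, 13), (7, 14)]), (1152, [(1848, 0), (76, 12), (7, 13)]), (1296, [(1704, 0), (69, 11), (7,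 12)]), (1440, [(1560, 0), (62, 10), (7, 11)]), (1584, [(1416, 0), (55, 9), (7, 10)]), (1728, [(1272, 0), (48, 8), (7, 9)]), (1872, [(1128, 0), (41, 7), (7, 8)]), (2016, [(984, 0), (34, 6), (7, 7)]), (2160, [(840, 0), (27, 5), (7, 6)]), (2304, [(696, 0), (24, 4), (3, 5)]), (2448, [(552, 0), (21, 3)]), (2592, [(408, 0), (14, 2)]), (2736, [(264, 0), (7, 1)]), (2880, [(120, 0)])], .N 6]⟩,
  ⟨163, 261, 12, 22, [.N 9]⟩,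
  ⟨165, 261, 12, 22, [.N 10]⟩,
  ⟨165, 262, 11, 24, [.N 11, .M 154 [(0, [(3091, 0), (198, 20), (11, 21)]), (154, [(2937, 0), (187, 19), (11, 20)]), (308, [(2783, 0), (176, 18), (11, 19)]), (462, [(2629, 0), (165, 17), (11, 18)]), (616, [(2475, 0), (154, 15), (11, 17)]), (770, [(2321, 0), (154, 15)]), (924, [(2167, 0), (143, 14), (11, 15)]), (1078, [(2013, 0), (132, 13)]), (1232, [(1859, 0), (121, 12)]), (1386, [(1705, 0), (110, 11)]), (1540, [(1551, 0), (99, 10)]), (1694, [(1397, 0), (88, 9)]), (1848, [(1243, 0), (77, 8)]), (2002, [(1089, 0), (66, 7)]), (2156, [(935, 0), (55, 6)]), (2310, [(781, 0), (44, 4)]), (2464, [(627, 0), (44, 4)]), (2618, [(473, 0), (33, 3)]), (2772, [(319, 0), (22, 2)]), (2926, [(165, 0), (11, 1)]), (3080, [(11, 0)])]]⟩,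
  ⟨167, 263, 11, 24, [.N 10, .M 150 [(0, [(3079, 0), (160, 20), (9, 21)]), (150, [(2929, 0), (151, 19), (9, 20)]), (300, [(2779, 0), (149, 18), (2, 19)]), (450, [(2629, 0), (143, 17), (6, 18)]), (600, [(2479, 0), (134, 16), (9, 17)]), (750, [(2329, 0), (125, 15), (9, 16)]), (900, [(2179, 0), (116, 14), (9, 15)]), (1050, [(2029, 0), (107, 13), (9, 14)]), (1200, [(1879, 0), (98, 12), (9, 13)]), (1350, [(1729, 0), (89, 11), (9, 12)]), (1500, [(1579, 0), (80, 10), (9, 11)]), (1650, [(1429, 0), (71, 9), (9, 10)]), (1800, [(1279, 0), (62, 8)]), (1950, [(1129, 0), (53, 7)]), (2100, [(979, 0), (50, 6)]), (2250, [(829, 0), (45, 5)]), (2400, [(679, 0), (36, 4)]), (2550, [(529, 0), (27, 3)]), (2700, [(379, 0), (18, 2)]), (2850, [(229, 0), (9, 1)]), (3000, [(79, 0)])], .N 4]⟩,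
  ⟨167, 264, 12, 23, [.N 11]⟩,
  ⟨169, 264, 12, 23, [.N 12]⟩,
  ⟨169, 265, 13, 21, []⟩,
  ⟨171, 266, 12, 23, [.N 13]⟩,
  ⟨171, 267, 12, 23, [.N 13]⟩,
  ⟨173, 269, 13, 21, [.N 2]⟩,
  ⟨175, 269, 13, 21, [.N 3]⟩,
  ⟨175, 270, 13, 21, [.N 3]⟩,
  ⟨177, 271, 13, 21, [.N 4]⟩,
  ⟨184, 276, 12, 24, [.N 17, .N 2]⟩,
  ⟨184, 277, 13, 22, [.N 4, .N 3]⟩,
  ⟨186, 278, 3, 93, [.N 11, .N 45, .N 3]⟩,
  ⟨186, 279, 13, 22, [.N 8]⟩,
  ⟨188, 279, 12, 24, [.N 17, .N 4]⟩,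
  ⟨188, 280, 13, 22, [.N 8, .N 1]⟩,
  ⟨190, 280, 13, 22, [.N 10]⟩,
  ⟨190, 281, 3, 94, [.N 11, .N 46, .N 3]⟩,
  ⟨192, 282, 12, 24, [.N 16, .N 7]⟩,
  ⟨192, 283, 13, 22, [.N 11]⟩,
  ⟨194, 283, 13, 22, [.N 12]⟩,
  ⟨194, 284, 5, 57, [.N 9, .N 47, .N 3]⟩,
  ⟨196, 285, 13, 22, [.N 13]⟩,
  ⟨196, 286, 14, 21, []⟩]

/-- cases treated by germs -/
def exc_20_6 : List (ℕ × ℕ) := [(173, 268)]

theorem tab_20_6 : tabM 20 exc_20_6 cert_20_6 37 160 257 = true := by decide +kernel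

/-- certificates for `m = 20`, `197 ≤ r < 236` -/
def cert_20_7 : List Cert := [
  ⟨198, 286, 12, 24, [.N 25]⟩,
  ⟨198, 287, 14, 21, [.N 1]⟩,
  ⟨200, 288, 13, 23, [.N 12, .N 3]⟩,
  ⟨200, 289, 14, 21, [.N 2]⟩,
  ⟨202, 289, 13, 23, [.N 16]⟩,
  ⟨202, 290, 14, 21, [.N 3]⟩,
  ⟨204, 291, 14, 21, [.N 4]⟩,
  ⟨204, 292, 14, 21, [.N 4]⟩,
  ⟨206, 292, 14, 21, [.N 5]⟩,
  ⟨215, 300, 14, 22, [.N 9]⟩,
  ⟨217, 300, 13, 24, [.N 6, .N 10, .N 8]⟩,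
  ⟨217, 301, 14, 22, [.N 10]⟩,
  ⟨219, 301, 14, 22, [.N 11]⟩,
  ⟨219, 302, 13, 24, [.N 10, .M 204 [(0, [(4091, 0), (280, 20), (15, 21)]), (204, [(3887, 0), (265, 19), (15, 20)]), (408, [(3683, 0), (250, 18), (15, 19)]), (612, [(3479, 0), (235, 17), (15, 18)]), (816, [(3275, 0), (220, 16), (15, 17)]), (1020, [(3071, 0), (205, 15), (15, 16)]), (1224, [(2867, 0), (193, 14), (12, 15)]), (1428, [(2663, 0), (185, 13)]), (1632, [(2459, 0), (170, 12)]), (1836, [(2255, 0), (155, 11)]), (2040, [(2051, 0), (140, 10)]), (2244, [(1847, 0), (125, 9)]), (2448, [(1643, 0), (110, 8)]), (2652, [(1439, 0), (95, 7)]), (2856, [(1235, 0), (80, 6)]), (3060, [(1031, 0), (65, 5)]), (3264, [(827, 0), (50, 4)]), (3468, [(623, 0), (35, 3)]), (3672, [(419, 0), (20, 2)]), (3876, [(215, 0), (5, 1)]), (4080, [(11, 0)])]]⟩,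
  ⟨221, 303, 5, 61, [.N 48, .N 4]⟩,
  ⟨221, 304, 14, 22, [.N 12]⟩,
  ⟨223, 304, 14, 22, [.N 13]⟩,
  ⟨223, 305, 14, 22, [.N 12, .N 1]⟩,
  ⟨225, 305, 13, 24, [.N 26]⟩,
  ⟨225, 306, 15, 21, []⟩,
  ⟨227, 307, 13, 24, [.N 14, .N 8, .N 6]⟩,
  ⟨227, 308, 15, 21, [.N 1]⟩,
  ⟨229, 308, 14, 23, [.N 16]⟩,
  ⟨229, 309, 15, 21, [.N 2]⟩,
  ⟨231, 309, 14, 23, [.N 17]⟩,
  ⟨231, 310, 15, 21, [.N 3]⟩,
  ⟨233, 311, 15, 21, [.N 4]⟩,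
  ⟨233, 312, 15, 21, [.N 4]⟩,
  ⟨235, 312, 15, 21, [.N 5]⟩,
  ⟨235, 313, 15, 21, [.N 5]⟩]

/-- cases treated by germs -/
def exc_20_7 : List (ℕ × ℕ) := [(215, 299)]

theorem tab_20_7 : tabM 20 exc_20_7 cert_20_7 39 197 286 = true := by decide +kernel

/-- certificates for `m = 20`, `236 ≤ r < 296` -/
def cert_20_8 : List Cert := [
  ⟨248, 322, 15, 22, [.N 11]⟩,
  ⟨250, 322, 15, 22, [.N 12]⟩,
  ⟨250, 323, 15, 22, [.N 11, .N 1]⟩,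
  ⟨252, 323, 15, 22, [.N 13]⟩,
  ⟨252, 324, 14, 24, [.N 11, .M 232 [(0, [(4707, 0), (263, 20), (14, 21)]), (232, [(4475, 0), (249, 19), (14, 20)]), (464, [(4243, 0), (235, 18), (14, 19)]), (696, [(4011, 0), (221, 17), (14, 18)]), (928, [(3779, 0), (207, 16), (14, 17)]), (1160, [(3547, 0), (193, 15), (14, 16)]), (1392, [(3315, 0), (179, 14), (14, 15)]), (1624, [(3083, 0), (169, 13), (10, 14)]), (1856, [(2851, 0), (162, 12)]), (2088, [(2619, 0), (148, 11)]), (2320, [(2387, 0), (134, 10)]), (2552, [(2155, 0), (120, 9)]), (2784, [(1923, 0), (106, 8)]), (3016, [(1691, 0), (92, 7)]), (3248, [(1459, 0), (78, 6)]), (3480, [(1227, 0), (64, 5)]), (3712, [(995, 0), (50, 4)]), (3944, [(763, 0), (36, 3)]), (4176, [(531, 0), (22, 2)]), (4408, [(299, 0), (8, 1)]), (4640, [(67, 0)])], .N 3]⟩,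
  ⟨254, 325, 4, 82, [.N 3, .N 51, .N 7]⟩,
  ⟨254, 326, 15, 22, [.N 14]⟩,
  ⟨256, 326, 15, 22, [.N 15]⟩,
  ⟨256, 327, 16, 21, []⟩,
  ⟨258, 327, 15, 22, [.N 16]⟩,
  ⟨258, 328, 16, 21, [.N 1]⟩,
  ⟨260, 328, 15, 22, [.N 17]⟩,
  ⟨260, 329, 16, 21, [.N 2]⟩,
  ⟨262, 330, 14, 24, [.N 12, .M 231 [(0, [(4819, 0), (196, 20), (11, 21)]), (231, [(4588, 0), (188, 19), (8, 20)]), (462, [(4357, 0), (186, 18), (2, 19)]), (693, [(4126, 0), (175, 17), (11, 18)]), (924, [(3895, 0), (164, 16), (11, 17)]), (1155, [(3664, 0), (153, 15), (11, 16)]), (1386, [(3433, 0), (142, 14), (11, 15)]), (1617, [(3202, 0), (131, 13), (11, 14)]), (1848, [(2971, 0), (120, 12), (11, 13)]), (2079, [(2740, 0), (109, 11), (11, 12)]), (2310, [(2509, 0), (98, 10), (11, 11)]), (2541, [(2278, 0), (87, 9), (11, 10)]), (2772, [(2047, 0), (76, 8), (11, 9)]), (3003, [(1816,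 0), (65, 7), (11, 8)]), (3234, [(1585, 0), (54, 6), (11, 7)]), (3465, [(1354, 0), (43, 5), (11, 6)]), (3696, [(1123, 0), (32, 4), (11, 5)]), (3927, [(892, 0), (30, 3)]), (4158, [(661, 0), (22, 2)]), (4389, [(430, 0), (11, 1)]), (4620, [(199, 0)])], .N 10]⟩,
  ⟨262, 331, 16, 21, [.N 3]⟩,
  ⟨264, 331, 15, 23, [.N 19]⟩,
  ⟨264, 332, 16, 21, [.N 4]⟩,
  ⟨266, 332, 15, 23, [.N 20]⟩,
  ⟨266, 333, 16, 21, [.N 5]⟩,
  ⟨268, 334, 16, 21, [.N 6]⟩,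
  ⟨285, 345, 16, 22, [.N 14]⟩,
  ⟨287, 345, 16, 22, [.N 15]⟩,
  ⟨287, 346, 16, 22, [.N 9, .N 6]⟩,
  ⟨289, 346, 15, 24, [.N 30]⟩,
  ⟨289, 347, 17, 21, []⟩,
  ⟨291, 348, 15, 24, [.N 9, .M 254 [(0, [(5337, 0), (213, 21)]), (254, [(5083, 0), (202, 20)]), (508, [(4829, 0), (200, 19)]), (762, [(4575, 0), (189, 18)]), (1016, [(4321, 0), (178, 17)]), (1270, [(4067, 0), (167, 16)]), (1524, [(3813, 0), (156, 15)]), (1778, [(3559, 0), (145, 14)]), (2032, [(3305, 0), (134, 13)]), (2286, [(3051, 0), (123, 12)]), (2540, [(2797, 0), (112, 11)]), (2794, [(2543, 0), (101, 10)]), (3048, [(2289, 0), (90, 9)]), (3302, [(2035, 0), (79, 8)]), (3556, [(1781, 0), (68, 7)]), (3810, [(1527, 0), (57, 6)]), (4064, [(1273, 0), (46, 5)]), (4318, [(1019, 0), (35, 4)]), (4572, [(765, 0), (24, 3)]), (4826, [(511, 0), (13, 2)]), (5080, [(257, 0), (3, 1)]),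 (5334, [(3, 0)])], .N 13]⟩,
  ⟨291, 349, 15, 24, [.N 31]⟩,
  ⟨293, 349, 16, 22, [.N 14, .N 4]⟩,
  ⟨293, 350, 16, 22, [.N 18]⟩,
  ⟨295, 350, 16, 22, [.N 19]⟩,
  ⟨295, 351, 16, 22, [.N 19]⟩]

/-- cases treated by germs -/
def exc_20_8 : List (ℕ × ℕ) := []

theorem tab_20_8 : tabM 20 exc_20_8 cert_20_8 60 236 313 = true := by decide +kernel

/-- certificates for `m = 20`, `296 ≤ r < 372` -/
def cert_20_9 : List Cert := [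
  ⟨297, 351, 16, 22, [.N 20]⟩,
  ⟨297, 352, 17, 21, [.N 4]⟩,
  ⟨299, 352, 16, 23, [.N 21]⟩,
  ⟨299, 353, 17, 21, [.N 5]⟩,
  ⟨301, 354, 17, 21, [.N 6]⟩,
  ⟨301, 355, 17, 21, [.N 6]⟩,
  ⟨303, 355, 17, 21, [.N 7]⟩,
  ⟨324, 368, 18, 21, []⟩,
  ⟨326, 368, 17, 22, [.N 18]⟩,
  ⟨326, 369, 17, 22, [.N 18]⟩,
  ⟨328, 369, 17, 22, [.N 19]⟩,
  ⟨328, 370, 18, 21, [.N 2]⟩,
  ⟨330, 370, 17, 22, [.N 20]⟩,
  ⟨330, 371, 18, 21, [.N 3]⟩,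
  ⟨332, 371, 16, 24, [.N 36]⟩,
  ⟨332, 372, 18, 21, [.N 4]⟩,
  ⟨334, 373, 2, 187, [.N 5, .N 60, .N 8]⟩,
  ⟨334, 374, 18, 21, [.N 5]⟩,
  ⟨336, 374, 18, 21, [.N 6]⟩,
  ⟨336, 375, 18, 21, [.N 6]⟩,
  ⟨338, 375, 18, 21, [.N 7]⟩,
  ⟨338, 376, 17, 23, [.N 24]⟩,
  ⟨340, 376, 18, 21, [.N 8]⟩,
  ⟨365, 391, 17, 24, [.N 36]⟩,
  ⟨367, 391, 17, 24, [.N 15, .M 335 [(0, [(6859, 0), (304, 20), (16, 21)]), (335, [(6524, 0), (288, 19), (16, 20)]), (670, [(6189, 0), (272, 18), (16, 19)]), (1005, [(5854, 0), (256, 17), (16, 18)]), (1340, [(5519, 0), (240, 16), (16, 17)]), (1675, [(5184, 0), (224, 15), (16, 16)]), (2010, [(4849, 0), (208, 14), (16, 15)]), (2345, [(4514, 0), (192, 13), (16, 14)]), (2680, [(4179, 0), (176, 12), (16, 13)]), (3015, [(3844, 0), (165, 11)]), (3350, [(3509, 0), (159, 10)]), (3685, [(3174, 0), (143, 9)]), (4020, [(2839,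 0), (127, 8)]), (4355, [(2504, 0), (111, 7)]), (4690, [(2169, 0), (95, 6)]), (5025, [(1834, 0), (79, 5)]), (5360, [(1499, 0), (63, 4)]), (5695, [(1164, 0), (47, 3)]), (6030, [(829, 0), (31, 2)]), (6365, [(494, 0), (15, 1)]), (6700, [(159, 0)])], .N 8]⟩,
  ⟨367, 392, 18, 22, [.N 21]⟩,
  ⟨369, 392, 5, 79, [.N 64, .N 10, .N 16]⟩,
  ⟨369, 393, 19, 21, [.N 4]⟩,
  ⟨371, 393, 18, 22, [.N 1, .N 13, .N 9]⟩,
  ⟨371, 394, 19, 21, [.N 5]⟩]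

/-- cases treated by germs -/
def exc_20_9 : List (ℕ × ℕ) := []

theorem tab_20_9 : tabM 20 exc_20_9 cert_20_9 76 296 351 = true := by decide +kernel

/-- certificates for `m = 20`, `372 ≤ r < 452` -/
def cert_20_10 : List Cert := [
  ⟨373, 394, 19, 21, [.N 6]⟩,
  ⟨373, 395, 19, 21, [.N 6]⟩,
  ⟨375, 395, 19, 21, [.N 7]⟩,
  ⟨375, 396, 18, 23, [.N 25]⟩,
  ⟨377, 396, 19, 21, [.N 8]⟩,
  ⟨377, 397, 19, 21, [.N 8]⟩,
  ⟨379, 397, 19, 21, [.N 9]⟩,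
  ⟨410, 414, 20, 21, [.N 5]⟩,
  ⟨412, 414, 20, 21, [.N 6]⟩,
  ⟨412, 415, 19, 22, [.N 25]⟩,
  ⟨414, 415, 20, 21, [.N 7]⟩,
  ⟨414, 416, 20, 21, [.N 7]⟩,
  ⟨416, 416, 20, 21, [.N 8]⟩,
  ⟨416, 417, 20, 21, [.N 8]⟩,
  ⟨418, 417, 20, 21, [.N 9]⟩,
  ⟨418, 418, 20, 21, [.N 9]⟩,
  ⟨420, 418, 20, 21, [.N 10]⟩]

/-- cases treated by germs -/
def exc_20_10 : List (ℕ × ℕ) := []

theorem tab_20_10 : tabM 20 exc_20_10 cert_20_10 80 372 393 = true := by decide +kernel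

/-- certificates for `m = 20`, `452 ≤ r < 529` -/
def cert_20_11 : List Cert := [
  ⟨457, 437, 21, 21, [.N 8]⟩,
  ⟨459, 437, 21, 21, [.N 9]⟩,
  ⟨459, 438, 21, 21, [.N 9]⟩,
  ⟨461, 438, 21, 21, [.N 10]⟩,
  ⟨461, 439, 21, 21, [.N 10]⟩,
  ⟨463, 439, 21, 21, [.N 11]⟩,
  ⟨506, 460, 22, 21, [.N 11]⟩,
  ⟨508, 460, 22, 21, [.N 12]⟩]

/-- cases treated by germs -/
def exc_20_11 : List (ℕ × ℕ) := []

theorem tab_20_11 : tabM 20 exc_20_11 cert_20_11 77 452 434 = true := by decide +kernel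

end Pool.Agent.Helper22.E6L
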