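import Pool.Agent.Helper22.E6L.T00
import Pool.Agent.Helper22.E6L.T01
import Pool.Agent.Helper22.E6L.T02
import Pool.Agent.Helper22.E6L.T03
import Pool.Agent.Helper22.E6L.T04
import Pool.Agent.Helper22.E6L.T05
import Pool.Agent.Helper22.E6L.Exc
import Pool.Agent.Helper42.OpenDegC

set_option autoImplicit false

/-! # All multiplicities `m ≤ 20` in every characteristic (helper22), MP_e6aa12_ag

The cases `(m + 3) ^ 2 ≤ r` are `Pool.Agent.Helper42.OpenDeg.open_zero_large`. -/

namespace Pool.Agent.Helper22.E6L

open Pool.Agent.Helper22.E6 Pool.Agent.Helper41.Fat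

variable {K : Type*} [Field K]

theorem small_1 [Infinite K] (r : ℕ) (hr : 10 ≤ r) (h : r < 36) (d : ℕ) : Case K r 1 d := by
  exact case_of_tabM 1 exc_1_0 _ (by intro p hp; exact absurd hp List.not_mem_nil) 26 10 3 tab_1_0 r (by omega) (by omega) d

theorem small_2 [Infinite K] (r : ℕ) (hr : 10 ≤ r) (h : r < 57) (d : ℕ) : Case K r 2 d := by
  exact case_of_tabM 2 exc_2_0 _ (by intro p hp; exact absurd hp List.not_mem_nil) 47 10 6 tab_2_0 r (by omega) (by omega) d

theorem small_3 [Infinite K] (r : ℕ) (hr : 10 ≤ r) (h : r < 36) (d : ℕ) : Case K r 3 d := by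
  exact case_of_tabM 3 exc_3_0 _ (by intro p hp; exact absurd hp List.not_mem_nil) 26 10 9 tab_3_0 r (by omega) (by omega) d

theorem small_4 [Infinite K] (r : ℕ) (hr : 10 ≤ r) (h : r < 49) (d : ℕ) : Case K r 4 d := by
  exact case_of_tabM 4 exc_4_0 _ (by intro p hp; exact absurd hp List.not_mem_nil) 39 10 12 tab_4_0 r (by omega) (by omega) d

theorem small_5 [Infinite K] (r : ℕ) (hr : 10 ≤ r) (h : r < 64) (d : ℕ) : Case K r 5 d := by
  exact case_of_tabM 5 exc_5_0 _ (by intro p hp; exact absurd hp List.not_mem_nil) 54 10 15 tab_5_0 r (by omega) (by omega) d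

theorem small_6 [Infinite K] (r : ℕ) (hr : 10 ≤ r) (h : r < 81) (d : ℕ) : Case K r 6 d := by
  by_cases c0 : r < 41
  · exact case_of_tabM 6 exc_6_0 _ (by
      intro p hp
      simp only [exc_6_0, List.mem_cons, List.not_mem_nil, or_false] at hp
      rcases hp with rfl | rfl
      · exact case_10_6_19
      · exact case_12_6_21) 31 10 19 tab_6_0 r (by omega) (by omega) d
  exact case_of_tabM 6 exc_6_1 _ (by intro p hp; exact absurd hp List.not_mem_nil) 40 41 40 tab_6_1 r (by omega) (by omega) d

theorem small_7 [Infinite K] (r : ℕ) (hr : 10 ≤ r) (h : r < 100) (d : ℕ) : Case K r 7 d := by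
  by_cases c0 : r < 37
  · exact case_of_tabM 7 exc_7_0 _ (by intro p hp; exact absurd hp List.not_mem_nil) 27 10 22 tab_7_0 r (by omega) (by omega) d
  exact case_of_tabM 7 exc_7_1 _ (by intro p hp; exact absurd hp List.not_mem_nil) 63 37 44 tab_7_1 r (by omega) (by omega) d

theorem small_8 [Infinite K] (r : ℕ) (hr : 10 ≤ r) (h : r < 121) (d : ℕ) : Case K r 8 d := by
  by_cases c0 : r < 35
  · exact case_of_tabM 8 exc_8_0 _ (by intro p hp; exact absurd hp List.not_mem_nil) 25 10 25 tab_8_0 r (by omega) (by omega) d
  by_cases c1 : r < 88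
  · exact case_of_tabM 8 exc_8_1 _ (by intro p hp; exact absurd hp List.not_mem_nil) 53 35 48 tab_8_1 r (by omega) (by omega) d
  exact case_of_tabM 8 exc_8_2 _ (by intro p hp; exact absurd hp List.not_mem_nil) 33 88 78 tab_8_2 r (by omega) (by omega) d

theorem small_9 [Infinite K] (r : ℕ) (hr : 10 ≤ r) (h : r < 144) (d : ℕ) : Case K r 9 d := by
  by_cases c0 : r < 37
  · exact case_of_tabM 9 exc_9_0 _ (by
      intro p hp
      simp only [exc_9_0, List.mem_cons, List.not_mem_nil, or_false] at hp
      rcases hp with rfl | rfl | rfl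
      · exact case_14_9_34
      · exact case_21_9_42
      · exact case_23_9_44) 27 10 28 tab_9_0 r (by omega) (by omega) d
  by_cases c1 : r < 84
  · exact case_of_tabM 9 exc_9_1 _ (by intro p hp; exact absurd hp List.not_mem_nil) 47 37 56 tab_9_1 r (by omega) (by omega) d
  exact case_of_tabM 9 exc_9_2 _ (by intro p hp; exact absurd hp List.not_mem_nil) 60 84 85 tab_9_2 r (by omega) (by omega) d

theorem small_10 [Infinite K] (r : ℕ) (hr : 10 ≤ r) (h : r < 169) (d : ℕ) : Case K r 10 d := by
  by_cases c0 : r < 29
  · exact case_of_tabM 10 exc_10_0 _ (by intro p hp; exact absurd hp List.not_mem_nil) 19 10 31 tab_10_0 r (by omega) (by omega) d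
  by_cases c1 : r < 61
  · exact case_of_tabM 10 exc_10_1 _ (by intro p hp; exact absurd hp List.not_mem_nil) 32 29 54 tab_10_1 r (by omega) (by omega) d
  by_cases c2 : r < 109
  · exact case_of_tabM 10 exc_10_2 _ (by intro p hp; exact absurd hp List.not_mem_nil) 48 61 80 tab_10_2 r (by omega) (by omega) d
  exact case_of_tabM 10 exc_10_3 _ (by intro p hp; exact absurd hp List.not_mem_nil) 60 109 108 tab_10_3 r (by omega) (by omega) d

theorem small_11 [Infinite K] (r : ℕ) (hr : 10 ≤ r) (h : r < 196) (d : ℕ) : Case K r 11 d := by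
  by_cases c0 : r < 29
  · exact case_of_tabM 11 exc_11_0 _ (by
      intro p hp
      simp only [exc_11_0, List.mem_cons, List.not_mem_nil, or_false] at hp
      subst hp; exact case_15_11_43) 19 10 34 tab_11_0 r (by omega) (by omega) d
  by_cases c1 : r < 61
  · exact case_of_tabM 11 exc_11_1 _ (by intro p hp; exact absurd hp List.not_mem_nil) 32 29 60 tab_11_1 r (by omega) (by omega) d
  by_cases c2 : r < 103
  · exact case_of_tabM 11 exc_11_2 _ (by intro p hp; exact absurd hp List.not_mem_nil) 42 61 88 tab_11_2 r (by omega) (by omega) d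
  by_cases c3 : r < 183
  · exact case_of_tabM 11 exc_11_3 _ (by intro p hp; exact absurd hp List.not_mem_nil) 80 103 115 tab_11_3 r (by omega) (by omega) d
  exact case_of_tabM 11 exc_11_4 _ (by intro p hp; exact absurd hp List.not_mem_nil) 13 183 153 tab_11_4 r (by omega) (by omega) d

theorem small_12 [Infinite K] (r : ℕ) (hr : 10 ≤ r) (h : r < 225) (d : ℕ) : Case K r 12 d := by
  by_cases c0 : r < 31
  · exact case_of_tabM 12 exc_12_0 _ (by
      intro p hp
      simp only [exc_12_0, List.mem_cons, List.not_mem_nil, or_false] at hp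
      rcases hp with rfl | rfl
      · exact case_10_12_38
      · exact case_14_12_45) 21 10 38 tab_12_0 r (by omega) (by omega) d
  by_cases c1 : r < 59
  · exact case_of_tabM 12 exc_12_1 _ (by intro p hp; exact absurd hp List.not_mem_nil) 28 31 68 tab_12_1 r (by omega) (by omega) d
  by_cases c2 : r < 99
  · exact case_of_tabM 12 exc_12_2 _ (by intro p hp; exact absurd hp List.not_mem_nil) 40 59 94 tab_12_2 r (by omega) (by omega) d
  by_cases c3 : r < 155
  · exact case_of_tabM 12 exc_12_3 _ (by intro p hp; exact absurd hp List.not_mem_nil) 56 99 122 tab_12_3 r (by omega) (by omega) d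
  exact case_of_tabM 12 exc_12_4 _ (by intro p hp; exact absurd hp List.not_mem_nil) 70 155 154 tab_12_4 r (by omega) (by omega) d

theorem small_13 [Infinite K] (r : ℕ) (hr : 10 ≤ r) (h : r < 256) (d : ℕ) : Case K r 13 d := by
  by_cases c0 : r < 31
  · exact case_of_tabM 13 exc_13_0 _ (by
      intro p hp
      simp only [exc_13_0, List.mem_cons, List.not_mem_nil, or_false] at hp
      rcases hp with rfl | rfl
      · exact case_12_13_45
      · exact case_14_13_49) 21 10 41 tab_13_0 r (by omega) (by omega) d
  by_cases c1 : r < 57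
  · exact case_of_tabM 13 exc_13_1 _ (by intro p hp; exact absurd hp List.not_mem_nil) 26 31 73 tab_13_1 r (by omega) (by omega) d
  by_cases c2 : r < 93
  · exact case_of_tabM 13 exc_13_2 _ (by intro p hp; exact absurd hp List.not_mem_nil) 36 57 100 tab_13_2 r (by omega) (by omega) d
  by_cases c3 : r < 130
  · exact case_of_tabM 13 exc_13_3 _ (by intro p hp; exact absurd hp List.not_mem_nil) 37 93 128 tab_13_3 r (by omega) (by omega) d
  by_cases c4 : r < 210
  · exact case_of_tabM 13 exc_13_4 _ (by intro p hp; exact absurd hp List.not_mem_nil) 80 130 152 tab_13_4 r (by omega) (by omega) d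
  exact case_of_tabM 13 exc_13_5 _ (by intro p hp; exact absurd hp List.not_mem_nil) 46 210 194 tab_13_5 r (by omega) (by omega) d

theorem small_14 [Infinite K] (r : ℕ) (hr : 10 ≤ r) (h : r < 289) (d : ℕ) : Case K r 14 d := by
  by_cases c0 : r < 29
  · exact case_of_tabM 14 exc_14_0 _ (by
      intro p hp
      simp only [exc_14_0, List.mem_cons, List.not_mem_nil, or_false] at hp
      subst hp; exact case_23_14_68) 19 10 44 tab_14_0 r (by omega) (by omega) d
  by_cases c1 : r < 55
  · exact case_of_tabM 14 exc_14_1 _ (by intro p hp; exact absurd hp List.not_mem_nil) 26 29 76 tab_14_1 r (by omega) (by omega) d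
  by_cases c2 : r < 86
  · exact case_of_tabM 14 exc_14_2 _ (by intro p hp; exact absurd hp List.not_mem_nil) 31 55 105 tab_14_2 r (by omega) (by omega) d
  by_cases c3 : r < 126
  · exact case_of_tabM 14 exc_14_3 _ (by intro p hp; exact absurd hp List.not_mem_nil) 40 86 132 tab_14_3 r (by omega) (by omega) d
  by_cases c4 : r < 203
  · exact case_of_tabM 14 exc_14_4 _ (by
      intro p hp
      simp only [exc_14_4, List.mem_cons, List.not_mem_nil, or_false] at hp
      subst hp; exact case_171_14_188) 77 126 161 tab_14_4 r (by omega) (by omega) d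
  by_cases c5 : r < 283
  · exact case_of_tabM 14 exc_14_5 _ (by intro p hp; exact absurd hp List.not_mem_nil) 80 203 204 tab_14_5 r (by omega) (by omega) d
  exact case_of_tabM 14 exc_14_6 _ (by intro p hp; exact absurd hp List.not_mem_nil) 6 283 242 tab_14_6 r (by omega) (by omega) d

theorem small_15 [Infinite K] (r : ℕ) (hr : 10 ≤ r) (h : r < 324) (d : ℕ) : Case K r 15 d := by
  by_cases c0 : r < 29
  · exact case_of_tabM 15 exc_15_0 _ (by
      intro p hp
      simp only [exc_15_0, List.mem_cons, List.not_mem_nil, or_false] at hp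
      subst hp; exact case_19_15_66) 19 10 47 tab_15_0 r (by omega) (by omega) d
  by_cases c1 : r < 51
  · exact case_of_tabM 15 exc_15_1 _ (by intro p hp; exact absurd hp List.not_mem_nil) 22 29 81 tab_15_1 r (by omega) (by omega) d
  by_cases c2 : r < 78
  · exact case_of_tabM 15 exc_15_2 _ (by intro p hp; exact absurd hp List.not_mem_nil) 27 51 109 tab_15_2 r (by omega) (by omega) d
  by_cases c3 : r < 116
  · exact case_of_tabM 15 exc_15_3 _ (by intro p hp; exact absurd hp List.not_mem_nil) 38 78 135 tab_15_3 r (by omega) (by omega) d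
  by_cases c4 : r < 153
  · exact case_of_tabM 15 exc_15_4 _ (by intro p hp; exact absurd hp List.not_mem_nil) 37 116 165 tab_15_4 r (by omega) (by omega) d
  by_cases c5 : r < 209
  · exact case_of_tabM 15 exc_15_5 _ (by intro p hp; exact absurd hp List.not_mem_nil) 56 153 190 tab_15_5 r (by omega) (by omega) d
  by_cases c6 : r < 289
  · exact case_of_tabM 15 exc_15_6 _ (by intro p hp; exact absurd hp List.not_mem_nil) 80 209 222 tab_15_6 r (by omega) (by omega) d
  exact case_of_tabM 15 exc_15_7 _ (by intro p hp; exact absurd hp List.not_mem_nil) 35 289 261 tab_15_7 r (by omega) (by omega) d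

theorem small_16 [Infinite K] (r : ℕ) (hr : 10 ≤ r) (h : r < 361) (d : ℕ) : Case K r 16 d := by
  by_cases c0 : r < 27
  · exact case_of_tabM 16 exc_16_0 _ (by
      intro p hp
      simp only [exc_16_0, List.mem_cons, List.not_mem_nil, or_false] at hp
      subst hp; exact case_13_16_58) 17 10 50 tab_16_0 r (by omega) (by omega) d
  by_cases c1 : r < 50
  · exact case_of_tabM 16 exc_16_1 _ (by intro p hp; exact absurd hp List.not_mem_nil) 23 27 84 tab_16_1 r (by omega) (by omega) d
  by_cases c2 : r < 76
  · exact case_of_tabM 16 exc_16_2 _ (by intro p hp; exact absurd hp List.not_mem_nil) 26 50 115 tab_16_2 r (by omega) (by omega) d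
  by_cases c3 : r < 107
  · exact case_of_tabM 16 exc_16_3 _ (by intro p hp; exact absurd hp List.not_mem_nil) 31 76 142 tab_16_3 r (by omega) (by omega) d
  by_cases c4 : r < 145
  · exact case_of_tabM 16 exc_16_4 _ (by intro p hp; exact absurd hp List.not_mem_nil) 38 107 169 tab_16_4 r (by omega) (by omega) d
  by_cases c5 : r < 197
  · exact case_of_tabM 16 exc_16_5 _ (by intro p hp; exact absurd hp List.not_mem_nil) 52 145 197 tab_16_5 r (by omega) (by omega) d
  by_cases c6 : r < 269
  · exact case_of_tabM 16 exc_16_6 _ (by intro p hp; exact absurd hp List.not_mem_nil) 72 197 229 tab_16_6 r (by omega) (by omega) d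
  by_cases c7 : r < 349
  · exact case_of_tabM 16 exc_16_7 _ (by intro p hp; exact absurd hp List.not_mem_nil) 80 269 268 tab_16_7 r (by omega) (by omega) d
  exact case_of_tabM 16 exc_16_8 _ (by intro p hp; exact absurd hp List.not_mem_nil) 12 349 306 tab_16_8 r (by omega) (by omega) d

theorem small_17 [Infinite K] (r : ℕ) (hr : 10 ≤ r) (h : r < 400) (d : ℕ) : Case K r 17 d := by
  by_cases c0 : r < 29
  · exact case_of_tabM 17 exc_17_0 _ (by
      intro p hp
      simp only [exc_17_0, List.mem_cons, List.not_mem_nil, or_false] at hp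
      rcases hp with rfl | rfl | rfl
      · exact case_12_17_59
      · exact case_14_17_64
      · exact case_28_17_91) 19 10 53 tab_17_0 r (by omega) (by omega) d
  by_cases c1 : r < 51
  · exact case_of_tabM 17 exc_17_1 _ (by
      intro p hp
      simp only [exc_17_1, List.mem_cons, List.not_mem_nil, or_false] at hp
      subst hp; exact case_35_17_102) 22 29 92 tab_17_1 r (by omega) (by omega) d
  by_cases c2 : r < 76
  · exact case_of_tabM 17 exc_17_2 _ (by intro p hp; exact absurd hp List.not_mem_nil) 25 51 123 tab_17_2 r (by omega) (by omega) d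
  by_cases c3 : r < 108
  · exact case_of_tabM 17 exc_17_3 _ (by
      intro p hp
      simp only [exc_17_3, List.mem_cons, List.not_mem_nil, or_false] at hp
      rcases hp with rfl | rfl
      · exact case_77_17_152
      · exact case_79_17_154) 32 76 151 tab_17_3 r (by omega) (by omega) d
  by_cases c4 : r < 143
  · exact case_of_tabM 17 exc_17_4 _ (by intro p hp; exact absurd hp List.not_mem_nil) 35 108 180 tab_17_4 r (by omega) (by omega) d
  by_cases c5 : r < 191
  · exact case_of_tabM 17 exc_17_5 _ (by intro p hp; exact absurd hp List.not_mem_nil) 48 143 207 tab_17_5 r (by omega) (by omega) d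
  by_cases c6 : r < 236
  · exact case_of_tabM 17 exc_17_6 _ (by intro p hp; exact absurd hp List.not_mem_nil) 45 191 240 tab_17_6 r (by omega) (by omega) d
  by_cases c7 : r < 316
  · exact case_of_tabM 17 exc_17_7 _ (by intro p hp; exact absurd hp List.not_mem_nil) 80 236 267 tab_17_7 r (by omega) (by omega) d
  by_cases c8 : r < 396
  · exact case_of_tabM 17 exc_17_8 _ (by intro p hp; exact absurd hp List.not_mem_nil) 80 316 309 tab_17_8 r (by omega) (by omega) d
  exact case_of_tabM 17 exc_17_9 _ (by intro p hp; exact absurd hp List.not_mem_nil) 4 396 346 tab_17_9 r (by omega) (by omega) d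

theorem small_18 [Infinite K] (r : ℕ) (hr : 10 ≤ r) (h : r < 441) (d : ℕ) : Case K r 18 d := by
  by_cases c0 : r < 29
  · exact case_of_tabM 18 exc_18_0 _ (by
      intro p hp
      simp only [exc_18_0, List.mem_cons, List.not_mem_nil, or_false] at hp
      rcases hp with rfl | rfl
      · exact case_10_18_57
      · exact case_19_18_79) 19 10 56 tab_18_0 r (by omega) (by omega) d
  by_cases c1 : r < 50
  · exact case_of_tabM 18 exc_18_1 _ (by
      intro p hp
      simp only [exc_18_1, List.mem_cons, List.not_mem_nil, or_false] at hp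
      subst hp; exact case_37_18_111) 21 29 98 tab_18_1 r (by omega) (by omega) d
  by_cases c2 : r < 74
  · exact case_of_tabM 18 exc_18_2 _ (by intro p hp; exact absurd hp List.not_mem_nil) 24 50 129 tab_18_2 r (by omega) (by omega) d
  by_cases c3 : r < 103
  · exact case_of_tabM 18 exc_18_3 _ (by intro p hp; exact absurd hp List.not_mem_nil) 29 74 157 tab_18_3 r (by omega) (by omega) d
  by_cases c4 : r < 135
  · exact case_of_tabM 18 exc_18_4 _ (by intro p hp; exact absurd hp List.not_mem_nil) 32 103 186 tab_18_4 r (by omega) (by omega) d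
  by_cases c5 : r < 170
  · exact case_of_tabM 18 exc_18_5 _ (by intro p hp; exact absurd hp List.not_mem_nil) 35 135 213 tab_18_5 r (by omega) (by omega) d
  by_cases c6 : r < 220
  · exact case_of_tabM 18 exc_18_6 _ (by intro p hp; exact absurd hp List.not_mem_nil) 50 170 239 tab_18_6 r (by omega) (by omega) d
  by_cases c7 : r < 267
  · exact case_of_tabM 18 exc_18_7 _ (by intro p hp; exact absurd hp List.not_mem_nil) 47 220 272 tab_18_7 r (by omega) (by omega) d
  by_cases c8 : r < 347
  · exact case_of_tabM 18 exc_18_8 _ (by intro p hp; exact absurd hp List.not_mem_nil) 80 267 300 tab_18_8 r (by omega) (by omega) d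
  by_cases c9 : r < 427
  · exact case_of_tabM 18 exc_18_9 _ (by intro p hp; exact absurd hp List.not_mem_nil) 80 347 342 tab_18_9 r (by omega) (by omega) d
  exact case_of_tabM 18 exc_18_10 _ (by intro p hp; exact absurd hp List.not_mem_nil) 14 427 380 tab_18_10 r (by omega) (by omega) d

theorem small_19 [Infinite K] (r : ℕ) (hr : 10 ≤ r) (h : r < 484) (d : ℕ) : Case K r 19 d := by
  by_cases c0 : r < 29
  · exact case_of_tabM 19 exc_19_0 _ (by
      intro p hp
      simp only [exc_19_0, List.mem_cons, List.not_mem_nil, or_false] at hp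
      rcases hp with rfl | rfl | rfl
      · exact case_12_19_66
      · exact case_15_19_74
      · exact case_23_19_92) 19 10 60 tab_19_0 r (by omega) (by omega) d
  by_cases c1 : r < 50
  · exact case_of_tabM 19 exc_19_1 _ (by intro p hp; exact absurd hp List.not_mem_nil) 21 29 103 tab_19_1 r (by omega) (by omega) d
  by_cases c2 : r < 74
  · exact case_of_tabM 19 exc_19_2 _ (by intro p hp; exact absurd hp List.not_mem_nil) 24 50 136 tab_19_2 r (by omega) (by omega) d
  by_cases c3 : r < 101
  · exact case_of_tabM 19 exc_19_3 _ (by intro p hp; exact absurd hp List.not_mem_nil) 27 74 166 tab_19_3 r (by omega) (by omega) d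
  by_cases c4 : r < 131
  · exact case_of_tabM 19 exc_19_4 _ (by intro p hp; exact absurd hp List.not_mem_nil) 30 101 194 tab_19_4 r (by omega) (by omega) d
  by_cases c5 : r < 164
  · exact case_of_tabM 19 exc_19_5 _ (by intro p hp; exact absurd hp List.not_mem_nil) 33 131 221 tab_19_5 r (by omega) (by omega) d
  by_cases c6 : r < 201
  · exact case_of_tabM 19 exc_19_6 _ (by intro p hp; exact absurd hp List.not_mem_nil) 37 164 248 tab_19_6 r (by omega) (by omega) d
  by_cases c7 : r < 259
  · exact case_of_tabM 19 exc_19_7 _ (by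
      intro p hp
      simp only [exc_19_7, List.mem_cons, List.not_mem_nil, or_false] at hp
      subst hp; exact case_233_19_296) 58 201 274 tab_19_7 r (by omega) (by omega) d
  by_cases c8 : r < 331
  · exact case_of_tabM 19 exc_19_8 _ (by intro p hp; exact absurd hp List.not_mem_nil) 72 259 312 tab_19_8 r (by omega) (by omega) d
  by_cases c9 : r < 411
  · exact case_of_tabM 19 exc_19_9 _ (by intro p hp; exact absurd hp List.not_mem_nil) 80 331 353 tab_19_9 r (by omega) (by omega) d
  exact case_of_tabM 19 exc_19_10 _ (by intro p hp; exact absurd hp List.not_mem_nil) 73 411 393 tab_19_10 r (by omega) (by omega) d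

theorem small_20 [Infinite K] (r : ℕ) (hr : 10 ≤ r) (h : r < 529) (d : ℕ) : Case K r 20 d := by
  by_cases c0 : r < 29
  · exact case_of_tabM 20 exc_20_0 _ (by
      intro p hp
      simp only [exc_20_0, List.mem_cons, List.not_mem_nil, or_false] at hp
      rcases hp with rfl | rfl | rfl
      · exact case_14_20_75
      · exact case_17_20_83
      · exact case_26_20_103) 19 10 63 tab_20_0 r (by omega) (by omega) d
  by_cases c1 : r < 50
  · exact case_of_tabM 20 exc_20_1 _ (by
      intro p hp
      simp only [exc_20_1, List.mem_cons, List.not_mem_nil, or_false] at hp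
      rcases hp with rfl | rfl
      · exact case_34_20_118
      · exact case_47_20_139) 21 29 108 tab_20_1 r (by omega) (by omega) d
  by_cases c2 : r < 72
  · exact case_of_tabM 20 exc_20_2 _ (by intro p hp; exact absurd hp List.not_mem_nil) 22 50 143 tab_20_2 r (by omega) (by omega) d
  by_cases c3 : r < 99
  · exact case_of_tabM 20 exc_20_3 _ (by intro p hp; exact absurd hp List.not_mem_nil) 27 72 172 tab_20_3 r (by omega) (by omega) d
  by_cases c4 : r < 128
  · exact case_of_tabM 20 exc_20_4 _ (by intro p hp; exact absurd hp List.not_mem_nil) 29 99 202 tab_20_4 r (by omega) (by omega) d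
  by_cases c5 : r < 160
  · exact case_of_tabM 20 exc_20_5 _ (by intro p hp; exact absurd hp List.not_mem_nil) 32 128 230 tab_20_5 r (by omega) (by omega) d
  by_cases c6 : r < 197
  · exact case_of_tabM 20 exc_20_6 _ (by
      intro p hp
      simp only [exc_20_6, List.mem_cons, List.not_mem_nil, or_false] at hp
      subst hp; exact case_173_20_268) 37 160 257 tab_20_6 r (by omega) (by omega) d
  by_cases c7 : r < 236
  · exact case_of_tabM 20 exc_20_7 _ (by
      intro p hp
      simp only [exc_20_7, List.mem_cons, List.not_mem_nil, or_false] at hp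
      subst hp; exact case_215_20_299) 39 197 286 tab_20_7 r (by omega) (by omega) d
  by_cases c8 : r < 296
  · exact case_of_tabM 20 exc_20_8 _ (by intro p hp; exact absurd hp List.not_mem_nil) 60 236 313 tab_20_8 r (by omega) (by omega) d
  by_cases c9 : r < 372
  · exact case_of_tabM 20 exc_20_9 _ (by intro p hp; exact absurd hp List.not_mem_nil) 76 296 351 tab_20_9 r (by omega) (by omega) d
  by_cases c10 : r < 452
  · exact case_of_tabM 20 exc_20_10 _ (by intro p hp; exact absurd hp List.not_mem_nil) 80 372 393 tab_20_10 r (by omega) (by omega) d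
  exact case_of_tabM 20 exc_20_11 _ (by intro p hp; exact absurd hp List.not_mem_nil) 77 452 434 tab_20_11 r (by omega) (by omega) d

/-- `m ≤ 20` and `10 ≤ r`, with `r < (m + 3) ^ 2` if `3 ≤ m`. -/
theorem small20_aux [Infinite K] (r m : ℕ) (hr : 10 ≤ r) (hm : m ≤ 20) (hlt : 3 ≤ m → r < (m + 3) ^ 2)
    (d : ℕ) : Case K r m d := by
  interval_cases m
  · unfold Case
    have h := Good.final (K := K) r 0 (fun b => d + 1 - b)
    exact h.le (by simp)
  · by_cases h : r < 36
    · exact small_1 r hr h d
    · exact case_large r 1 (by norm_num) (by norm_num; omega) d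
  · by_cases h : r < 57
    · exact small_2 r hr h d
    · exact case_large r 2 (by norm_num) (by norm_num; omega) d
  · exact small_3 r hr (by simpa using hlt (by norm_num)) d
  · exact small_4 r hr (by simpa using hlt (by norm_num)) d
  · exact small_5 r hr (by simpa using hlt (by norm_num)) d
  · exact small_6 r hr (by simpa using hlt (by norm_num)) d
  · exact small_7 r hr (by simpa using hlt (by norm_num)) d
  · exact small_8 r hr (by simpa using hlt (by norm_num)) d
  · exact small_9 r hr (by simpa using hlt (by norm_num)) d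
  · exact small_10 r hr (by simpa using hlt (by norm_num)) d
  · exact small_11 r hr (by simpa using hlt (by norm_num)) d
  · exact small_12 r hr (by simpa using hlt (by norm_num)) d
  · exact small_13 r hr (by simpa using hlt (by norm_num)) d
  · exact small_14 r hr (by simpa using hlt (by norm_num)) d
  · exact small_15 r hr (by simpa using hlt (by norm_num)) d
  · exact small_16 r hr (by simpa using hlt (by norm_num)) d
  · exact small_17 r hr (by simpa using hlt (by norm_num)) d
  · exact small_18 r hr (by simpa using hlt (by norm_num)) d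
  · exact small_19 r hr (by simpa using hlt (by norm_num)) d
  · exact small_20 r hr (by simpa using hlt (by norm_num)) d

/-- **Small multiplicities in every characteristic**: `m ≤ 20` and `10 ≤ r`, all degrees. -/
theorem small20 [Infinite K] (r m d : ℕ) (hr : 10 ≤ r) (hm : m ≤ 20) :
    Good K r m (fun b => d + 1 - b) (min ((d + 2).choose 2) (r * (m + 1).choose 2)) := by
  by_cases h : 3 ≤ m ∧ (m + 3) ^ 2 ≤ r
  · exact (Pool.Agent.Helper42.OpenDeg.open_zero_large r m hr h.1 h.2).ex d
  · exact small20_aux r m hr hm (fun h3 => not_le.1 fun h4 => h ⟨h3, h4⟩) d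

end Pool.Agent.Helper22.E6L
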