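import Pool.Agent.Helper42.OpenDegC

set_option autoImplicit false

/-! # MP_e6aa12: the number of degrees left open, with the cases `m ≤ 20` (after OpenDegC) -/

namespace Pool.Agent.Helper22.E6L

open Pool.Agent.Helper41.Fat Pool.Agent.Helper6.SQ Pool.Agent.Helper42.WindowF
  Pool.Agent.Helper7.Shell Pool.Agent.Helper42.OpenDeg

variable {K : Type*} [Field K]

/-- All bounds together, the cases `m ≤ 20` given. -/
theorem exists_bounds20 [Infinite K] (r m : ℕ) (hr : 10 ≤ r) (hm : 1 ≤ m)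
    (hsmall : m ≤ 20 → ∀ d, Ex K r m d) : ∃ n : ℕ, Open K r m n ∧
    ((m ≤ 20 ∨ (m + 3) ^ 2 ≤ r) → n = 0) ∧
    ((2 * √(m : ℝ) + 3 / 2 ≤ √(r : ℝ) ∨
        (∃ p, p ^ 2 ≤ r ∧ p % 2 = r % 2 ∧ p * (p + 1) ≤ (r - p ^ 2) * m ∧
          (r - p ^ 2) * m ≤ p ^ 2 * (p + 1))) → n ≤ 1) ∧
    (m ≤ 2 * r → n ≤ 3) ∧
    (n : ℝ) < 3 + (2 * m + r) / (2 * (r - 2) * √(r : ℝ)) := by
  classical
  have hr' : (10 : ℝ) ≤ r := by exact_mod_cast hr
  have hm' : (1 : ℝ) ≤ m := by exact_mod_cast hm
  have hs0 : 0 < √(r : ℝ) := Real.sqrt_pos.2 (by linarith)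
  have hs2 : √(r : ℝ) * √(r : ℝ) = r := Real.mul_self_sqrt (by linarith)
  have hpos : 0 < 2 * ((r : ℝ) - 2) * √(r : ℝ) := by
    have : 0 < (r : ℝ) - 2 := by linarith
    positivity
  have hB : 0 < (2 * (m : ℝ) + r) / (2 * (r - 2) * √(r : ℝ)) := by positivity
  -- small `m`, and few rows
  have hone : 2 * √(m : ℝ) + 3 / 2 ≤ √(r : ℝ) → Open K r m 1 := by
    intro h
    rcases Nat.lt_or_ge 20 m with h2 | h2
    · exact open_one_large r m hr (by omega) h
    · exact (open_zero_of (hsmall h2)).mono (by omega)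
  have hthree : m ≤ 2 * r → Open K r m 3 := by
    intro h
    rcases Nat.lt_or_ge 20 m with h2 | h2
    swap
    · exact (open_zero_of (hsmall h2)).mono (by omega)
    rcases le_or_gt (2 * √(m : ℝ) + 3 / 2) (√(r : ℝ)) with h3 | h3
    · exact (hone h3).mono (by omega)
    · have hm14 : (14 : ℝ) ≤ m := by exact_mod_cast (show 14 ≤ m by omega)
      refine open_window r m 3 hr hm ?_ (arith_window r m hr (by omega) h h3)
      have h4 : √(m : ℝ) * √(m : ℝ) = m := Real.mul_self_sqrt (by linarith)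
      have h5 : (3 : ℝ) ≤ √(m : ℝ) := Real.le_sqrt_of_sq_le (by linarith)
      have h6 : √(r : ℝ) ≤ 2 * m + 1 := by nlinarith
      have h7 : (r : ℝ) ≤ (2 * m + 1) ^ 2 := by
        rw [← hs2, ← sq]
        exact pow_le_pow_left₀ hs0.le h6 2
      exact_mod_cast h7
  have hall : ∃ N : ℕ, Open K r m N ∧ (N : ℝ) < 3 + (2 * m + r) / (2 * (r - 2) * √(r : ℝ)) := by
    rcases Nat.lt_or_ge (2 * r) m with h | h
    swap
    · exact ⟨3, hthree h, by push_cast; linarith⟩
    obtain ⟨w, hw⟩ : ∃ w : ℝ, w = 2 + √(r : ℝ) / m + (2 * m + 1) / (2 * (r - 2) * √(r : ℝ)) :=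
      ⟨_, rfl⟩
    have hw0 : 0 ≤ w := by
      rw [hw]
      have : 0 ≤ √(r : ℝ) / m := by positivity
      have : 0 ≤ (2 * (m : ℝ) + 1) / (2 * (r - 2) * √(r : ℝ)) := by positivity
      linarith
    refine ⟨⌈w⌉₊, open_window r m _ hr hm (by nlinarith) ?_, ?_⟩
    · rw [← hw]; exact Nat.le_ceil w
    · refine lt_of_lt_of_le (Nat.ceil_lt_add_one hw0) ?_
      have h1 : √(r : ℝ) / m ≤ (r - 1) / (2 * (r - 2) * √(r : ℝ)) := by
        rw [div_le_div_iff₀ (by linarith) hpos]
        have h2 : 2 * (r : ℝ) ≤ m := by exact_mod_cast h.le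
        have h3 : √(r : ℝ) * (2 * (r - 2) * √(r : ℝ)) = 2 * (r - 2) * r := by
          have : √(r : ℝ) * (2 * (r - 2) * √(r : ℝ)) = 2 * (r - 2) * (√(r : ℝ) * √(r : ℝ)) := by
            ring
          rw [this, hs2]
        rw [h3]
        nlinarith
      have e1 : (2 * (m : ℝ) + r) / (2 * (r - 2) * √(r : ℝ))
          = (2 * m + 1) / (2 * (r - 2) * √(r : ℝ)) + (r - 1) / (2 * (r - 2) * √(r : ℝ)) := by
        rw [← add_div]; ring_nf
      rw [e1, hw]
      linarith
  have hex : ∃ N, Open K r m N := ⟨_, hall.choose_spec.1⟩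
  refine ⟨Nat.find hex, Nat.find_spec hex, ?_, ?_, ?_, ?_⟩
  · intro h
    have h0 : Open K r m 0 := by
      rcases Nat.lt_or_ge 20 m with h16 | h16
      swap
      · exact open_zero_of (hsmall h16)
      rcases h with h | h
      · exact open_zero_of (hsmall h)
      · exact open_zero_large r m hr (by omega) h
    exact Nat.le_zero.1 (Nat.find_min' hex h0)
  · intro h
    refine Nat.find_min' hex ?_
    rcases h with h | ⟨p, h1, h2, h3, h4⟩
    · exact hone h
    · obtain ⟨f, hf, hf'⟩ : ∃ f, r = p ^ 2 + 2 * f ∧ r - p ^ 2 = 2 * f := by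
        refine ⟨(r - p ^ 2) / 2, ?_⟩
        have hpp : p ^ 2 % 2 = r % 2 := by
          rw [Nat.pow_mod, h2]
          rcases Nat.mod_two_eq_zero_or_one r with h | h <;> rw [h]
        omega
      rw [hf'] at h3 h4
      have hp0 : 0 < p := by
        rcases Nat.eq_zero_or_pos p with h0 | h0
        · subst h0
          have h5 : 2 * f * m = 0 := by omega
          have h6 : f = 0 := by
            rcases Nat.mul_eq_zero.1 h5 with h | h
            · omega
            · omega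
          subst h6
          omega
        · exact h0
      rw [hf]
      exact open_one_simple p f m hp0 hm (by linarith) (by linarith)
  · intro h
    exact Nat.find_min' hex (hthree h)
  · obtain ⟨N, h1, h2⟩ := hall
    refine lt_of_le_of_lt ?_ h2
    exact_mod_cast Nat.find_min' hex h1

end Pool.Agent.Helper22.E6L
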