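import Pool.Agent.Helper22.E6.Exact2

set_option autoImplicit false

/-! # Tables of certificates, second format (helper22), MP_e6aa12_ag -/

namespace Pool.Agent.Helper22.E6L

open Pool.Agent.Helper22.E6

variable {K : Type*} [Field K]

/-- an exact case of the unit moves (first or second kind), as a boolean; `a` is the largest
width which is tried -/
def exM (r m d : ℕ) : ℕ → ℕ → Bool
  | 0, _ => false
  | k + 1, a => (Nat.ble (a * a) r && (Nat.beq ((r - a * a) % 2) 0 && (Nat.blt 0 a &&
      ((Nat.ble (a * (m + 1)) (d + 1) && Nat.blt d (a * (m + 2))) ||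
        (Nat.ble (a * (m + 2)) (d + 1) && (Nat.ble (d + 1) (a * (m + 3)) &&
          Nat.ble (2 * (m + 1)) (a * (a + 1)))))))) || exM r m d k (a - 1)

theorem case_of_exM [Infinite K] (r m d : ℕ) : ∀ k a, exM r m d k a = true → Case K r m d := by
  intro k
  induction k with
  | zero => intro a h; exact absurd h (by simp [exM])
  | succ k ih =>
    intro a h
    rw [exM, Bool.or_eq_true] at h
    rcases h with h | h
    · rw [Bool.and_eq_true, Bool.and_eq_true, Bool.and_eq_true, Bool.or_eq_true] at h
      obtain ⟨h1, h2, h0, h3⟩ := h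
      have h1' := Nat.le_of_ble_eq_true h1
      have h2' := Nat.eq_of_beq_eq_true h2
      have h0' : 0 < a := Nat.le_of_ble_eq_true h0
      rcases h3 with h3 | h3
      · rw [Bool.and_eq_true] at h3
        exact case_of_strip r m d a h0' h1' h2'
          (Nat.le_of_ble_eq_true h3.1) (Nat.le_of_ble_eq_true h3.2)
      · rw [Bool.and_eq_true, Bool.and_eq_true] at h3
        refine case_exact2 r a ((r - a * a) / 2) m d ?_ h0'
          (Nat.le_of_ble_eq_true h3.1) (Nat.le_of_ble_eq_true h3.2.1)
          (Nat.le_of_ble_eq_true h3.2.2)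
        rw [pow_two]
        omega
    · exact ih _ h

/-- membership in the list of excepted cases -/
def memB (r d : ℕ) : List (ℕ × ℕ) → Bool
  | [] => false
  | p :: t => (Nat.beq p.1 r && Nat.beq p.2 d) || memB r d t

theorem mem_of_memB (r d : ℕ) : ∀ S, memB r d S = true → (r, d) ∈ S := by
  intro S
  induction S with
  | nil => intro h; exact absurd h (by simp [memB])
  | cons p t ih =>
    intro h
    rw [memB, Bool.or_eq_true, Bool.and_eq_true] at h
    rcases h with ⟨h1, h2⟩ | h
    · have e1 := Nat.eq_of_beq_eq_true h1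
      have e2 := Nat.eq_of_beq_eq_true h2
      rw [← e1, ← e2]
      exact List.mem_cons_self
    · exact List.mem_cons_of_mem _ (ih h)

/-- the check for one case -/
def oneM (m : ℕ) (S : List (ℕ × ℕ)) (L : List Cert) (r d : ℕ) : Bool :=
  exM r m d 6 ((d + 1) / (m + 1)) || (certB r m d L || memB r d S)

theorem case_of_oneM [Infinite K] (m : ℕ) (S : List (ℕ × ℕ)) (L : List Cert)
    (hS : ∀ p ∈ S, Case K p.1 m p.2) (r d : ℕ) (h : oneM m S L r d = true) : Case K r m d := by
  rw [oneM, Bool.or_eq_true, Bool.or_eq_true] at h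
  rcases h with h | h | h
  · exact case_of_exM r m d 6 _ h
  · exact case_of_certB r m d L h
  · exact hS _ (mem_of_memB r d S h)

/-- the check for `r₀ ≤ r < r₀ + n`; `d` is a lower bound of the critical degree -/
def tabM (m : ℕ) (S : List (ℕ × ℕ)) (L : List Cert) : ℕ → ℕ → ℕ → Bool
  | 0, _, _ => true
  | n + 1, r, d => Nat.rec (motive := fun _ => Bool) false (fun e _ =>
      Nat.ble ((e + 2) * (e + 3)) (r * (m * (m + 1))) &&
      (Nat.ble (r * (m * (m + 1))) ((e + 3) * (e + 4)) &&
        (oneM m S L r (e + 1) && (oneM m S L r (e + 2) && tabM m S L n (r + 1) (e + 1)))))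
      (adj (r * (m * (m + 1))) 100 d)

theorem case_of_tabM [Infinite K] (m : ℕ) (S : List (ℕ × ℕ)) (L : List Cert)
    (hS : ∀ p ∈ S, Case K p.1 m p.2) : ∀ n r₀ d₀,
    tabM m S L n r₀ d₀ = true → ∀ r, r₀ ≤ r → r < r₀ + n → ∀ d, Case K r m d := by
  intro n
  induction n with
  | zero => intro r₀ d₀ _ r h1 h2; omega
  | succ n ih =>
    intro r₀ d₀ h r h1 h2 d
    rw [tabM] at h
    generalize adj (r₀ * (m * (m + 1))) 100 d₀ = e at h
    cases e with
    | zero => exact absurd h (by simp)
    | succ e =>
      simp only [Bool.and_eq_true] at h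
      obtain ⟨h3, h4, h5, h6, h7⟩ := h
      by_cases hr : r = r₀
      · subst hr
        exact case_of_crit r m (e + 1) (Nat.le_of_ble_eq_true h3) (Nat.le_of_ble_eq_true h4)
          (case_of_oneM m S L hS r (e + 1) h5) (case_of_oneM m S L hS r (e + 2) h6) d
      · exact ih (r₀ + 1) _ h7 r (by omega) (by omega) d

end Pool.Agent.Helper22.E6L
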